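import Pool.Agent.Hhelper51.Cat.Box

set_option autoImplicit false

namespace Pool.Agent.Hhelper51.Cat

open Finset

namespace FM

variable {n : ℕ}

/-! ### Ranks -/

section rk

variable {α L : Type} [Fintype α] [LinearOrder L]

/-- rank of `a` under `f` -/
def rk (f : α → L) (a : α) : ℕ := (univ.filter (fun b => f b < f a)).card

lemma rk_lt_rk (f : α → L) (a b : α) : rk f a < rk f b ↔ f a < f b := by
  constructor
  · intro h
    by_contra h'
    push Not at h'
    have : rk f b ≤ rk f a := by
      apply card_le_card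
      intro x hx
      simp only [mem_filter, mem_univ, true_and] at hx ⊢
      exact lt_of_lt_of_le hx h'
    omega
  · intro h
    apply card_lt_card
    refine ⟨?_, ?_⟩
    · intro x hx
      simp only [mem_filter, mem_univ, true_and] at hx ⊢
      exact hx.trans h
    · intro hh
      have : a ∈ univ.filter (fun x => f x < f a) := hh (by simp [h])
      simp at this

lemma rk_lt_card (f : α → L) (a : α) : rk f a < Fintype.card α := by
  apply card_lt_card
  refine ⟨subset_univ _, ?_⟩
  intro hh
  have : a ∈ univ.filter (fun x => f x < f a) := hh (mem_univ a)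
  simp at this

lemma rk_injective (f : α → L) (hf : Function.Injective f) : Function.Injective (rk f) := by
  intro a b hab
  by_contra hne
  rcases lt_or_gt_of_ne (fun h => hne (hf h)) with h | h
  · have := (rk_lt_rk f a b).2 h
    omega
  · have := (rk_lt_rk f b a).2 h
    omega

/-- rank as an equivalence with `Fin`. -/
noncomputable def rkE (f : α → L) (hf : Function.Injective f) : α ≃ Fin (Fintype.card α) :=
  Equiv.ofBijective (fun a => (⟨rk f a, rk_lt_card f a⟩ : Fin (Fintype.card α))) (by
    rw [Fintype.bijective_iff_injective_and_card]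
    refine ⟨?_, by simp⟩
    intro a b hab
    exact rk_injective f hf (by simpa using hab))

lemma rkE_apply (f : α → L) (hf : Function.Injective f) (a : α) :
    ((rkE f hf a : Fin _) : ℕ) = rk f a := rfl

end rk

/-! ### Nontrivial parts -/

/-- nontrivial parts -/
def NT (P : Finpartition (univ : Finset (Fin n))) : Finset (Finset (Fin n)) :=
  P.parts.filter (fun A => 2 ≤ A.card)

/-- union of the nontrivial parts -/
def W (P : Finpartition (univ : Finset (Fin n))) : Finset (Fin n) := (NT P).biUnion id

lemma mem_NT {P : Finpartition (univ : Finset (Fin n))} {A : Finset (Fin n)} :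
    A ∈ NT P ↔ A ∈ P.parts ∧ 2 ≤ A.card := by simp [NT]

lemma mem_W {P : Finpartition (univ : Finset (Fin n))} {a : Fin n} :
    a ∈ W P ↔ ∃ A ∈ NT P, a ∈ A := by simp [W]

/-- first position of a block -/
def fp (σ : Equiv.Perm (Fin n)) (A : Finset (Fin n)) : WithTop (Fin n) := (A.image σ).min

lemma nonempty_of_NT {P : Finpartition (univ : Finset (Fin n))} {A : Finset (Fin n)}
    (hA : A ∈ NT P) : A.Nonempty := by
  rw [mem_NT] at hA
  exact card_pos.1 (by omega)

lemma fp_spec (σ : Equiv.Perm (Fin n)) {A : Finset (Fin n)} (hA : A.Nonempty) :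
    ∃ a ∈ A, fp σ A = (σ a : WithTop (Fin n)) := by
  obtain ⟨m, hm⟩ := min_of_nonempty (hA.image σ)
  have := mem_of_min hm
  rw [mem_image] at this
  obtain ⟨a, ha, rfl⟩ := this
  exact ⟨a, ha, hm⟩

lemma fp_le (σ : Equiv.Perm (Fin n)) {A : Finset (Fin n)} {a : Fin n} (ha : a ∈ A) :
    fp σ A ≤ (σ a : WithTop (Fin n)) := min_le (mem_image_of_mem σ ha)

lemma fp_inj (σ : Equiv.Perm (Fin n)) {P : Finpartition (univ : Finset (Fin n))}
    {A B : Finset (Fin n)} (hA : A ∈ NT P) (hB : B ∈ NT P) (h : fp σ A = fp σ B) : A = B := by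
  obtain ⟨a, ha, ha'⟩ := fp_spec σ (nonempty_of_NT hA)
  obtain ⟨b, hb, hb'⟩ := fp_spec σ (nonempty_of_NT hB)
  have h1 : (σ a : WithTop (Fin n)) = σ b := by rw [← ha', ← hb', h]
  have h2 : a = b := σ.injective (by exact_mod_cast h1)
  subst h2
  exact P.eq_of_mem_parts (mem_NT.1 hA).1 (mem_NT.1 hB).1 ha hb

lemma fp_lt_iff {σ : Equiv.Perm (Fin n)} {P : Finpartition (univ : Finset (Fin n))}
    (hσ : IntDisj σ P) {A B : Finset (Fin n)} (hA : A ∈ NT P) (hB : B ∈ NT P) (hne : A ≠ B)
    {a b : Fin n} (ha : a ∈ A) (hb : b ∈ B) :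
    fp σ A < fp σ B ↔ σ a < σ b := by
  have key : ∀ {A B : Finset (Fin n)}, A ∈ NT P → B ∈ NT P → Before σ A B → fp σ A < fp σ B := by
    intro A B hA hB h
    obtain ⟨a, ha, ha'⟩ := fp_spec σ (nonempty_of_NT hA)
    obtain ⟨b, hb, hb'⟩ := fp_spec σ (nonempty_of_NT hB)
    rw [ha', hb']
    exact_mod_cast h a ha b hb
  rcases hσ A (mem_NT.1 hA).1 B (mem_NT.1 hB).1 hne (mem_NT.1 hA).2 (mem_NT.1 hB).2 with h | h
  · have h1 := key hA hB h
    have h2 := h a ha b hb
    simp [h1, h2]
  · have h1 := key hB hA h
    have h2 := h b hb a ha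
    constructor
    · intro h3
      exact absurd h3 (not_lt.2 h1.le)
    · intro h3
      exact absurd h3 (not_lt.2 h2.le)

/-! ### Counting the permutations -/

lemma perm_eq {σ τ : Equiv.Perm (Fin n)} {S : Finset (Fin n)}
    (h1 : ∀ a, a ∉ S → σ a = τ a)
    (h2 : ∀ a ∈ S, ∀ b ∈ S, (σ a < σ b ↔ τ a < τ b)) : σ = τ := by
  have himg : S.image σ = S.image τ := by
    have hc : (Sᶜ).image σ = (Sᶜ).image τ := by
      apply image_congr
      intro a ha
      exact h1 a (by simpa using ha)
    have hσ : S.image σ = ((Sᶜ).image σ)ᶜ := by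
      ext y
      simp only [mem_image, mem_compl, not_exists, not_and]
      constructor
      · rintro ⟨x, hx, rfl⟩ z hz hzx
        exact hz (by rw [σ.injective hzx]; exact hx)
      · intro h
        refine ⟨σ.symm y, ?_, by simp⟩
        by_contra hn
        exact h _ hn (by simp)
    have hτ : S.image τ = ((Sᶜ).image τ)ᶜ := by
      ext y
      simp only [mem_image, mem_compl, not_exists, not_and]
      constructor
      · rintro ⟨x, hx, rfl⟩ z hz hzx
        exact hz (by rw [τ.injective hzx]; exact hx)
      · intro h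
        refine ⟨τ.symm y, ?_, by simp⟩
        by_contra hn
        exact h _ hn (by simp)
    rw [hσ, hτ, hc]
  apply Equiv.ext
  intro w
  by_cases hw : w ∈ S
  swap
  · exact h1 w hw
  have hcount : ((S.image σ).filter (fun y => y < σ w)).card =
      ((S.image τ).filter (fun y => y < τ w)).card := by
    rw [filter_image, filter_image, card_image_of_injective _ σ.injective,
      card_image_of_injective _ τ.injective]
    congr 1
    apply filter_congr
    intro x hx
    exact h2 x hx w hw
  rw [himg] at hcount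
  have hσw : σ w ∈ S.image τ := by rw [← himg]; exact mem_image_of_mem _ hw
  have hτw : τ w ∈ S.image τ := mem_image_of_mem _ hw
  rcases lt_trichotomy (σ w) (τ w) with h | h | h
  · exfalso
    have : ((S.image τ).filter (fun y => y < σ w)).card <
        ((S.image τ).filter (fun y => y < τ w)).card := by
      apply card_lt_card
      refine ⟨?_, ?_⟩
      · intro x hx
        rw [mem_filter] at hx ⊢
        exact ⟨hx.1, hx.2.trans h⟩
      · intro hh
        have := hh (mem_filter.2 ⟨hσw, h⟩)
        rw [mem_filter] at this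
        exact lt_irrefl _ this.2
    omega
  · exact h
  · exfalso
    have : ((S.image τ).filter (fun y => y < τ w)).card <
        ((S.image τ).filter (fun y => y < σ w)).card := by
      apply card_lt_card
      refine ⟨?_, ?_⟩
      · intro x hx
        rw [mem_filter] at hx ⊢
        exact ⟨hx.1, hx.2.trans h⟩
      · intro hh
        have := hh (mem_filter.2 ⟨hτw, h⟩)
        rw [mem_filter] at this
        exact lt_irrefl _ this.2
    omega

/-- The data attached to a permutation. -/
abbrev Data (P : Finpartition (univ : Finset (Fin n))) : Type :=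
  ({a : Fin n // a ∉ W P} ↪ Fin n) ×
    (({A // A ∈ NT P} ≃ Fin (Fintype.card {A // A ∈ NT P})) ×
      ((A : {A // A ∈ NT P}) → ({a : Fin n // a ∈ A.1} ≃ Fin (Fintype.card {a : Fin n // a ∈ A.1}))))

/-- The map from permutations to data. -/
noncomputable def Phi (P : Finpartition (univ : Finset (Fin n))) (σ : Equiv.Perm (Fin n)) :
    Data P :=
  (⟨fun a => σ a.1, fun a b h => Subtype.ext (σ.injective h)⟩,
    rkE (fun A : {A // A ∈ NT P} => fp σ A.1) (fun A B h => Subtype.ext (fp_inj σ A.2 B.2 h)),
    fun A => rkE (fun a : {a : Fin n // a ∈ A.1} => σ a.1)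
      (fun a b h => Subtype.ext (σ.injective h)))

lemma Phi_inj (P : Finpartition (univ : Finset (Fin n))) {σ τ : Equiv.Perm (Fin n)}
    (hσ : IntDisj σ P) (hτ : IntDisj τ P) (h : Phi P σ = Phi P τ) : σ = τ := by
  have e1 := congrArg Prod.fst h
  have e2 := congrArg (fun x => x.2.1) h
  have e3 := congrArg (fun x => x.2.2) h
  apply perm_eq (S := W P)
  · intro a ha
    have := congrArg (fun f => f ⟨a, ha⟩) e1
    exact this
  · intro a ha b hb
    obtain ⟨A, hA, haA⟩ := mem_W.1 ha
    obtain ⟨B, hB, hbB⟩ := mem_W.1 hb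
    by_cases hAB : A = B
    · subst hAB
      have h4 := congrFun e3 ⟨A, hA⟩
      have ha4 := congrArg (fun f => ((f ⟨a, haA⟩ : Fin _) : ℕ)) h4
      have hb4 := congrArg (fun f => ((f ⟨b, hbB⟩ : Fin _) : ℕ)) h4
      simp only [Phi, rkE_apply] at ha4 hb4
      have l1 := rk_lt_rk (fun a : {a : Fin n // a ∈ A} => σ a.1) ⟨a, haA⟩ ⟨b, hbB⟩
      have l2 := rk_lt_rk (fun a : {a : Fin n // a ∈ A} => τ a.1) ⟨a, haA⟩ ⟨b, hbB⟩
      rw [← l1, ← l2, ha4, hb4]
    · have ha4 := congrArg (fun f => ((f ⟨A, hA⟩ : Fin _) : ℕ)) e2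
      have hb4 := congrArg (fun f => ((f ⟨B, hB⟩ : Fin _) : ℕ)) e2
      simp only [Phi, rkE_apply] at ha4 hb4
      have l1 := rk_lt_rk (fun A : {A // A ∈ NT P} => fp σ A.1) ⟨A, hA⟩ ⟨B, hB⟩
      have l2 := rk_lt_rk (fun A : {A // A ∈ NT P} => fp τ A.1) ⟨A, hA⟩ ⟨B, hB⟩
      have m1 := fp_lt_iff hσ hA hB hAB haA hbB
      have m2 := fp_lt_iff hτ hA hB hAB haA hbB
      rw [← m1, ← m2, ← l1, ← l2, ha4, hb4]

lemma card_Data (P : Finpartition (univ : Finset (Fin n))) :
    Fintype.card (Data P) =
      n.descFactorial (n - (W P).card) * ((NT P).card.factorial * ∏ A ∈ NT P, A.card.factorial) := by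
  have h1 : Fintype.card ({a : Fin n // a ∉ W P} ↪ Fin n) =
      n.descFactorial (n - (W P).card) := by
    rw [Fintype.card_embedding_eq, Fintype.card_fin]
    congr 1
    rw [Fintype.card_subtype_compl, Fintype.card_fin]
    simp
  have h2 : Fintype.card ({A // A ∈ NT P} ≃ Fin (Fintype.card {A // A ∈ NT P})) =
      (NT P).card.factorial := by
    rw [Fintype.card_equiv (Fintype.equivFin _)]
    simp
  have h3 : Fintype.card ((A : {A // A ∈ NT P}) →
      ({a : Fin n // a ∈ A.1} ≃ Fin (Fintype.card {a : Fin n // a ∈ A.1}))) =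
      ∏ A ∈ NT P, A.card.factorial := by
    rw [Fintype.card_pi]
    have h4 : ∀ A : {A // A ∈ NT P},
        Fintype.card ({a : Fin n // a ∈ A.1} ≃ Fin (Fintype.card {a : Fin n // a ∈ A.1})) =
        A.1.card.factorial := by
      intro A
      rw [Fintype.card_equiv (Fintype.equivFin _)]
      simp
    rw [prod_congr rfl (fun A _ => h4 A)]
    exact prod_coe_sort (NT P) (fun A => A.card.factorial)
  rw [Fintype.card_prod, Fintype.card_prod, h1, h2, h3]

open Classical in
lemma card_perms (P : Finpartition (univ : Finset (Fin n))) :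
    (univ.filter (fun σ : Equiv.Perm (Fin n) => IntDisj σ P)).card ≤
      n.descFactorial (n - (W P).card) * ((NT P).card.factorial * ∏ A ∈ NT P, A.card.factorial) := by
  rw [← card_Data]
  apply card_le_card_of_injOn (Phi P) (fun _ _ => mem_univ _)
  intro σ hσ τ hτ h
  simp only [coe_filter, mem_univ, true_and, Set.mem_ofPred_eq] at hσ hτ
  exact Phi_inj P hσ hτ h

/-! ### Cardinalities -/

lemma card_W (P : Finpartition (univ : Finset (Fin n))) :
    (W P).card = ∑ A ∈ NT P, A.card := by
  unfold W
  rw [card_biUnion]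
  · rfl
  · intro A hA B hB hne
    exact P.disjoint (mem_NT.1 hA).1 (mem_NT.1 hB).1 hne

lemma card_rel (P : Finpartition (univ : Finset (Fin n))) :
    (W P).card + P.parts.card = n + (NT P).card := by
  have h1 : ∑ A ∈ P.parts, A.card = n := by
    rw [P.sum_card_parts]
    simp
  have h2 := sum_filter_add_sum_filter_not P.parts (fun A : Finset (Fin n) => 2 ≤ A.card)
    (fun A => A.card)
  have h3 := card_filter_add_card_filter_not (s := P.parts) (fun A : Finset (Fin n) => 2 ≤ A.card)
  have h4 : ∑ A ∈ P.parts.filter (fun A : Finset (Fin n) => ¬ 2 ≤ A.card), A.card =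
      (P.parts.filter (fun A : Finset (Fin n) => ¬ 2 ≤ A.card)).card := by
    rw [card_eq_sum_ones]
    apply sum_congr rfl
    intro A hA
    rw [mem_filter] at hA
    have := P.nonempty_of_mem_parts hA.1
    have := card_pos.2 this
    omega
  rw [card_W]
  unfold NT
  omega

/-! ### Encoding a partition by its support and its sequence of sizes -/

/-- index of a block: number of nontrivial blocks which start earlier -/
def ix (P : Finpartition (univ : Finset (Fin n))) (A : Finset (Fin n)) : ℕ :=
  ((NT P).filter (fun B => fp 1 B < fp 1 A)).card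

lemma ix_lt {P : Finpartition (univ : Finset (Fin n))} {A : Finset (Fin n)} (hA : A ∈ NT P) :
    ix P A < (NT P).card := by
  apply card_lt_card
  refine ⟨filter_subset _ _, ?_⟩
  intro hh
  have := hh hA
  rw [mem_filter] at this
  exact lt_irrefl _ this.2

lemma ix_lt_ix {P : Finpartition (univ : Finset (Fin n))} {A B : Finset (Fin n)} (hA : A ∈ NT P)
    (h : fp 1 A < fp 1 B) : ix P A < ix P B := by
  apply card_lt_card
  refine ⟨?_, ?_⟩
  · intro x hx
    rw [mem_filter] at hx ⊢
    exact ⟨hx.1, hx.2.trans h⟩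
  · intro hh
    have := hh (mem_filter.2 ⟨hA, h⟩)
    rw [mem_filter] at this
    exact lt_irrefl _ this.2

lemma ix_inj {P : Finpartition (univ : Finset (Fin n))} {A B : Finset (Fin n)} (hA : A ∈ NT P)
    (hB : B ∈ NT P) (h : ix P A = ix P B) : A = B := by
  rcases lt_trichotomy (fp 1 A) (fp 1 B) with h' | h' | h'
  · have := ix_lt_ix hA h'
    omega
  · exact fp_inj 1 hA hB h'
  · have := ix_lt_ix hB h'
    omega

lemma ix_surj {P : Finpartition (univ : Finset (Fin n))} {i : ℕ} (hi : i < (NT P).card) :
    ∃ A ∈ NT P, ix P A = i := by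
  have h1 : (NT P).image (ix P) ⊆ range (NT P).card := by
    intro x hx
    rw [mem_image] at hx
    obtain ⟨A, hA, rfl⟩ := hx
    exact mem_range.2 (ix_lt hA)
  have h2 : ((NT P).image (ix P)).card = (NT P).card := by
    apply card_image_of_injOn
    intro A hA B hB h
    exact ix_inj hA hB h
  have h3 := eq_of_subset_of_card_le h1 (by rw [h2, card_range])
  have : i ∈ (NT P).image (ix P) := by
    rw [h3]
    exact mem_range.2 hi
  rw [mem_image] at this
  obtain ⟨A, hA, h⟩ := this
  exact ⟨A, hA, h⟩

/-- size of the `i`-th block -/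
def szz (P : Finpartition (univ : Finset (Fin n))) (i : ℕ) : ℕ :=
  ∑ A ∈ (NT P).filter (fun A => ix P A = i), A.card

lemma szz_ix {P : Finpartition (univ : Finset (Fin n))} {A : Finset (Fin n)} (hA : A ∈ NT P) :
    szz P (ix P A) = A.card := by
  unfold szz
  have : (NT P).filter (fun B => ix P B = ix P A) = {A} := by
    ext B
    rw [mem_filter, mem_singleton]
    constructor
    · rintro ⟨hB, h⟩
      exact ix_inj hB hA h
    · rintro rfl
      exact ⟨hA, rfl⟩
  rw [this, sum_singleton]

lemma szz_ge {P : Finpartition (univ : Finset (Fin n))} {i : ℕ} (hi : i < (NT P).card) :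
    2 ≤ szz P i := by
  obtain ⟨A, hA, rfl⟩ := ix_surj hi
  rw [szz_ix hA]
  exact (mem_NT.1 hA).2

/-- index of the block of an element -/
def idx (P : Finpartition (univ : Finset (Fin n))) (a : Fin n) : ℕ := ix P (P.part a)

lemma idx_eq {P : Finpartition (univ : Finset (Fin n))} {A : Finset (Fin n)} (hA : A ∈ NT P)
    {a : Fin n} (ha : a ∈ A) : idx P a = ix P A := by
  unfold idx
  rw [P.part_eq_of_mem (mem_NT.1 hA).1 ha]

lemma idx_mono {P : Finpartition (univ : Finset (Fin n))} (hP : IntDisj 1 P) {a b : Fin n}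
    (ha : a ∈ W P) (hb : b ∈ W P) (hab : a ≤ b) : idx P a ≤ idx P b := by
  obtain ⟨A, hA, haA⟩ := mem_W.1 ha
  obtain ⟨B, hB, hbB⟩ := mem_W.1 hb
  rw [idx_eq hA haA, idx_eq hB hbB]
  by_cases h : A = B
  · rw [h]
  · have h1 := fp_lt_iff hP hA hB h haA hbB
    have h2 : a ≠ b := by
      rintro rfl
      exact h (P.eq_of_mem_parts (mem_NT.1 hA).1 (mem_NT.1 hB).1 haA hbB)
    have h3 : fp 1 A < fp 1 B := h1.2 (by simpa using lt_of_le_of_ne hab h2)
    exact (ix_lt_ix hA h3).le

lemma fiber_eq {P : Finpartition (univ : Finset (Fin n))} {A : Finset (Fin n)} (hA : A ∈ NT P) :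
    (W P).filter (fun a => idx P a = ix P A) = A := by
  ext a
  rw [mem_filter]
  constructor
  · rintro ⟨ha, h⟩
    obtain ⟨B, hB, haB⟩ := mem_W.1 ha
    rw [idx_eq hB haB] at h
    rw [← ix_inj hB hA h]
    exact haB
  · intro ha
    exact ⟨mem_W.2 ⟨A, hA, ha⟩, idx_eq hA ha⟩

lemma fiber_card (P : Finpartition (univ : Finset (Fin n))) (i : ℕ) :
    ((W P).filter (fun a => idx P a = i)).card = szz P i := by
  by_cases hi : i < (NT P).card
  · obtain ⟨A, hA, rfl⟩ := ix_surj hi
    rw [fiber_eq hA, szz_ix hA]
  · have h1 : (W P).filter (fun a => idx P a = i) = ∅ := by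
      apply filter_eq_empty_iff.2
      intro a ha h
      obtain ⟨A, hA, haA⟩ := mem_W.1 ha
      rw [idx_eq hA haA] at h
      have := ix_lt hA
      omega
    have h2 : (NT P).filter (fun A => ix P A = i) = ∅ := by
      apply filter_eq_empty_iff.2
      intro A hA h
      have := ix_lt hA
      omega
    rw [h1]
    unfold szz
    rw [h2]
    simp

lemma mono_eq {S : Finset (Fin n)} {f g : Fin n → ℕ}
    (hf : ∀ a ∈ S, ∀ b ∈ S, a ≤ b → f a ≤ f b) (hg : ∀ a ∈ S, ∀ b ∈ S, a ≤ b → g a ≤ g b)
    (h : ∀ i, (S.filter (fun a => f a = i)).card = (S.filter (fun a => g a = i)).card) :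
    ∀ a ∈ S, f a = g a := by
  have hc : ∀ (k : Fin n → ℕ) (i : ℕ), (S.filter (fun a => k a ≤ i)).card =
      ∑ l ∈ range (i + 1), (S.filter (fun a => k a = l)).card := by
    intro k i
    rw [card_eq_sum_card_fiberwise (f := k) (t := range (i + 1))]
    · apply sum_congr rfl
      intro l hl
      rw [mem_range] at hl
      congr 1
      rw [filter_filter]
      apply filter_congr
      intro x _
      constructor
      · rintro ⟨_, h⟩
        exact h
      · intro h
        exact ⟨by omega, h⟩
    · intro x hx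
      simp only [coe_filter, Set.mem_ofPred_eq] at hx
      simp only [coe_range, Set.mem_Iio]
      omega
  have hle : ∀ i, (S.filter (fun a => f a ≤ i)).card = (S.filter (fun a => g a ≤ i)).card := by
    intro i
    rw [hc, hc]
    exact sum_congr rfl (fun l _ => h l)
  have key : ∀ {f g : Fin n → ℕ}, (∀ a ∈ S, ∀ b ∈ S, a ≤ b → f a ≤ f b) →
      (∀ a ∈ S, ∀ b ∈ S, a ≤ b → g a ≤ g b) →
      (∀ i, (S.filter (fun a => f a ≤ i)).card = (S.filter (fun a => g a ≤ i)).card) →
      ∀ a ∈ S, ¬ f a < g a := by
    intro f g hf hg hle a ha hlt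
    have hsub : (S.filter (fun x => g x ≤ f a)).card < (S.filter (fun x => f x ≤ f a)).card := by
      apply card_lt_card
      refine ⟨?_, ?_⟩
      · intro x hx
        rw [mem_filter] at hx ⊢
        refine ⟨hx.1, ?_⟩
        apply hf x hx.1 a ha
        by_contra hn
        push Not at hn
        have := hg a ha x hx.1 hn.le
        omega
      · intro hh
        have := hh (mem_filter.2 ⟨ha, le_refl _⟩)
        rw [mem_filter] at this
        omega
    have := hle (f a)
    omega
  intro a ha
  have h1 := key hf hg hle a ha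
  have h2 := key hg hf (fun i => (hle i).symm) a ha
  omega

lemma parts_eq {P Q : Finpartition (univ : Finset (Fin n))} (hP : IntDisj 1 P) (hQ : IntDisj 1 Q)
    (hW : W P = W Q) (hs : ∀ i, szz P i = szz Q i) : P = Q := by
  have hcard : ∀ {P Q : Finpartition (univ : Finset (Fin n))}, (∀ i, szz P i = szz Q i) →
      (NT P).card ≤ (NT Q).card := by
    intro P Q hs
    by_contra hlt
    push Not at hlt
    have h1 := szz_ge hlt
    rw [hs] at h1
    have h2 : (NT Q).filter (fun A => ix Q A = (NT Q).card) = ∅ := by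
      apply filter_eq_empty_iff.2
      intro A hA h
      have := ix_lt hA
      omega
    unfold szz at h1
    rw [h2] at h1
    simp at h1
  have hidx : ∀ a ∈ W P, idx P a = idx Q a := by
    apply mono_eq
    · intro a ha b hb hab
      exact idx_mono hP ha hb hab
    · intro a ha b hb hab
      rw [hW] at ha hb
      exact idx_mono hQ ha hb hab
    · intro i
      rw [fiber_card]
      rw [hW, fiber_card, hs]
  have hNT : ∀ {P Q : Finpartition (univ : Finset (Fin n))}, W P = W Q →
      (NT P).card ≤ (NT Q).card → (∀ a ∈ W P, idx P a = idx Q a) → NT P ⊆ NT Q := by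
    intro P Q hW hc hidx A hA
    obtain ⟨B, hB, h⟩ := ix_surj (P := Q) (i := ix P A) (lt_of_lt_of_le (ix_lt hA) hc)
    have h1 := fiber_eq hA
    have h2 := fiber_eq hB
    rw [h] at h2
    rw [← hW] at h2
    have h3 : (W P).filter (fun a => idx P a = ix P A) =
        (W P).filter (fun a => idx Q a = ix P A) := by
      apply filter_congr
      intro a ha
      rw [hidx a ha]
    rw [← h1, h3, h2]
    exact hB
  have hNTeq : NT P = NT Q := by
    apply Subset.antisymm
    · exact hNT hW (hcard hs) hidx
    · exact hNT hW.symm (hcard (fun i => (hs i).symm)) (fun a ha => by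
        rw [← hW] at ha
        exact (hidx a ha).symm)
  have hparts : ∀ {P Q : Finpartition (univ : Finset (Fin n))}, NT P = NT Q → W P = W Q →
      P.parts ⊆ Q.parts := by
    intro P Q hN hW A hA
    by_cases h2 : 2 ≤ A.card
    · have : A ∈ NT Q := by
        rw [← hN]
        exact mem_NT.2 ⟨hA, h2⟩
      exact (mem_NT.1 this).1
    · have h3 := card_pos.2 (P.nonempty_of_mem_parts hA)
      have h4 : A.card = 1 := by omega
      obtain ⟨a, rfl⟩ := card_eq_one.1 h4
      have ha : a ∉ W P := by
        intro ha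
        obtain ⟨B, hB, haB⟩ := mem_W.1 ha
        have := P.eq_of_mem_parts (mem_NT.1 hB).1 hA haB (mem_singleton_self a)
        have h5 := (mem_NT.1 hB).2
        rw [this] at h5
        simp at h5
      rw [hW] at ha
      have hpm : Q.part a ∈ Q.parts := Q.part_mem.2 (mem_univ a)
      have hap : a ∈ Q.part a := Q.mem_part (mem_univ a)
      have h6 : ¬ 2 ≤ (Q.part a).card := by
        intro h7
        exact ha (mem_W.2 ⟨Q.part a, mem_NT.2 ⟨hpm, h7⟩, hap⟩)
      have h7 : (Q.part a).card = 1 := by
        have := card_pos.2 (Q.nonempty_of_mem_parts hpm)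
        omega
      obtain ⟨b, hb⟩ := card_eq_one.1 h7
      rw [hb, mem_singleton] at hap
      subst hap
      rw [← hb]
      exact hpm
  apply Finpartition.ext
  apply Subset.antisymm
  · exact hparts hNTeq hW
  · exact hparts hNTeq.symm hW.symm

/-! ### The sum over partitions -/

lemma prod_NT (P : Finpartition (univ : Finset (Fin n))) (g : ℕ → ℕ) {j : ℕ}
    (hj : (NT P).card = j) : ∏ A ∈ NT P, g A.card = ∏ i : Fin j, g (szz P i) := by
  rw [← prod_range (fun i => g (szz P i))]
  apply prod_nbij (ix P)
  · intro A hA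
    rw [mem_range, ← hj]
    exact ix_lt hA
  · intro A hA B hB h
    exact ix_inj hA hB h
  · intro i hi
    simp only [coe_range, Set.mem_Iio] at hi
    rw [← hj] at hi
    obtain ⟨A, hA, h⟩ := ix_surj hi
    exact ⟨A, hA, h⟩
  · intro A hA
    rw [szz_ix hA]

lemma sum_NT (P : Finpartition (univ : Finset (Fin n))) {j : ℕ}
    (hj : (NT P).card = j) : (W P).card = ∑ i : Fin j, szz P i := by
  rw [card_W, ← sum_range (fun i => szz P i)]
  apply sum_nbij (ix P)
  · intro A hA
    rw [mem_range, ← hj]
    exact ix_lt hA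
  · intro A hA B hB h
    exact ix_inj hA hB h
  · intro i hi
    simp only [coe_range, Set.mem_Iio] at hi
    rw [← hj] at hi
    obtain ⟨A, hA, h⟩ := ix_surj hi
    exact ⟨A, hA, h⟩
  · intro A hA
    rw [szz_ix hA]

open Classical in
/-- partitions with `n-r` classes and disjoint nontrivial intervals -/
noncomputable def base (n r : ℕ) : Finset (Finpartition (univ : Finset (Fin n))) :=
  univ.filter (fun P => P.parts.card = n - r ∧ IntDisj 1 P)

lemma base_props {r : ℕ} (hrn : r < n) {P : Finpartition (univ : Finset (Fin n))}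
    (hP : P ∈ base n r) : (W P).card = r + (NT P).card ∧ (NT P).card ≤ r ∧ r + (NT P).card ≤ n := by
  have h1 := card_rel P
  have h2 : P.parts.card = n - r := by
    simp only [base, mem_filter, mem_univ, true_and] at hP
    exact hP.1
  have h3 : (W P).card = r + (NT P).card := by omega
  have h4 : 2 * (NT P).card ≤ (W P).card := by
    rw [card_W]
    have := card_nsmul_le_sum (NT P) (fun A => A.card) 2 (fun A hA => (mem_NT.1 hA).2)
    simpa [mul_comm] using this
  have h5 : (W P).card ≤ n := by
    have := card_le_univ (W P)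
    simpa using this
  omega

lemma sum_base {r : ℕ} (hrn : r < n) (j : ℕ) :
    ∑ P ∈ (base n r).filter (fun P => (NT P).card = j), ∏ A ∈ NT P, A.card.factorial ≤
      n.choose (r + j) * Tsum j (r - j) := by
  set g : Finset (Fin n) × (Fin j → ℕ) → ℕ := fun x => ∏ i, (x.2 i + 2).factorial with hg
  set enc : Finpartition (univ : Finset (Fin n)) → Finset (Fin n) × (Fin j → ℕ) :=
    fun P => (W P, fun i => szz P i - 2) with henc
  have h1 : ∑ P ∈ (base n r).filter (fun P => (NT P).card = j), ∏ A ∈ NT P, A.card.factorial =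
      ∑ P ∈ (base n r).filter (fun P => (NT P).card = j), g (enc P) := by
    apply sum_congr rfl
    intro P hP
    rw [mem_filter] at hP
    rw [prod_NT P Nat.factorial hP.2]
    apply prod_congr rfl
    intro i _
    have : 2 ≤ szz P i := szz_ge (by rw [hP.2]; exact i.2)
    simp only [henc]
    congr 1
    omega
  have h2 : n.choose (r + j) * Tsum j (r - j) =
      ∑ x ∈ powersetCard (r + j) (univ : Finset (Fin n)) ×ˢ
        Finset.piAntidiag (univ : Finset (Fin j)) (r - j), g x := by
    rw [sum_product]
    simp only [hg]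
    rw [sum_const, card_powersetCard, card_univ, Fintype.card_fin, smul_eq_mul, Tsum]
  rw [h1, h2]
  have hinj : Set.InjOn enc ((base n r).filter (fun P => (NT P).card = j) : Set _) := by
    intro P hP Q hQ h
    have hP' := mem_filter.1 (mem_coe.1 hP)
    have hQ' := mem_filter.1 (mem_coe.1 hQ)
    have hPd : IntDisj 1 P := by
      have := hP'.1
      simp only [base, mem_filter, mem_univ, true_and] at this
      exact this.2
    have hQd : IntDisj 1 Q := by
      have := hQ'.1
      simp only [base, mem_filter, mem_univ, true_and] at this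
      exact this.2
    apply parts_eq hPd hQd (congrArg Prod.fst h)
    intro i
    by_cases hi : i < j
    · have h3 := congrFun (congrArg Prod.snd h) ⟨i, hi⟩
      simp only [henc] at h3
      have h4 : 2 ≤ szz P i := szz_ge (by rw [hP'.2]; exact hi)
      have h5 : 2 ≤ szz Q i := szz_ge (by rw [hQ'.2]; exact hi)
      omega
    · have hz : ∀ {R : Finpartition (univ : Finset (Fin n))}, (NT R).card = j → szz R i = 0 := by
        intro R hR
        unfold szz
        have : (NT R).filter (fun A => ix R A = i) = ∅ := by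
          apply filter_eq_empty_iff.2
          intro A hA h
          have := ix_lt hA
          omega
        rw [this, sum_empty]
      rw [hz hP'.2, hz hQ'.2]
  rw [← sum_image (f := g) hinj]
  apply sum_le_sum_of_subset
  intro x hx
  rw [mem_image] at hx
  obtain ⟨P, hP, rfl⟩ := hx
  rw [mem_filter] at hP
  have hb := base_props hrn hP.1
  rw [mem_product, mem_powersetCard]
  refine ⟨⟨subset_univ _, ?_⟩, ?_⟩
  · simp only [henc]
    rw [hb.1, hP.2]
  · rw [mem_piAntidiag]
    refine ⟨?_, fun i _ => mem_univ i⟩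
    simp only [henc]
    have h4 : ∀ i : Fin j, 2 ≤ szz P i := fun i => szz_ge (by rw [hP.2]; exact i.2)
    have h5 := sum_NT P hP.2
    have h6 : ∑ i : Fin j, szz P i = ∑ i : Fin j, (szz P i - 2) + ∑ i : Fin j, 2 := by
      rw [← sum_add_distrib]
      apply sum_congr rfl
      intro i _
      have := h4 i
      omega
    rw [sum_const, card_univ, Fintype.card_fin, smul_eq_mul] at h6
    rw [hP.2] at hb
    omega

end FM

theorem first_moment {n r : ℕ} (hr : 1 ≤ r) (hrn : r < n) :
    ∃ σ : Equiv.Perm (Fin n), ((common 1 σ (n - r)).card : ℝ) ≤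
      ∑ j ∈ range (r + 1), (n.choose (r + j) : ℝ) * (j.factorial * Tsum j (r - j)) /
        ((r + j).factorial : ℝ) := by
  classical
  set RHS : ℝ := ∑ j ∈ range (r + 1), (n.choose (r + j) : ℝ) * (j.factorial * Tsum j (r - j)) /
        ((r + j).factorial : ℝ) with hRHS
  have hmain : ∑ σ : Equiv.Perm (Fin n), ((common 1 σ (n - r)).card : ℝ) ≤
      ∑ σ : Equiv.Perm (Fin n), RHS := by
    have hcomm : ∑ σ : Equiv.Perm (Fin n), (common 1 σ (n - r)).card =
        ∑ P ∈ FM.base n r, (univ.filter (fun σ : Equiv.Perm (Fin n) => IntDisj σ P)).card := by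
      have h0 := sum_card_bipartiteAbove_eq_sum_card_bipartiteBelow
        (s := (univ : Finset (Equiv.Perm (Fin n)))) (t := FM.base n r)
        (fun (σ : Equiv.Perm (Fin n)) P => IntDisj σ P)
      refine Eq.trans ?_ h0
      apply sum_congr rfl
      intro σ _
      congr 1
      ext P
      simp only [common, FM.base, bipartiteAbove, mem_filter, mem_univ, true_and]
      tauto
    have hcomm' : ∑ σ : Equiv.Perm (Fin n), ((common 1 σ (n - r)).card : ℝ) =
        ∑ P ∈ FM.base n r,
          ((univ.filter (fun σ : Equiv.Perm (Fin n) => IntDisj σ P)).card : ℝ) := by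
      exact_mod_cast hcomm
    rw [hcomm', sum_const, card_univ, Fintype.card_perm, Fintype.card_fin, nsmul_eq_mul]
    have hbd : ∀ P ∈ FM.base n r,
        ((univ.filter (fun σ : Equiv.Perm (Fin n) => IntDisj σ P)).card : ℝ) ≤
        (n.factorial : ℝ) * ((FM.NT P).card.factorial * (∏ A ∈ FM.NT P, A.card.factorial : ℕ) /
          ((r + (FM.NT P).card).factorial : ℝ)) := by
      intro P hP
      obtain ⟨hb1, hb2, hb3⟩ := FM.base_props hrn hP
      have h1 := FM.card_perms P
      rw [hb1] at h1
      have h2 := Nat.factorial_mul_descFactorial (n := n) (k := n - (r + (FM.NT P).card))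
        (Nat.sub_le _ _)
      have h3 : n - (n - (r + (FM.NT P).card)) = r + (FM.NT P).card := by omega
      rw [h3] at h2
      have hpos : (0 : ℝ) < ((r + (FM.NT P).card).factorial : ℝ) := by
        exact_mod_cast Nat.factorial_pos _
      have h4 : (n.factorial : ℝ) = ((r + (FM.NT P).card).factorial : ℝ) *
          (n.descFactorial (n - (r + (FM.NT P).card)) : ℝ) := by
        exact_mod_cast h2.symm
      have h5 : (n.factorial : ℝ) * ((FM.NT P).card.factorial *
          (∏ A ∈ FM.NT P, A.card.factorial : ℕ) / ((r + (FM.NT P).card).factorial : ℝ)) =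
          (n.descFactorial (n - (r + (FM.NT P).card)) : ℝ) *
          ((FM.NT P).card.factorial * (∏ A ∈ FM.NT P, A.card.factorial : ℕ)) := by
        rw [h4]
        field_simp
      rw [h5]
      exact_mod_cast h1
    refine (sum_le_sum hbd).trans ?_
    rw [← mul_sum]
    apply mul_le_mul_of_nonneg_left _ (by positivity)
    rw [← sum_fiberwise_of_maps_to (s := FM.base n r) (t := range (r + 1))
      (g := fun P => (FM.NT P).card)
      (fun P hP => mem_range.2 (by have := (FM.base_props hrn hP).2.1; omega))]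
    apply sum_le_sum
    intro j _
    have h6 : ∑ P ∈ (FM.base n r).filter (fun P => (FM.NT P).card = j),
        (((FM.NT P).card.factorial : ℝ) * (∏ A ∈ FM.NT P, A.card.factorial : ℕ) /
          ((r + (FM.NT P).card).factorial : ℝ)) =
        (j.factorial : ℝ) / ((r + j).factorial : ℝ) *
        ((∑ P ∈ (FM.base n r).filter (fun P => (FM.NT P).card = j),
          ∏ A ∈ FM.NT P, A.card.factorial : ℕ) : ℝ) := by
      rw [Nat.cast_sum, mul_sum]
      apply sum_congr rfl
      intro P hP
      rw [mem_filter] at hP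
      rw [hP.2]
      ring
    rw [h6]
    have h7 : ((∑ P ∈ (FM.base n r).filter (fun P => (FM.NT P).card = j),
          ∏ A ∈ FM.NT P, A.card.factorial : ℕ) : ℝ) ≤ (n.choose (r + j) : ℝ) * Tsum j (r - j) := by
      exact_mod_cast FM.sum_base hrn j
    calc _ ≤ (j.factorial : ℝ) / ((r + j).factorial : ℝ) *
          ((n.choose (r + j) : ℝ) * Tsum j (r - j)) :=
          mul_le_mul_of_nonneg_left h7 (by positivity)
      _ = _ := by ring
  obtain ⟨σ, _, hσ⟩ := exists_le_of_sum_le (univ_nonempty) hmain
  exact ⟨σ, hσ⟩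

end Pool.Agent.Hhelper51.Cat
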