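import Pool.Agent.Hhelper51.Cat.Box

set_option autoImplicit false

namespace Pool.Agent.Hhelper51.Cat

open Finset

/-! ### Auxiliary bounds for factorials -/

theorem ua_pow_self (n : ℕ) : (n : ℝ) ^ n = Real.exp (n * Real.log n) := by
  rcases Nat.eq_zero_or_pos n with rfl | hn
  · simp
  · have hn' : (0 : ℝ) < n := by exact_mod_cast hn
    rw [← Real.rpow_natCast, Real.rpow_def_of_pos hn', mul_comm]

theorem ua_exp_le (n : ℕ) (hn : 1 ≤ n) :
    Real.exp 1 * (n : ℝ) ^ (n + 1) ≤ ((n : ℝ) + 1) ^ (n + 1) := by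
  have hn' : (0 : ℝ) < n := by exact_mod_cast hn
  have h1 : (n : ℝ) / (n + 1) ≤ Real.exp (-(1 / (n + 1))) := by
    have := Real.add_one_le_exp (-(1 / ((n : ℝ) + 1)))
    have h2 : -(1 / ((n : ℝ) + 1)) + 1 = n / (n + 1) := by field_simp; ring
    rwa [h2] at this
  have h2 : ((n : ℝ) / (n + 1)) ^ (n + 1) ≤ Real.exp (-1) := by
    calc ((n : ℝ) / (n + 1)) ^ (n + 1) ≤ (Real.exp (-(1 / (n + 1)))) ^ (n + 1) :=
          pow_le_pow_left₀ (by positivity) h1 _
      _ = Real.exp (-1) := by
          rw [← Real.exp_nat_mul]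
          congr 1
          push_cast
          field_simp
  have h3 : (n : ℝ) ^ (n + 1) ≤ Real.exp (-1) * ((n : ℝ) + 1) ^ (n + 1) := by
    rw [div_pow, div_le_iff₀ (by positivity)] at h2
    exact h2
  calc Real.exp 1 * (n : ℝ) ^ (n + 1)
      ≤ Real.exp 1 * (Real.exp (-1) * ((n : ℝ) + 1) ^ (n + 1)) :=
        mul_le_mul_of_nonneg_left h3 (Real.exp_pos _).le
    _ = ((n : ℝ) + 1) ^ (n + 1) := by
        rw [← mul_assoc, ← Real.exp_add]; simp

/-- `n! e ^ n ≤ e n ^ (n + 1)` for `n ≥ 1`. -/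
theorem ua_factorial_le (n : ℕ) (hn : 1 ≤ n) :
    (n.factorial : ℝ) * Real.exp 1 ^ n ≤ Real.exp 1 * (n : ℝ) ^ (n + 1) := by
  induction n, hn using Nat.le_induction with
  | base => simp
  | succ n hn ih =>
    have h := ua_exp_le n hn
    rw [Nat.factorial_succ]
    push_cast
    calc ((n : ℝ) + 1) * (n.factorial : ℝ) * Real.exp 1 ^ (n + 1)
        = (((n : ℝ) + 1) * Real.exp 1) * ((n.factorial : ℝ) * Real.exp 1 ^ n) := by ring
      _ ≤ (((n : ℝ) + 1) * Real.exp 1) * (Real.exp 1 * (n : ℝ) ^ (n + 1)) :=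
          mul_le_mul_of_nonneg_left ih (by positivity)
      _ = ((n : ℝ) + 1) * Real.exp 1 * (Real.exp 1 * (n : ℝ) ^ (n + 1)) := by ring
      _ ≤ ((n : ℝ) + 1) * Real.exp 1 * (((n : ℝ) + 1) ^ (n + 1)) :=
          mul_le_mul_of_nonneg_left h (by positivity)
      _ = Real.exp 1 * ((n : ℝ) + 1) ^ (n + 1 + 1) := by ring

theorem ua_factorial_le_exp (n : ℕ) :
    (n.factorial : ℝ) ≤ ((n : ℝ) + 1) * Real.exp (n * Real.log n - n + 1) := by
  rcases Nat.eq_zero_or_pos n with rfl | hn
  · simp
  · have hn' : (0 : ℝ) < n := by exact_mod_cast hn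
    have h := ua_factorial_le n hn
    have h1 : Real.exp (n * Real.log n - n + 1) = Real.exp 1 * (n : ℝ) ^ n / Real.exp 1 ^ n := by
      rw [ua_pow_self, ← Real.exp_nat_mul, ← Real.exp_add, ← Real.exp_sub]
      congr 1; ring
    rw [h1]
    rw [mul_div_assoc', le_div_iff₀ (by positivity)]
    refine h.trans ?_
    rw [pow_succ]
    have : 0 ≤ Real.exp 1 * (n : ℝ) ^ n := by positivity
    nlinarith

theorem ua_inv_factorial_le_exp (n : ℕ) :
    1 / (n.factorial : ℝ) ≤ Real.exp (n - n * Real.log n) := by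
  have h := Real.pow_div_factorial_le_exp (n : ℝ) (Nat.cast_nonneg n) n
  rw [ua_pow_self] at h
  rw [Real.exp_sub]
  rw [le_div_iff₀ (Real.exp_pos _)]
  calc 1 / (n.factorial : ℝ) * Real.exp (n * Real.log n)
      = Real.exp (n * Real.log n) / n.factorial := by ring
    _ ≤ Real.exp n := h

/-! ### The bound for `Tsum` -/

theorem ua_tsum_le (j d : ℕ) (z : ℝ) (hz : 0 < z) :
    (Tsum j d : ℝ) * z ^ d ≤ (∑ e ∈ range (d + 1), ((e + 2).factorial : ℝ) * z ^ e) ^ j := by
  unfold Tsum
  push_cast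
  rw [Finset.sum_mul]
  have h1 : (∑ e ∈ range (d + 1), ((e + 2).factorial : ℝ) * z ^ e) ^ j =
      ∑ f ∈ Fintype.piFinset (fun _ : Fin j => range (d + 1)),
        ∏ i, (((f i + 2).factorial : ℝ) * z ^ (f i)) := by
    have := Finset.prod_univ_sum (fun _ : Fin j => range (d + 1))
      (fun _ e => ((e + 2).factorial : ℝ) * z ^ e)
    rw [← this]
    simp
  rw [h1]
  have h2 : Finset.piAntidiag (univ : Finset (Fin j)) d ⊆
      Fintype.piFinset (fun _ : Fin j => range (d + 1)) := by
    intro f hf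
    rw [Finset.mem_piAntidiag] at hf
    rw [Fintype.mem_piFinset]
    intro i
    rw [mem_range]
    have : f i ≤ ∑ i, f i := Finset.single_le_sum (fun _ _ => Nat.zero_le _) (mem_univ i)
    have h3 : ∑ i, f i = d := hf.1
    omega
  calc ∑ f ∈ Finset.piAntidiag (univ : Finset (Fin j)) d,
        (∏ i, ((f i + 2).factorial : ℝ)) * z ^ d
      = ∑ f ∈ Finset.piAntidiag (univ : Finset (Fin j)) d,
        ∏ i, (((f i + 2).factorial : ℝ) * z ^ (f i)) := by
        apply Finset.sum_congr rfl
        intro f hf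
        rw [Finset.mem_piAntidiag] at hf
        rw [Finset.prod_mul_distrib, Finset.prod_pow_eq_pow_sum, hf.1]
    _ ≤ _ := Finset.sum_le_sum_of_subset_of_nonneg h2 (fun f _ _ =>
        Finset.prod_nonneg (fun i _ => by positivity))

/-- The constant. -/
noncomputable def uaC (q : ℝ) : ℝ := ∑' k : ℕ, Real.exp 1 * (((k : ℝ) + 2) ^ 4 * q ^ k)

theorem ua_summable (q : ℝ) (hq0 : 0 < q) (hq1 : q < 1) :
    Summable (fun k : ℕ => Real.exp 1 * (((k : ℝ) + 2) ^ 4 * q ^ k)) := by
  have h := summable_pow_mul_geometric_of_norm_lt_one 4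
    (show ‖q‖ < 1 by rw [Real.norm_eq_abs, abs_of_pos hq0]; exact hq1)
  have h2 : Summable (fun k : ℕ => ((k + 2 : ℕ) : ℝ) ^ 4 * q ^ (k + 2)) :=
    (summable_nat_add_iff (f := fun k : ℕ => (k : ℝ) ^ 4 * q ^ k) 2).2 h
  have h3 := h2.mul_left (Real.exp 1 * (q ^ 2)⁻¹)
  refine h3.congr ?_
  intro k
  push_cast
  rw [pow_add]
  field_simp

theorem ua_inner (q : ℝ) (hq0 : 0 < q) (hq1 : q < 1) (d : ℕ) (D : ℝ) (hD : (d : ℝ) ≤ D)
    (hD0 : 0 < D) :
    ∑ e ∈ range (d + 1), ((e + 2).factorial : ℝ) * (Real.exp 1 * q / D) ^ e ≤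
      2 * Real.exp (uaC q / D) := by
  have key : ∀ k ∈ range d, ((k + 1 + 2).factorial : ℝ) * (Real.exp 1 * q / D) ^ (k + 1) ≤
      2 * (Real.exp 1 * ((((k + 1 : ℕ) : ℝ) + 2) ^ 4 * q ^ (k + 1)) / D) := by
    intro k hk
    rw [mem_range] at hk
    set n := k + 1 with hn
    have hn1 : 1 ≤ n := by omega
    have hnd : (n : ℝ) ≤ D := le_trans (by exact_mod_cast (by omega : n ≤ d)) hD
    have hn0 : (0 : ℝ) < n := by exact_mod_cast hn1
    have h := ua_factorial_le n hn1
    have h1 : ((n : ℝ) / D) ^ n ≤ (n : ℝ) / D := by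
      have h0 : 0 ≤ (n : ℝ) / D := by positivity
      have h1 : (n : ℝ) / D ≤ 1 := by rw [div_le_one hD0]; exact hnd
      calc ((n : ℝ) / D) ^ n ≤ ((n : ℝ) / D) ^ 1 := pow_le_pow_of_le_one h0 h1 hn1
        _ = _ := pow_one _
    have h2 : ((n + 2).factorial : ℝ) = ((n : ℝ) + 2) * ((n : ℝ) + 1) * (n.factorial : ℝ) := by
      rw [Nat.factorial_succ, Nat.factorial_succ]; push_cast; ring
    rw [h2]
    calc ((n : ℝ) + 2) * ((n : ℝ) + 1) * (n.factorial : ℝ) * (Real.exp 1 * q / D) ^ n
        = ((n : ℝ) + 2) * ((n : ℝ) + 1) * q ^ n * (1 / D ^ n) *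
          ((n.factorial : ℝ) * Real.exp 1 ^ n) := by
          rw [div_pow, mul_pow]; ring
      _ ≤ ((n : ℝ) + 2) * ((n : ℝ) + 1) * q ^ n * (1 / D ^ n) *
          (Real.exp 1 * (n : ℝ) ^ (n + 1)) := mul_le_mul_of_nonneg_left h (by positivity)
      _ = ((n : ℝ) + 2) * ((n : ℝ) + 1) * q ^ n * (Real.exp 1 * n) * ((n : ℝ) / D) ^ n := by
          rw [div_pow, pow_succ]; ring
      _ ≤ ((n : ℝ) + 2) * ((n : ℝ) + 1) * q ^ n * (Real.exp 1 * n) * ((n : ℝ) / D) :=
          mul_le_mul_of_nonneg_left h1 (by positivity)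
      _ = (((n : ℝ) + 2) * ((n : ℝ) + 1) * n * n) * (Real.exp 1 * q ^ n / D) := by ring
      _ ≤ (2 * ((n : ℝ) + 2) ^ 4) * (Real.exp 1 * q ^ n / D) := by
          apply mul_le_mul_of_nonneg_right _ (by positivity)
          nlinarith [mul_pos hn0 hn0, mul_pos (mul_pos hn0 hn0) hn0,
            mul_pos (mul_pos hn0 hn0) (mul_pos hn0 hn0)]
      _ = _ := by ring
  have hs := ua_summable q hq0 hq1
  have hle : ∑ k ∈ range d, (Real.exp 1 * ((((k + 1 : ℕ) : ℝ) + 2) ^ 4 * q ^ (k + 1))) ≤
      uaC q := by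
    have h1 := hs.sum_le_tsum (range (d + 1)) (fun k _ => by positivity)
    rw [Finset.sum_range_succ'] at h1
    unfold uaC
    have h2 : 0 ≤ Real.exp 1 * ((((0 : ℕ) : ℝ) + 2) ^ 4 * q ^ 0) := by positivity
    linarith
  rw [Finset.sum_range_succ']
  have h1 : ∑ k ∈ range d, ((k + 1 + 2).factorial : ℝ) * (Real.exp 1 * q / D) ^ (k + 1) ≤
      2 * (uaC q / D) := by
    calc _ ≤ ∑ k ∈ range d, 2 * (Real.exp 1 * ((((k + 1 : ℕ) : ℝ) + 2) ^ 4 * q ^ (k + 1)) / D) :=
          Finset.sum_le_sum key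
      _ = 2 * ((∑ k ∈ range d, (Real.exp 1 * ((((k + 1 : ℕ) : ℝ) + 2) ^ 4 * q ^ (k + 1)))) / D) := by
          rw [Finset.sum_div, Finset.mul_sum]
      _ ≤ _ := by
          apply mul_le_mul_of_nonneg_left _ (by norm_num)
          exact div_le_div_of_nonneg_right hle hD0.le
  have h2 := Real.add_one_le_exp (uaC q / D)
  simp only [zero_add, pow_zero, mul_one]
  have h3 : ((2 : ℕ).factorial : ℝ) = 2 := by norm_num [Nat.factorial]
  rw [h3]
  linarith

theorem ua_tsum_bound (q η : ℝ) (hq0 : 0 < q) (hq1 : q < 1) (hη : 0 < η) (N j d : ℕ)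
    (hN : 1 ≤ N) (hj : j ≤ N) :
    (Tsum j d : ℝ) ≤ Real.exp (j * Real.log 2 + d * Real.log d - d - d * Real.log q + η * N +
      uaC q / η) := by
  have hN' : (0 : ℝ) < N := by exact_mod_cast hN
  set D : ℝ := d + η * N with hD
  have hD0 : 0 < D := by positivity
  have hdD : (d : ℝ) ≤ D := by rw [hD]; nlinarith [mul_pos hη hN']
  set z : ℝ := Real.exp 1 * q / D with hz
  have hz0 : 0 < z := by positivity
  have h1 := ua_tsum_le j d z hz0
  have h2 := ua_inner q hq0 hq1 d D hdD hD0
  have hC : 0 ≤ uaC q := tsum_nonneg (fun k => by positivity)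
  have h3 : (∑ e ∈ range (d + 1), ((e + 2).factorial : ℝ) * z ^ e) ^ j ≤
      Real.exp (j * Real.log 2 + uaC q / η) := by
    calc (∑ e ∈ range (d + 1), ((e + 2).factorial : ℝ) * z ^ e) ^ j
        ≤ (2 * Real.exp (uaC q / D)) ^ j :=
          pow_le_pow_left₀ (Finset.sum_nonneg (fun _ _ => by positivity)) h2 j
      _ = Real.exp (j * Real.log 2 + j * (uaC q / D)) := by
          rw [mul_pow, ← Real.exp_nat_mul, Real.exp_add]
          congr 1
          rw [Real.exp_nat_mul, Real.exp_log (by norm_num)]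
      _ ≤ Real.exp (j * Real.log 2 + uaC q / η) := by
          apply Real.exp_le_exp.2
          have : (j : ℝ) * (uaC q / D) ≤ uaC q / η := by
            rw [mul_div_assoc', div_le_div_iff₀ hD0 hη]
            have hjN : (j : ℝ) ≤ N := by exact_mod_cast hj
            have hd0 : (0 : ℝ) ≤ d := Nat.cast_nonneg d
            have : (j : ℝ) * η ≤ D := by rw [hD]; nlinarith
            calc (j : ℝ) * uaC q * η = uaC q * (j * η) := by ring
              _ ≤ uaC q * D := mul_le_mul_of_nonneg_left this hC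
          linarith
  have h4 : Real.exp (-(d * Real.log d - d - d * Real.log q + η * N)) ≤ z ^ d := by
    rcases Nat.eq_zero_or_pos d with rfl | hd
    · simp
      positivity
    · have hd' : (0 : ℝ) < d := by exact_mod_cast hd
      have h5 : Real.log D ≤ Real.log d + η * N / d := by
        have : D = d * (1 + η * N / d) := by rw [hD]; field_simp
        rw [this, Real.log_mul hd'.ne' (by positivity)]
        have := Real.add_one_le_exp (η * N / d)
        have h6 : Real.log (1 + η * N / d) ≤ η * N / d := by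
          rw [Real.log_le_iff_le_exp (by positivity)]
          linarith
        linarith
      have h7 : z ^ d = Real.exp (d * (1 + Real.log q - Real.log D)) := by
        rw [Real.exp_nat_mul]
        congr 1
        rw [Real.exp_sub, Real.exp_add, Real.exp_log hq0, Real.exp_log hD0]
      rw [h7]
      apply Real.exp_le_exp.2
      have h8 : (d : ℝ) * Real.log D ≤ d * Real.log d + η * N := by
        calc (d : ℝ) * Real.log D ≤ d * (Real.log d + η * N / d) :=
              mul_le_mul_of_nonneg_left h5 hd'.le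
          _ = d * Real.log d + η * N := by field_simp
      nlinarith
  have h9 : (Tsum j d : ℝ) * Real.exp (-(d * Real.log d - d - d * Real.log q + η * N)) ≤
      Real.exp (j * Real.log 2 + uaC q / η) :=
    (mul_le_mul_of_nonneg_left h4 (Nat.cast_nonneg _)).trans (h1.trans h3)
  rw [Real.exp_neg, ← div_eq_mul_inv, div_le_iff₀ (Real.exp_pos _), ← Real.exp_add] at h9
  refine h9.trans (le_of_eq ?_)
  congr 1
  ring

/-! ### The real inequality -/

theorem ua_entropy (t : ℝ) (h0 : 0 < t) (h1 : t < 1) :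
    4 * t * Real.log 2 ≤
      2 * (1 + t) * Real.log (1 + t) - t * Real.log t - (1 - t) * Real.log (1 - t) := by
  have hlog2 : Real.log 2 > 0.6931471803 := Real.log_two_gt_d9
  have hlog2' : Real.log 2 < 0.6931471808 := Real.log_two_lt_d9
  have ha : Real.log (1 - t) ≤ -t := by
    have := Real.log_le_sub_one_of_pos (show 0 < 1 - t by linarith)
    linarith
  have ha' : t * (1 - t) ≤ -((1 - t) * Real.log (1 - t)) := by nlinarith
  rcases le_total t (1 / 3) with ht | ht
  · have hb : t / (1 + t) ≤ Real.log (1 + t) := by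
      have := Real.log_le_sub_one_of_pos (show 0 < 1 / (1 + t) by positivity)
      rw [Real.log_div one_ne_zero (by positivity), Real.log_one] at this
      have h2 : 1 / (1 + t) - 1 = -(t / (1 + t)) := by field_simp; ring
      linarith
    have hb' : 2 * t ≤ 2 * (1 + t) * Real.log (1 + t) := by
      rw [div_le_iff₀ (by positivity)] at hb
      nlinarith
    have hc : Real.log t ≤ -1 := by
      rw [Real.log_le_iff_le_exp h0]
      have h3 : Real.exp 1 < 3 := by
        have := Real.exp_one_lt_d9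
        linarith
      rw [Real.exp_neg]
      have : (1 / 3 : ℝ) ≤ (Real.exp 1)⁻¹ := by
        rw [one_div]
        exact inv_anti₀ (Real.exp_pos _) h3.le
      linarith
    have hc' : t ≤ -(t * Real.log t) := by nlinarith
    have hd : 0 ≤ -((1 - t) * Real.log (1 - t)) := by nlinarith
    nlinarith
  · have hb : Real.log 2 + (t - 1) / (1 + t) ≤ Real.log (1 + t) := by
      have := Real.log_le_sub_one_of_pos (show 0 < 2 / (1 + t) by positivity)
      rw [Real.log_div two_ne_zero (by positivity)] at this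
      have h2 : 2 / (1 + t) - 1 = -((t - 1) / (1 + t)) := by field_simp; ring
      linarith
    have hb' : 2 * (1 + t) * Real.log 2 - 2 * (1 - t) ≤ 2 * (1 + t) * Real.log (1 + t) := by
      have h3 : 2 * (1 + t) * (Real.log 2 + (t - 1) / (1 + t)) =
          2 * (1 + t) * Real.log 2 - 2 * (1 - t) := by field_simp; ring
      rw [← h3]
      exact mul_le_mul_of_nonneg_left hb (by positivity)
    have hc : Real.log t ≤ t - 1 := Real.log_le_sub_one_of_pos h0
    have hc' : t * (1 - t) ≤ -(t * Real.log t) := by nlinarith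
    nlinarith [mul_nonneg (sub_nonneg.2 h1.le) (sub_nonneg.2 ht)]

theorem ua_real (y : ℝ) (hy0 : 0 < y) (hy : Real.exp 1 ^ 2 ≤ 8 * y ^ 2) (N r j d : ℝ)
    (hN : 0 < N) (hr : r = y * N) (hr0 : 0 < r) (hj : 0 ≤ j) (hd : 0 ≤ d) (hjd : j + d = r) :
    2 * (r + j) * Real.log N - 2 * (r + j) * Real.log (r + j) + 2 * (r + j) + j * Real.log j - j +
      j * Real.log 2 + d * Real.log d - d ≤ r * Real.log N + r - r * Real.log y := by
  have hlN : Real.log N = Real.log r - Real.log y := by
    rw [hr, Real.log_mul hy0.ne' hN.ne']; ring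
  have hyl : 1 - Real.log y ≤ 3 / 2 * Real.log 2 := by
    have h := Real.log_le_log (by positivity) hy
    rw [Real.log_pow, Real.log_exp, Real.log_mul (by norm_num) (by positivity), Real.log_pow] at h
    have h8 : Real.log 8 = 3 * Real.log 2 := by
      rw [show (8 : ℝ) = 2 ^ 3 by norm_num, Real.log_pow]; norm_num
    rw [h8] at h
    push_cast at h
    linarith
  rcases hj.eq_or_lt with rfl | hj'
  · have hdr : d = r := by linarith
    subst hdr
    simp only [add_zero, Real.log_zero, mul_zero, zero_mul]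
    rw [hlN]
    nlinarith
  rcases hd.eq_or_lt with rfl | hd'
  · have hjr : j = r := by linarith
    subst hjr
    have h2 : Real.log (j + j) = Real.log 2 + Real.log j := by
      rw [← two_mul, Real.log_mul (by norm_num) hj'.ne']
    rw [h2, hlN]
    simp only [Real.log_zero, mul_zero]
    nlinarith
  set t : ℝ := j / r with ht
  have ht0 : 0 < t := by positivity
  have ht1 : t < 1 := by rw [ht, div_lt_one hr0]; linarith
  have hjt : j = t * r := by rw [ht]; field_simp
  have hdt : d = (1 - t) * r := by rw [sub_mul, ← hjt]; linarith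
  have hlj : Real.log j = Real.log t + Real.log r := by
    rw [hjt, Real.log_mul ht0.ne' hr0.ne']
  have hld : Real.log d = Real.log (1 - t) + Real.log r := by
    rw [hdt, Real.log_mul (by linarith) hr0.ne']
  have hlm : Real.log (r + j) = Real.log (1 + t) + Real.log r := by
    rw [show r + j = (1 + t) * r by rw [hjt]; ring, Real.log_mul (by positivity) hr0.ne']
  have he := ua_entropy t ht0 ht1
  rw [hlj, hld, hlm, hlN, hdt, hjt]
  have key : r * Real.log r + (r * (1 - Real.log y) +
      r * (t * (2 * (1 - Real.log y) + Real.log 2) - 2 * (1 + t) * Real.log (1 + t) +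
        t * Real.log t + (1 - t) * Real.log (1 - t))) ≤
      r * Real.log r + r * (1 - Real.log y) := by
    have h1 : t * (2 * (1 - Real.log y) + Real.log 2) ≤ t * (4 * Real.log 2) :=
      mul_le_mul_of_nonneg_left (by linarith) ht0.le
    have h2 : t * (2 * (1 - Real.log y) + Real.log 2) - 2 * (1 + t) * Real.log (1 + t) +
        t * Real.log t + (1 - t) * Real.log (1 - t) ≤ 0 := by linarith
    nlinarith
  nlinarith [key]

theorem upper_asymp (y : ℝ) (hy0 : 0 < y) (hy1 : y ≤ 1) (hy : Real.exp 1 ^ 2 ≤ 8 * y ^ 2)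
    (ε : ℝ) (hε : 0 < ε) :
    ∃ N0 : ℕ, ∀ N : ℕ, N0 ≤ N → ∀ r : ℕ, (r : ℝ) = y * N →
      ∑ j ∈ range (r + 1), ((N ^ 2).choose (r + j) : ℝ) * (j.factorial * Tsum j (r - j)) /
        ((r + j).factorial : ℝ) ≤
      Real.exp (r * Real.log N + N * (y - y * Real.log y + ε)) := by
  set q : ℝ := Real.exp (-(ε / 4)) with hq
  have hq0 : 0 < q := Real.exp_pos _
  have hq1 : q < 1 := by
    rw [hq, ← Real.exp_zero]; exact Real.exp_lt_exp.2 (by linarith)
  have hlq : Real.log q = -(ε / 4) := by rw [hq, Real.log_exp]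
  set η : ℝ := ε / 4 with hη
  have hη0 : 0 < η := by positivity
  set K : ℝ := Real.exp (uaC q / η + 1) with hK
  have hK0 : 0 < K := Real.exp_pos _
  refine ⟨max 1 ⌈192 * K / ε ^ 3⌉₊, ?_⟩
  intro N hN r hr
  have hN1 : 1 ≤ N := le_trans (le_max_left _ _) hN
  have hN2 : 192 * K / ε ^ 3 ≤ N :=
    (Nat.le_ceil _).trans (by exact_mod_cast le_trans (le_max_right _ _) hN)
  have hN0 : (0 : ℝ) < N := by exact_mod_cast hN1
  have hr0 : (0 : ℝ) < r := by rw [hr]; positivity
  have hrN : r ≤ N := by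
    have : (r : ℝ) ≤ N := by rw [hr]; nlinarith
    exact_mod_cast this
  -- polynomial factor
  have hpoly : ((N : ℝ) + 1) ^ 2 * K ≤ Real.exp (ε / 2 * N) := by
    have h1 : (ε / 2 * N) ^ 3 / (Nat.factorial 3 : ℝ) ≤ Real.exp (ε / 2 * N) :=
      Real.pow_div_factorial_le_exp _ (by positivity) 3
    have h2 : (Nat.factorial 3 : ℝ) = 6 := by norm_num [Nat.factorial]
    rw [h2] at h1
    refine le_trans ?_ h1
    have hN1' : (1 : ℝ) ≤ N := by exact_mod_cast hN1
    have h3 : ((N : ℝ) + 1) ^ 2 ≤ 4 * N ^ 2 := by nlinarith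
    rw [div_le_iff₀ (by positivity)] at hN2
    have h4 : (ε / 2 * N) ^ 3 / 6 = (N * ε ^ 3) * N ^ 2 / 48 := by ring
    rw [h4]
    calc ((N : ℝ) + 1) ^ 2 * K ≤ 4 * N ^ 2 * K := mul_le_mul_of_nonneg_right h3 hK0.le
      _ = (192 * K) * N ^ 2 / 48 := by ring
      _ ≤ (N * ε ^ 3) * N ^ 2 / 48 := by
          apply div_le_div_of_nonneg_right _ (by norm_num)
          exact mul_le_mul_of_nonneg_right hN2 (by positivity)
  have hterm : ∀ j ∈ range (r + 1),
      ((N ^ 2).choose (r + j) : ℝ) * (j.factorial * Tsum j (r - j)) / ((r + j).factorial : ℝ) ≤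
      ((N : ℝ) + 1) * (K * Real.exp (r * Real.log N + N * (y - y * Real.log y) +
        ε / 2 * N)) := by
    intro j hj
    rw [mem_range] at hj
    have hjr : j ≤ r := by omega
    obtain ⟨d, hd⟩ : ∃ d, r - j = d := ⟨_, rfl⟩
    rw [hd]
    have hjd : (j : ℝ) + d = r := by exact_mod_cast (by omega : j + d = r)
    have hjN : j ≤ N := hjr.trans hrN
    have hdN : (d : ℝ) ≤ N := by exact_mod_cast (by omega : d ≤ N)
    have hm : ((r + j : ℕ) : ℝ) = r + j := by push_cast; ring
    have hc : ((N ^ 2).choose (r + j) : ℝ) ≤ (N : ℝ) ^ (2 * (r + j)) / ((r + j).factorial : ℝ) := by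
      have := Nat.choose_le_pow_div (α := ℝ) (r + j) (N ^ 2)
      refine this.trans (le_of_eq ?_)
      push_cast
      rw [← pow_mul]
    have hNp : (N : ℝ) ^ (2 * (r + j)) = Real.exp (2 * (r + j) * Real.log N) := by
      rw [← Real.exp_log (show (0 : ℝ) < (N : ℝ) ^ (2 * (r + j)) by positivity), Real.log_pow]
      congr 1
      push_cast
      ring
    have hf := ua_inv_factorial_le_exp (r + j)
    rw [hm] at hf
    have hjf := ua_factorial_le_exp j
    have hT := ua_tsum_bound q η hq0 hq1 hη0 N j d hN1 hjN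
    have hreal := ua_real y hy0 hy N r j d hN0 hr hr0 (Nat.cast_nonneg _) (Nat.cast_nonneg _) hjd
    have hfpos : (0 : ℝ) < ((r + j).factorial : ℝ) := by exact_mod_cast Nat.factorial_pos _
    calc ((N ^ 2).choose (r + j) : ℝ) * (j.factorial * Tsum j d) / ((r + j).factorial : ℝ)
        ≤ ((N : ℝ) ^ (2 * (r + j)) / ((r + j).factorial : ℝ)) * (j.factorial * Tsum j d) /
          ((r + j).factorial : ℝ) := by
          apply div_le_div_of_nonneg_right _ hfpos.le
          exact mul_le_mul_of_nonneg_right hc (by positivity)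
      _ = Real.exp (2 * (r + j) * Real.log N) * (1 / ((r + j).factorial : ℝ)) *
          (1 / ((r + j).factorial : ℝ)) * ((j.factorial : ℝ) * Tsum j d) := by
          rw [hNp]; ring
      _ ≤ Real.exp (2 * (r + j) * Real.log N) * Real.exp (r + j - (r + j) * Real.log (r + j)) *
          Real.exp (r + j - (r + j) * Real.log (r + j)) *
          ((((j : ℝ) + 1) * Real.exp (j * Real.log j - j + 1)) *
            Real.exp (j * Real.log 2 + d * Real.log d - d - d * Real.log q + η * N +
              uaC q / η)) := by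
          gcongr
      _ = ((j : ℝ) + 1) * Real.exp ((2 * (r + j) * Real.log N - 2 * (r + j) * Real.log (r + j) +
            2 * (r + j) + j * Real.log j - j + j * Real.log 2 + d * Real.log d - d) +
            (uaC q / η + 1) + (- d * Real.log q + η * N)) := by
          rw [← Real.exp_add, ← Real.exp_add]
          have : ∀ a b c : ℝ, Real.exp a * ((((j : ℝ) + 1) * Real.exp b) * Real.exp c) =
              ((j : ℝ) + 1) * Real.exp (a + b + c) := by
            intro a b c
            rw [Real.exp_add, Real.exp_add]; ring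
          rw [this]
          congr 2
          ring
      _ ≤ ((N : ℝ) + 1) * Real.exp ((r * Real.log N + r - r * Real.log y) +
            (uaC q / η + 1) + (ε / 2 * N)) := by
          have h1 : (j : ℝ) + 1 ≤ N + 1 := by
            have : (j : ℝ) ≤ N := by exact_mod_cast hjN
            linarith
          have h2 : - (d : ℝ) * Real.log q + η * N ≤ ε / 2 * N := by
            rw [hlq, hη]
            nlinarith
          gcongr
      _ = ((N : ℝ) + 1) * (K * Real.exp (r * Real.log N + N * (y - y * Real.log y) +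
            ε / 2 * N)) := by
          rw [hK, ← Real.exp_add]
          congr 2
          rw [hr]
          ring
  calc ∑ j ∈ range (r + 1), ((N ^ 2).choose (r + j) : ℝ) * (j.factorial * Tsum j (r - j)) /
        ((r + j).factorial : ℝ)
      ≤ ∑ _j ∈ range (r + 1), ((N : ℝ) + 1) * (K * Real.exp (r * Real.log N +
          N * (y - y * Real.log y) + ε / 2 * N)) := Finset.sum_le_sum hterm
    _ = ((r : ℝ) + 1) * (((N : ℝ) + 1) * (K * Real.exp (r * Real.log N +
          N * (y - y * Real.log y) + ε / 2 * N))) := by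
        rw [Finset.sum_const, card_range, nsmul_eq_mul]; push_cast; ring
    _ ≤ ((N : ℝ) + 1) * (((N : ℝ) + 1) * (K * Real.exp (r * Real.log N +
          N * (y - y * Real.log y) + ε / 2 * N))) := by
        have : (r : ℝ) ≤ N := by exact_mod_cast hrN
        gcongr
    _ = (((N : ℝ) + 1) ^ 2 * K) * Real.exp (r * Real.log N +
          N * (y - y * Real.log y) + ε / 2 * N) := by ring
    _ ≤ Real.exp (ε / 2 * N) * Real.exp (r * Real.log N +
          N * (y - y * Real.log y) + ε / 2 * N) :=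
        mul_le_mul_of_nonneg_right hpoly (Real.exp_pos _).le
    _ = Real.exp (r * Real.log N + N * (y - y * Real.log y + ε)) := by
        rw [← Real.exp_add]; congr 1; ring

end Pool.Agent.Hhelper51.Cat
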