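import Pool.Agent.Hhelper51.Cat.Defs

set_option autoImplicit false

/-! # M1a: the standard caterpillar with leaves in the order given by a permutation -/

namespace Pool.Agent.Hhelper51.Cat

open Finset

namespace TrA

/-- position of a leaf of rank `r` in a caterpillar with `k` internal vertices -/
def pos (k r : ℕ) : ℕ := min (r - 1) (k - 1)

lemma pos_lt (k r : ℕ) (hk : 1 ≤ k) : pos k r < k := by unfold pos; omega

lemma pos_mono (k : ℕ) {r s : ℕ} (h : r ≤ s) : pos k r ≤ pos k s := by unfold pos; omega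

/-- adjacency of the caterpillar with leaves `Fin (k + 2)` of rank `π a` -/
def adj (k : ℕ) (π : Equiv.Perm (Fin (k + 2))) : Fin (k + 2) ⊕ Fin k → Fin (k + 2) ⊕ Fin k → Prop
  | .inl _, .inl _ => False
  | .inl a, .inr i => pos k (π a) = i
  | .inr i, .inl a => pos k (π a) = i
  | .inr i, .inr j => (i : ℕ) + 1 = j ∨ (j : ℕ) + 1 = i

def gr (k : ℕ) (π : Equiv.Perm (Fin (k + 2))) : SimpleGraph (Fin (k + 2) ⊕ Fin k) where
  Adj := adj k π
  symm := ⟨by
    rintro (a | i) (b | j) h
    · exact h
    · exact h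
    · exact h
    · exact h.symm⟩
  loopless := ⟨by
    rintro (a | i) h
    · exact h
    · rcases h with h | h <;> omega⟩

variable {k : ℕ} (π : Equiv.Perm (Fin (k + 2)))

instance : DecidableRel (gr k π).Adj := by
  rintro (a | i) (b | j)
  · exact inferInstanceAs (Decidable False)
  · exact inferInstanceAs (Decidable (pos k (π a) = j))
  · exact inferInstanceAs (Decidable (pos k (π b) = i))
  · exact inferInstanceAs (Decidable ((i : ℕ) + 1 = j ∨ (j : ℕ) + 1 = i))

lemma adj_leaf (hk : 1 ≤ k) (a : Fin (k + 2)) :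
    (gr k π).Adj (.inl a) (.inr ⟨pos k (π a), pos_lt k _ hk⟩) := rfl

lemma nbr_leaf (hk : 1 ≤ k) (a : Fin (k + 2)) :
    (gr k π).neighborSet (.inl a) = {.inr ⟨pos k (π a), pos_lt k _ hk⟩} := by
  ext v
  rw [SimpleGraph.mem_neighborSet, Set.mem_singleton_iff]
  constructor
  · intro h
    rcases v with b | j
    · exact absurd h id
    · have h1 : pos k (π a) = j := h
      congr 1
      ext
      exact h1.symm
  · rintro rfl
    rfl

lemma reach (hk : 1 ≤ k) (v : Fin (k + 2) ⊕ Fin k) :
    (gr k π).Reachable (.inr ⟨0, hk⟩) v := by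
  have h1 : ∀ i : ℕ, ∀ hi : i < k, (gr k π).Reachable (.inr ⟨0, hk⟩) (.inr ⟨i, hi⟩) := by
    intro i
    induction i with
    | zero => intro _; rfl
    | succ i ih =>
      intro hi
      refine (ih (by omega)).trans (SimpleGraph.Adj.reachable ?_)
      exact Or.inl rfl
  rcases v with a | i
  · exact (h1 _ (pos_lt k _ hk)).trans (adj_leaf π hk a).symm.reachable
  · exact h1 i i.2

lemma connected (hk : 1 ≤ k) : (gr k π).Connected := by
  haveI : Nonempty (Fin (k + 2) ⊕ Fin k) := ⟨.inr ⟨0, hk⟩⟩
  exact ⟨fun u v => (reach π hk u).symm.trans (reach π hk v)⟩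

/-- the leaf of rank `r` -/
def lf (r : ℕ) (hr : r < k + 2) : Fin (k + 2) ⊕ Fin k := .inl (π.symm ⟨r, hr⟩)

lemma nbr_int (i : Fin k) : ((gr k π).neighborSet (.inr i)).ncard = 3 := by
  -- the neighbours are obtained as the image of an explicit set with three elements
  have hi := i.2
  -- left neighbour: the previous internal vertex, or the leaf of rank 0
  set L : Fin (k + 2) ⊕ Fin k :=
    if h : (i : ℕ) = 0 then lf π 0 (by omega) else .inr ⟨i - 1, by omega⟩ with hL
  set M : Fin (k + 2) ⊕ Fin k := lf π (i + 1) (by omega) with hM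
  set Rt : Fin (k + 2) ⊕ Fin k :=
    if h : (i : ℕ) + 1 = k then lf π (k + 1) (by omega) else .inr ⟨i + 1, by omega⟩ with hR
  have hset : (gr k π).neighborSet (.inr i) = {L, M, Rt} := by
    ext v
    rw [SimpleGraph.mem_neighborSet, Set.mem_insert_iff, Set.mem_insert_iff,
      Set.mem_singleton_iff]
    rcases v with a | j
    · have hadj : (gr k π).Adj (.inr i) (.inl a) ↔ pos k (π a) = i := Iff.rfl
      rw [hadj]
      have hlf : ∀ (r : ℕ) (hr : r < k + 2), (Sum.inl a : Fin (k + 2) ⊕ Fin k) = lf π r hr ↔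
          ((π a : Fin (k + 2)) : ℕ) = r := by
        intro r hr
        unfold lf
        rw [Sum.inl.injEq, Equiv.eq_symm_apply, Fin.ext_iff]
      have h1 : (Sum.inl a : Fin (k + 2) ⊕ Fin k) = L ↔
          (i : ℕ) = 0 ∧ ((π a : Fin (k + 2)) : ℕ) = 0 := by
        rw [hL]
        split_ifs with h
        · rw [hlf]; simp [h]
        · simp [h]
      have h2 : (Sum.inl a : Fin (k + 2) ⊕ Fin k) = Rt ↔
          (i : ℕ) + 1 = k ∧ ((π a : Fin (k + 2)) : ℕ) = k + 1 := by
        rw [hR]
        split_ifs with h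
        · rw [hlf]; simp [h]
        · simp [h]
      rw [h1, h2, hM, hlf]
      have hpa := (π a).2
      unfold pos
      omega
    · have hadj : (gr k π).Adj (.inr i) (.inr j) ↔ ((i : ℕ) + 1 = j ∨ (j : ℕ) + 1 = i) := Iff.rfl
      rw [hadj]
      have hj := j.2
      have h1 : (Sum.inr j : Fin (k + 2) ⊕ Fin k) = L ↔ (j : ℕ) + 1 = i := by
        rw [hL]
        split_ifs with h
        · unfold lf; simp; omega
        · rw [Sum.inr.injEq, Fin.ext_iff]; simp only; omega
      have h2 : (Sum.inr j : Fin (k + 2) ⊕ Fin k) = Rt ↔ (i : ℕ) + 1 = j := by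
        rw [hR]
        split_ifs with h
        · unfold lf; simp; omega
        · rw [Sum.inr.injEq, Fin.ext_iff]; simp only; omega
      have h3 : ¬ (Sum.inr j : Fin (k + 2) ⊕ Fin k) = M := by
        rw [hM]; unfold lf; simp
      rw [h1, h2]
      constructor
      · rintro (h | h)
        · exact Or.inr (Or.inr h)
        · exact Or.inl h
      · rintro (h | h | h)
        · exact Or.inr h
        · exact absurd h h3
        · exact Or.inl h
  have hlfinj : ∀ (r s : ℕ) (hr : r < k + 2) (hs : s < k + 2), lf π r hr = lf π s hs ↔ r = s := by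
    intro r s hr hs
    unfold lf
    rw [Sum.inl.injEq, Equiv.apply_eq_iff_eq, Fin.ext_iff]
  have hLM : L ≠ M := by
    rw [hL, hM]
    split_ifs with h
    · rw [Ne, hlfinj]; omega
    · unfold lf; simp
  have hMR : M ≠ Rt := by
    rw [hR, hM]
    split_ifs with h
    · rw [Ne, hlfinj]; omega
    · unfold lf; simp
  have hLR : L ≠ Rt := by
    rw [hL, hR]
    split_ifs with h h'
    · rw [Ne, hlfinj]; omega
    · unfold lf; simp
    · unfold lf; simp
    · rw [Ne, Sum.inr.injEq, Fin.ext_iff]; simp only; omega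
  rw [hset]
  rw [Set.ncard_eq_three]
  exact ⟨L, M, Rt, hLM, hLR, hMR, rfl⟩

lemma isTree (hk : 1 ≤ k) : (gr k π).IsTree := by
  classical
  rw [SimpleGraph.isTree_iff_connected_and_card]
  refine ⟨connected π hk, ?_⟩
  have h1 := (gr k π).sum_degrees_eq_twice_card_edges
  rw [Fintype.sum_sum_type] at h1
  have hl : ∀ a : Fin (k + 2), (gr k π).degree (.inl a) = 1 := by
    intro a
    rw [← SimpleGraph.card_neighborSet_eq_degree, ← Nat.card_eq_fintype_card,
      Nat.card_coe_set_eq, nbr_leaf π hk, Set.ncard_singleton]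
  have hi : ∀ i : Fin k, (gr k π).degree (.inr i) = 3 := by
    intro i
    rw [← SimpleGraph.card_neighborSet_eq_degree, ← Nat.card_eq_fintype_card,
      Nat.card_coe_set_eq, nbr_int π]
  simp_rw [hl, hi] at h1
  have h2 : Nat.card (gr k π).edgeSet = (gr k π).edgeFinset.card := by
    rw [Nat.card_eq_fintype_card, ← SimpleGraph.edgeFinset_card]
  rw [h2]
  simp at h1 ⊢
  omega

/-- level of a vertex -/
def lev : Fin (k + 2) ⊕ Fin k → ℕ
  | .inl a => pos k (π a)
  | .inr i => i

lemma cross (j : Fin k) {u v : Fin (k + 2) ⊕ Fin k} (p : (gr k π).Walk u v) :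
    lev π u ≤ j → (j : ℕ) ≤ lev π v → (lev π u < j ∨ ∃ i, u = .inr i) →
      .inr j ∈ p.support := by
  induction p with
  | nil =>
    rename_i u
    intro h1 h2 h3
    rcases h3 with h3 | ⟨i, rfl⟩
    · omega
    · have : i = j := by
        ext
        have h4 : lev π (.inr i) = i := rfl
        omega
      subst this
      simp
  | cons h p ih =>
    rename_i u w v
    intro h1 h2 h3
    rw [SimpleGraph.Walk.support_cons, List.mem_cons]
    by_cases hu : (.inr j : Fin (k + 2) ⊕ Fin k) = u
    · exact Or.inl hu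
    · right
      rcases u with a | i
      · have hlt : pos k (π a) < j := by
          rcases h3 with h3 | ⟨i, hi⟩
          · exact h3
          · exact absurd hi (by simp)
        rcases w with b | i'
        · exact absurd h id
        · have h4 : pos k (π a) = i' := h
          apply ih _ h2 (Or.inr ⟨i', rfl⟩)
          show (i' : ℕ) ≤ j
          omega
      · have hlt : (i : ℕ) < j := by
          have h4 : (i : ℕ) ≤ j := h1
          have h5 : (i : ℕ) ≠ j := by
            intro h5
            apply hu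
            congr 1
            ext
            exact h5.symm
          omega
        rcases w with b | i'
        · have h4 : pos k (π b) = i := h
          have h5 : lev π (.inl b) < j := by
            show pos k (π b) < j
            omega
          exact ih h5.le h2 (Or.inl h5)
        · have h4 : (i : ℕ) + 1 = i' ∨ (i' : ℕ) + 1 = i := h
          apply ih _ h2 (Or.inr ⟨i', rfl⟩)
          show (i' : ℕ) ≤ j
          omega

/-- the phylogenetic tree -/
def tree (hk : 1 ≤ k) : PhyloTree (k + 2) where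
  V := Fin (k + 2) ⊕ Fin k
  finite := inferInstance
  G := gr k π
  isTree := isTree π hk
  deg := by
    rintro (a | i)
    · left
      rw [nbr_leaf π hk, Set.ncard_singleton]
    · right
      exact nbr_int π i
  leaf := Sum.inl
  leaf_injective := Sum.inl_injective
  leaf_range := by
    rintro (a | i)
    · rw [nbr_leaf π hk, Set.ncard_singleton]
      simp
    · rw [nbr_int π i]
      simp

lemma isCat (hk : 1 ≤ k) : (tree π hk).IsCaterpillar := by
  refine ⟨k, ⟨?_⟩⟩
  refine SimpleGraph.Iso.symm ⟨⟨fun i => ⟨.inr i, ?_⟩, fun v => ?_, ?_, ?_⟩, ?_⟩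
  · show Sum.inr i ∉ Set.range Sum.inl
    simp
  · exact match v with
      | ⟨.inl a, h⟩ => absurd ⟨a, rfl⟩ h
      | ⟨.inr i, _⟩ => i
  · intro i; rfl
  · rintro ⟨a | i, h⟩
    · exact absurd ⟨a, rfl⟩ h
    · rfl
  · intro i j
    rw [SimpleGraph.pathGraph_adj]
    rfl

lemma mem_span (hk : 1 ≤ k) (A : Finset (Fin (k + 2))) (a b : Fin (k + 2)) (ha : a ∈ A)
    (hb : b ∈ A) (hab : a ≠ b) (j : Fin k) (h1 : pos k (π a) ≤ j) (h2 : (j : ℕ) ≤ pos k (π b)) :
    (.inr j : Fin (k + 2) ⊕ Fin k) ∈ (tree π hk).span A := by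
  obtain ⟨p, hp⟩ := (connected π hk).exists_isPath (.inl a) (.inl b)
  have key : ∀ q : (gr k π).Walk (.inl a) (.inl b), (.inr j : Fin (k + 2) ⊕ Fin k) ∈ q.support := by
    intro q
    rcases h1.lt_or_eq with h3 | h3
    · exact cross π j q h1 h2 (Or.inl h3)
    · cases q with
      | nil => exact absurd rfl hab
      | cons h q =>
        rename_i w
        rw [SimpleGraph.Walk.support_cons, List.mem_cons]
        right
        rcases w with c | i
        · exact absurd h id
        · have h4 : pos k (π a) = i := h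
          have h5 : i = j := by ext; omega
          subst h5
          exact q.start_mem_support
  exact ⟨a, ha, b, hb, p, hp, key p⟩

end TrA

theorem exists_caterpillar {n : ℕ} (hn : 3 ≤ n) (π : Equiv.Perm (Fin n)) :
    ∃ T : PhyloTree n, T.IsCaterpillar ∧
      ∀ P : Finpartition (univ : Finset (Fin n)), T.Convex P → IntDisj π P := by
  obtain ⟨k, rfl⟩ : ∃ k, n = k + 2 := ⟨n - 2, by omega⟩
  have hk : 1 ≤ k := by omega
  refine ⟨TrA.tree π hk, TrA.isCat π hk, ?_⟩
  intro P hP A hA B hB hAB hA2 hB2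
  have hdisj : Disjoint A B := P.disjoint hA hB hAB
  have hAne : A.Nonempty := Finset.card_pos.1 (by omega)
  have hBne : B.Nonempty := Finset.card_pos.1 (by omega)
  obtain ⟨a0, ha0, ha0min⟩ := Finset.exists_min_image A (fun a => π a) hAne
  obtain ⟨a1, ha1, ha1max⟩ := Finset.exists_max_image A (fun a => π a) hAne
  obtain ⟨b0, hb0, hb0min⟩ := Finset.exists_min_image B (fun a => π a) hBne
  obtain ⟨b1, hb1, hb1max⟩ := Finset.exists_max_image B (fun a => π a) hBne
  by_contra hcon
  rw [not_or] at hcon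
  obtain ⟨h1, h2⟩ := hcon
  unfold Before at h1 h2
  push Not at h1 h2
  obtain ⟨a, ha, b, hb, hab⟩ := h1
  obtain ⟨b', hb', a', ha', hab'⟩ := h2
  -- the minimum of each class is at most the maximum of the other
  have e1 : π b0 ≤ π a1 := (hb0min b hb).trans (hab.trans (ha1max a ha))
  have e2 : π a0 ≤ π b1 := (ha0min a' ha').trans (hab'.trans (hb1max b' hb'))
  have e3 : π a0 ≤ π a1 := ha0min a1 ha1
  have e4 : π b0 ≤ π b1 := hb0min b1 hb1
  have ha01 : a0 ≠ a1 := by
    rintro rfl
    obtain ⟨c, hc, hca⟩ := Finset.exists_mem_ne (by omega : 1 < A.card) a0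
    have h3 := ha0min c hc
    have h4 := ha1max c hc
    exact hca (π.injective (le_antisymm h4 h3))
  have hb01 : b0 ≠ b1 := by
    rintro rfl
    obtain ⟨c, hc, hca⟩ := Finset.exists_mem_ne (by omega : 1 < B.card) b0
    have h3 := hb0min c hc
    have h4 := hb1max c hc
    exact hca (π.injective (le_antisymm h4 h3))
  have f1 := TrA.pos_mono k e1
  have f2 := TrA.pos_mono k e2
  have f3 := TrA.pos_mono k e3
  have f4 := TrA.pos_mono k e4
  have hj : max (TrA.pos k (π a0)) (TrA.pos k (π b0)) < k :=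
    max_lt (TrA.pos_lt k _ hk) (TrA.pos_lt k _ hk)
  have hdis := hP A hA B hB hAB
  have m1 := TrA.mem_span π hk A a0 a1 ha0 ha1 ha01 ⟨_, hj⟩ (le_max_left _ _) (max_le f3 f1)
  have m2 := TrA.mem_span π hk B b0 b1 hb0 hb1 hb01 ⟨_, hj⟩ (le_max_right _ _) (max_le f2 f4)
  exact Set.disjoint_left.1 hdis m1 m2

end Pool.Agent.Hhelper51.Cat
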