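import Pool.Agent.Hhelper51.Cat.Defs

set_option autoImplicit false

namespace Pool.Agent.Hhelper51.Cat

open Finset

namespace TB

variable {n : ℕ} (T : PhyloTree n)

/-- if only one edge leaves `S`, then a path with both ends in `S` stays in `S` -/
theorem no_return {V : Type} {G : SimpleGraph V} (S : Set V)
    (hS : ∀ v w v' w', G.Adj v w → v ∈ S → w ∉ S → G.Adj v' w' → v' ∈ S → w' ∉ S →
      s(v, w) = s(v', w'))
    {u w v : V} (p : G.Walk u w) (hp : p.IsPath) (hv : v ∈ p.support) (hu : u ∈ S) (hw : w ∈ S) :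
    v ∈ S := by
  classical
  by_contra hvS
  obtain ⟨d1, hd1, h1, h1'⟩ := (p.takeUntil v hv).exists_boundary_dart S hu hvS
  obtain ⟨d2, hd2, h2, h2'⟩ := (p.dropUntil v hv).exists_boundary_dart Sᶜ hvS (by simpa using hw)
  have h2'' : d2.snd ∈ S := by simpa using h2'
  have he := hS d1.fst d1.snd d2.snd d2.fst d1.adj h1 h1' d2.adj.symm h2'' h2
  have hnd : (p.edges).Nodup := hp.isTrail.edges_nodup
  rw [← p.take_spec hv, SimpleGraph.Walk.edges_append] at hnd
  have hdis := List.disjoint_of_nodup_append hnd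
  have e1 : d1.edge ∈ (p.takeUntil v hv).edges := List.mem_map_of_mem hd1
  have e2 : d2.edge ∈ (p.dropUntil v hv).edges := List.mem_map_of_mem hd2
  have e3 : d1.edge = d2.edge := by
    have a1 : d1.edge = s(d1.fst, d1.snd) := rfl
    have a2 : d2.edge = s(d2.fst, d2.snd) := rfl
    rw [a1, a2, he, Sym2.eq_swap]
  exact hdis e1 (e3 ▸ e2)

theorem leaf_nb (a : Fin n) : ∃ w, T.G.neighborSet (T.leaf a) = {w} :=
  Set.ncard_eq_one.1 ((T.leaf_range _).1 ⟨a, rfl⟩)

theorem leaf_nb_unique {a : Fin n} {v w : T.V} (hv : T.G.Adj (T.leaf a) v)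
    (hw : T.G.Adj (T.leaf a) w) : v = w := by
  obtain ⟨x, hx⟩ := leaf_nb T a
  have h1 : v ∈ T.G.neighborSet (T.leaf a) := hv
  have h2 : w ∈ T.G.neighborSet (T.leaf a) := hw
  rw [hx] at h1 h2
  exact (h1 : v = x).trans (h2 : w = x).symm

theorem leaf_nb_internal (hn : 3 ≤ n) {a : Fin n} {w : T.V} (hw : T.G.Adj (T.leaf a) w) :
    w ∈ T.internal := by
  rintro ⟨b, rfl⟩
  have hc : ∃ c : Fin n, c ≠ a ∧ c ≠ b := by
    by_contra hcon
    push Not at hcon
    have h1 : (univ : Finset (Fin n)) ⊆ {a, b} := by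
      intro c _
      by_cases hca : c = a
      · simp [hca]
      · simp [hcon c hca]
    have h2 := Finset.card_le_card h1
    have h3 : ({a, b} : Finset (Fin n)).card ≤ 2 := Finset.card_le_two
    rw [Finset.card_univ, Fintype.card_fin] at h2
    omega
  obtain ⟨c, hca, hcb⟩ := hc
  obtain ⟨p⟩ := T.isTree.connected.preconnected (T.leaf a) (T.leaf c)
  obtain ⟨d, -, h1, h2⟩ := p.exists_boundary_dart {T.leaf a, T.leaf b} (by simp) (by
    simp only [Set.mem_insert_iff, Set.mem_singleton_iff, not_or]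
    exact ⟨fun h => hca (T.leaf_injective h), fun h => hcb (T.leaf_injective h)⟩)
  have hadj := d.adj
  rcases h1 with h1 | h1
  · rw [h1] at hadj
    exact h2 (Or.inr (leaf_nb_unique T hadj hw))
  · have h1' : d.fst = T.leaf b := h1
    rw [h1'] at hadj
    exact h2 (Or.inl (leaf_nb_unique T hadj hw.symm))

/-- a position function -/
structure Pos (P : T.V → ℕ) : Prop where
  adj : ∀ v w, v ∈ T.internal → w ∈ T.internal → T.G.Adj v w → P v + 1 = P w ∨ P w + 1 = P v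
  inj : ∀ v w, v ∈ T.internal → w ∈ T.internal → P v = P w → v = w
  leaf : ∀ a w, T.G.Adj (T.leaf a) w → w ∈ T.internal ∧ P w = P (T.leaf a)

theorem exists_pos (hn : 3 ≤ n) (hT : T.IsCaterpillar) : ∃ P, Pos T P := by
  classical
  obtain ⟨m, ⟨φ⟩⟩ := hT
  let P : T.V → ℕ := fun v => if h : v ∈ T.internal then (φ ⟨v, h⟩ : ℕ) else
    if h' : ∃ w, ∃ _ : w ∈ T.internal, T.G.Adj v w then
      (φ ⟨h'.choose, h'.choose_spec.choose⟩ : ℕ) else 0
  have hPi : ∀ v (h : v ∈ T.internal), P v = (φ ⟨v, h⟩ : ℕ) := fun v h => dif_pos h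
  have hPl : ∀ a w (_ : T.G.Adj (T.leaf a) w), P w = P (T.leaf a) := by
    intro a w haw
    have hw := leaf_nb_internal T hn haw
    have h1 : T.leaf a ∉ T.internal := fun h => h ⟨a, rfl⟩
    have h2 : ∃ w, ∃ _ : w ∈ T.internal, T.G.Adj (T.leaf a) w := ⟨w, hw, haw⟩
    have h3 : P (T.leaf a) = (φ ⟨h2.choose, h2.choose_spec.choose⟩ : ℕ) := by
      simp only [P]
      rw [dif_neg h1, dif_pos h2]
    have h4 : w = h2.choose := leaf_nb_unique T haw h2.choose_spec.choose_spec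
    rw [h3, hPi w hw]
    have h5 : (⟨w, hw⟩ : T.internal) = ⟨h2.choose, h2.choose_spec.choose⟩ := Subtype.ext h4
    rw [h5]
  refine ⟨P, ⟨?_, ?_, ?_⟩⟩
  · intro v w hv hw hvw
    rw [hPi v hv, hPi w hw]
    have h1 : (T.G.induce T.internal).Adj ⟨v, hv⟩ ⟨w, hw⟩ := hvw
    have h2 := φ.map_adj_iff.2 h1
    exact SimpleGraph.pathGraph_adj.1 h2
  · intro v w hv hw hvw
    rw [hPi v hv, hPi w hw] at hvw
    have h1 := φ.injective (Fin.ext hvw)
    exact congrArg Subtype.val h1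
  · intro a w haw
    exact ⟨leaf_nb_internal T hn haw, hPl a w haw⟩

variable {T} {P : T.V → ℕ}

theorem cross (hP : Pos T P) {i : ℕ} {v w : T.V} (hvw : T.G.Adj v w) (hv : P v < i)
    (hw : ¬ P w < i) : v ∈ T.internal ∧ w ∈ T.internal ∧ P v + 1 = i ∧ P w = i := by
  have h1 : v ∈ T.internal := by
    rintro ⟨a, rfl⟩
    have := (hP.leaf a w hvw).2
    omega
  have h2 : w ∈ T.internal := by
    rintro ⟨a, rfl⟩
    have := (hP.leaf a v hvw.symm).2
    omega
  have h3 := hP.adj v w h1 h2 hvw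
  refine ⟨h1, h2, ?_, ?_⟩ <;> omega

theorem cross_unique (hP : Pos T P) (i : ℕ) (v w v' w' : T.V) (h : T.G.Adj v w)
    (hv : P v < i) (hw : ¬ P w < i) (h' : T.G.Adj v' w') (hv' : P v' < i) (hw' : ¬ P w' < i) :
    v = v' ∧ w = w' := by
  obtain ⟨a1, a2, a3, a4⟩ := cross hP h hv hw
  obtain ⟨b1, b2, b3, b4⟩ := cross hP h' hv' hw'
  exact ⟨hP.inj _ _ a1 b1 (by omega), hP.inj _ _ a2 b2 (by omega)⟩

theorem path_lower (hP : Pos T P) {u w v : T.V} (p : T.G.Walk u w) (hp : p.IsPath)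
    (hv : v ∈ p.support) : ¬ (P u < P v ∧ P w < P v) := by
  rintro ⟨h1, h2⟩
  have := no_return {x | P x < P v} (fun a b a' b' hab ha hb hab' ha' hb' => by
    obtain ⟨rfl, rfl⟩ := cross_unique hP (P v) a b a' b' hab ha hb hab' ha' hb'
    rfl) p hp hv h1 h2
  have h3 : P v < P v := this
  omega

theorem path_upper (hP : Pos T P) {u w v : T.V} (p : T.G.Walk u w) (hp : p.IsPath)
    (hv : v ∈ p.support) : ¬ (P v < P u ∧ P v < P w) := by
  rintro ⟨h1, h2⟩
  have := no_return {x | ¬ P x < P v + 1} (fun a b a' b' hab ha hb hab' ha' hb' => by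
    have hb2 : P b < P v + 1 := not_not.1 hb
    have hb2' : P b' < P v + 1 := not_not.1 hb'
    obtain ⟨rfl, rfl⟩ := cross_unique hP (P v + 1) b a b' a' hab.symm hb2 ha hab'.symm hb2' ha'
    rfl) p hp hv (by simp only [Set.mem_ofPred_eq]; omega) (by simp only [Set.mem_ofPred_eq]; omega)
  have h3 : ¬ P v < P v + 1 := this
  omega

theorem leaf_mem {a a' c : Fin n} (p : T.G.Walk (T.leaf a) (T.leaf a')) (hp : p.IsPath)
    (hv : T.leaf c ∈ p.support) : c = a ∨ c = a' := by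
  by_contra hcon
  push Not at hcon
  have := no_return {x | x ≠ T.leaf c} (fun v w v' w' h _ hw h' _ hw' => by
    have hw2 : w = T.leaf c := not_not.1 hw
    have hw2' : w' = T.leaf c := not_not.1 hw'
    rw [hw2] at h
    rw [hw2'] at h'
    have h3 := leaf_nb_unique T h.symm h'.symm
    rw [h3, hw2, hw2']) p hp hv
    (fun h => hcon.1 (T.leaf_injective h).symm) (fun h => hcon.2 (T.leaf_injective h).symm)
  exact this rfl

theorem lower_nbr (hP : Pos T P) {a : Fin n} {v : T.V} (hv : v ∈ T.internal)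
    (h : P (T.leaf a) ≤ P v) :
    ∃ x, T.G.Adj v x ∧ (x = T.leaf a ∨ (x ∈ T.internal ∧ P x < P v)) := by
  rcases Nat.lt_or_ge (P (T.leaf a)) (P v) with h1 | h1
  · obtain ⟨p⟩ := T.isTree.connected.preconnected (T.leaf a) v
    obtain ⟨d, -, h2, h3⟩ := p.exists_boundary_dart {x | P x < P v} h1 (lt_irrefl (P v))
    obtain ⟨b1, b2, b3, b4⟩ := cross hP d.adj h2 h3
    have h4 := hP.inj _ _ b2 hv b4
    refine ⟨d.fst, ?_, Or.inr ⟨b1, h2⟩⟩
    rw [← h4]; exact d.adj.symm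
  · obtain ⟨x, hx⟩ := leaf_nb T a
    have h2 : T.G.Adj (T.leaf a) x := by
      have : x ∈ T.G.neighborSet (T.leaf a) := by rw [hx]; rfl
      exact this
    obtain ⟨h3, h4⟩ := hP.leaf a x h2
    have h5 := hP.inj _ _ h3 hv (by omega)
    rw [h5] at h2
    exact ⟨T.leaf a, h2.symm, Or.inl rfl⟩

theorem upper_nbr (hP : Pos T P) {a : Fin n} {v : T.V} (hv : v ∈ T.internal)
    (h : P v ≤ P (T.leaf a)) :
    ∃ x, T.G.Adj v x ∧ (x = T.leaf a ∨ (x ∈ T.internal ∧ P v < P x)) := by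
  rcases Nat.lt_or_ge (P v) (P (T.leaf a)) with h1 | h1
  · obtain ⟨p⟩ := T.isTree.connected.preconnected v (T.leaf a)
    obtain ⟨d, -, h2, h3⟩ := p.exists_boundary_dart {x | P x < P v + 1}
      (Nat.lt_succ_self _) (by simp only [Set.mem_ofPred_eq]; omega)
    obtain ⟨b1, b2, b3, b4⟩ := cross hP d.adj h2 h3
    have h4 := hP.inj _ _ b1 hv (by omega)
    refine ⟨d.snd, ?_, Or.inr ⟨b2, by omega⟩⟩
    rw [← h4]; exact d.adj
  · obtain ⟨x, hx⟩ := leaf_nb T a
    have h2 : T.G.Adj (T.leaf a) x := by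
      have : x ∈ T.G.neighborSet (T.leaf a) := by rw [hx]; rfl
      exact this
    obtain ⟨h3, h4⟩ := hP.leaf a x h2
    have h5 := hP.inj _ _ h3 hv (by omega)
    rw [h5] at h2
    exact ⟨T.leaf a, h2.symm, Or.inl rfl⟩

theorem leaf_adj (hP : Pos T P) {a : Fin n} {v : T.V} (hv : v ∈ T.internal)
    (h : P (T.leaf a) = P v) : T.G.Adj v (T.leaf a) := by
  obtain ⟨x, hx⟩ := leaf_nb T a
  have h2 : T.G.Adj (T.leaf a) x := by
    have : x ∈ T.G.neighborSet (T.leaf a) := by rw [hx]; rfl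
    exact this
  obtain ⟨h3, h4⟩ := hP.leaf a x h2
  have h5 := hP.inj _ _ h3 hv (by omega)
  rw [h5] at h2
  exact h2.symm

theorem span_internal (hP : Pos T P) {A : Finset (Fin n)} {v : T.V} (hv : v ∈ T.internal)
    (h : v ∈ T.span A) :
    ∃ a₁ ∈ A, ∃ a₂ ∈ A, a₁ ≠ a₂ ∧ P (T.leaf a₁) ≤ P v ∧ P v ≤ P (T.leaf a₂) := by
  obtain ⟨a, ha, a', ha', p, hp, hvp⟩ := h
  have hne : a ≠ a' := by
    rintro rfl
    have hnil := SimpleGraph.Walk.isPath_iff_nil.1 hp
    rw [SimpleGraph.Walk.eq_nil_iff_nil.2 hnil] at hvp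
    simp only [SimpleGraph.Walk.support_nil, List.mem_singleton] at hvp
    exact hv ⟨a, hvp.symm⟩
  have h1 := path_lower hP p hp hvp
  have h2 := path_upper hP p hp hvp
  rcases Nat.lt_or_ge (P v) (P (T.leaf a)) with h3 | h3
  · exact ⟨a', ha', a, ha, hne.symm, by omega, by omega⟩
  · rcases Nat.lt_or_ge (P v) (P (T.leaf a')) with h4 | h4
    · exact ⟨a, ha, a', ha', hne, by omega, by omega⟩
    · rcases Nat.lt_or_ge (P (T.leaf a)) (P v) with h5 | h5
      · exact ⟨a, ha, a', ha', hne, by omega, by omega⟩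
      · exact ⟨a', ha', a, ha, hne.symm, by omega, by omega⟩

theorem four (hP : Pos T P) {π : Equiv.Perm (Fin n)}
    (hπ : ∀ a b, π a < π b → P (T.leaf a) ≤ P (T.leaf b)) {A B : Finset (Fin n)}
    (hAB : Disjoint A B) (hbef : Before π A B) {v : T.V} (hv : v ∈ T.internal)
    (hA : v ∈ T.span A) (hB : v ∈ T.span B) : False := by
  classical
  obtain ⟨a₁, ha₁, a₂, ha₂, hane, h1, h2⟩ := span_internal hP hv hA
  obtain ⟨b₁, hb₁, b₂, hb₂, hbne, h3, h4⟩ := span_internal hP hv hB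
  have h5 := hπ _ _ (hbef a₂ ha₂ b₁ hb₁)
  have e1 : P (T.leaf a₂) = P v := by omega
  have e2 : P (T.leaf b₁) = P v := by omega
  obtain ⟨x₁, hx₁, hx₁'⟩ := lower_nbr hP hv h1
  obtain ⟨x₂, hx₂, hx₂'⟩ := upper_nbr hP hv h4
  have n1 := leaf_adj hP hv e1
  have n2 := leaf_adj hP hv e2
  have hABne : ∀ a ∈ A, ∀ b ∈ B, T.leaf a ≠ T.leaf b := by
    intro a ha b hb hab
    have := T.leaf_injective hab
    subst this
    exact Finset.disjoint_left.1 hAB ha hb
  have hint : ∀ x ∈ T.internal, ∀ c, x ≠ T.leaf c := fun x hx c hxc => hx ⟨c, hxc.symm⟩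
  have d12 : T.leaf a₂ ≠ T.leaf b₁ := hABne _ ha₂ _ hb₁
  have d13 : T.leaf a₂ ≠ x₁ := by
    rcases hx₁' with rfl | ⟨hx, -⟩
    · exact fun h => hane (T.leaf_injective h).symm
    · exact (hint _ hx _).symm
  have d14 : T.leaf a₂ ≠ x₂ := by
    rcases hx₂' with rfl | ⟨hx, -⟩
    · exact hABne _ ha₂ _ hb₂
    · exact (hint _ hx _).symm
  have d23 : T.leaf b₁ ≠ x₁ := by
    rcases hx₁' with rfl | ⟨hx, -⟩
    · exact (hABne _ ha₁ _ hb₁).symm
    · exact (hint _ hx _).symm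
  have d24 : T.leaf b₁ ≠ x₂ := by
    rcases hx₂' with rfl | ⟨hx, -⟩
    · exact fun h => hbne (T.leaf_injective h)
    · exact (hint _ hx _).symm
  have d34 : x₁ ≠ x₂ := by
    rcases hx₁' with rfl | ⟨hx, hlt⟩
    · rcases hx₂' with rfl | ⟨hx', -⟩
      · exact hABne _ ha₁ _ hb₂
      · exact (hint _ hx' _).symm
    · rcases hx₂' with rfl | ⟨hx', hlt'⟩
      · exact hint _ hx _
      · rintro rfl; omega
  have := T.finite
  have hsub : ({T.leaf a₂, T.leaf b₁, x₁, x₂} : Set T.V) ⊆ T.G.neighborSet v := by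
    rintro y (rfl | rfl | rfl | rfl)
    · exact n1
    · exact n2
    · exact hx₁
    · exact hx₂
  have hcard : ({T.leaf a₂, T.leaf b₁, x₁, x₂} : Set T.V).ncard = 4 := by
    have h6 : ({T.leaf a₂, T.leaf b₁, x₁, x₂} : Set T.V) =
        (({T.leaf a₂, T.leaf b₁, x₁, x₂} : Finset T.V) : Set T.V) := by
      push_cast; rfl
    rw [h6, Set.ncard_coe_finset]
    rw [Finset.card_insert_of_notMem, Finset.card_insert_of_notMem, Finset.card_insert_of_notMem,
      Finset.card_singleton]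
    · simpa using d34
    · simp only [Finset.mem_insert, Finset.mem_singleton, not_or]
      exact ⟨d23, d24⟩
    · simp only [Finset.mem_insert, Finset.mem_singleton, not_or]
      exact ⟨d12, d13, d14⟩
  have h7 := Set.ncard_le_ncard hsub (Set.toFinite _)
  rw [hcard] at h7
  rcases T.deg v with h8 | h8 <;> omega

end TB

theorem caterpillar_order {n : ℕ} (hn : 3 ≤ n) (T : PhyloTree n) (hT : T.IsCaterpillar) :
    ∃ π : Equiv.Perm (Fin n),
      ∀ P : Finpartition (univ : Finset (Fin n)), IntDisj π P → T.Convex P := by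
  obtain ⟨P, hP⟩ := TB.exists_pos T hn hT
  set f : Fin n → ℕ := fun a => P (T.leaf a) with hf
  refine ⟨(Tuple.sort f).symm, fun Q hQ A hA B hB hAB => ?_⟩
  have hπ : ∀ a b, (Tuple.sort f).symm a < (Tuple.sort f).symm b →
      P (T.leaf a) ≤ P (T.leaf b) := by
    intro a b hab
    have h1 := Tuple.monotone_sort f hab.le
    simpa [hf] using h1
  have hdis : Disjoint A B := Q.disjoint hA hB hAB
  rw [Set.disjoint_left]
  intro v hvA hvB
  by_cases hv : v ∈ T.internal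
  · obtain ⟨a₁, ha₁, a₂, ha₂, hane, -, -⟩ := TB.span_internal hP hv hvA
    obtain ⟨b₁, hb₁, b₂, hb₂, hbne, -, -⟩ := TB.span_internal hP hv hvB
    have hcA : 2 ≤ A.card := Finset.one_lt_card.2 ⟨a₁, ha₁, a₂, ha₂, hane⟩
    have hcB : 2 ≤ B.card := Finset.one_lt_card.2 ⟨b₁, hb₁, b₂, hb₂, hbne⟩
    rcases hQ A hA B hB hAB hcA hcB with h | h
    · exact TB.four hP hπ hdis h hv hvA hvB
    · exact TB.four hP hπ hdis.symm h hv hvB hvA
  · have hv' : v ∈ Set.range T.leaf := not_not.1 hv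
    obtain ⟨c, rfl⟩ := hv'
    obtain ⟨a, ha, a', ha', p, hp, hvp⟩ := hvA
    obtain ⟨b, hb, b', hb', q, hq, hvq⟩ := hvB
    have h1 : c ∈ A := by
      rcases TB.leaf_mem p hp hvp with rfl | rfl <;> assumption
    have h2 : c ∈ B := by
      rcases TB.leaf_mem q hq hvq with rfl | rfl <;> assumption
    exact Finset.disjoint_left.1 hdis h1 h2

end Pool.Agent.Hhelper51.Cat
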