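import Pool.Agent.Hhelper51.Cat.Defs
import Pool.Agent.Hhelper51.Cat.TreesA
import Pool.Agent.Hhelper51.Cat.TreesB

set_option autoImplicit false

namespace Pool.Agent.Hhelper51.Cat

open Finset

variable {n : ℕ}

/-- Complete a family of pairwise disjoint sets of size at least two by singletons. -/
def complete (D : Finset (Finset (Fin n))) (h2 : ∀ A ∈ D, 2 ≤ A.card)
    (hd : ∀ A ∈ D, ∀ B ∈ D, A ≠ B → Disjoint A B) : Finpartition (univ : Finset (Fin n)) :=
  Finpartition.ofExistsUnique
    (D ∪ (univ.filter (fun a => ∀ A ∈ D, a ∉ A)).image (fun a => {a}))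
    (fun _ _ => subset_univ _)
    (by
      intro a _
      by_cases h : ∃ A ∈ D, a ∈ A
      · obtain ⟨A, hA, haA⟩ := h
        refine ⟨A, ⟨mem_union_left _ hA, haA⟩, ?_⟩
        rintro B ⟨hB, haB⟩
        rw [mem_union] at hB
        rcases hB with hB | hB
        · by_contra hne
          exact disjoint_left.mp (hd B hB A hA hne) haB haA
        · rw [mem_image] at hB
          obtain ⟨b, hb, rfl⟩ := hB
          rw [mem_singleton] at haB
          subst haB
          rw [mem_filter] at hb
          exact absurd haA (hb.2 A hA)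
      · push Not at h
        refine ⟨{a}, ⟨mem_union_right _ (mem_image.mpr ⟨a, mem_filter.mpr ⟨mem_univ _, h⟩, rfl⟩),
          mem_singleton_self _⟩, ?_⟩
        rintro B ⟨hB, haB⟩
        rw [mem_union] at hB
        rcases hB with hB | hB
        · exact absurd haB (h B hB)
        · rw [mem_image] at hB
          obtain ⟨b, hb, rfl⟩ := hB
          rw [mem_singleton] at haB
          rw [haB])
    (by
      intro h
      rw [mem_union] at h
      rcases h with h | h
      · have := h2 _ h; simp at this
      · rw [mem_image] at h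
        obtain ⟨b, _, hb⟩ := h
        exact singleton_ne_empty b hb)

theorem complete_parts (D : Finset (Finset (Fin n))) (h2 : ∀ A ∈ D, 2 ≤ A.card)
    (hd : ∀ A ∈ D, ∀ B ∈ D, A ≠ B → Disjoint A B) :
    (complete D h2 hd).parts =
      D ∪ (univ.filter (fun a => ∀ A ∈ D, a ∉ A)).image (fun a => {a}) := rfl

theorem complete_filter (D : Finset (Finset (Fin n))) (h2 : ∀ A ∈ D, 2 ≤ A.card)
    (hd : ∀ A ∈ D, ∀ B ∈ D, A ≠ B → Disjoint A B) :
    (complete D h2 hd).parts.filter (fun A => 2 ≤ A.card) = D := by
  ext A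
  rw [complete_parts, mem_filter, mem_union, mem_image]
  constructor
  · rintro ⟨h | ⟨a, _, rfl⟩, hc⟩
    · exact h
    · simp at hc
  · intro h; exact ⟨Or.inl h, h2 A h⟩

theorem complete_card (D : Finset (Finset (Fin n))) (h2 : ∀ A ∈ D, 2 ≤ A.card)
    (hd : ∀ A ∈ D, ∀ B ∈ D, A ≠ B → Disjoint A B) :
    (complete D h2 hd).parts.card + ∑ A ∈ D, A.card = n + D.card := by
  rw [complete_parts, card_union_of_disjoint]
  · rw [card_image_of_injective _ (fun a b h => singleton_injective h)]
    have h1 : (univ.filter (fun a : Fin n => ∀ A ∈ D, a ∉ A)) = (D.biUnion id)ᶜ := by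
      ext a; simp
    have h3 : (D.biUnion id).card = ∑ A ∈ D, A.card := by
      rw [card_biUnion]
      · rfl
      · intro A hA B hB hne; exact hd A hA B hB hne
    rw [h1, card_compl, h3, Fintype.card_fin]
    have h4 : ∑ A ∈ D, A.card ≤ n := by
      rw [← h3]
      have := card_le_univ (D.biUnion id)
      rwa [Fintype.card_fin] at this
    omega
  · rw [disjoint_left]
    intro A hA hA'
    rw [mem_image] at hA'
    obtain ⟨a, _, rfl⟩ := hA'
    have := h2 _ hA
    simp at this

theorem complete_intDisj (π : Equiv.Perm (Fin n)) (D : Finset (Finset (Fin n)))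
    (h2 : ∀ A ∈ D, 2 ≤ A.card) (hd : ∀ A ∈ D, ∀ B ∈ D, A ≠ B → Disjoint A B)
    (hsep : ∀ A ∈ D, ∀ B ∈ D, A ≠ B → Before π A B ∨ Before π B A) :
    IntDisj π (complete D h2 hd) := by
  intro A hA B hB hne hcA hcB
  have hA' : A ∈ D := by
    rw [← complete_filter D h2 hd]; exact mem_filter.mpr ⟨hA, hcA⟩
  have hB' : B ∈ D := by
    rw [← complete_filter D h2 hd]; exact mem_filter.mpr ⟨hB, hcB⟩
  exact hsep A hA' B hB' hne

theorem mem_common {π σ : Equiv.Perm (Fin n)} {k : ℕ} {P : Finpartition (univ : Finset (Fin n))} :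
    P ∈ common π σ k ↔ P.parts.card = k ∧ IntDisj π P ∧ IntDisj σ P := by
  unfold common; simp

theorem mem_pairFam {σ : Equiv.Perm (Fin n)} {s : ℕ} {F : Finset (Fin n × Fin n)} :
    F ∈ pairFam σ s ↔ F.card = s ∧ PairOK σ F := by
  unfold pairFam; simp

/-- one-class partitions -/
theorem common_ge_choose (π ρ : Equiv.Perm (Fin n)) (r : ℕ) (hr : 1 ≤ r) :
    n.choose (r + 1) ≤ (common π ρ (n - r)).card := by
  classical
  have h : (powersetCard (r + 1) (univ : Finset (Fin n))).card = n.choose (r + 1) := by
    rw [card_powersetCard, card_univ, Fintype.card_fin]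
  rw [← h]
  have hok : ∀ A ∈ powersetCard (r + 1) (univ : Finset (Fin n)),
      (∀ C ∈ ({A} : Finset (Finset (Fin n))), 2 ≤ C.card) ∧
      (∀ C ∈ ({A} : Finset (Finset (Fin n))), ∀ C' ∈ ({A} : Finset (Finset (Fin n))), C ≠ C' →
        Disjoint C C') := by
    intro A hA
    rw [mem_powersetCard] at hA
    constructor
    · intro C hC; rw [mem_singleton] at hC; subst hC; omega
    · intro C hC C' hC' hne
      rw [mem_singleton] at hC hC'
      subst hC; subst hC'; exact absurd rfl hne
  apply card_le_card_of_injOn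
    (fun A => if hA : A ∈ powersetCard (r + 1) (univ : Finset (Fin n)) then
      complete {A} (hok A hA).1 (hok A hA).2 else (⊥ : Finpartition (univ : Finset (Fin n))))
  · intro A hA
    rw [mem_coe] at hA
    simp only [hA, dif_pos]
    rw [mem_coe, mem_common]
    have hc := complete_card {A} (hok A hA).1 (hok A hA).2
    rw [sum_singleton, card_singleton] at hc
    rw [mem_powersetCard] at hA
    refine ⟨by omega, ?_, ?_⟩
    · apply complete_intDisj
      intro C hC C' hC' hne
      rw [mem_singleton] at hC hC'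
      subst hC; subst hC'; exact absurd rfl hne
    · apply complete_intDisj
      intro C hC C' hC' hne
      rw [mem_singleton] at hC hC'
      subst hC; subst hC'; exact absurd rfl hne
  · intro A hA A' hA' heq
    rw [mem_coe] at hA hA'
    simp only [hA, hA', dif_pos] at heq
    have h1 := complete_filter {A} (hok A hA).1 (hok A hA).2
    have h2 := complete_filter {A'} (hok A' hA').1 (hok A' hA').2
    rw [heq, h2] at h1
    exact (singleton_injective h1).symm

/-- pair families give partitions -/
theorem common_ge_pairFam (π ρ : Equiv.Perm (Fin n)) (s : ℕ) :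
    (pairFam (π.symm.trans ρ) s).card ≤ (common π ρ (n - s)).card := by
  classical
  set σ := π.symm.trans ρ with hσ
  set g : Fin n × Fin n → Finset (Fin n) := fun e => {π.symm e.1, π.symm e.2} with hg
  have hgc : ∀ e : Fin n × Fin n, e.1 < e.2 → (g e).card = 2 := by
    intro e he
    rw [hg]
    exact card_pair (fun h => by
      have := π.symm.injective h
      exact absurd this he.ne)
  have hsepx : ∀ e f : Fin n × Fin n, e.1 < e.2 → f.1 < f.2 → e.2 < f.1 → Before π (g e) (g f) := by
    intro e f he hf hef a ha b hb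
    simp only [hg, mem_insert, mem_singleton] at ha hb
    rcases ha with rfl | rfl <;> rcases hb with rfl | rfl <;>
      simp only [Equiv.apply_symm_apply] <;> order
  have hsepy : ∀ e f : Fin n × Fin n, max (σ e.1) (σ e.2) < min (σ f.1) (σ f.2) →
      Before ρ (g e) (g f) := by
    intro e f hef a ha b hb
    simp only [hg, mem_insert, mem_singleton] at ha hb
    have e1 : ∀ z, ρ (π.symm z) = σ z := fun z => rfl
    rcases ha with rfl | rfl <;> rcases hb with rfl | rfl <;> rw [e1, e1]
    · exact lt_of_le_of_lt (le_max_left _ _) (lt_of_lt_of_le hef (min_le_left _ _))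
    · exact lt_of_le_of_lt (le_max_left _ _) (lt_of_lt_of_le hef (min_le_right _ _))
    · exact lt_of_le_of_lt (le_max_right _ _) (lt_of_lt_of_le hef (min_le_left _ _))
    · exact lt_of_le_of_lt (le_max_right _ _) (lt_of_lt_of_le hef (min_le_right _ _))
  have hginj : ∀ e f : Fin n × Fin n, e.1 < e.2 → f.1 < f.2 → g e = g f → e = f := by
    intro e f he hf hef
    have h1 : (g e).image π = (g f).image π := by rw [hef]
    simp only [hg, image_insert, image_singleton, Equiv.apply_symm_apply] at h1
    have h2 : e.1 ∈ ({f.1, f.2} : Finset (Fin n)) := by rw [← h1]; simp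
    have h3 : e.2 ∈ ({f.1, f.2} : Finset (Fin n)) := by rw [← h1]; simp
    simp only [mem_insert, mem_singleton] at h2 h3
    rcases h2 with h2 | h2 <;> rcases h3 with h3 | h3
    · rw [h2, h3] at he; exact absurd he (lt_irrefl _)
    · exact Prod.ext h2 h3
    · rw [h2, h3] at he; exact absurd (he.trans hf) (lt_irrefl _)
    · rw [h2, h3] at he; exact absurd he (lt_irrefl _)
  -- properties of the image family
  have hbd : ∀ (π' : Equiv.Perm (Fin n)) (A B : Finset (Fin n)), Before π' A B → Disjoint A B := by
    intro π' A B h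
    rw [disjoint_left]; intro a ha hb
    exact absurd (h a ha a hb) (lt_irrefl _)
  have hok : ∀ F ∈ pairFam σ s, (∀ C ∈ F.image g, 2 ≤ C.card) ∧
      (∀ C ∈ F.image g, ∀ C' ∈ F.image g, C ≠ C' → Disjoint C C') := by
    intro F hF
    rw [mem_pairFam] at hF
    obtain ⟨_, hF1, hF2⟩ := hF
    constructor
    · intro C hC
      rw [mem_image] at hC
      obtain ⟨e, he, rfl⟩ := hC
      rw [hgc e (hF1 e he)]
    · intro C hC C' hC' hne
      rw [mem_image] at hC hC'
      obtain ⟨e, he, rfl⟩ := hC
      obtain ⟨f, hf, rfl⟩ := hC'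
      have hef : e ≠ f := fun h => hne (by rw [h])
      rcases (hF2 e he f hf hef).1 with h | h
      · exact hbd π _ _ (hsepx e f (hF1 e he) (hF1 f hf) h)
      · exact (hbd π _ _ (hsepx f e (hF1 f hf) (hF1 e he) h)).symm
  apply card_le_card_of_injOn
    (fun F => if hF : F ∈ pairFam σ s then
      complete (F.image g) (hok F hF).1 (hok F hF).2 else (⊥ : Finpartition (univ : Finset (Fin n))))
  · intro F hF
    rw [mem_coe] at hF
    simp only [hF, dif_pos]
    rw [mem_coe, mem_common]
    have hc := complete_card (F.image g) (hok F hF).1 (hok F hF).2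
    have hF' := hF
    rw [mem_pairFam] at hF'
    obtain ⟨hFc, hF1, hF2⟩ := hF'
    have hcard : (F.image g).card = s := by
      rw [card_image_of_injOn, hFc]
      intro e he f hf hef
      exact hginj e f (hF1 e he) (hF1 f hf) hef
    have hall : ∀ A ∈ F.image g, A.card = 2 := by
      intro A hA
      rw [mem_image] at hA
      obtain ⟨e, he, rfl⟩ := hA
      exact hgc e (hF1 e he)
    have hsum : ∑ A ∈ F.image g, A.card = 2 * s := by
      rw [sum_congr rfl hall, sum_const, hcard, smul_eq_mul, mul_comm]
    rw [hcard, hsum] at hc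
    refine ⟨by omega, ?_, ?_⟩
    · apply complete_intDisj
      intro C hC C' hC' hne
      rw [mem_image] at hC hC'
      obtain ⟨e, he, rfl⟩ := hC
      obtain ⟨f, hf, rfl⟩ := hC'
      have hef : e ≠ f := fun h => hne (by rw [h])
      rcases (hF2 e he f hf hef).1 with h | h
      · left; exact hsepx e f (hF1 e he) (hF1 f hf) h
      · right; exact hsepx f e (hF1 f hf) (hF1 e he) h
    · apply complete_intDisj
      intro C hC C' hC' hne
      rw [mem_image] at hC hC'
      obtain ⟨e, he, rfl⟩ := hC
      obtain ⟨f, hf, rfl⟩ := hC'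
      have hef : e ≠ f := fun h => hne (by rw [h])
      rcases (hF2 e he f hf hef).2 with h | h
      · left; exact hsepy e f h
      · right; exact hsepy f e h
  · intro F hF F' hF' heq
    rw [mem_coe] at hF hF'
    simp only [hF, hF', dif_pos] at heq
    have h1 := complete_filter (F.image g) (hok F hF).1 (hok F hF).2
    have h2 := complete_filter (F'.image g) (hok F' hF').1 (hok F' hF').2
    rw [heq, h2] at h1
    -- recover F from its image
    have key : ∀ G H : Finset (Fin n × Fin n), G ∈ pairFam σ s → H ∈ pairFam σ s →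
        G.image g = H.image g → G ⊆ H := by
      intro G H hG hH hGH e he
      rw [mem_pairFam] at hG hH
      have : g e ∈ H.image g := by rw [← hGH]; exact mem_image_of_mem g he
      rw [mem_image] at this
      obtain ⟨f, hf, hfe⟩ := this
      have := hginj f e (hH.2.1 f hf) (hG.2.1 e he) hfe
      rw [← this]; exact hf
    exact Subset.antisymm (key F F' hF hF' h1.symm) (key F' F hF' hF h1)

/-! ### The minimum over caterpillars -/

open Classical in
theorem commonCount_eq (T F : PhyloTree n) (k : ℕ) :
    T.commonCount F k = (univ.filter (fun P : Finpartition (univ : Finset (Fin n)) =>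
      P.parts.card = k ∧ T.Convex P ∧ F.Convex P)).card := by
  unfold PhyloTree.commonCount
  rw [Set.ncard_eq_toFinset_card']
  congr 1
  ext P
  simp

theorem c_le (hn : 3 ≤ n) (σ : Equiv.Perm (Fin n)) (k : ℕ) : c n k ≤ (common 1 σ k).card := by
  classical
  obtain ⟨T, hT, hT'⟩ := exists_caterpillar hn 1
  obtain ⟨F, hF, hF'⟩ := exists_caterpillar hn σ
  have h1 : c n k ≤ T.commonCount F k := Nat.sInf_le ⟨T, F, hT, hF, rfl⟩
  refine h1.trans ?_
  rw [commonCount_eq]
  apply card_le_card
  intro P hP
  rw [mem_filter] at hP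
  rw [mem_common]
  exact ⟨hP.2.1, hT' P hP.2.2.1, hF' P hP.2.2.2⟩

theorem c_ge (hn : 3 ≤ n) (k m : ℕ) (h : ∀ π ρ : Equiv.Perm (Fin n), m ≤ (common π ρ k).card) :
    m ≤ c n k := by
  classical
  obtain ⟨T0, hT0, _⟩ := exists_caterpillar hn (1 : Equiv.Perm (Fin n))
  have hne : {m | ∃ T F : PhyloTree n, T.IsCaterpillar ∧ F.IsCaterpillar ∧
      m = T.commonCount F k}.Nonempty := ⟨_, T0, T0, hT0, hT0, rfl⟩
  have hmem := Nat.sInf_mem hne
  obtain ⟨T, F, hT, hF, heq⟩ := hmem
  have heq' : c n k = T.commonCount F k := heq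
  rw [heq', commonCount_eq]
  obtain ⟨π, hπ⟩ := caterpillar_order hn T hT
  obtain ⟨ρ, hρ⟩ := caterpillar_order hn F hF
  refine (h π ρ).trans ?_
  apply card_le_card
  intro P hP
  rw [mem_common] at hP
  rw [mem_filter]
  exact ⟨mem_univ _, hP.1, hπ P hP.2.1, hρ P hP.2.2⟩

end Pool.Agent.Hhelper51.Cat
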