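import Mathlib

/-! Module M4 (block law) for MP_7af81b_co. -/

set_option autoImplicit false

namespace Pool.Agent.Hhelper51.Cat

open Finset

namespace BL

/-! ### Second moment -/

/-- centred sum -/
def Y {n D : ℕ} (g : Fin n → Fin D) : ℝ := ∑ i, (2 * ((g i : ℕ) : ℝ) + 1 - D)

theorem sum_centred (D : ℕ) : ∑ x : Fin D, (2 * ((x : ℕ) : ℝ) + 1 - D) = 0 := by
  rw [Finset.sum_sub_distrib, Finset.sum_add_distrib, ← Finset.mul_sum]
  simp only [Finset.sum_const, Finset.card_univ, Fintype.card_fin, nsmul_eq_mul, mul_one]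
  have h : ∀ D : ℕ, 2 * ∑ x : Fin D, ((x : ℕ) : ℝ) = (D : ℝ) * D - D := by
    intro D
    induction D with
    | zero => simp
    | succ D ih =>
      rw [Fin.sum_univ_castSucc, mul_add]
      simp only [Fin.val_castSucc, Fin.val_last]
      rw [ih]
      push_cast
      ring
  rw [h]
  ring

theorem sum_Y (n D : ℕ) : ∑ g : Fin n → Fin D, Y g = 0 := by
  classical
  unfold Y
  rw [Finset.sum_comm]
  apply Finset.sum_eq_zero
  intro i _
  -- sum over functions of a function of one coordinate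
  induction n with
  | zero => exact i.elim0
  | succ n ih =>
    rw [← (Fin.insertNthEquiv (fun _ => Fin D) i).sum_comp, Fintype.sum_prod_type]
    simp only [Fin.insertNthEquiv_apply, Fin.insertNth_apply_same]
    simp only [Finset.sum_const, Finset.card_univ, nsmul_eq_mul]
    rw [← Finset.mul_sum, sum_centred, mul_zero]

theorem Y_cons {n D : ℕ} (x : Fin D) (g : Fin n → Fin D) :
    Y (Fin.cons x g : Fin (n + 1) → Fin D) = (2 * ((x : ℕ) : ℝ) + 1 - D) + Y g := by
  unfold Y
  rw [Fin.sum_univ_succ]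
  simp

theorem sum_sq_le (D : ℕ) : ∑ x : Fin D, (2 * ((x : ℕ) : ℝ) + 1 - D) ^ 2 ≤ (D : ℝ) ^ 3 := by
  calc ∑ x : Fin D, (2 * ((x : ℕ) : ℝ) + 1 - D) ^ 2 ≤ ∑ _x : Fin D, (D : ℝ) ^ 2 := by
        apply Finset.sum_le_sum
        intro x _
        have hx : ((x : ℕ) : ℝ) + 1 ≤ D := by
          have := x.isLt
          exact_mod_cast this
        have h0 : (0 : ℝ) ≤ ((x : ℕ) : ℝ) := by positivity
        rw [sq_le_sq, abs_le]
        rw [abs_of_nonneg (by positivity : (0 : ℝ) ≤ (D : ℝ))]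
        constructor <;> linarith
    _ = (D : ℝ) ^ 3 := by
        rw [Finset.sum_const, Finset.card_univ, Fintype.card_fin, nsmul_eq_mul]
        ring

theorem sum_Y_sq (n D : ℕ) (hD : 1 ≤ D) :
    ∑ g : Fin n → Fin D, (Y g) ^ 2 ≤ (n : ℝ) * (D : ℝ) ^ (n + 2) := by
  classical
  have hD' : (1 : ℝ) ≤ D := by exact_mod_cast hD
  induction n with
  | zero => simp [Y]
  | succ n ih =>
    rw [← (Fin.consEquiv (fun _ : Fin (n + 1) => Fin D)).sum_comp, Fintype.sum_prod_type]
    have h0 : ∀ (x : Fin D) (g : Fin n → Fin D),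
        Y ((Fin.consEquiv (fun _ : Fin (n + 1) => Fin D)) (x, g)) =
          (2 * ((x : ℕ) : ℝ) + 1 - D) + Y g := fun x g => Y_cons x g
    simp only [h0]
    have h1 : ∀ x : Fin D, ∑ g : Fin n → Fin D, ((2 * ((x : ℕ) : ℝ) + 1 - D) + Y g) ^ 2 =
        (2 * ((x : ℕ) : ℝ) + 1 - D) ^ 2 * (D : ℝ) ^ n + ∑ g : Fin n → Fin D, (Y g) ^ 2 := by
      intro x
      have : ∀ g : Fin n → Fin D, ((2 * ((x : ℕ) : ℝ) + 1 - D) + Y g) ^ 2 =
          (2 * ((x : ℕ) : ℝ) + 1 - D) ^ 2 + 2 * (2 * ((x : ℕ) : ℝ) + 1 - D) * Y g + (Y g) ^ 2 := by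
        intro g; ring
      simp only [this]
      rw [Finset.sum_add_distrib, Finset.sum_add_distrib, ← Finset.mul_sum, sum_Y]
      rw [Finset.sum_const, Finset.card_univ, Fintype.card_fun, Fintype.card_fin, Fintype.card_fin,
        nsmul_eq_mul]
      push_cast
      ring
    simp only [h1]
    rw [Finset.sum_add_distrib, ← Finset.sum_mul, Finset.sum_const, Finset.card_univ,
      Fintype.card_fin, nsmul_eq_mul]
    have h2 := sum_sq_le D
    calc (∑ x : Fin D, (2 * ((x : ℕ) : ℝ) + 1 - D) ^ 2) * (D : ℝ) ^ n +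
          (D : ℝ) * ∑ g : Fin n → Fin D, (Y g) ^ 2
        ≤ (D : ℝ) ^ 3 * (D : ℝ) ^ n + (D : ℝ) * ((n : ℝ) * (D : ℝ) ^ (n + 2)) := by
          gcongr
      _ = ((n + 1 : ℕ) : ℝ) * (D : ℝ) ^ (n + 1 + 2) := by
          push_cast
          ring

/-- total gap -/
def tot {n D : ℕ} (g : Fin n → Fin D) : ℕ := ∑ i, ((g i : ℕ) + 1)

theorem Y_eq {n D : ℕ} (g : Fin n → Fin D) : Y g = 2 * (tot g : ℝ) - n * (D + 1) := by
  unfold Y tot
  push_cast
  rw [Finset.mul_sum]
  have : (n : ℝ) * ((D : ℝ) + 1) = ∑ _i : Fin n, ((D : ℝ) + 1) := by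
    rw [Finset.sum_const, Finset.card_univ, Fintype.card_fin, nsmul_eq_mul]
  rw [this, ← Finset.sum_sub_distrib]
  apply Finset.sum_congr rfl
  intro i _
  ring

/-- Chebyshev -/
theorem cheb (n D L : ℕ) (hD : 1 ≤ D) (c : ℝ) (hc : 0 < c)
    (hL : c * D ≤ 2 * (L : ℝ) - n * (D + 1)) :
    ((univ.filter fun g : Fin n → Fin D => L ≤ tot g).card : ℝ) * c ^ 2 ≤ n * (D : ℝ) ^ n := by
  classical
  have hD' : (1 : ℝ) ≤ D := by exact_mod_cast hD
  have h1 : ((univ.filter fun g : Fin n → Fin D => L ≤ tot g).card : ℝ) * (c * D) ^ 2 ≤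
      ∑ g : Fin n → Fin D, (Y g) ^ 2 := by
    calc ((univ.filter fun g : Fin n → Fin D => L ≤ tot g).card : ℝ) * (c * D) ^ 2
        = ∑ _g ∈ univ.filter fun g : Fin n → Fin D => L ≤ tot g, (c * D) ^ 2 := by
          rw [Finset.sum_const, nsmul_eq_mul]
      _ ≤ ∑ g ∈ univ.filter fun g : Fin n → Fin D => L ≤ tot g, (Y g) ^ 2 := by
          apply Finset.sum_le_sum
          intro g hg
          rw [Finset.mem_filter] at hg
          have hg2 : (L : ℝ) ≤ (tot g : ℝ) := by exact_mod_cast hg.2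
          apply pow_le_pow_left₀ (by positivity)
          rw [Y_eq]
          linarith
      _ ≤ ∑ g : Fin n → Fin D, (Y g) ^ 2 :=
          Finset.sum_le_sum_of_subset_of_nonneg (Finset.filter_subset _ _)
            (fun _ _ _ => sq_nonneg _)
  have h2 := h1.trans (sum_Y_sq n D hD)
  have h3 : ((univ.filter fun g : Fin n → Fin D => L ≤ tot g).card : ℝ) * c ^ 2 * (D : ℝ) ^ 2 ≤
      n * (D : ℝ) ^ n * (D : ℝ) ^ 2 := by
    calc _ = ((univ.filter fun g : Fin n → Fin D => L ≤ tot g).card : ℝ) * (c * D) ^ 2 := by ring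
      _ ≤ _ := h2
      _ = _ := by ring
  exact le_of_mul_le_mul_right h3 (by positivity)

/-! ### Running sums -/

/-- running sums of the gaps -/
def S {n D : ℕ} (g : Fin n → Fin D) (i : ℕ) : ℕ :=
  ∑ l ∈ univ.filter (fun l : Fin n => l.val < i), ((g l : ℕ) + 1)

theorem S_zero {n D : ℕ} (g : Fin n → Fin D) : S g 0 = 0 := by
  unfold S
  simp

theorem S_last {n D : ℕ} (g : Fin n → Fin D) : S g n = tot g := by
  unfold S tot
  congr 1
  ext l
  simp

theorem S_succ {n D : ℕ} (g : Fin n → Fin D) (i : Fin n) :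
    S g (i.val + 1) = S g i.val + ((g i : ℕ) + 1) := by
  classical
  unfold S
  have : (univ.filter fun l : Fin n => l.val < i.val + 1) =
      insert i (univ.filter fun l : Fin n => l.val < i.val) := by
    ext l
    simp only [mem_filter, mem_univ, true_and, mem_insert]
    constructor
    · intro h
      rcases Nat.lt_succ_iff_lt_or_eq.1 h with h | h
      · exact Or.inr h
      · exact Or.inl (Fin.ext h)
    · rintro (h | h)
      · rw [h]; omega
      · omega
  rw [this, Finset.sum_insert (by simp)]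
  ring

theorem S_mono {n D : ℕ} (g : Fin n → Fin D) {i j : ℕ} (h : i ≤ j) : S g i ≤ S g j := by
  unfold S
  apply Finset.sum_le_sum_of_subset
  intro l hl
  rw [mem_filter] at hl ⊢
  exact ⟨mem_univ _, by omega⟩

theorem S_strict {n D : ℕ} (g : Fin n → Fin D) {i j : ℕ} (h : i < j) (hj : j ≤ n) :
    S g i < S g j := by
  have h1 := S_succ g ⟨i, by omega⟩
  have h2 := S_mono g (show i + 1 ≤ j by omega)
  simp only at h1
  omega

theorem S_congr {n D : ℕ} (g g' : Fin n → Fin D) (i : ℕ) (h : ∀ l : Fin n, l.val < i → g l = g' l) :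
    S g i = S g' i := by
  unfold S
  apply Finset.sum_congr rfl
  intro l hl
  rw [mem_filter] at hl
  rw [h l hl.2]

theorem S_le_tot {n D : ℕ} (g : Fin n → Fin D) (i : ℕ) : S g i ≤ tot g := by
  unfold S tot
  exact Finset.sum_le_sum_of_subset (Finset.filter_subset _ _)

/-! ### The law -/

/-- gap sequences of total length less than `M` -/
abbrev G (n D M : ℕ) := {g : Fin n → Fin D // tot g < M}

/-- the random set -/
def X {n D M : ℕ} (ω : Fin M × G n D M) : Finset ℕ :=
  (range (n + 1)).image fun i => (ω.1.val + S ω.2.1 i) % M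

theorem add_mod_inj {M τ a b : ℕ} (ha : a < M) (hb : b < M) (h : (τ + a) % M = (τ + b) % M) :
    a = b := by
  have h1 : (τ + a) ≡ (τ + b) [MOD M] := h
  have h2 : a ≡ b [MOD M] := Nat.ModEq.add_left_cancel' τ h1
  exact Nat.ModEq.eq_of_lt_of_lt h2 ha hb

theorem add_mod_inj' {M σ a b : ℕ} (ha : a < M) (hb : b < M) (h : (a + σ) % M = (b + σ) % M) :
    a = b := by
  rw [add_comm a, add_comm b] at h
  exact add_mod_inj ha hb h

theorem S_lt {n D M : ℕ} (g : G n D M) (i : ℕ) : S g.1 i < M := (S_le_tot g.1 i).trans_lt g.2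

theorem S_inj {n D M : ℕ} (g : G n D M) {i j : ℕ} (hi : i ≤ n) (hj : j ≤ n)
    (h : S g.1 i = S g.1 j) : i = j := by
  rcases lt_trichotomy i j with hl | hl | hl
  · have := S_strict g.1 hl hj; omega
  · exact hl
  · have := S_strict g.1 hl hi; omega

theorem idx_inj {n D M : ℕ} (g : G n D M) (τ : ℕ) {i j : ℕ} (hi : i ≤ n) (hj : j ≤ n)
    (h : (τ + S g.1 i) % M = (τ + S g.1 j) % M) : i = j :=
  S_inj g hi hj (add_mod_inj (S_lt g i) (S_lt g j) h)

theorem card_X {n D M : ℕ} (ω : Fin M × G n D M) : (X ω).card = n + 1 := by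
  unfold X
  rw [Finset.card_image_of_injOn, Finset.card_range]
  intro i hi j hj h
  rw [Finset.coe_range, Set.mem_Iio] at hi hj
  exact idx_inj ω.2 ω.1.val (by omega) (by omega) h

theorem mem_X {n D M : ℕ} (ω : Fin M × G n D M) (u : ℕ) :
    u ∈ X ω ↔ ∃ i ≤ n, (ω.1.val + S ω.2.1 i) % M = u := by
  unfold X
  rw [Finset.mem_image]
  constructor
  · rintro ⟨i, hi, h⟩
    rw [Finset.mem_range] at hi
    exact ⟨i, by omega, h⟩
  · rintro ⟨i, hi, h⟩
    exact ⟨i, by rw [Finset.mem_range]; omega, h⟩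

/-- the shift which brings running sum `i` to `u` -/
def shift {n D M : ℕ} (u : ℕ) (hM : 0 < M) (i : ℕ) (g : G n D M) : Fin M :=
  ⟨(u + (M - S g.1 i)) % M, Nat.mod_lt _ hM⟩

theorem shift_spec {n D M : ℕ} {u : ℕ} (hM : 0 < M) (hu : u < M) (i : ℕ) (g : G n D M) :
    ((shift u hM i g).val + S g.1 i) % M = u := by
  have h := S_lt g i
  simp only [shift]
  rw [Nat.mod_add_mod]
  have : u + (M - S g.1 i) + S g.1 i = u + M := by omega
  rw [this, Nat.add_mod_right, Nat.mod_eq_of_lt hu]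

theorem shift_unique {n D M : ℕ} {u : ℕ} (hM : 0 < M) (hu : u < M) (i : ℕ) (g : G n D M)
    (τ : Fin M) (h : (τ.val + S g.1 i) % M = u) : τ = shift u hM i g := by
  apply Fin.ext
  apply add_mod_inj' τ.isLt (shift u hM i g).isLt (σ := S g.1 i)
  rw [h, shift_spec hM hu]

theorem card_mem {n D M : ℕ} (hM : 0 < M) {u : ℕ} (hu : u < M) :
    (univ.filter fun ω : Fin M × G n D M => u ∈ X ω).card = (n + 1) * Fintype.card (G n D M) := by
  classical
  have h1 : (univ.filter fun ω : Fin M × G n D M => u ∈ X ω) =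
      (range (n + 1) ×ˢ (univ : Finset (G n D M))).image fun x => (shift u hM x.1 x.2, x.2) := by
    ext ω
    rw [mem_filter, mem_image]
    constructor
    · rintro ⟨_, h⟩
      obtain ⟨i, hi, h⟩ := (mem_X ω u).1 h
      refine ⟨(i, ω.2), ?_, ?_⟩
      · rw [mem_product, mem_range]
        exact ⟨by simp only; omega, mem_univ _⟩
      · apply Prod.ext
        · exact (shift_unique hM hu i ω.2 ω.1 h).symm
        · rfl
    · rintro ⟨x, hx, rfl⟩
      rw [mem_product, mem_range] at hx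
      refine ⟨mem_univ _, (mem_X _ u).2 ⟨x.1, by omega, ?_⟩⟩
      exact shift_spec hM hu x.1 x.2
  rw [h1, Finset.card_image_of_injOn, Finset.card_product, Finset.card_range, Finset.card_univ]
  rintro ⟨i, g⟩ hx ⟨j, g'⟩ hy h
  rw [mem_coe, mem_product, mem_range] at hx hy
  simp only [Prod.mk.injEq] at h hx hy
  obtain ⟨h1, h2⟩ := h
  subst h2
  have e1 := shift_spec hM hu i g
  have e2 := shift_spec hM hu j g
  rw [h1] at e1
  have := idx_inj g (shift u hM j g).val (show i ≤ n by omega) (show j ≤ n by omega)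
    (e1.trans e2.symm)
  rw [this]

theorem card_pair {n D M : ℕ} (i : Fin n) (j : ℕ) (hij : i.val < j) (u v : ℕ) :
    (univ.filter fun ω : Fin M × G n D M => (ω.1.val + S ω.2.1 i.val) % M = u ∧
      (ω.1.val + S ω.2.1 j) % M = v).card ≤ D ^ (n - 1) := by
  classical
  have hcard : Fintype.card ({l : Fin n // l ≠ i} → Fin D) = D ^ (n - 1) := by
    rw [Fintype.card_fun, Fintype.card_fin]
    congr 1
    rw [Fintype.card_subtype_compl, Fintype.card_fin]
    simp
  rw [← hcard, ← Finset.card_univ]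
  refine Finset.card_le_card_of_injOn (fun ω => fun l : {l : Fin n // l ≠ i} => ω.2.1 l.1)
    (fun _ _ => mem_univ _) ?_
  rintro ⟨τ, g⟩ h1 ⟨τ', g'⟩ h2 h
  rw [mem_coe, mem_filter] at h1 h2
  simp only at h1 h2 h
  have hoff : ∀ l : Fin n, l ≠ i → g.1 l = g'.1 l := fun l hl => congrFun h ⟨l, hl⟩
  have hS : S g.1 i.val = S g'.1 i.val := S_congr _ _ _ fun l hl => hoff l (by
    intro he; rw [he] at hl; omega)
  have hτ : τ = τ' := by
    apply Fin.ext
    apply add_mod_inj' τ.isLt τ'.isLt (σ := S g.1 i.val)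
    rw [h1.2.1, hS, h2.2.1]
  subst hτ
  have hSj : S g.1 j = S g'.1 j := by
    apply add_mod_inj (τ := τ.val) (S_lt g j) (S_lt g' j)
    rw [h1.2.2, h2.2.2]
  have hgi : g.1 i = g'.1 i := by
    have key : ∀ γ : Fin n → Fin D, S γ j =
        ∑ l ∈ (univ.filter fun l : Fin n => l.val < j).erase i, ((γ l : ℕ) + 1) +
          ((γ i : ℕ) + 1) := by
      intro γ
      unfold S
      rw [Finset.sum_erase_add]
      rw [mem_filter]
      exact ⟨mem_univ _, hij⟩
    rw [key, key] at hSj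
    have : ∑ l ∈ (univ.filter fun l : Fin n => l.val < j).erase i, ((g.1 l : ℕ) + 1) =
        ∑ l ∈ (univ.filter fun l : Fin n => l.val < j).erase i, ((g'.1 l : ℕ) + 1) := by
      apply Finset.sum_congr rfl
      intro l hl
      rw [hoff l (Finset.ne_of_mem_erase hl)]
    apply Fin.ext
    omega
  have hg : g = g' := by
    apply Subtype.ext
    funext l
    by_cases hl : l = i
    · rw [hl]; exact hgi
    · exact hoff l hl
  rw [hg]

theorem card_two {n D M : ℕ} {u v : ℕ} (huv : u ≠ v) :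
    (univ.filter fun ω : Fin M × G n D M => u ∈ X ω ∧ v ∈ X ω).card ≤
      (n + 1) ^ 2 * D ^ (n - 1) := by
  classical
  have hsub : (univ.filter fun ω : Fin M × G n D M => u ∈ X ω ∧ v ∈ X ω) ⊆
      (range (n + 1) ×ˢ range (n + 1)).biUnion fun x => if x.1 = x.2 then ∅ else
        univ.filter fun ω : Fin M × G n D M => (ω.1.val + S ω.2.1 x.1) % M = u ∧
          (ω.1.val + S ω.2.1 x.2) % M = v := by
    intro ω hω
    rw [mem_filter] at hω
    obtain ⟨i, hi, h1⟩ := (mem_X ω u).1 hω.2.1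
    obtain ⟨j, hj, h2⟩ := (mem_X ω v).1 hω.2.2
    rw [mem_biUnion]
    refine ⟨(i, j), ?_, ?_⟩
    · rw [mem_product, mem_range, mem_range]
      simp only
      omega
    · have : i ≠ j := by
        intro h
        rw [h, h2] at h1
        exact huv h1.symm
      rw [if_neg (by simpa using this), mem_filter]
      exact ⟨mem_univ _, h1, h2⟩
  refine (Finset.card_le_card hsub).trans (Finset.card_biUnion_le.trans ?_)
  have : ∀ x ∈ range (n + 1) ×ˢ range (n + 1), (if x.1 = x.2 then (∅ : Finset (Fin M × G n D M))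
      else univ.filter fun ω : Fin M × G n D M => (ω.1.val + S ω.2.1 x.1) % M = u ∧
          (ω.1.val + S ω.2.1 x.2) % M = v).card ≤ D ^ (n - 1) := by
    rintro ⟨i, j⟩ hx
    rw [mem_product, mem_range, mem_range] at hx
    simp only at hx ⊢
    by_cases hij : i = j
    · rw [if_pos hij]; simp
    · rw [if_neg hij]
      rcases Nat.lt_or_gt_of_ne hij with h | h
      · exact card_pair ⟨i, by omega⟩ j h u v
      · have := card_pair (n := n) (D := D) (M := M) ⟨j, by omega⟩ i h v u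
        refine le_trans (le_of_eq ?_) this
        congr 1
        ext ω
        simp only [mem_filter, mem_univ, true_and]
        exact and_comm
  refine (Finset.sum_le_sum this).trans (le_of_eq ?_)
  rw [Finset.sum_const, Finset.card_product, Finset.card_range, smul_eq_mul, pow_two]

/-! ### Consecutive pairs -/

theorem consec {n D M : ℕ} (ω : Fin M × G n D M) (i : Fin n) {p t : ℕ} (hpt : p < t) (ht : t < M)
    (h1 : (ω.1.val + S ω.2.1 i.val) % M = p) (h2 : ((ω.2.1 i : ℕ)) + 1 = t - p) :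
    p ∈ X ω ∧ t ∈ X ω ∧ ∀ u ∈ X ω, u ≤ p ∨ t ≤ u := by
  have hM : 0 < M := by omega
  have hS := S_succ ω.2.1 i
  refine ⟨(mem_X ω p).2 ⟨i.val, i.isLt.le, h1⟩, (mem_X ω t).2 ⟨i.val + 1, i.isLt, ?_⟩, ?_⟩
  · rw [hS, h2, ← add_assoc, Nat.add_mod, h1]
    have : (t - p) % M = t - p := Nat.mod_eq_of_lt (by omega)
    rw [this, Nat.add_sub_cancel' hpt.le, Nat.mod_eq_of_lt ht]
  · intro u hu
    obtain ⟨j, hj, h3⟩ := (mem_X ω u).1 hu
    have hSj := S_lt ω.2 j
    have hSi := S_lt ω.2 i.val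
    have hSi1 := S_lt ω.2 (i.val + 1)
    rcases Nat.lt_or_ge i.val j with h | h
    · -- later elements
      obtain ⟨d, hd⟩ : ∃ d, S ω.2.1 j = S ω.2.1 i.val + d :=
        ⟨S ω.2.1 j - S ω.2.1 i.val, by have := S_mono ω.2.1 h.le; omega⟩
      have hd1 : t - p ≤ d := by
        have := S_mono ω.2.1 (show i.val + 1 ≤ j by omega)
        omega
      rw [hd, ← add_assoc, Nat.add_mod, h1] at h3
      have hdM : d < M := by omega
      rw [Nat.mod_eq_of_lt hdM] at h3
      by_cases hlt : p + d < M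
      · rw [Nat.mod_eq_of_lt hlt] at h3
        right; omega
      · rw [Nat.mod_eq_sub_mod (by omega), Nat.mod_eq_of_lt (by omega)] at h3
        left; omega
    · -- earlier elements
      obtain ⟨d, hd⟩ : ∃ d, S ω.2.1 i.val = S ω.2.1 j + d :=
        ⟨S ω.2.1 i.val - S ω.2.1 j, by have := S_mono ω.2.1 h; omega⟩
      have hdM : d + (t - p) ≤ M := by omega
      have huM : u < M := by rw [← h3]; exact Nat.mod_lt _ hM
      rw [hd, ← add_assoc, Nat.add_mod, h3] at h1
      rw [Nat.mod_eq_of_lt (show d < M by omega)] at h1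
      by_cases hlt : u + d < M
      · rw [Nat.mod_eq_of_lt hlt] at h1
        left; omega
      · rw [Nat.mod_eq_sub_mod (by omega), Nat.mod_eq_of_lt (by omega)] at h1
        right; omega

theorem card_consec {n D M : ℕ} (hM : 0 < M) (p t : ℕ) (hpt : p < t) (ht : t < M)
    (htD : t ≤ p + D) :
    (n + 1) * (univ.filter fun g : Fin n → Fin D => tot g + D < M).card ≤
      (univ.filter fun ω : Fin M × G (n + 1) D M =>
        p ∈ X ω ∧ t ∈ X ω ∧ ∀ u ∈ X ω, u ≤ p ∨ t ≤ u).card := by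
  classical
  have hx : t - p - 1 < D := by omega
  have htot : ∀ (i : Fin (n + 1)) (g : Fin n → Fin D),
      tot (i.insertNth (⟨t - p - 1, hx⟩ : Fin D) g : Fin (n + 1) → Fin D) = (t - p) + tot g := by
    intro i g
    unfold tot
    rw [Fin.sum_univ_succAbove _ i]
    simp only [Fin.insertNth_apply_same, Fin.insertNth_apply_succAbove]
    congr 1
    omega
  let Q : Finset (Fin n → Fin D) := univ.filter fun g : Fin n → Fin D => tot g + D < M
  have hQ : ∀ g ∈ Q, ∀ i : Fin (n + 1),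
      tot (i.insertNth (⟨t - p - 1, hx⟩ : Fin D) g : Fin (n + 1) → Fin D) < M := by
    intro g hg i
    rw [htot]
    have := (mem_filter.1 hg).2
    omega
  let Φ : Fin (n + 1) × {g // g ∈ Q} → Fin M × G (n + 1) D M := fun x =>
    (shift p hM x.1.val ⟨_, hQ x.2.1 x.2.2 x.1⟩, ⟨_, hQ x.2.1 x.2.2 x.1⟩)
  have hΦ : Function.Injective Φ := by
    rintro ⟨i, g, hg⟩ ⟨j, g', hg'⟩ h
    simp only [Φ, Prod.mk.injEq] at h
    obtain ⟨h1, h2⟩ := h
    have hS : ∀ (h : (⟨(i.insertNth (⟨t - p - 1, hx⟩ : Fin D) g : Fin (n + 1) → Fin D), hQ g hg i⟩ :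
        G (n + 1) D M) = ⟨(j.insertNth (⟨t - p - 1, hx⟩ : Fin D) g' : Fin (n + 1) → Fin D),
          hQ g' hg' j⟩), i = j := by
      intro h
      have e1 := shift_spec hM (show p < M by omega) i.val
        (⟨(i.insertNth (⟨t - p - 1, hx⟩ : Fin D) g : Fin (n + 1) → Fin D), hQ g hg i⟩ :
          G (n + 1) D M)
      have e2 := shift_spec hM (show p < M by omega) j.val
        (⟨(j.insertNth (⟨t - p - 1, hx⟩ : Fin D) g' : Fin (n + 1) → Fin D), hQ g' hg' j⟩ :
          G (n + 1) D M)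
      rw [h1, h] at e1
      exact Fin.ext (idx_inj _ _ (by have := i.isLt; omega) (by have := j.isLt; omega)
        (e1.trans e2.symm))
    have hij := hS h2
    subst hij
    have h3 := congrArg Subtype.val h2
    simp only at h3
    have h4 : g = g' := by
      funext l
      have := congrFun h3 (i.succAbove l)
      simpa using this
    subst h4
    rfl
  have hcard : (n + 1) * Q.card = Fintype.card (Fin (n + 1) × {g // g ∈ Q}) := by
    rw [Fintype.card_prod, Fintype.card_fin, Fintype.card_coe]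
  show (n + 1) * Q.card ≤ _
  rw [hcard, ← Finset.card_univ, ← Finset.card_image_of_injective _ hΦ]
  apply Finset.card_le_card
  intro ω hω
  rw [mem_image] at hω
  obtain ⟨⟨i, g, hg⟩, _, rfl⟩ := hω
  rw [mem_filter]
  refine ⟨mem_univ _, consec _ i hpt ht ?_ ?_⟩
  · exact shift_spec hM (by omega) _ _
  · simp only [Φ, Fin.insertNth_apply_same]
    omega

/-! ### Multiplicity -/

theorem zero_mem {n D M : ℕ} (ω : Fin M × G n D M) : ω.1.val ∈ X ω := by
  rw [mem_X]
  exact ⟨0, Nat.zero_le _, by rw [S_zero, add_zero, Nat.mod_eq_of_lt ω.1.isLt]⟩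

theorem X_inj {n D M : ℕ} (τ : Fin M) (g g' : G n D M) (h : X (τ, g) = X (τ, g')) : g = g' := by
  have hr : ∀ g g' : G n D M, X (τ, g) = X (τ, g') →
      Set.range (fun i : Fin (n + 1) => S g.1 i.val) ⊆
        Set.range (fun i : Fin (n + 1) => S g'.1 i.val) := by
    rintro g g' h _ ⟨i, rfl⟩
    have h1 : (τ.val + S g.1 i.val) % M ∈ X (τ, g) :=
      (mem_X (τ, g) _).2 ⟨i.val, by have := i.isLt; omega, rfl⟩
    rw [h] at h1
    obtain ⟨j, hj, h2⟩ := (mem_X (τ, g') _).1 h1
    exact ⟨⟨j, by omega⟩, add_mod_inj (S_lt g' j) (S_lt g i.val) h2⟩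
  have hsm : ∀ g : G n D M, StrictMono (fun i : Fin (n + 1) => S g.1 i.val) := by
    intro g i j hij
    exact S_strict g.1 hij (by have := j.isLt; omega)
  have heq : (fun i : Fin (n + 1) => S g.1 i.val) = (fun i : Fin (n + 1) => S g'.1 i.val) :=
    (StrictMono.range_inj (hsm g) (hsm g')).1 (Set.Subset.antisymm (hr g g' h) (hr g' g h.symm))
  apply Subtype.ext
  funext i
  have e1 := S_succ g.1 i
  have e2 := S_succ g'.1 i
  have e3 := congrFun heq ⟨i.val, by have := i.isLt; omega⟩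
  have e4 := congrFun heq ⟨i.val + 1, by have := i.isLt; omega⟩
  simp only at e3 e4
  apply Fin.ext
  omega

theorem card_fiber {n D M : ℕ} (T : Finset ℕ) :
    (univ.filter fun ω : Fin M × G n D M => X ω = T).card ≤ n + 1 := by
  classical
  rcases (univ.filter fun ω : Fin M × G n D M => X ω = T).eq_empty_or_nonempty with h | ⟨ω0, h⟩
  · rw [h]; simp
  · rw [mem_filter] at h
    have hT : T.card = n + 1 := by rw [← h.2]; exact card_X ω0
    rw [← hT]
    refine Finset.card_le_card_of_injOn (fun ω => ω.1.val) ?_ ?_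
    · intro ω hω
      rw [mem_coe, mem_filter] at hω
      rw [mem_coe, ← hω.2]
      exact zero_mem ω
    · rintro ⟨τ, g⟩ h1 ⟨τ', g'⟩ h2 h3
      rw [mem_coe, mem_filter] at h1 h2
      have h4 : τ = τ' := Fin.ext h3
      subst h4
      rw [X_inj τ g g' (h1.2.trans h2.2.symm)]

theorem card_G_ge {n D M : ℕ} (c : ℝ) (hD : 1 ≤ D) (hc : 0 < c)
    (hM : c * D ≤ 2 * (M : ℝ) - n * (D + 1)) (hn : (n : ℝ) ≤ c ^ 2 / 2) :
    D ^ n ≤ 2 * Fintype.card (G n D M) := by
  classical
  have h1 := cheb n D M hD c hc hM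
  have h2 : Fintype.card (G n D M) + (univ.filter fun g : Fin n → Fin D => M ≤ tot g).card =
      D ^ n := by
    rw [Fintype.card_subtype]
    have := Finset.card_filter_add_card_filter_not (s := (univ : Finset (Fin n → Fin D)))
      (fun g => tot g < M)
    simp only [not_lt] at this
    rw [this, Finset.card_univ, Fintype.card_fun, Fintype.card_fin, Fintype.card_fin]
  have h3 : (2 : ℝ) * ((univ.filter fun g : Fin n → Fin D => M ≤ tot g).card : ℝ) ≤
      (D : ℝ) ^ n := by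
    have hc2 : 0 < c ^ 2 := by positivity
    have h4 : ((univ.filter fun g : Fin n → Fin D => M ≤ tot g).card : ℝ) * c ^ 2 ≤
        (c ^ 2 / 2) * (D : ℝ) ^ n := h1.trans (by
          apply mul_le_mul_of_nonneg_right hn (by positivity))
    have h5 : (2 * ((univ.filter fun g : Fin n → Fin D => M ≤ tot g).card : ℝ)) * c ^ 2 ≤
        (D : ℝ) ^ n * c ^ 2 := by nlinarith
    exact le_of_mul_le_mul_right h5 hc2
  have h6 : 2 * (univ.filter fun g : Fin n → Fin D => M ≤ tot g).card ≤ D ^ n := by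
    exact_mod_cast h3
  omega

end BL

theorem block_law (ε : ℝ) (hε : 0 < ε) (hε1 : ε < 1) :
    ∃ k₁ k₂ : ℕ, 2 ≤ k₁ ∧ k₁ ≤ k₂ ∧ (k₂ : ℝ) ≤ (1 + ε) * k₁ ∧ 1 ≤ ε * k₁ ∧
    ∃ D0 : ℕ, ∀ D : ℕ, D0 ≤ D → ∀ M : ℕ, 2 * M = k₂ * D →
    ∃ (Ω : Type) (_ : Fintype Ω) (_ : DecidableEq Ω) (X : Ω → Finset ℕ),
      Nonempty Ω ∧
      (∀ ω, X ω ⊆ range M ∧ (X ω).card = k₁) ∧
      (∀ u < M, M * (univ.filter (fun ω => u ∈ X ω)).card = k₁ * Fintype.card Ω) ∧
      (∀ u < M, ∀ v < M, u ≠ v →
        M * D * (univ.filter (fun ω => u ∈ X ω ∧ v ∈ X ω)).card ≤ 2 * k₁ ^ 2 * Fintype.card Ω) ∧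
      (∀ p t : ℕ, p < t → t < M → t ≤ p + D →
        ((k₁ : ℝ) - 1) * (1 - ε) * Fintype.card Ω ≤
          M * D * (univ.filter (fun ω => p ∈ X ω ∧ t ∈ X ω ∧ ∀ u ∈ X ω, u ≤ p ∨ t ≤ u)).card) ∧
      (∀ S : Finset ℕ, (univ.filter (fun ω => X ω = S)).card ≤ k₁) ∧
      M * D ^ (k₁ - 1) ≤ 2 * Fintype.card Ω := by
  classical
  -- the parameters
  obtain ⟨k, hk⟩ : ∃ k : ℕ, k = ⌈16 / ε ^ 3⌉₊ := ⟨_, rfl⟩
  have hk1 : 16 / ε ^ 3 ≤ (k : ℝ) := by rw [hk]; exact Nat.le_ceil _
  have hε3 : 0 < ε ^ 3 := by positivity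
  have hk2 : 16 ≤ ε ^ 3 * k := by
    rw [div_le_iff₀ hε3] at hk1
    linarith
  have hk0 : (0 : ℝ) < k := by
    by_contra h
    push Not at h
    nlinarith
  have hε2 : ε ^ 2 ≤ 1 := by nlinarith
  have hεk : 16 ≤ ε * k := by
    have : ε ^ 3 * k ≤ ε * k := by
      apply mul_le_mul_of_nonneg_right _ hk0.le
      calc ε ^ 3 = ε ^ 2 * ε := by ring
        _ ≤ 1 * ε := mul_le_mul_of_nonneg_right hε2 hε.le
        _ = ε := one_mul _
    linarith
  have hk16 : (16 : ℝ) ≤ k := by nlinarith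
  have hk16' : 16 ≤ k := by exact_mod_cast hk16
  obtain ⟨d, hd⟩ : ∃ d : ℕ, d = ⌊ε * k⌋₊ := ⟨_, rfl⟩
  have hd1 : (d : ℝ) ≤ ε * k := by rw [hd]; exact Nat.floor_le (by positivity)
  have hd2 : ε * k < d + 1 := by rw [hd]; exact Nat.lt_floor_add_one _
  obtain ⟨n, rfl⟩ : ∃ n, k = n + 2 := ⟨k - 2, by omega⟩
  refine ⟨n + 2, n + 2 + d, by omega, by omega, ?_, by linarith, n + 2, ?_⟩
  · push_cast at hd1 ⊢
    linarith
  intro D hD M hM
  have hD1 : 1 ≤ D := by omega
  have hD' : ((n : ℝ) + 2) ≤ D := by exact_mod_cast hD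
  have hMr : 2 * (M : ℝ) = ((n : ℝ) + 2 + d) * D := by exact_mod_cast hM
  have hMpos : 0 < M := by
    rcases Nat.eq_zero_or_pos M with h | h
    · rw [h] at hM
      have : 0 < (n + 2 + d) * D := by positivity
      omega
    · exact h
  push_cast at hεk hk2 hd1 hd2 hk0 hk16
  -- the two Chebyshev bounds
  have hc : (0 : ℝ) < ε * (n + 2) / 2 := by positivity
  have hd3 : ε * (n + 2) / 2 ≤ (d : ℝ) - 1 := by linarith
  have hsq : ((n : ℝ) + 2) ≤ ε * (ε * (n + 2) / 2) ^ 2 / 2 := by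
    have : ε * (ε * (n + 2) / 2) ^ 2 / 2 = (ε ^ 3 * (n + 2)) * (n + 2) / 8 := by ring
    rw [this]
    nlinarith
  have hsq2 : ((n : ℝ) + 2) ≤ (ε * (n + 2) / 2) ^ 2 / 2 := by
    refine hsq.trans ?_
    have : 0 ≤ (ε * (n + 2) / 2) ^ 2 := sq_nonneg _
    nlinarith
  have hG : D ^ (n + 1) ≤ 2 * Fintype.card (BL.G (n + 1) D M) := by
    apply BL.card_G_ge (ε * (n + 2) / 2) hD1 hc
    · rw [hMr]
      push_cast
      nlinarith
    · push_cast
      linarith
  have hcard : Fintype.card (Fin M × BL.G (n + 1) D M) =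
      M * Fintype.card (BL.G (n + 1) D M) := by
    rw [Fintype.card_prod, Fintype.card_fin]
  have hGle : Fintype.card (BL.G (n + 1) D M) ≤ D ^ (n + 1) := by
    refine (Fintype.card_subtype_le _).trans (le_of_eq ?_)
    rw [Fintype.card_fun, Fintype.card_fin, Fintype.card_fin]
  have h6 : M * D ^ (n + 1) ≤ 2 * Fintype.card (Fin M × BL.G (n + 1) D M) := by
    rw [hcard]
    calc M * D ^ (n + 1) ≤ M * (2 * Fintype.card (BL.G (n + 1) D M)) :=
          Nat.mul_le_mul_left _ hG
      _ = _ := by ring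
  refine ⟨Fin M × BL.G (n + 1) D M, inferInstance, inferInstance, BL.X, ?_, ?_, ?_, ?_, ?_, ?_, ?_⟩
  · rw [← Fintype.card_pos_iff]
    have : 0 < M * D ^ (n + 1) := by positivity
    omega
  · intro ω
    refine ⟨?_, BL.card_X ω⟩
    intro u hu
    obtain ⟨i, _, h⟩ := (BL.mem_X ω u).1 hu
    rw [mem_range, ← h]
    exact Nat.mod_lt _ hMpos
  · intro u hu
    have := BL.card_mem (n := n + 1) (D := D) hMpos hu
    have e : (univ.filter fun ω : Fin M × BL.G (n + 1) D M => u ∈ BL.X ω).card =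
        (n + 1 + 1) * Fintype.card (BL.G (n + 1) D M) := by
      convert this
    rw [e, hcard]
    ring
  · intro u _ v _ huv
    have h1 := BL.card_two (n := n + 1) (D := D) (M := M) huv
    have e : (univ.filter fun ω : Fin M × BL.G (n + 1) D M => u ∈ BL.X ω ∧ v ∈ BL.X ω).card ≤
        (n + 1 + 1) ^ 2 * D ^ (n + 1 - 1) := by
      convert h1
    calc M * D * (univ.filter fun ω : Fin M × BL.G (n + 1) D M => u ∈ BL.X ω ∧ v ∈ BL.X ω).card
        ≤ M * D * ((n + 1 + 1) ^ 2 * D ^ (n + 1 - 1)) := Nat.mul_le_mul_left _ e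
      _ = (n + 2) ^ 2 * (M * D ^ (n + 1)) := by
          simp only [Nat.add_sub_cancel]
          ring
      _ ≤ (n + 2) ^ 2 * (2 * Fintype.card (Fin M × BL.G (n + 1) D M)) :=
          Nat.mul_le_mul_left _ h6
      _ = _ := by ring
  · intro p t hpt ht htD
    have h1 := BL.card_consec (n := n) (D := D) hMpos p t hpt ht htD
    have e : (n + 1) * (univ.filter fun g : Fin n → Fin D => BL.tot g + D < M).card ≤
      (univ.filter fun ω : Fin M × BL.G (n + 1) D M =>
        p ∈ BL.X ω ∧ t ∈ BL.X ω ∧ ∀ u ∈ BL.X ω, u ≤ p ∨ t ≤ u).card := by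
      convert h1
    have hDM : D ≤ M := by
      have : 2 * D ≤ (n + 2 + d) * D := Nat.mul_le_mul_right _ (by omega)
      omega
    have h2 : (1 - ε) * (D : ℝ) ^ n ≤
        ((univ.filter fun g : Fin n → Fin D => BL.tot g + D < M).card : ℝ) := by
      have hch := BL.cheb n D (M - D) hD1 (ε * (n + 2) / 2) hc (by
        rw [Nat.cast_sub hDM, mul_sub, hMr]
        nlinarith)
      have hsplit : ((univ.filter fun g : Fin n → Fin D => BL.tot g + D < M).card : ℝ) +
          ((univ.filter fun g : Fin n → Fin D => M - D ≤ BL.tot g).card : ℝ) = (D : ℝ) ^ n := by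
        have := Finset.card_filter_add_card_filter_not (s := (univ : Finset (Fin n → Fin D)))
          (fun g => BL.tot g + D < M)
        rw [Finset.card_univ, Fintype.card_fun, Fintype.card_fin, Fintype.card_fin] at this
        have e2 : (univ.filter fun g : Fin n → Fin D => ¬ (BL.tot g + D < M)) =
            (univ.filter fun g : Fin n → Fin D => M - D ≤ BL.tot g) := by
          ext g
          simp only [mem_filter, mem_univ, true_and]
          omega
        rw [e2] at this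
        exact_mod_cast this
      have hc2 : 0 < (ε * (n + 2) / 2) ^ 2 := by positivity
      have h4 : ((univ.filter fun g : Fin n → Fin D => M - D ≤ BL.tot g).card : ℝ) *
          (ε * (n + 2) / 2) ^ 2 ≤ (ε * (D : ℝ) ^ n) * (ε * (n + 2) / 2) ^ 2 := by
        refine hch.trans ?_
        have hDn : (0 : ℝ) ≤ (D : ℝ) ^ n := by positivity
        have : (n : ℝ) ≤ ε * (ε * (n + 2) / 2) ^ 2 := by nlinarith
        calc (n : ℝ) * (D : ℝ) ^ n ≤ (ε * (ε * (n + 2) / 2) ^ 2) * (D : ℝ) ^ n :=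
              mul_le_mul_of_nonneg_right this hDn
          _ = _ := by ring
      have h5 := le_of_mul_le_mul_right h4 hc2
      linarith
    have h7 : (Fintype.card (Fin M × BL.G (n + 1) D M) : ℝ) ≤ M * (D : ℝ) ^ (n + 1) := by
      rw [hcard]
      push_cast
      apply mul_le_mul_of_nonneg_left _ (by positivity)
      exact_mod_cast hGle
    have hMr0 : (0 : ℝ) ≤ M := by positivity
    have hDr0 : (0 : ℝ) ≤ D := by positivity
    calc (((n + 2 : ℕ) : ℝ) - 1) * (1 - ε) * Fintype.card (Fin M × BL.G (n + 1) D M)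
        ≤ (((n + 2 : ℕ) : ℝ) - 1) * (1 - ε) * (M * (D : ℝ) ^ (n + 1)) := by
          apply mul_le_mul_of_nonneg_left h7
          apply mul_nonneg
          · push_cast; linarith
          · linarith
      _ = M * D * ((n + 1) * ((1 - ε) * (D : ℝ) ^ n)) := by
          push_cast
          ring
      _ ≤ M * D * ((n + 1) *
            ((univ.filter fun g : Fin n → Fin D => BL.tot g + D < M).card : ℝ)) := by
          gcongr
      _ ≤ _ := by
          apply mul_le_mul_of_nonneg_left _ (by positivity)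
          exact_mod_cast e
  · intro T
    have h1 := BL.card_fiber (n := n + 1) (D := D) (M := M) T
    convert h1
  · exact h6

end Pool.Agent.Hhelper51.Cat
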