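import Pool.Agent.Hhelper51.Cat.Defs

set_option autoImplicit false

namespace Pool.Agent.Hhelper51.Cat

open Finset

/-- `∑` over `e : Fin j → ℕ` with `∑ e i = d` of `∏ (e i + 2)!`. -/
def Tsum (j d : ℕ) : ℕ :=
  ∑ e ∈ Finset.piAntidiag (univ : Finset (Fin j)) d, ∏ i, (e i + 2).factorial

/-- Partners available for the anchor `p`: to the right of `p`, before the next anchor, and
closer in the `y` direction than half way to the next anchor (in `Y`) on the same side. -/
def box (y : ℕ → ℕ) (Y X : Finset ℕ) (p : ℕ) : Finset ℕ :=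
  Y.filter (fun q => p < q ∧ (∀ u ∈ X, u ≤ p ∨ q < u) ∧
    (∀ u ∈ X, u ∈ Y → (y p < y q → y p < y u → 2 * y q < y p + y u) ∧
      (y q < y p → y u < y p → y p + y u < 2 * y q)))

/-- Number of anchors in `Y` with at least `j` available partners. -/
def cnt (y : ℕ → ℕ) (Y X : Finset ℕ) (j : ℕ) : ℕ :=
  ((X ∩ Y).filter (fun p => j ≤ (box y Y X p).card)).card

end Pool.Agent.Hhelper51.Cat
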