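import Pool.Agent.Hhelper51.Cat.Box

set_option autoImplicit false

namespace Pool.Agent.Hhelper51.Cat

open Finset

/-! ## Variance bound -/

private theorem sq_split {ι : Type*} (s : Finset ι) (g : ι → ℝ) (N : ℝ) (hN : N = s.card)
    (hN0 : 0 < N) (m : ℝ) :
    ∑ i ∈ s, (g i - m) ^ 2 =
      ∑ i ∈ s, (g i - (∑ i ∈ s, g i) / N) ^ 2 + N * ((∑ i ∈ s, g i) / N - m) ^ 2 := by
  set S := ∑ i ∈ s, g i with hS
  have h1 : ∀ i ∈ s, (g i - m) ^ 2 =
      (g i - S / N) ^ 2 + (S / N - m) ^ 2 + 2 * (S / N - m) * (g i - S / N) := by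
    intro i _
    ring
  rw [Finset.sum_congr rfl h1, Finset.sum_add_distrib, Finset.sum_add_distrib, Finset.sum_const,
    nsmul_eq_mul, ← Finset.mul_sum, Finset.sum_sub_distrib, ← hS, Finset.sum_const, nsmul_eq_mul,
    ← hN]
  have h2 : S - N * (S / N) = 0 := by
    field_simp
    ring
  rw [h2, mul_zero, add_zero]

theorem efron_stein {B : ℕ} {Ω : Type} [Fintype Ω] [Nonempty Ω] (f : (Fin B → Ω) → ℝ) (C : ℝ)
    (hC : ∀ (b : Fin B) (ω : Fin B → Ω) (x : Ω), |f ω - f (Function.update ω b x)| ≤ C) :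
    ∑ ω, (f ω - (∑ ω', f ω') / Fintype.card (Fin B → Ω)) ^ 2 ≤
      B * C ^ 2 * Fintype.card (Fin B → Ω) := by
  induction B with
  | zero =>
    have h1 : ∀ ω : Fin 0 → Ω, f ω = f default := fun ω => by rw [Subsingleton.elim ω default]
    simp [h1]
  | succ B ih =>
    have hC0 : 0 ≤ C := by
      have x : Ω := Classical.arbitrary Ω
      exact (abs_nonneg _).trans (hC 0 (fun _ => x) x)
    set N : ℝ := (Fintype.card (Fin B → Ω) : ℝ) with hN
    have hNpos : 0 < N := by
      rw [hN]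
      exact_mod_cast Fintype.card_pos
    set K : ℝ := (Fintype.card Ω : ℝ) with hK
    have hKpos : 0 < K := by
      rw [hK]
      exact_mod_cast Fintype.card_pos
    have hcard : (Fintype.card (Fin (B + 1) → Ω) : ℝ) = K * N := by
      rw [hK, hN]
      simp [Fintype.card_fun, pow_succ]
      ring
    have hsum : ∀ F : (Fin (B + 1) → Ω) → ℝ,
        ∑ ω, F ω = ∑ x : Ω, ∑ ω' : Fin B → Ω, F (Fin.cons x ω') := by
      intro F
      rw [← Fintype.sum_prod_type']
      exact (Fintype.sum_equiv (Fin.consEquiv fun _ => Ω) _ _ (fun _ => rfl)).symm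
    rw [hcard, hsum, hsum]
    set g : Ω → (Fin B → Ω) → ℝ := fun x ω' => f (Fin.cons x ω') with hg
    set mm : Ω → ℝ := fun x => (∑ ω', g x ω') / N with hmm
    have hm : (∑ x : Ω, ∑ ω' : Fin B → Ω, f (Fin.cons x ω')) / (K * N) = (∑ x, mm x) / K := by
      rw [hmm, ← Finset.sum_div, div_div, mul_comm K N]
    rw [hm]
    set M : ℝ := (∑ x, mm x) / K with hM
    have hstep : ∀ x : Ω, ∑ ω' : Fin B → Ω, (f (Fin.cons x ω') - M) ^ 2 =
        ∑ ω' : Fin B → Ω, (g x ω' - mm x) ^ 2 + N * (mm x - M) ^ 2 := by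
      intro x
      exact sq_split univ (g x) N (by rw [hN]; simp [Finset.card_univ]) hNpos M
    simp only [hstep]
    rw [Finset.sum_add_distrib]
    have h1 : ∀ x : Ω, ∑ ω' : Fin B → Ω, (g x ω' - mm x) ^ 2 ≤ B * C ^ 2 * N := by
      intro x
      refine ih (g x) ?_
      intro b ω' z
      have := hC b.succ (Fin.cons x ω') z
      rwa [← Fin.cons_update] at this
    have h2 : ∀ x x' : Ω, |mm x - mm x'| ≤ C := by
      intro x x'
      rw [hmm]
      simp only
      rw [← sub_div, ← Finset.sum_sub_distrib, abs_div, abs_of_pos hNpos, div_le_iff₀ hNpos]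
      calc |∑ ω' : Fin B → Ω, (g x ω' - g x' ω')| ≤ ∑ ω' : Fin B → Ω, |g x ω' - g x' ω'| :=
            Finset.abs_sum_le_sum_abs _ _
        _ ≤ ∑ _ω' : Fin B → Ω, C := by
          refine Finset.sum_le_sum fun ω' _ => ?_
          have := hC 0 (Fin.cons x ω') x'
          rwa [Fin.update_cons_zero] at this
        _ = C * N := by
          rw [Finset.sum_const, nsmul_eq_mul, hN, Finset.card_univ]
          ring
    have h3 : ∀ x : Ω, |mm x - M| ≤ C := by
      intro x
      have e : mm x - M = (∑ x', (mm x - mm x')) / K := by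
        rw [Finset.sum_sub_distrib, Finset.sum_const, nsmul_eq_mul, Finset.card_univ, ← hK, hM]
        field_simp
      rw [e, abs_div, abs_of_pos hKpos, div_le_iff₀ hKpos]
      calc |∑ x', (mm x - mm x')| ≤ ∑ x', |mm x - mm x'| := Finset.abs_sum_le_sum_abs _ _
        _ ≤ ∑ _x' : Ω, C := Finset.sum_le_sum fun x' _ => h2 x x'
        _ = C * K := by
          rw [Finset.sum_const, nsmul_eq_mul, hK, Finset.card_univ]
          ring
    have h4 : ∀ x : Ω, N * (mm x - M) ^ 2 ≤ N * C ^ 2 := by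
      intro x
      refine mul_le_mul_of_nonneg_left ?_ hNpos.le
      rw [← sq_abs]
      exact pow_le_pow_left₀ (abs_nonneg _) (h3 x) 2
    calc ∑ x : Ω, ∑ ω' : Fin B → Ω, (g x ω' - mm x) ^ 2 + ∑ x : Ω, N * (mm x - M) ^ 2
        ≤ ∑ _x : Ω, B * C ^ 2 * N + ∑ _x : Ω, N * C ^ 2 :=
          add_le_add (Finset.sum_le_sum fun x _ => h1 x) (Finset.sum_le_sum fun x _ => h4 x)
      _ = ((B + 1 : ℕ) : ℝ) * C ^ 2 * (K * N) := by
        rw [Finset.sum_const, Finset.sum_const, nsmul_eq_mul, nsmul_eq_mul, Finset.card_univ, ← hK]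
        push_cast
        ring

/-! ## Changing the set of anchors -/

private theorem card_le_one_of {s : Finset ℕ} (h : ∀ a ∈ s, ∀ b ∈ s, a = b) : s.card ≤ 1 :=
  Finset.card_le_one.2 h

private theorem box_insert_subset (y : ℕ → ℕ) (Y X : Finset ℕ) (u p : ℕ) :
    box y Y (insert u X) p ⊆ box y Y X p := by
  intro q hq
  unfold box at *
  rw [Finset.mem_filter] at *
  refine ⟨hq.1, hq.2.1, fun v hv => hq.2.2.1 v (Finset.mem_insert_of_mem hv),
    fun v hv => hq.2.2.2 v (Finset.mem_insert_of_mem hv)⟩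

theorem cnt_insert {y : ℕ → ℕ} (hy : Function.Injective y) (Y X : Finset ℕ) (u j : ℕ) :
    |(cnt y Y (insert u X) j : ℤ) - (cnt y Y X j : ℤ)| ≤ 4 := by
  unfold cnt
  set A := ((insert u X) ∩ Y).filter (fun p => j ≤ (box y Y (insert u X) p).card) with hA
  set B := (X ∩ Y).filter (fun p => j ≤ (box y Y X p).card) with hB
  have hAB : A \ B ⊆ {u} := by
    intro p hp
    rw [Finset.mem_sdiff] at hp
    obtain ⟨hpA, hpB⟩ := hp
    rw [hA, Finset.mem_filter, Finset.mem_inter, Finset.mem_insert] at hpA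
    rw [Finset.mem_singleton]
    by_contra hpu
    apply hpB
    rw [hB, Finset.mem_filter, Finset.mem_inter]
    refine ⟨⟨hpA.1.1.resolve_left hpu, hpA.1.2⟩, hpA.2.trans ?_⟩
    exact Finset.card_le_card (box_insert_subset y Y X u p)
  set S1 := (X.filter fun p => p < u ∧ ∀ v ∈ X, v ≤ p ∨ u ≤ v) with hS1
  set S2 := ((X ∩ Y).filter fun p => y p < y u ∧ ∀ v ∈ X ∩ Y, y v ≤ y p ∨ y u ≤ y v) with hS2
  set S3 := ((X ∩ Y).filter fun p => y u < y p ∧ ∀ v ∈ X ∩ Y, y p ≤ y v ∨ y v ≤ y u) with hS3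
  have hBA : B \ A ⊆ S1 ∪ S2 ∪ S3 := by
    intro p hp
    rw [Finset.mem_sdiff] at hp
    obtain ⟨hpB, hpA⟩ := hp
    rw [hB, Finset.mem_filter, Finset.mem_inter] at hpB
    have hne : ¬ (box y Y X p ⊆ box y Y (insert u X) p) := by
      intro hsub
      apply hpA
      rw [hA, Finset.mem_filter, Finset.mem_inter]
      exact ⟨⟨Finset.mem_insert_of_mem hpB.1.1, hpB.1.2⟩,
        hpB.2.trans (Finset.card_le_card hsub)⟩
    rw [Finset.not_subset] at hne
    obtain ⟨q, hq, hq'⟩ := hne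
    unfold box at hq hq'
    rw [Finset.mem_filter] at hq hq'
    obtain ⟨hqY, hpq, hqX, hqXY⟩ := hq
    have hcase : (p < u ∧ u ≤ q) ∨ (u ∈ Y ∧ ((y p < y q ∧ y p < y u ∧ y p + y u ≤ 2 * y q) ∨
        (y q < y p ∧ y u < y p ∧ 2 * y q ≤ y p + y u))) := by
      by_contra hcon
      push Not at hcon
      obtain ⟨hc1, hc2⟩ := hcon
      apply hq'
      refine ⟨hqY, hpq, ?_, ?_⟩
      · intro v hv
        rcases Finset.mem_insert.1 hv with rfl | hv
        · by_cases h1 : v ≤ p
          · exact Or.inl h1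
          · exact Or.inr (hc1 (by omega))
        · exact hqX v hv
      · intro v hv hvY
        rcases Finset.mem_insert.1 hv with rfl | hv
        · exact ⟨fun h1 h2 => (hc2 hvY).1 h1 h2, fun h1 h2 => (hc2 hvY).2 h1 h2⟩
        · exact hqXY v hv hvY
    rw [Finset.mem_union, Finset.mem_union]
    rcases hcase with ⟨h1, h2⟩ | ⟨huY, ⟨h1, h2, h3⟩ | ⟨h1, h2, h3⟩⟩
    · left; left
      rw [hS1, Finset.mem_filter]
      refine ⟨hpB.1.1, h1, fun v hv => ?_⟩
      rcases hqX v hv with h | h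
      · exact Or.inl h
      · exact Or.inr (by omega)
    · left; right
      rw [hS2, Finset.mem_filter, Finset.mem_inter]
      refine ⟨hpB.1, h2, fun v hv => ?_⟩
      rw [Finset.mem_inter] at hv
      by_cases h4 : y v ≤ y p
      · exact Or.inl h4
      · right
        have := (hqXY v hv.1 hv.2).1 h1 (by omega)
        omega
    · right
      rw [hS3, Finset.mem_filter, Finset.mem_inter]
      refine ⟨hpB.1, h2, fun v hv => ?_⟩
      rw [Finset.mem_inter] at hv
      by_cases h4 : y p ≤ y v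
      · exact Or.inl h4
      · right
        have := (hqXY v hv.1 hv.2).2 h1 (by omega)
        omega
  have c1 : S1.card ≤ 1 := by
    refine card_le_one_of fun a ha b hb => ?_
    rw [hS1, Finset.mem_filter] at ha hb
    have h1 := ha.2.2 b hb.1
    have h2 := hb.2.2 a ha.1
    omega
  have c2 : S2.card ≤ 1 := by
    refine card_le_one_of fun a ha b hb => ?_
    rw [hS2, Finset.mem_filter] at ha hb
    have h1 := ha.2.2 b hb.1
    have h2 := hb.2.2 a ha.1
    exact hy (by omega)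
  have c3 : S3.card ≤ 1 := by
    refine card_le_one_of fun a ha b hb => ?_
    rw [hS3, Finset.mem_filter] at ha hb
    have h1 := ha.2.2 b hb.1
    have h2 := hb.2.2 a ha.1
    exact hy (by omega)
  have d1 : (A \ B).card ≤ 1 := (Finset.card_le_card hAB).trans (by simp)
  have d2 : (B \ A).card ≤ 3 := by
    refine (Finset.card_le_card hBA).trans ?_
    have e1 := Finset.card_union_le (S1 ∪ S2) S3
    have e2 := Finset.card_union_le S1 S2
    omega
  have e1 : (A \ B).card + (A ∩ B).card = A.card := Finset.card_sdiff_add_card_inter A B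
  have e2 : (B \ A).card + (B ∩ A).card = B.card := Finset.card_sdiff_add_card_inter B A
  have e3 : (B ∩ A).card = (A ∩ B).card := by rw [Finset.inter_comm]
  rw [abs_le]
  constructor
  · omega
  · omega

private theorem cnt_union {y : ℕ → ℕ} (hy : Function.Injective y) (Y X Z : Finset ℕ) (j : ℕ) :
    |(cnt y Y (Z ∪ X) j : ℤ) - (cnt y Y X j : ℤ)| ≤ 4 * Z.card := by
  induction Z using Finset.induction_on with
  | empty => simp
  | insert a Z ha ih =>
    rw [Finset.insert_union, Finset.card_insert_of_notMem ha]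
    have h1 := cnt_insert hy Y (Z ∪ X) a j
    have h2 := abs_add_le ((cnt y Y (insert a (Z ∪ X)) j : ℤ) - (cnt y Y (Z ∪ X) j : ℤ))
      ((cnt y Y (Z ∪ X) j : ℤ) - (cnt y Y X j : ℤ))
    rw [sub_add_sub_cancel] at h2
    push_cast
    linarith

theorem cnt_diff {y : ℕ → ℕ} (hy : Function.Injective y) (Y X X' : Finset ℕ) (j : ℕ) :
    |(cnt y Y X j : ℤ) - (cnt y Y X' j : ℤ)| ≤ 4 * ((X \ X').card + (X' \ X).card) := by
  have h1 := cnt_union hy Y X (X' \ X) j
  have h2 := cnt_union hy Y X' (X \ X') j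
  have e1 : X' \ X ∪ X = X ∪ X' := by rw [Finset.sdiff_union_self_eq_union, Finset.union_comm]
  have e2 : X \ X' ∪ X' = X ∪ X' := by rw [Finset.sdiff_union_self_eq_union]
  rw [e1] at h1
  rw [e2] at h2
  have h3 := abs_sub_le (cnt y Y X j : ℤ) (cnt y Y (X ∪ X') j : ℤ) (cnt y Y X' j : ℤ)
  rw [abs_sub_comm (cnt y Y X j : ℤ) (cnt y Y (X ∪ X') j : ℤ)] at h3
  linarith

end Pool.Agent.Hhelper51.Cat
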