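import Pool.Agent.Hhelper51.Cat.Box

set_option autoImplicit false
set_option linter.unusedSectionVars false

namespace Pool.Agent.Hhelper51.Cat

open Finset

/-! Product structure of the anchor set. -/

section

variable {Ω : Type} [Fintype Ω] [DecidableEq Ω]

/-- The global anchor set. -/
def Xg (M B : ℕ) (X : Ω → Finset ℕ) (ω : Fin B → Ω) : Finset ℕ :=
  (range (B * M)).filter (fun u => ∃ h : u / M < B, u % M ∈ X (ω ⟨u / M, h⟩))

/-- expectation -/
noncomputable def Ex {B : ℕ} (f : (Fin B → Ω) → ℝ) : ℝ :=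
  (∑ ω, f ω) / (Fintype.card (Fin B → Ω) : ℝ)

theorem Ex_mono {B : ℕ} {f g : (Fin B → Ω) → ℝ} (h : ∀ ω, f ω ≤ g ω) : Ex f ≤ Ex g := by
  unfold Ex
  apply div_le_div_of_nonneg_right _ (Nat.cast_nonneg _)
  exact sum_le_sum (fun ω _ => h ω)

theorem Ex_sub {B : ℕ} (f g : (Fin B → Ω) → ℝ) : Ex (fun ω => f ω - g ω) = Ex f - Ex g := by
  unfold Ex
  rw [sum_sub_distrib, sub_div]

theorem Ex_add {B : ℕ} (f g : (Fin B → Ω) → ℝ) : Ex (fun ω => f ω + g ω) = Ex f + Ex g := by
  unfold Ex
  rw [sum_add_distrib, add_div]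

theorem Ex_mul {B : ℕ} (c : ℝ) (f : (Fin B → Ω) → ℝ) : Ex (fun ω => c * f ω) = c * Ex f := by
  unfold Ex
  rw [← mul_sum, mul_div_assoc]

theorem Ex_mul_right {B : ℕ} (c : ℝ) (f : (Fin B → Ω) → ℝ) :
    Ex (fun ω => f ω * c) = Ex f * c := by
  unfold Ex
  rw [← sum_mul]; ring

theorem Ex_sum {B : ℕ} {ι : Type*} (s : Finset ι) (f : ι → (Fin B → Ω) → ℝ) :
    Ex (fun ω => ∑ i ∈ s, f i ω) = ∑ i ∈ s, Ex (f i) := by
  unfold Ex
  rw [sum_comm, sum_div]

/-- indicator that no anchor lies in `A` -/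
noncomputable def free (M : ℕ) {B : ℕ} (X : Ω → Finset ℕ) (A : Finset ℕ) (ω : Fin B → Ω) : ℝ :=
  open Classical in if Disjoint (Xg M B X ω) A then 1 else 0

/-- The set of block outcomes avoiding `A` in block `b`. -/
def avoid (M : ℕ) (X : Ω → Finset ℕ) (A : Finset ℕ) (b : ℕ) : Finset Ω :=
  univ.filter (fun x => ∀ u ∈ A, u / M = b → u % M ∉ X x)

theorem disjoint_iff_pi {M B : ℕ} (X : Ω → Finset ℕ) (A : Finset ℕ)
    (hA : A ⊆ range (B * M)) (ω : Fin B → Ω) :
    Disjoint (Xg M B X ω) A ↔ ∀ b : Fin B, ω b ∈ avoid M X A b := by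
  classical
  constructor
  · intro h b
    simp only [avoid, mem_filter, mem_univ, true_and]
    intro u hu hub hmem
    apply (disjoint_left.mp h) _ hu
    simp only [Xg, mem_filter]
    refine ⟨hA hu, ?_⟩
    refine ⟨by rw [hub]; exact b.2, ?_⟩
    have : (⟨u / M, by rw [hub]; exact b.2⟩ : Fin B) = b := by
      apply Fin.ext; exact hub
    rw [this]; exact hmem
  · intro h
    rw [disjoint_left]
    intro u hu huA
    simp only [Xg, mem_filter] at hu
    obtain ⟨hu1, hu2, hu3⟩ := hu
    have := h ⟨u / M, hu2⟩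
    simp only [avoid, mem_filter, mem_univ, true_and] at this
    exact this u huA rfl hu3

theorem card_pi_mem {B : ℕ} (S : Fin B → Finset Ω) :
    (univ.filter (fun ω : Fin B → Ω => ∀ b, ω b ∈ S b)).card = ∏ b, (S b).card := by
  classical
  rw [← Fintype.card_piFinset]
  congr 1
  ext ω
  simp [Fintype.mem_piFinset]

theorem Ex_free [Nonempty Ω] {M B : ℕ} (X : Ω → Finset ℕ) (A : Finset ℕ)
    (hA : A ⊆ range (B * M)) :
    Ex (free (B := B) M X A) = ∏ b : Fin B, ((avoid M X A b).card / Fintype.card Ω : ℝ) := by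
  classical
  unfold Ex free
  have h1 : (∑ ω : Fin B → Ω, (if Disjoint (Xg M B X ω) A then (1:ℝ) else 0)) =
      ((univ.filter (fun ω : Fin B → Ω => ∀ b : Fin B, ω b ∈ avoid M X A b)).card : ℝ) := by
    rw [card_eq_sum_ones, Nat.cast_sum, sum_filter]
    apply sum_congr rfl
    intro ω _
    by_cases h : Disjoint (Xg M B X ω) A
    · rw [if_pos h, if_pos ((disjoint_iff_pi X A hA ω).mp h)]; simp
    · rw [if_neg h, if_neg (fun h' => h ((disjoint_iff_pi X A hA ω).mpr h'))]
  rw [h1, card_pi_mem, prod_div_distrib]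
  simp

/-- Indicator of an event of a single block times `free A`, where `A` avoids that block. -/
theorem Ex_block_mul_free [Nonempty Ω] {M B : ℕ} (X : Ω → Finset ℕ) (A : Finset ℕ)
    (hA : A ⊆ range (B * M)) (b₀ : Fin B) (hb : ∀ u ∈ A, u / M ≠ b₀) (S : Finset Ω) :
    Ex (fun ω : Fin B → Ω => (if ω b₀ ∈ S then (1:ℝ) else 0) * free M X A ω) =
      (S.card / Fintype.card Ω : ℝ) * Ex (free (B := B) M X A) := by
  classical
  have hcard : (0:ℝ) < Fintype.card Ω := by exact_mod_cast Fintype.card_pos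
  have hfull : avoid M X A b₀ = univ := by
    ext x
    simp only [avoid, mem_filter, mem_univ, true_and, iff_true]
    intro u hu hub
    exact absurd hub (hb u hu)
  rw [Ex_free X A hA]
  have h1 : (∑ ω : Fin B → Ω, (if ω b₀ ∈ S then (1:ℝ) else 0) * free M X A ω) =
      ((univ.filter (fun ω : Fin B → Ω => ∀ b : Fin B,
        ω b ∈ (if b = b₀ then S else avoid M X A b))).card : ℝ) := by
    rw [card_eq_sum_ones, Nat.cast_sum, sum_filter]
    apply sum_congr rfl
    intro ω _
    unfold free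
    by_cases h : Disjoint (Xg M B X ω) A
    · rw [if_pos h]
      have h' := (disjoint_iff_pi X A hA ω).mp h
      by_cases hS : ω b₀ ∈ S
      · rw [if_pos hS, if_pos]
        · simp
        · intro b
          by_cases hbb : b = b₀
          · subst hbb; simpa using hS
          · rw [if_neg hbb]; exact h' b
      · have hn : ¬ (∀ b : Fin B, ω b ∈ (if b = b₀ then S else avoid M X A b)) := by
          intro hall
          have := hall b₀
          rw [if_pos rfl] at this
          exact hS this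
        rw [if_neg hS, if_neg hn]; simp
    · have hn : ¬ (∀ b : Fin B, ω b ∈ (if b = b₀ then S else avoid M X A b)) := by
        intro hall
        apply h
        rw [disjoint_iff_pi X A hA ω]
        intro b
        by_cases hbb : b = b₀
        · subst hbb; rw [hfull]; exact mem_univ _
        · have := hall b
          rw [if_neg hbb] at this; exact this
      rw [if_neg h, if_neg hn]; simp
  unfold Ex
  rw [h1, card_pi_mem]
  have h2 : (∏ b : Fin B, (((if b = b₀ then S else avoid M X A b).card : ℕ) : ℝ)) =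
      S.card * ∏ b ∈ univ.erase b₀, ((avoid M X A b).card : ℝ) := by
    rw [← mul_prod_erase univ _ (mem_univ b₀)]
    simp only [if_true]
    congr 1
    apply prod_congr rfl
    intro b hb
    rw [if_neg (ne_of_mem_erase hb)]
  have h3 : (∏ b : Fin B, ((avoid M X A b).card / Fintype.card Ω : ℝ)) =
      (Fintype.card Ω * ∏ b ∈ univ.erase b₀, ((avoid M X A b).card : ℝ)) /
        (Fintype.card (Fin B → Ω) : ℝ) := by
    rw [prod_div_distrib, ← mul_prod_erase univ _ (mem_univ b₀), hfull]
    simp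
  rw [h3]
  push_cast
  rw [h2]
  field_simp

end

end Pool.Agent.Hhelper51.Cat
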