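import Pool.Agent.Hhelper51.Cat.Core9

set_option autoImplicit false
set_option linter.unusedSectionVars false

namespace Pool.Agent.Hhelper51.Cat

open Finset Filter

section

variable {Ω : Type} [Fintype Ω] [DecidableEq Ω] [Nonempty Ω]
variable {y : ℕ → ℕ} {Y : Finset ℕ} {X : Ω → Finset ℕ}

/-- Expectation bound for all thresholds `1 ≤ j ≤ 40`. -/
theorem Ex_all (d : ℝ) (hd : 0 < d) (hd1 : d ≤ 1 / 100)
    {N k₁ k₂ g₀ I E g₁ g₂ h w m D M B s : ℕ}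
    (hN : 0 < N) (hk1 : 2 ≤ k₁) (hk12 : k₁ ≤ k₂) (hk2d : (k₂ : ℝ) ≤ (1 + d) * k₁)
    (hk1d : 1 ≤ d * k₁)
    (hDN : D = 7 * N) (hMD : 2 * M = k₂ * D) (hBM : B * M = N ^ 2) (hhN : 7 * g₀ * h = N)
    (hwN : g₁ * w = N) (hmN : g₂ * m = N)
    (hI : I = 40 * g₀ + 2 + E)
    (hE : ((E : ℝ) + 1) * Real.exp (-(4 * k₁ / (49 * g₀ * k₂)) : ℝ) ^ E ≤ d)
    (hg0 : 1 ≤ d * g₀) (hg1 : 1 ≤ d * g₁)
    (hg2 : ((7 * k₂ * g₁ + 2 : ℝ) * (4 * I * g₁ + 2) / g₂) *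
      (4 * (I * (k₁ + 1) + 1) * I ^ 2 + k₁) ≤ d)
    (hIN : (I : ℝ) ≤ d * N)
    (hy : Function.Injective y) (hyn : ∀ u < N ^ 2, y u < N ^ 2)
    (h1 : ∀ u < M, M * (univ.filter (fun ω => u ∈ X ω)).card = k₁ * Fintype.card Ω)
    (h2 : ∀ u < M, ∀ v < M, u ≠ v →
        M * D * (univ.filter (fun ω => u ∈ X ω ∧ v ∈ X ω)).card ≤ 2 * k₁ ^ 2 * Fintype.card Ω)
    (h3 : ∀ p t : ℕ, p < t → t < M → t ≤ p + D →
        ((k₁ : ℝ) - 1) * (1 - d) * Fintype.card Ω ≤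
          M * D * (univ.filter (fun ω => p ∈ X ω ∧ t ∈ X ω ∧ ∀ u ∈ X ω, u ≤ p ∨ t ≤ u)).card)
    (hs : (s : ℝ) = 131 / 500 * N)
    (hY : Y ⊆ range (N ^ 2)) (hYc : N ^ 2 ≤ Y.card + 2 * s * w)
    (hcell : ∀ α β, (cell y w Y α β).card < m) (j : ℕ) (hj : j ≤ 40) :
    (N : ℝ) * ((2 / 7) * Real.exp (-(4 / 49 : ℝ)) ^ j - 4 * d) ≤
      Ex (fun ω : Fin B → Ω => (cnt y Y (Xg M B X ω) j : ℝ)) := by
  have hNr : (0:ℝ) < N := by exact_mod_cast hN
  have hk1r : (2:ℝ) ≤ k₁ := by exact_mod_cast hk1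
  have hk12r : (k₁:ℝ) ≤ k₂ := by exact_mod_cast hk12
  have hk2r : (0:ℝ) < k₂ := by linarith
  have hg0p : 0 < g₀ := by
    rcases Nat.eq_zero_or_pos g₀ with h' | h'
    · rw [h'] at hg0; simp at hg0; linarith
    · exact h'
  have hg1p : 0 < g₁ := by
    rcases Nat.eq_zero_or_pos g₁ with h' | h'
    · rw [h'] at hg1; simp at hg1; linarith
    · exact h'
  have hg2p : 0 < g₂ := by
    rcases Nat.eq_zero_or_pos g₂ with h' | h'
    · rw [h', zero_mul] at hmN; omega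
    · exact h'
  have hw0 : 0 < w := by
    rcases Nat.eq_zero_or_pos w with h' | h'
    · rw [h', mul_zero] at hwN; omega
    · exact h'
  have hg0r : (0:ℝ) < g₀ := by exact_mod_cast hg0p
  have hg1r : (0:ℝ) < g₁ := by exact_mod_cast hg1p
  have hg2r : (0:ℝ) < g₂ := by exact_mod_cast hg2p
  have hM0 : 0 < M := by
    rcases Nat.eq_zero_or_pos M with hM | hM
    · rw [hM, mul_zero] at hBM
      have : 0 < N ^ 2 := by positivity
      omega
    · exact hM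
  set a1 : ℝ := (7 * k₂ * g₁ + 2 : ℝ) * (4 * I * g₁ + 2) / g₂ with ha1
  have ha10 : 0 ≤ a1 := by rw [ha1]; positivity
  have rm : (m : ℝ) = N / g₂ := by
    have : (g₂ : ℝ) * m = N := by exact_mod_cast hmN
    field_simp; linarith
  have ham : ∀ p ∈ Y, ∀ b : ℕ,
      ((blk M (sup y Y h p I ∪ sdn y Y h p I) b).card : ℝ) ≤ a1 * N := by
    intro p _ b
    have e1 := blk_card_le (y := y) (Y := Y) (w := w) (m := m) (M := M) (h := h) (I := I)
      hw0 hM0 hcell p b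
    have e2 : M / w ≤ 7 * k₂ * g₁ := by
      apply Nat.div_le_of_le_mul
      have : 2 * M = 2 * M := rfl
      have e : k₂ * D = 7 * k₂ * g₁ * w := by rw [hDN, ← hwN]; ring
      have e' : w * (7 * k₂ * g₁) = 7 * k₂ * g₁ * w := by ring
      rw [e']
      omega
    have e3 : 4 * I * h / w ≤ 4 * I * g₁ := by
      apply Nat.div_le_of_le_mul
      have hhle : h ≤ N := by
        rw [← hhN]
        calc h = 1 * h := (one_mul h).symm
          _ ≤ 7 * g₀ * h := Nat.mul_le_mul_right _ (by omega)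
      calc 4 * I * h ≤ 4 * I * N := Nat.mul_le_mul_left _ hhle
        _ = w * (4 * I * g₁) := by rw [← hwN]; ring
    have e4 : (blk M (sup y Y h p I ∪ sdn y Y h p I) b).card ≤
        (7 * k₂ * g₁ + 2) * (4 * I * g₁ + 2) * m := by
      refine e1.trans ?_
      gcongr
    have e5 : ((blk M (sup y Y h p I ∪ sdn y Y h p I) b).card : ℝ) ≤
        (7 * k₂ * g₁ + 2) * (4 * I * g₁ + 2) * m := by exact_mod_cast e4
    refine e5.trans (le_of_eq ?_)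
    rw [rm, ha1]; field_simp
  have hη : (N : ℝ) ^ 2 * (1 - d) ≤ Y.card := by
    have e1 : ((N:ℝ)) ^ 2 ≤ Y.card + 2 * s * w := by exact_mod_cast hYc
    have e2 : (w : ℝ) = N / g₁ := by
      have : (g₁ : ℝ) * w = N := by exact_mod_cast hwN
      field_simp; linarith
    have e3 : 2 * (s:ℝ) * w ≤ N ^ 2 * d := by
      rw [hs, e2]
      have : (1:ℝ) / g₁ ≤ d := by rw [div_le_iff₀ hg1r]; exact hg1
      calc 2 * (131 / 500 * (N:ℝ)) * (N / g₁) = (131/250) * (N ^ 2 * (1 / g₁)) := by ring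
        _ ≤ 1 * (N ^ 2 * d) := by gcongr; norm_num
        _ = _ := by ring
    nlinarith
  have hY' : Y ⊆ range (B * M) := by rw [hBM]; exact hY
  have hjE : j * g₀ + 2 + E ≤ I := by
    rw [hI]
    have : j * g₀ ≤ 40 * g₀ := Nat.mul_le_mul_right _ hj
    omega
  have hmain := Ex_cnt_scaled (y := y) (Y := Y) (h := h) (M := M) (D := D) (I := I) (B := B) (X := X)
    hN hg0p (by omega : 1 ≤ k₁) hk12 (by omega : 2 ≤ k₂) hDN hMD hBM hhN (by omega : 0 < I) hy hyn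
    h1 h2 d hd.le (by linarith) h3 hY' j E hjE a1 d ha10 ham hη hIN
  refine le_trans ?_ hmain
  apply mul_le_mul_of_nonneg_left _ hNr.le
  -- coefficient
  set q : ℝ := Real.exp (-(4 / 49 : ℝ)) with hq
  have hq0 : 0 ≤ q ^ j := by positivity
  have hq1 : q ^ j ≤ 1 := by
    apply pow_le_one₀ (Real.exp_pos _).le
    apply Real.exp_le_one_iff.mpr; norm_num
  have hκ : 1 - 2 * d ≤ ((k₁ : ℝ) - 1) / k₂ := by
    rw [le_div_iff₀ hk2r]
    have e1 : (1 - 2 * d) * (k₂:ℝ) ≤ (1 - 2 * d) * ((1 + d) * k₁) := by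
      apply mul_le_mul_of_nonneg_left hk2d; linarith
    nlinarith
  have hκ1 : ((k₁ : ℝ) - 1) / k₂ ≤ 1 := by
    rw [div_le_one hk2r]; linarith
  set S : ℝ := ((E : ℝ) + 1) * Real.exp (-(4 * k₁ / (49 * g₀ * k₂)) : ℝ) ^ E with hS
  have hS0 : 0 ≤ S := by rw [hS]; positivity
  have hg0e : 1 - d ≤ Real.exp (-(8 / (49 * g₀)) : ℝ) := by
    have e1 := Real.add_one_le_exp (-(8 / (49 * (g₀:ℝ))))
    have e2 : (8:ℝ) / (49 * g₀) ≤ d := by
      rw [div_le_iff₀ (by positivity)]; nlinarith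
    linarith
  have hg0e1 : Real.exp (-(8 / (49 * g₀)) : ℝ) ≤ 1 := by
    apply Real.exp_le_one_iff.mpr
    have : (0:ℝ) ≤ 8 / (49 * g₀) := by positivity
    linarith
  have hT : 1 - 2 * d ≤ Real.exp (-(8 / (49 * g₀)) : ℝ) * (1 - S) := by nlinarith
  have hT1 : Real.exp (-(8 / (49 * g₀)) : ℝ) * (1 - S) ≤ 1 := by
    have := (Real.exp_pos (-(8 / (49 * (g₀:ℝ))))).le
    nlinarith
  have h2k : (2:ℝ) / k₂ ≤ 2 * d := by
    rw [div_le_iff₀ hk2r]
    nlinarith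
  have hc := coef_bound (d := d) (κ := ((k₁ : ℝ) - 1) / k₂) (eps := d) (b := q ^ j)
    (T := Real.exp (-(8 / (49 * g₀)) : ℝ) * (1 - S)) (η' := 2 * d + 2 / k₂)
    (err := 4 * (a1 * (I * (k₁ + 1) + 1)) * I ^ 2 + a1 * k₁) hd.le (by linarith) hκ hκ1 le_rfl hd.le
    hq0 hq1 hT hT1 (by positivity) (by linarith) (by
      calc 4 * (a1 * (I * (k₁ + 1) + 1)) * (I:ℝ) ^ 2 + a1 * k₁ =
          a1 * (4 * (I * (k₁ + 1) + 1) * I ^ 2 + k₁) := by ring
        _ ≤ d := hg2)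
  refine hc.trans (le_of_eq ?_)
  ring

end

end Pool.Agent.Hhelper51.Cat
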