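import Pool.Agent.Hhelper51.Cat.Core10

set_option autoImplicit false
set_option linter.unusedSectionVars false

namespace Pool.Agent.Hhelper51.Cat

open Finset Filter

section

variable {Ω : Type} [Fintype Ω] [DecidableEq Ω] [Nonempty Ω]
variable {y : ℕ → ℕ} {Y : Finset ℕ} {X : Ω → Finset ℕ}

/-- thresholds -/
noncomputable def TT (d : ℝ) (N j : ℕ) : ℕ :=
  ⌊(N : ℝ) * ((2 / 7) * Real.exp (-(4 / 49 : ℝ)) ^ j - 5 * d)⌋₊

/-- the lower bound for the product of partner numbers -/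
noncomputable def LL (d : ℝ) (N : ℕ) : ℝ :=
  ∏ j ∈ Icc (2:ℕ) 40, ((j : ℝ) / ((j : ℝ) - 1)) ^ (TT d N j)

/-- The set of good outcomes. -/
noncomputable def Good (d : ℝ) (y : ℕ → ℕ) (Y : Finset ℕ) (X : Ω → Finset ℕ) (N M B : ℕ) :
    Finset (Fin B → Ω) :=
  open Classical in
  univ.filter (fun ω => ∀ j ∈ Icc 1 40,
    (N : ℝ) * ((2 / 7) * Real.exp (-(4 / 49 : ℝ)) ^ j - 5 * d) ≤ cnt y Y (Xg M B X ω) j)

theorem mem_Good {d : ℝ} {N M B : ℕ} {ω : Fin B → Ω} : ω ∈ Good d y Y X N M B ↔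
    ∀ j ∈ Icc 1 40, (N : ℝ) * ((2 / 7) * Real.exp (-(4 / 49 : ℝ)) ^ j - 5 * d) ≤
      cnt y Y (Xg M B X ω) j := by
  unfold Good
  simp only [mem_filter, mem_univ, true_and]

theorem good_card (d : ℝ) (hd : 0 < d) {N M B k : ℕ} (hN : 0 < N)
    (hy : Function.Injective y)
    (hX : ∀ ω, X ω ⊆ range M ∧ (X ω).card = k) (hBN : B ≤ N)
    (hbig : 80 * 64 * (k : ℝ) ^ 2 ≤ d ^ 2 * N)
    (hEx : ∀ j, j ≤ 40 → (N : ℝ) * ((2 / 7) * Real.exp (-(4 / 49 : ℝ)) ^ j - 4 * d) ≤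
      Ex (fun ω : Fin B → Ω => (cnt y Y (Xg M B X ω) j : ℝ))) :
    (Fintype.card (Fin B → Ω) : ℝ) ≤ 2 * (Good d y Y X N M B).card := by
  classical
  have hNr : (0:ℝ) < N := by exact_mod_cast hN
  have ht : 0 < d * N := by positivity
  set bad : ℕ → Finset (Fin B → Ω) := fun j => univ.filter (fun ω =>
    (cnt y Y (Xg M B X ω) j : ℝ) < Ex (fun ω : Fin B → Ω => (cnt y Y (Xg M B X ω) j : ℝ)) - d * N)
    with hbad
  have hbadc : ∀ j ∈ Icc 1 40, ((bad j).card : ℝ) ≤ Fintype.card (Fin B → Ω) / 80 := by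
    intro j _
    have hc := cheb (B := B) (fun ω : Fin B → Ω => (cnt y Y (Xg M B X ω) j : ℝ)) (8 * k) (d * N) ht
      (fun b ω x => cnt_update hy Y X hX j b ω x)
    have hBr : (B:ℝ) ≤ N := by exact_mod_cast hBN
    have h1 : (B:ℝ) * (8 * k) ^ 2 ≤ (d * N) ^ 2 / 80 := by
      calc (B:ℝ) * (8 * k) ^ 2 ≤ N * (8 * k) ^ 2 := by gcongr
        _ = N * (80 * 64 * (k : ℝ) ^ 2) / 80 := by ring
        _ ≤ N * (d ^ 2 * N) / 80 := by gcongr
        _ = (d * N) ^ 2 / 80 := by ring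
    have hcard0 : (0:ℝ) ≤ Fintype.card (Fin B → Ω) := Nat.cast_nonneg _
    have h2 : ((bad j).card : ℝ) * (d * N) ^ 2 ≤ (d * N) ^ 2 / 80 * Fintype.card (Fin B → Ω) :=
      hc.trans (mul_le_mul_of_nonneg_right h1 hcard0)
    have ht2 : 0 < (d * N) ^ 2 := by positivity
    by_contra hcon
    push Not at hcon
    have := mul_lt_mul_of_pos_right hcon ht2
    linarith
  have hcompl : (Good d y Y X N M B)ᶜ ⊆ (Icc 1 40).biUnion bad := by
    intro ω hω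
    rw [mem_compl, mem_Good] at hω
    push Not at hω
    obtain ⟨j, hj, hlt⟩ := hω
    rw [mem_biUnion]
    refine ⟨j, hj, ?_⟩
    rw [hbad]
    rw [mem_filter]
    refine ⟨mem_univ _, ?_⟩
    have := hEx j (mem_Icc.mp hj).2
    have e : (N : ℝ) * ((2 / 7) * Real.exp (-(4 / 49 : ℝ)) ^ j - 5 * d) =
      (N : ℝ) * ((2 / 7) * Real.exp (-(4 / 49 : ℝ)) ^ j - 4 * d) - d * N := by ring
    rw [e] at hlt
    linarith
  have h1 : (((Good d y Y X N M B)ᶜ).card : ℝ) ≤ Fintype.card (Fin B → Ω) / 2 := by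
    calc (((Good d y Y X N M B)ᶜ).card : ℝ) ≤ (((Icc 1 40).biUnion bad).card : ℝ) := by
          exact_mod_cast card_le_card hcompl
      _ ≤ ∑ j ∈ Icc 1 40, ((bad j).card : ℝ) := by exact_mod_cast card_biUnion_le
      _ ≤ ∑ j ∈ Icc 1 40, ((Fintype.card (Fin B → Ω) : ℝ) / 80) := sum_le_sum hbadc
      _ = _ := by rw [sum_const, Nat.card_Icc, nsmul_eq_mul]; push_cast; ring
  have h2 : (((Good d y Y X N M B)ᶜ).card : ℝ) =
      Fintype.card (Fin B → Ω) - (Good d y Y X N M B).card := by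
    rw [card_compl, Nat.cast_sub (card_le_univ _)]
  rw [h2] at h1
  linarith

theorem exp_two_le : (2 / 7 : ℝ) * Real.exp (-(4 / 49 : ℝ)) ^ 2 ≤ 131 / 500 := by
  rw [← Real.exp_nat_mul]
  have e1 : Real.exp ((2:ℕ) * (-(4/49 : ℝ))) ≤ 49 / 57 := by
    have e2 : ((2:ℕ):ℝ) * (-(4/49 : ℝ)) = -(8/49 : ℝ) := by norm_num
    rw [e2, Real.exp_neg, inv_le_comm₀ (Real.exp_pos _) (by norm_num)]
    have := Real.add_one_le_exp (8/49 : ℝ)
    have e3 : ((49/57 : ℝ))⁻¹ = 8/49 + 1 := by norm_num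
    rw [e3]; exact this
  nlinarith

theorem good_product (d : ℝ) (hd : 0 < d) (hxd : 131 / 500 ≤ (2 / 7) * Real.exp (-(4 / 49 : ℝ)) - 5 * d)
    {N M B s : ℕ} (hs : (s : ℝ) = 131 / 500 * N) (ω : Fin B → Ω)
    (hω : ω ∈ Good d y Y X N M B) :
    ∃ U : Finset ℕ, U ⊆ Xg M B X ω ∩ Y ∧ U.card = s ∧
      LL d N ≤ ∏ p ∈ U, ((box y Y (Xg M B X ω) p).card : ℝ) := by
  classical
  rw [mem_Good] at hω
  have hω' := hω
  have hNr : (0:ℝ) ≤ N := Nat.cast_nonneg _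
  apply exists_top (Xg M B X ω ∩ Y) (fun p => (box y Y (Xg M B X ω) p).card) s 40 (TT d N)
  · have h1 := hω' 1 (by simp)
    have h2 : (s:ℝ) ≤ cnt y Y (Xg M B X ω) 1 := by
      refine le_trans ?_ h1
      rw [hs, pow_one]
      nlinarith
    have h3 : s ≤ cnt y Y (Xg M B X ω) 1 := by exact_mod_cast h2
    exact h3
  · intro j hj
    rw [mem_Icc] at hj
    constructor
    · unfold TT
      apply Nat.floor_le_of_le
      rw [hs]
      have hq1 : Real.exp (-(4 / 49 : ℝ)) ≤ 1 := by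
        apply Real.exp_le_one_iff.mpr; norm_num
      have hqj : Real.exp (-(4 / 49 : ℝ)) ^ j ≤ Real.exp (-(4 / 49 : ℝ)) ^ 2 :=
        pow_le_pow_of_le_one (Real.exp_pos _).le hq1 hj.1
      have := exp_two_le
      have h3 : (2 / 7) * Real.exp (-(4 / 49 : ℝ)) ^ j - 5 * d ≤ 131 / 500 := by linarith
      calc (N:ℝ) * ((2 / 7) * Real.exp (-(4 / 49 : ℝ)) ^ j - 5 * d) ≤ N * (131 / 500) := by gcongr
        _ = _ := by ring
    · unfold TT
      apply Nat.floor_le_of_le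
      exact hω' j (by rw [mem_Icc]; omega)

theorem log_LL (d : ℝ) (hd : 0 < d) (N : ℕ) :
    (N : ℝ) * ((2/7) * ∑ j ∈ Icc (2:ℕ) 40, Real.exp (-(4/49 : ℝ)) ^ j *
      Real.log ((j : ℝ) / ((j : ℝ) - 1))) - 39 * (5 * d * N + 1) ≤ Real.log (LL d N) := by
  unfold LL
  rw [Real.log_prod (fun j hj => by
    rw [mem_Icc] at hj
    have : (2:ℝ) ≤ j := by exact_mod_cast hj.1
    have h1 : (0:ℝ) < (j:ℝ) - 1 := by linarith
    positivity)]
  have hterm : ∀ j ∈ Icc (2:ℕ) 40,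
      (N : ℝ) * ((2/7) * (Real.exp (-(4/49 : ℝ)) ^ j * Real.log ((j : ℝ) / ((j : ℝ) - 1)))) -
        (5 * d * N + 1) ≤ Real.log (((j : ℝ) / ((j : ℝ) - 1)) ^ (TT d N j)) := by
    intro j hj
    rw [mem_Icc] at hj
    have hj2 : (2:ℝ) ≤ j := by exact_mod_cast hj.1
    have h1 : (0:ℝ) < (j:ℝ) - 1 := by linarith
    rw [Real.log_pow]
    set l := Real.log ((j : ℝ) / ((j : ℝ) - 1)) with hl
    have hl0 : 0 ≤ l := by
      apply Real.log_nonneg
      rw [le_div_iff₀ h1]; linarith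
    have hl1 : l ≤ 1 := by
      have := Real.log_le_sub_one_of_pos (show 0 < (j : ℝ) / ((j : ℝ) - 1) by positivity)
      have e : (j : ℝ) / ((j : ℝ) - 1) - 1 = 1 / ((j:ℝ) - 1) := by field_simp; ring
      rw [e] at this
      have : 1 / ((j:ℝ) - 1) ≤ 1 := by rw [div_le_one h1]; linarith
      linarith
    have hfl : (N : ℝ) * ((2 / 7) * Real.exp (-(4 / 49 : ℝ)) ^ j - 5 * d) - 1 ≤ TT d N j := by
      unfold TT
      exact (Nat.sub_one_lt_floor _).le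
    have hNr : (0:ℝ) ≤ N := Nat.cast_nonneg _
    have h2 := mul_le_mul_of_nonneg_right hfl hl0
    have h3 : ((N : ℝ) * ((2 / 7) * Real.exp (-(4 / 49 : ℝ)) ^ j - 5 * d) - 1) * l =
      (N : ℝ) * ((2/7) * (Real.exp (-(4/49 : ℝ)) ^ j * l)) - (5 * d * N + 1) * l := by ring
    rw [h3] at h2
    have h4 : (5 * d * N + 1) * l ≤ (5 * d * N + 1) * 1 := by
      apply mul_le_mul_of_nonneg_left hl1; positivity
    linarith
  have hsum := sum_le_sum hterm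
  rw [sum_sub_distrib, sum_const, Nat.card_Icc, nsmul_eq_mul, ← mul_sum, ← mul_sum] at hsum
  norm_num at hsum ⊢
  linarith

end

end Pool.Agent.Hhelper51.Cat
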