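import Pool.Agent.Hhelper51.Cat.Core11

set_option autoImplicit false
set_option linter.unusedSectionVars false

namespace Pool.Agent.Hhelper51.Cat

open Finset Filter

/-- Lower bound in the case without heavy cells. -/
theorem case_two (d : ℝ) (hd : 0 < d) (hd1 : d ≤ 1 / 100)
    (hxd : 131 / 500 ≤ (2 / 7) * Real.exp (-(4 / 49 : ℝ)) - 5 * d)
    {N k₁ k₂ g₀ I E g₁ g₂ h w m D M B s : ℕ}
    (hN : 0 < N) (hk1 : 2 ≤ k₁) (hk12 : k₁ ≤ k₂) (hk2d : (k₂ : ℝ) ≤ (1 + d) * k₁)
    (hk1d : 1 ≤ d * k₁)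
    (hDN : D = 7 * N) (hMD : 2 * M = k₂ * D) (hBM : B * M = N ^ 2) (hhN : 7 * g₀ * h = N)
    (hwN : g₁ * w = N) (hmN : g₂ * m = N)
    (hI : I = 40 * g₀ + 2 + E)
    (hE : ((E : ℝ) + 1) * Real.exp (-(4 * k₁ / (49 * g₀ * k₂)) : ℝ) ^ E ≤ d)
    (hg0 : 1 ≤ d * g₀) (hg1 : 1 ≤ d * g₁)
    (hg2 : ((7 * k₂ * g₁ + 2 : ℝ) * (4 * I * g₁ + 2) / g₂) *
      (4 * (I * (k₁ + 1) + 1) * I ^ 2 + k₁) ≤ d)
    (hIN : (I : ℝ) ≤ d * N)
    (hbig : 80 * 64 * (k₁ : ℝ) ^ 2 ≤ d ^ 2 * N)
    (σ : Equiv.Perm (Fin (N ^ 2)))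
    {Ω : Type} [Fintype Ω] [DecidableEq Ω] [Nonempty Ω] {X : Ω → Finset ℕ} {Y : Finset ℕ}
    (h0 : ∀ ω, X ω ⊆ range M ∧ (X ω).card = k₁)
    (h1 : ∀ u < M, M * (univ.filter (fun ω => u ∈ X ω)).card = k₁ * Fintype.card Ω)
    (h2 : ∀ u < M, ∀ v < M, u ≠ v →
        M * D * (univ.filter (fun ω => u ∈ X ω ∧ v ∈ X ω)).card ≤ 2 * k₁ ^ 2 * Fintype.card Ω)
    (h3 : ∀ p t : ℕ, p < t → t < M → t ≤ p + D →
        ((k₁ : ℝ) - 1) * (1 - d) * Fintype.card Ω ≤
          M * D * (univ.filter (fun ω => p ∈ X ω ∧ t ∈ X ω ∧ ∀ u ∈ X ω, u ≤ p ∨ t ≤ u)).card)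
    (h5 : ∀ S : Finset ℕ, (univ.filter (fun ω => X ω = S)).card ≤ k₁)
    (h6 : M * D ^ (k₁ - 1) ≤ 2 * Fintype.card Ω)
    (hs : (s : ℝ) = 131 / 500 * N)
    (hY : Y ⊆ range (N ^ 2)) (hYc : N ^ 2 ≤ Y.card + 2 * s * w)
    (hcell : ∀ α β, (cell (ext σ) w Y α β).card < m) :
    Real.exp (s * Real.log N + N * (VV - 200 * d) - 100) ≤ ((pairFam σ s).card : ℝ) := by
  classical
  have hNr : (0:ℝ) < N := by exact_mod_cast hN
  have hk1r : (2:ℝ) ≤ k₁ := by exact_mod_cast hk1
  have hk12r : (k₁:ℝ) ≤ k₂ := by exact_mod_cast hk12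
  have hk2r : (0:ℝ) < k₂ := by linarith
  have hM0 : 0 < M := by
    rcases Nat.eq_zero_or_pos M with hM | hM
    · rw [hM, mul_zero] at hBM
      have : 0 < N ^ 2 := by positivity
      omega
    · exact hM
  have hB0 : 0 < B := by
    rcases Nat.eq_zero_or_pos B with hB | hB
    · rw [hB, zero_mul] at hBM
      have : 0 < N ^ 2 := by positivity
      omega
    · exact hB
  have rD : (D : ℝ) = 7 * N := by rw [hDN]; push_cast; ring
  have rM : (M : ℝ) = 7 * k₂ * N / 2 := by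
    have : (2 : ℝ) * M = k₂ * D := by exact_mod_cast hMD
    rw [rD] at this; linarith
  have rBM : (B : ℝ) * M = N ^ 2 := by exact_mod_cast hBM
  have rB : (B : ℝ) = 2 * N / (7 * k₂) := by
    rw [rM] at rBM
    field_simp
    have : (B : ℝ) * (7 * k₂ * N / 2) / N = N ^ 2 / N := by rw [rBM]
    field_simp at this
    nlinarith
  have hBN : B ≤ N := by
    have : (B:ℝ) ≤ N := by
      rw [rB, div_le_iff₀ (by positivity)]
      nlinarith
    exact_mod_cast this
  -- expectations and good outcomes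
  have hEx : ∀ j, j ≤ 40 → (N : ℝ) * ((2 / 7) * Real.exp (-(4 / 49 : ℝ)) ^ j - 4 * d) ≤
      Ex (fun ω : Fin B → Ω => (cnt (ext σ) Y (Xg M B X ω) j : ℝ)) := fun j hj =>
    Ex_all d hd hd1 hN hk1 hk12 hk2d hk1d hDN hMD hBM hhN hwN hmN hI hE hg0 hg1 hg2 hIN
      (ext_injective σ) (fun u hu => ext_lt σ u hu) h1 h2 h3 hs hY hYc hcell j hj
  have hgood := good_card (Y := Y) (X := X) d hd hN (ext_injective σ) h0 hBN hbig hEx
  have hprod := fun ω hω => good_product (Y := Y) (X := X) (y := ext σ) d hd hxd hs (N := N)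
    (M := M) (B := B) ω hω
  -- R and s
  set R := B * k₁ with hR
  have rR : (R : ℝ) = 2 * k₁ * N / (7 * k₂) := by
    rw [hR]; push_cast; rw [rB]; field_simp
  have hRs : (131 / 500 : ℝ) * N < R := by
    rw [rR, lt_div_iff₀ (by positivity)]
    have e1 : 131 / 500 * (N:ℝ) * (7 * k₂) ≤ 131 / 500 * N * (7 * ((1 + d) * k₁)) := by gcongr
    have e2 : 131 / 500 * (N:ℝ) * (7 * ((1 + d) * k₁)) < 2 * k₁ * N := by
      have : (131 / 500 * (7 * (1 + d)) : ℝ) < 2 := by linarith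
      have hkN : (0:ℝ) < k₁ * N := by positivity
      nlinarith
    linarith
  have hsR : s < R := by
    have : (s:ℝ) < R := by rw [hs]; exact hRs
    exact_mod_cast this
  have hRn : R ≤ N ^ 2 := by
    rw [hR, ← hBM]
    apply Nat.mul_le_mul_left
    have := (h0 (Classical.arbitrary Ω))
    have h' := card_le_card this.1
    rw [this.2, card_range] at h'
    exact h'
  have hcount := fam_count σ (ext σ) (fun i => ext_fin σ i) Y hY (W := Fin B → Ω)
    (fun ω => Xg M B X ω) R s (k₁ ^ B) hsR.le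
    (fun ω => ⟨by rw [← hBM]; exact Xg_subset X ω, Xg_card hM0 X h0 ω⟩)
    (fun S => Xg_mult hM0 X h0 h5 S)
    (Good d (ext σ) Y X N M B) (LL d N) (fun ω hω => hprod ω hω)
  -- positivity
  have hLLpos : 0 < LL d N := by
    unfold LL
    apply prod_pos
    intro j hj
    rw [mem_Icc] at hj
    have : (2:ℝ) ≤ j := by exact_mod_cast hj.1
    have h1 : (0:ℝ) < (j:ℝ) - 1 := by linarith
    positivity
  have hΩpos : (0:ℝ) < Fintype.card Ω := by exact_mod_cast Fintype.card_pos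
  have hcardpi : (Fintype.card (Fin B → Ω) : ℝ) = (Fintype.card Ω : ℝ) ^ B := by
    simp
  have hGpos : (0:ℝ) < (Good d (ext σ) Y X N M B).card := by
    have : (0:ℝ) < (Fintype.card (Fin B → Ω) : ℝ) := by rw [hcardpi]; positivity
    linarith
  have hchpos : 0 < (N ^ 2).choose (R - s) := Nat.choose_pos (by omega)
  have hchr : (0:ℝ) < ((N ^ 2).choose (R - s) : ℝ) := by exact_mod_cast hchpos
  have hk1pos : (0:ℝ) < k₁ := by linarith
  have hLHS : 0 < ((Good d (ext σ) Y X N M B).card : ℝ) * LL d N := by positivity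
  have hPpos : (0:ℝ) < ((pairFam σ s).card : ℝ) := by
    by_contra hcon
    push Not at hcon
    have h0' : ((pairFam σ s).card : ℝ) = 0 := le_antisymm hcon (Nat.cast_nonneg _)
    rw [h0', zero_mul] at hcount
    linarith
  -- take logs
  have hlog := Real.log_le_log hLHS hcount
  push_cast at hlog
  rw [Real.log_mul hGpos.ne' hLLpos.ne', Real.log_mul hPpos.ne' (by positivity),
    Real.log_mul (by positivity) hchr.ne', Real.log_pow] at hlog
  -- lower bound for log |G|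
  have hG : (B:ℝ) * Real.log (Fintype.card Ω) - Real.log 2 ≤
      Real.log ((Good d (ext σ) Y X N M B).card : ℝ) := by
    rw [← Real.log_pow, ← Real.log_div (by positivity) (by norm_num)]
    apply Real.log_le_log (by positivity)
    rw [div_le_iff₀ (by norm_num), ← hcardpi]
    linarith
  have hD0 : (0:ℝ) < D := by rw [rD]; positivity
  have hMr : (0:ℝ) < M := by exact_mod_cast hM0
  have hΩ : Real.log k₂ + k₁ * Real.log D - 2 * Real.log 2 ≤ Real.log (Fintype.card Ω) := by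
    have e1 : (M : ℝ) * D ^ (k₁ - 1) ≤ 2 * Fintype.card Ω := by exact_mod_cast h6
    have e2 : Real.log ((M : ℝ) * D ^ (k₁ - 1)) ≤ Real.log (2 * Fintype.card Ω) :=
      Real.log_le_log (by positivity) e1
    rw [Real.log_mul hMr.ne' (by positivity), Real.log_mul (by norm_num) hΩpos.ne',
      Real.log_pow] at e2
    have e3 : Real.log M = Real.log k₂ + Real.log D - Real.log 2 := by
      rw [← Real.log_mul hk2r.ne' hD0.ne', ← Real.log_div (by positivity) (by norm_num)]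
      congr 1
      have : (2 : ℝ) * M = k₂ * D := by exact_mod_cast hMD
      linarith
    rw [e3, Nat.cast_sub (by omega : 1 ≤ k₁)] at e2
    push_cast at e2
    linarith
  have hkk : Real.log k₁ ≤ Real.log k₂ := Real.log_le_log hk1pos hk12r
  have hDlog : Real.log D = Real.log 7 + Real.log N := by
    rw [rD, Real.log_mul (by norm_num) hNr.ne']
  -- binomial
  have hch := log_choose_le (n := N ^ 2) (t := R - s) (by omega) (by positivity) hchpos
  have htcast : ((R - s : ℕ) : ℝ) = R - s := by rw [Nat.cast_sub hsR.le]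
  set τ : ℝ := (R - s) / N with hτ
  have hτpos : 0 < τ := by
    rw [hτ, hs]; apply div_pos _ hNr; linarith
  have hRτ : (R : ℝ) = (131 / 500 + τ) * N := by
    rw [hτ, hs]; field_simp; ring
  have htτ : (R : ℝ) - s = τ * N := by rw [hτ]; field_simp
  have hτ1 : τ ≤ 2 / 7 - 131 / 500 := by
    have : (R:ℝ) ≤ 2 / 7 * N := by
      rw [rR, div_le_iff₀ (by positivity)]
      nlinarith
    have h' : (131 / 500 + τ) * N ≤ 2 / 7 * N := by rw [← hRτ]; exact this
    have := le_of_mul_le_mul_right h' hNr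
    linarith
  have hpsi := psi_bound (x := 131 / 500) hτpos hτ1 (by norm_num)
  rw [htcast, htτ] at hch
  rw [show Real.log (τ * (N:ℝ)) = Real.log τ + Real.log N from
    Real.log_mul hτpos.ne' hNr.ne'] at hch
  have hN2 : Real.log ((N ^ 2 : ℕ) : ℝ) = 2 * Real.log N := by
    push_cast; rw [Real.log_pow]; norm_num
  rw [hN2] at hch
  have hLL := log_LL d hd N
  -- B small
  have hBd : (B:ℝ) * (2 * Real.log 2) ≤ d * N := by
    have hl2 : Real.log 2 ≤ 1 := by
      have := Real.log_two_lt_d9; linarith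
    have hl20 : 0 ≤ Real.log 2 := Real.log_nonneg (by norm_num)
    have e1 : (B:ℝ) ≤ (2 / 7) * (d * N) := by
      rw [rB, div_le_iff₀ (by positivity)]
      have e2 : (1:ℝ) ≤ d * k₂ := hk1d.trans (by gcongr)
      calc 2 * (N:ℝ) = 2 * N * 1 := by ring
        _ ≤ 2 * N * (d * k₂) := by gcongr
        _ = _ := by ring
    have : (B:ℝ) * (2 * Real.log 2) ≤ (2 / 7) * (d * N) * 2 := by
      apply mul_le_mul e1 (by linarith) (by positivity) (by positivity)
    have hdN : 0 ≤ d * N := by positivity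
    linarith
  -- combine
  have hBr : (0:ℝ) ≤ B := Nat.cast_nonneg _
  have hBΩ := mul_le_mul_of_nonneg_left hΩ hBr
  have hBk := mul_le_mul_of_nonneg_left hkk hBr
  have hRreal : (R:ℝ) = B * k₁ := by rw [hR]; push_cast; ring
  have hpsiN := mul_le_mul_of_nonneg_left hpsi hNr.le
  have hl2' : Real.log 2 ≤ 1 := by
    have := Real.log_two_lt_d9; linarith
  rw [← Real.le_log_iff_exp_le hPpos]
  have hVV : (N:ℝ) * VV = N * ((131 / 500 + (2 / 7 - 131 / 500)) * Real.log 7 -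
      (2 / 7 - 131 / 500) + (2 / 7 - 131 / 500) * Real.log (2 / 7 - 131 / 500)) +
      N * ((2/7) * ∑ j ∈ Icc (2:ℕ) 40, Real.exp (-(4/49 : ℝ)) ^ j *
      Real.log ((j : ℝ) / ((j : ℝ) - 1))) := by
    unfold VV; ring
  have hkey : (B:ℝ) * (Real.log k₂ + k₁ * Real.log D - 2 * Real.log 2) =
      B * Real.log k₂ + R * (Real.log 7 + Real.log N) - B * (2 * Real.log 2) := by
    rw [hDlog, hRreal]; ring
  rw [hkey] at hBΩ
  have hRlog : (R:ℝ) * (Real.log 7 + Real.log N) - τ * N * (2 * Real.log N + 1 -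
      (Real.log τ + Real.log N)) = s * Real.log N +
      N * ((131 / 500 + τ) * Real.log 7 - τ + τ * Real.log τ) := by
    rw [hRτ, hs]; ring
  have hdN : 0 ≤ d * N := by positivity
  have e200 : (N:ℝ) * (VV - 200 * d) = N * VV - 200 * (d * N) := by ring
  rw [e200, hVV]
  linarith

end Pool.Agent.Hhelper51.Cat
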