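import Pool.Agent.Hhelper51.Cat.Core12

set_option autoImplicit false
set_option linter.unusedSectionVars false

namespace Pool.Agent.Hhelper51.Cat

open Finset Filter

/-- The adversarial lower bound for the number of pair families. -/
theorem lower_bound (ε : ℝ) (hε : 0 < ε) : ∃ L : ℕ, 1 ≤ L ∧ ∃ N0 : ℕ, ∀ N : ℕ, N0 ≤ N → L ∣ N →
    ∀ s : ℕ, (s : ℝ) = 131 / 500 * N → ∀ σ : Equiv.Perm (Fin (N ^ 2)),
      Real.exp (s * Real.log N + N * (VV - ε)) ≤ ((pairFam σ s).card : ℝ) := by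
  classical
  set gap : ℝ := (2 / 7) * Real.exp (-(4 / 49 : ℝ)) - 131 / 500 with hgap
  have hgap0 : 0 < gap := by have := x_cond; rw [hgap]; linarith
  set d : ℝ := min (1 / 100) (min (gap / 5) (ε / 400)) with hd
  have hd0 : 0 < d := by rw [hd]; positivity
  have hd1 : d ≤ 1 / 100 := min_le_left _ _
  have hd2 : d ≤ gap / 5 := (min_le_right _ _).trans (min_le_left _ _)
  have hd3 : d ≤ ε / 400 := (min_le_right _ _).trans (min_le_right _ _)
  have hxd : 131 / 500 ≤ (2 / 7) * Real.exp (-(4 / 49 : ℝ)) - 5 * d := by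
    rw [hgap] at hd2; linarith
  obtain ⟨k₁, k₂, hk1, hk12, hk2d, hk1d, D0, hlaw⟩ := block_law d hd0 (by linarith)
  have hk1r : (2:ℝ) ≤ k₁ := by exact_mod_cast hk1
  have hk12r : (k₁:ℝ) ≤ k₂ := by exact_mod_cast hk12
  have hk2r : (0:ℝ) < k₂ := by linarith
  have hk1r0 : (0:ℝ) < k₁ := by linarith
  set g₀ : ℕ := ⌈1 / d⌉₊ + 1 with hg0def
  have hg0 : 1 ≤ d * g₀ := by
    have : 1 / d ≤ g₀ := by
      rw [hg0def]; push_cast; linarith [Nat.le_ceil (1 / d)]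
    rw [div_le_iff₀ hd0] at this; linarith
  have hg0p : 0 < g₀ := by omega
  have hg0r : (0:ℝ) < g₀ := by exact_mod_cast hg0p
  obtain ⟨E, hE⟩ := exists_E (r := Real.exp (-(4 * k₁ / (49 * g₀ * k₂)) : ℝ)) (d := d)
    (Real.exp_pos _).le (by
      rw [Real.exp_lt_one_iff]
      have : (0:ℝ) < 4 * k₁ / (49 * g₀ * k₂) := by positivity
      linarith) hd0
  set I : ℕ := 40 * g₀ + 2 + E with hI
  set g₁ : ℕ := g₀ with hg1def
  set C : ℝ := ((7 * k₂ * g₁ + 2 : ℝ) * (4 * I * g₁ + 2)) *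
      (4 * (I * (k₁ + 1) + 1) * I ^ 2 + k₁) with hC
  have hC0 : 0 ≤ C := by rw [hC]; positivity
  set g₂ : ℕ := ⌈C / d⌉₊ + 1 with hg2def
  have hg2p : 0 < g₂ := by omega
  have hg2r : (0:ℝ) < g₂ := by exact_mod_cast hg2p
  have hg2 : ((7 * k₂ * g₁ + 2 : ℝ) * (4 * I * g₁ + 2) / g₂) *
      (4 * (I * (k₁ + 1) + 1) * I ^ 2 + k₁) ≤ d := by
    have e1 : ((7 * k₂ * g₁ + 2 : ℝ) * (4 * I * g₁ + 2) / g₂) *
      (4 * (I * (k₁ + 1) + 1) * I ^ 2 + k₁) = C / g₂ := by rw [hC]; ring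
    rw [e1, div_le_iff₀ hg2r]
    have : C / d ≤ g₂ := by
      rw [hg2def]; push_cast; linarith [Nat.le_ceil (C / d)]
    rw [div_le_iff₀ hd0] at this; linarith
  -- thresholds for N
  obtain ⟨N1, hN1⟩ := eventually_atTop.mp ((Real.tendsto_log_atTop.comp
    tendsto_natCast_atTop_atTop).eventually_ge_atTop (4 * |VV| + 2 * Real.log g₂ + Real.log 4))
  refine ⟨14 * k₂ * g₀ * g₁ * g₂, ?_, max (max D0 N1) (max ⌈(I:ℝ) / d⌉₊
    (max ⌈80 * 64 * (k₁ : ℝ) ^ 2 / d ^ 2⌉₊ (max ⌈200 / ε⌉₊ (2 * g₂)))), ?_⟩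
  · have : 0 < 14 * k₂ * g₀ * g₁ * g₂ := by
      have : 0 < k₂ := by omega
      positivity
    omega
  intro N hN hdvd s hs σ
  have hNa : D0 ≤ N := le_trans (le_max_left _ _) ((le_max_left _ _).trans hN)
  have hNb : N1 ≤ N := le_trans (le_max_right _ _) ((le_max_left _ _).trans hN)
  have hN' := (le_max_right _ _).trans hN
  have hNc : ⌈(I:ℝ) / d⌉₊ ≤ N := (le_max_left _ _).trans hN'
  have hN'' := (le_max_right _ _).trans hN'
  have hNd : ⌈80 * 64 * (k₁ : ℝ) ^ 2 / d ^ 2⌉₊ ≤ N := (le_max_left _ _).trans hN''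
  have hN''' := (le_max_right _ _).trans hN''
  have hNe : ⌈200 / ε⌉₊ ≤ N := (le_max_left _ _).trans hN'''
  have hNf : 2 * g₂ ≤ N := (le_max_right _ _).trans hN'''
  have hNpos : 0 < N := by omega
  have hNr : (0:ℝ) < N := by exact_mod_cast hNpos
  obtain ⟨u, hu⟩ := hdvd
  set h := 2 * k₂ * g₁ * g₂ * u with hh
  set w := 14 * k₂ * g₀ * g₂ * u with hw
  set m := 14 * k₂ * g₀ * g₁ * u with hm
  set M := 49 * k₂ ^ 2 * g₀ * g₁ * g₂ * u with hM
  set B := 4 * g₀ * g₁ * g₂ * u with hB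
  have hMD : 2 * M = k₂ * (7 * N) := by rw [hM, hu]; ring
  have hBM : B * M = N ^ 2 := by rw [hB, hM, hu]; ring
  have hhN : 7 * g₀ * h = N := by rw [hh, hu]; ring
  have hwN : g₁ * w = N := by rw [hw, hu]; ring
  have hmN : g₂ * m = N := by rw [hm, hu]; ring
  have hw0 : 0 < w := by
    rcases Nat.eq_zero_or_pos w with h' | h'
    · rw [h', mul_zero] at hwN; omega
    · exact h'
  rcases heavy_dichotomy (N ^ 2) w s m hw0 (ext σ) (ext_injective σ) (fun v hv => ext_lt σ v hv)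
    with ⟨α, β, hα, hβ, hc⟩ | ⟨Y, hY, hYc, hcell⟩
  · -- heavy cells
    have hcount := heavy_count σ (ext σ) (fun i => ext_fin σ i) w s m hw0 α β hα hβ hc
    have hcount' : ((m.choose 2 : ℕ) : ℝ) ^ s ≤ ((pairFam σ s).card : ℝ) := by
      exact_mod_cast hcount
    refine le_trans ?_ hcount'
    have hm2 : 2 ≤ m := by
      have : g₂ * 2 ≤ g₂ * m := by rw [hmN]; omega
      exact Nat.le_of_mul_le_mul_left this hg2p
    have hmr : (2:ℝ) ≤ m := by exact_mod_cast hm2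
    have hch : (m : ℝ) ^ 2 / 4 ≤ ((m.choose 2 : ℕ) : ℝ) := by
      rw [Nat.cast_choose_two]; nlinarith
    have rm : (m : ℝ) = N / g₂ := by
      have : (g₂ : ℝ) * m = N := by exact_mod_cast hmN
      field_simp; linarith
    have hpow : ((m : ℝ) ^ 2 / 4) ^ s ≤ ((m.choose 2 : ℕ) : ℝ) ^ s := by gcongr
    refine le_trans ?_ hpow
    rw [← Real.le_log_iff_exp_le (by positivity), Real.log_pow, Real.log_div (by positivity)
      (by norm_num), Real.log_pow, rm, Real.log_div hNr.ne' hg2r.ne']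
    have hlogN := hN1 N hNb
    simp only [Function.comp] at hlogN
    push_cast
    have hVVa : VV ≤ |VV| := le_abs_self _
    have hl4 : 0 ≤ Real.log 4 := Real.log_nonneg (by norm_num)
    have hlg : 0 ≤ Real.log g₂ := Real.log_nonneg (by
      have : 1 ≤ g₂ := hg2p
      exact_mod_cast this)
    have habs : 0 ≤ |VV| := abs_nonneg _
    have hs4 : (N:ℝ) * VV ≤ s * (4 * |VV|) := by
      rw [hs]
      calc (N:ℝ) * VV ≤ N * |VV| := by gcongr
        _ ≤ N * |VV| * (524/500) := by nlinarith [mul_nonneg hNr.le habs]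
        _ = _ := by ring
    have hsr : (0:ℝ) ≤ s := Nat.cast_nonneg _
    have hkey := mul_le_mul_of_nonneg_left hlogN hsr
    have hNε : 0 ≤ (N:ℝ) * ε := by positivity
    nlinarith
  · -- no heavy cells
    obtain ⟨Ω, hF, hDe, X, hne, h0, h1, h2, h3, h5, h6⟩ := hlaw (7 * N) (by omega) M hMD
    have hIN : (I:ℝ) ≤ d * N := by
      have : (I:ℝ) / d ≤ N := (Nat.le_ceil _).trans (by exact_mod_cast hNc)
      rw [div_le_iff₀ hd0] at this; linarith
    have hbig : 80 * 64 * (k₁ : ℝ) ^ 2 ≤ d ^ 2 * N := by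
      have : 80 * 64 * (k₁ : ℝ) ^ 2 / d ^ 2 ≤ N := (Nat.le_ceil _).trans (by exact_mod_cast hNd)
      rw [div_le_iff₀ (by positivity)] at this; linarith
    have hmain := case_two d hd0 hd1 hxd hNpos hk1 hk12 hk2d hk1d rfl hMD hBM hhN hwN hmN hI hE
      hg0 hg0 hg2 hIN hbig σ h0 h1 h2 h3 h5 h6 hs hY hYc hcell
    refine le_trans ?_ hmain
    apply Real.exp_le_exp.mpr
    have hNe' : (200:ℝ) / ε ≤ N := (Nat.le_ceil _).trans (by exact_mod_cast hNe)
    rw [div_le_iff₀ hε] at hNe'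
    have h400 : 200 * d ≤ ε / 2 := by linarith
    have hN400 := mul_le_mul_of_nonneg_left h400 hNr.le
    nlinarith

end Pool.Agent.Hhelper51.Cat
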