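import Pool.Agent.Hhelper51.Cat.Core1

set_option autoImplicit false
set_option linter.unusedSectionVars false

namespace Pool.Agent.Hhelper51.Cat

open Finset

theorem abs_prod_sub_prod {ι : Type*} (s : Finset ι) (x y : ι → ℝ)
    (hx0 : ∀ i ∈ s, 0 ≤ x i) (hx1 : ∀ i ∈ s, x i ≤ 1) (hy0 : ∀ i ∈ s, 0 ≤ y i)
    (hy1 : ∀ i ∈ s, y i ≤ 1) :
    |∏ i ∈ s, x i - ∏ i ∈ s, y i| ≤ ∑ i ∈ s, |x i - y i| := by
  classical
  induction s using Finset.induction_on with
  | empty => simp
  | insert a s ha ih =>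
    rw [prod_insert ha, prod_insert ha, sum_insert ha]
    have ih' := ih (fun i hi => hx0 i (mem_insert_of_mem hi)) (fun i hi => hx1 i (mem_insert_of_mem hi))
      (fun i hi => hy0 i (mem_insert_of_mem hi)) (fun i hi => hy1 i (mem_insert_of_mem hi))
    have h1 : x a * ∏ i ∈ s, x i - y a * ∏ i ∈ s, y i =
        (x a - y a) * ∏ i ∈ s, x i + y a * (∏ i ∈ s, x i - ∏ i ∈ s, y i) := by ring
    rw [h1]
    have hP0 : 0 ≤ ∏ i ∈ s, x i := prod_nonneg (fun i hi => hx0 i (mem_insert_of_mem hi))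
    have hP1 : ∏ i ∈ s, x i ≤ 1 :=
      prod_le_one (fun i hi => hx0 i (mem_insert_of_mem hi)) (fun i hi => hx1 i (mem_insert_of_mem hi))
    calc |(x a - y a) * ∏ i ∈ s, x i + y a * (∏ i ∈ s, x i - ∏ i ∈ s, y i)|
        ≤ |(x a - y a) * ∏ i ∈ s, x i| + |y a * (∏ i ∈ s, x i - ∏ i ∈ s, y i)| := abs_add_le _ _
      _ ≤ |x a - y a| * 1 + 1 * |∏ i ∈ s, x i - ∏ i ∈ s, y i| := by
          rw [abs_mul, abs_mul, abs_of_nonneg hP0, abs_of_nonneg (hy0 a (mem_insert_self _ _))]
          gcongr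
          exact hy1 a (mem_insert_self _ _)
      _ ≤ _ := by linarith

section

variable {Ω : Type} [Fintype Ω] [DecidableEq Ω]

/-- number of elements of `A` in block `b` -/
def blk (M : ℕ) (A : Finset ℕ) (b : ℕ) : Finset ℕ := A.filter (fun u => u / M = b)

theorem avoid_bounds [Nonempty Ω] {M D k : ℕ} (hM : 0 < M) (hD : 0 < D) (X : Ω → Finset ℕ)
    (h1 : ∀ u < M, M * (univ.filter (fun ω => u ∈ X ω)).card = k * Fintype.card Ω)
    (h2 : ∀ u < M, ∀ v < M, u ≠ v →
        M * D * (univ.filter (fun ω => u ∈ X ω ∧ v ∈ X ω)).card ≤ 2 * k ^ 2 * Fintype.card Ω)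
    (A : Finset ℕ) (b : ℕ) :
    1 - (k / M : ℝ) * (blk M A b).card ≤ ((avoid M X A b).card / Fintype.card Ω : ℝ) ∧
    ((avoid M X A b).card / Fintype.card Ω : ℝ) ≤
      1 - (k / M : ℝ) * (blk M A b).card + 2 * k ^ 2 / (M * D) * (blk M A b).card ^ 2 := by
  classical
  have hc : (0:ℝ) < Fintype.card Ω := by exact_mod_cast Fintype.card_pos
  have hMr : (0:ℝ) < M := by exact_mod_cast hM
  have hDr : (0:ℝ) < D := by exact_mod_cast hD
  set S := blk M A b with hS
  -- counting function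
  set cc : Ω → ℝ := fun x => ∑ u ∈ S, (if u % M ∈ X x then (1:ℝ) else 0) with hcc
  have hsum1 : ∑ x, cc x = (k / M : ℝ) * S.card * Fintype.card Ω := by
    rw [hcc, sum_comm]
    have : ∀ u ∈ S, ∑ x : Ω, (if u % M ∈ X x then (1:ℝ) else 0) = (k / M : ℝ) * Fintype.card Ω := by
      intro u _
      have := h1 (u % M) (Nat.mod_lt _ hM)
      have h' : (M : ℝ) * ((univ.filter (fun ω => u % M ∈ X ω)).card : ℝ) = k * Fintype.card Ω := by
        exact_mod_cast this
      rw [← sum_filter, sum_const, nsmul_eq_mul, mul_one]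
      field_simp
      linarith
    rw [sum_congr rfl this, sum_const, nsmul_eq_mul]; ring
  have hsum2 : ∑ x, (cc x * cc x - cc x) ≤ 2 * k ^ 2 / (M * D) * (S.card : ℝ) ^ 2 * Fintype.card Ω := by
    have hpt : ∀ x, cc x * cc x - cc x =
        ∑ u ∈ S, ∑ v ∈ S.erase u, (if u % M ∈ X x ∧ v % M ∈ X x then (1:ℝ) else 0) := by
      intro x
      have e1 : cc x * cc x = ∑ u ∈ S, ∑ v ∈ S,
          (if u % M ∈ X x ∧ v % M ∈ X x then (1:ℝ) else 0) := by
        simp only [hcc]
        rw [sum_mul_sum]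
        apply sum_congr rfl; intro u _
        apply sum_congr rfl; intro v _
        by_cases hu : u % M ∈ X x <;> by_cases hv : v % M ∈ X x <;> simp [hu, hv]
      rw [e1]
      have e2 : ∀ u ∈ S, ∑ v ∈ S, (if u % M ∈ X x ∧ v % M ∈ X x then (1:ℝ) else 0) =
          (if u % M ∈ X x then (1:ℝ) else 0) +
          ∑ v ∈ S.erase u, (if u % M ∈ X x ∧ v % M ∈ X x then (1:ℝ) else 0) := by
        intro u hu
        rw [← add_sum_erase S _ hu]
        simp
      rw [sum_congr rfl e2, sum_add_distrib]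
      simp only [hcc]; ring
    rw [sum_congr rfl (fun x _ => hpt x), sum_comm]
    have : ∀ u ∈ S, ∑ x : Ω, ∑ v ∈ S.erase u, (if u % M ∈ X x ∧ v % M ∈ X x then (1:ℝ) else 0) ≤
        S.card * (2 * k ^ 2 / (M * D) * Fintype.card Ω) := by
      intro u hu
      rw [sum_comm]
      calc ∑ v ∈ S.erase u, ∑ x : Ω, (if u % M ∈ X x ∧ v % M ∈ X x then (1:ℝ) else 0)
          ≤ ∑ v ∈ S.erase u, (2 * k ^ 2 / (M * D) * Fintype.card Ω : ℝ) := by
            apply sum_le_sum
            intro v hv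
            have hvS := mem_of_mem_erase hv
            have hne : u % M ≠ v % M := by
              intro h
              have hu' : u / M = b := (mem_filter.mp hu).2
              have hv' : v / M = b := (mem_filter.mp hvS).2
              apply ne_of_mem_erase hv
              have a1 := Nat.div_add_mod u M
              have a2 := Nat.div_add_mod v M
              rw [← a1, ← a2, hu', hv', h]
            have := h2 (u % M) (Nat.mod_lt _ hM) (v % M) (Nat.mod_lt _ hM) hne
            have h' : (M : ℝ) * D * ((univ.filter (fun ω => u % M ∈ X ω ∧ v % M ∈ X ω)).card : ℝ) ≤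
              2 * k ^ 2 * Fintype.card Ω := by exact_mod_cast this
            rw [← sum_filter, sum_const, nsmul_eq_mul, mul_one]
            rw [div_mul_eq_mul_div, le_div_iff₀ (by positivity)]
            linarith
        _ = (S.erase u).card * (2 * k ^ 2 / (M * D) * Fintype.card Ω : ℝ) := by
            rw [sum_const, nsmul_eq_mul]
        _ ≤ _ := by
            gcongr
            exact erase_subset u S
    calc ∑ u ∈ S, ∑ x : Ω, ∑ v ∈ S.erase u, (if u % M ∈ X x ∧ v % M ∈ X x then (1:ℝ) else 0)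
        ≤ ∑ u ∈ S, (S.card * (2 * k ^ 2 / (M * D) * Fintype.card Ω : ℝ)) := sum_le_sum this
      _ = _ := by rw [sum_const, nsmul_eq_mul]; ring
  -- pointwise bounds
  have hav : ((avoid M X A b).card : ℝ) = ∑ x, (if x ∈ avoid M X A b then (1:ℝ) else 0) := by
    simp
  have hccn : ∀ x, ∃ m : ℕ, cc x = m ∧ (m = 0 ↔ x ∈ avoid M X A b) := by
    intro x
    refine ⟨(S.filter (fun u => u % M ∈ X x)).card, ?_, ?_⟩
    · simp only [hcc]; rw [← sum_filter, sum_const, nsmul_eq_mul, mul_one]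
    · rw [card_eq_zero, filter_eq_empty_iff]
      simp only [avoid, mem_filter, mem_univ, true_and, hS, blk]
      constructor
      · intro h u hu hub; exact h ⟨hu, hub⟩
      · rintro h u ⟨hu, hub⟩; exact h u hu hub
  constructor
  · rw [le_div_iff₀ hc]
    have : (1 - (k / M : ℝ) * S.card) * Fintype.card Ω = ∑ x : Ω, (1 - cc x) := by
      rw [sum_sub_distrib, hsum1, sum_const, nsmul_eq_mul, card_univ]; ring
    rw [this, hav]
    apply sum_le_sum
    intro x _
    obtain ⟨m, hm, hm0⟩ := hccn x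
    rw [hm]
    by_cases hx : x ∈ avoid M X A b
    · rw [if_pos hx, hm0.mpr hx]; simp
    · rw [if_neg hx]
      have : 1 ≤ m := by
        rcases Nat.eq_zero_or_pos m with h | h
        · exact absurd (hm0.mp h) hx
        · exact h
      have : (1:ℝ) ≤ m := by exact_mod_cast this
      linarith
  · rw [div_le_iff₀ hc]
    have : (1 - (k / M : ℝ) * S.card + 2 * k ^ 2 / (M * D) * (S.card:ℝ) ^ 2) * Fintype.card Ω ≥
        ∑ x : Ω, (1 - cc x + (cc x * cc x - cc x)) := by
      rw [sum_add_distrib, sum_sub_distrib, hsum1, sum_const, nsmul_eq_mul, card_univ]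
      linarith [hsum2]
    refine le_trans ?_ this
    rw [hav]
    apply sum_le_sum
    intro x _
    obtain ⟨m, hm, hm0⟩ := hccn x
    rw [hm]
    by_cases hx : x ∈ avoid M X A b
    · rw [if_pos hx, hm0.mpr hx]; simp
    · rw [if_neg hx]
      nlinarith [sq_nonneg ((m:ℝ) - 1)]

theorem exp_neg_le_quad {x : ℝ} (hx : 0 ≤ x) : Real.exp (-x) ≤ 1 - x + x ^ 2 := by
  rcases le_or_gt x 1 with h | h
  · have := Real.abs_exp_sub_one_sub_id_le (x := -x) (by rw [abs_neg, abs_of_nonneg hx]; exact h)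
    have h2 := (abs_le.mp this).2
    nlinarith
  · have : Real.exp (-x) ≤ 1 := Real.exp_le_one_iff.mpr (by linarith)
    nlinarith

theorem Ex_free_approx [Nonempty Ω] {M D k B : ℕ} (hM : 0 < M) (hD : 0 < D) (X : Ω → Finset ℕ)
    (h1 : ∀ u < M, M * (univ.filter (fun ω => u ∈ X ω)).card = k * Fintype.card Ω)
    (h2 : ∀ u < M, ∀ v < M, u ≠ v →
        M * D * (univ.filter (fun ω => u ∈ X ω ∧ v ∈ X ω)).card ≤ 2 * k ^ 2 * Fintype.card Ω)
    (A : Finset ℕ) (hA : A ⊆ range (B * M)) (am : ℝ)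
    (ham : ∀ b : ℕ, ((blk M A b).card : ℝ) ≤ am) :
    |Ex (free (B := B) M X A) - Real.exp (-((k / M : ℝ) * A.card))| ≤
      (2 * k ^ 2 / (M * D) + (k / M : ℝ) ^ 2) * am * A.card := by
  classical
  have hc : (0:ℝ) < Fintype.card Ω := by exact_mod_cast Fintype.card_pos
  have hMr : (0:ℝ) < M := by exact_mod_cast hM
  have hDr : (0:ℝ) < D := by exact_mod_cast hD
  have hcardA : (A.card : ℝ) = ∑ b : Fin B, ((blk M A b).card : ℝ) := by
    have : A.card = ∑ b ∈ range B, (A.filter (fun u => u / M = b)).card := by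
      apply card_eq_sum_card_fiberwise
      intro u hu
      have := hA hu
      rw [mem_range] at this
      simp only [coe_range, Set.mem_Iio]
      rw [Nat.div_lt_iff_lt_mul hM]; exact this
    rw [this, ← Fin.sum_univ_eq_sum_range (fun b => (A.filter (fun u => u / M = b)).card) B]
    push_cast
    rfl
  rw [Ex_free X A hA]
  have hexp : Real.exp (-((k / M : ℝ) * A.card)) =
      ∏ b : Fin B, Real.exp (-((k / M : ℝ) * (blk M A b).card)) := by
    rw [← Real.exp_sum, hcardA, mul_sum, sum_neg_distrib]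
  rw [hexp]
  refine le_trans (abs_prod_sub_prod _ _ _ ?_ ?_ ?_ ?_) ?_
  · intro b _; positivity
  · intro b _
    rw [div_le_one hc]
    exact_mod_cast card_le_univ _
  · intro b _; positivity
  · intro b _
    apply Real.exp_le_one_iff.mpr
    have : (0:ℝ) ≤ (k / M : ℝ) * (blk M A b).card := by positivity
    linarith
  · rw [hcardA, mul_sum]
    apply sum_le_sum
    intro b _
    obtain ⟨hl, hu⟩ := avoid_bounds hM hD X h1 h2 A (b:ℕ)
    set a : ℝ := ((blk M A b).card : ℝ) with ha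
    have ha0 : 0 ≤ a := Nat.cast_nonneg _
    have haam := ham (b:ℕ)
    have e1 : 1 - (k / M : ℝ) * a ≤ Real.exp (-((k / M : ℝ) * a)) := by
      have := Real.add_one_le_exp (-((k / M : ℝ) * a)); linarith
    have e2 : Real.exp (-((k / M : ℝ) * a)) ≤ 1 - (k / M : ℝ) * a + ((k / M : ℝ) * a) ^ 2 :=
      exp_neg_le_quad (by positivity)
    have hk2 : (0:ℝ) ≤ 2 * k ^ 2 / (M * D) := by positivity
    have hk3 : (0:ℝ) ≤ (k / M : ℝ) ^ 2 := by positivity
    have hbound : (2 * k ^ 2 / (M * D) + (k / M : ℝ) ^ 2) * a ^ 2 ≤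
        (2 * k ^ 2 / (M * D) + (k / M : ℝ) ^ 2) * am * a := by
      have : a ^ 2 ≤ am * a := by nlinarith
      nlinarith
    rw [abs_le]
    constructor
    · nlinarith
    · nlinarith

end

end Pool.Agent.Hhelper51.Cat
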