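import Pool.Agent.Hhelper51.Cat.Core2

set_option autoImplicit false
set_option linter.unusedSectionVars false

namespace Pool.Agent.Hhelper51.Cat

open Finset

theorem abel_aux (δ g : ℕ → ℝ) (hδ : ∀ i, 0 ≤ δ i) (hg : ∀ i, g i ≤ g (i + 1)) (I : ℕ) :
    δ 0 * g 0 - δ I * g I ≤ ∑ i ∈ range I, (δ i - δ (i + 1)) * g i := by
  induction I with
  | zero => simp
  | succ I ih =>
    rw [sum_range_succ]
    have := mul_le_mul_of_nonneg_left (hg I) (hδ (I + 1))
    linarith

theorem abel_mono (u e g : ℕ → ℝ) (I : ℕ) (h0 : u 0 = e 0) (hI : u I = e I)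
    (hue : ∀ i, e i ≤ u i) (hg : ∀ i, g i ≤ g (i + 1)) :
    ∑ i ∈ range I, (e i - e (i + 1)) * g i ≤ ∑ i ∈ range I, (u i - u (i + 1)) * g i := by
  have := abel_aux (fun i => u i - e i) g (fun i => by linarith [hue i]) hg I
  simp only [h0, hI, sub_self, zero_mul] at this
  have h2 : ∑ i ∈ range I, (u i - e i - (u (i + 1) - e (i + 1))) * g i =
      ∑ i ∈ range I, (u i - u (i + 1)) * g i - ∑ i ∈ range I, (e i - e (i + 1)) * g i := by
    rw [← sum_sub_distrib]
    apply sum_congr rfl; intro i _; ring
  linarith

section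

variable (y : ℕ → ℕ) (Y : Finset ℕ) (h M : ℕ)

/-- points of `Y` above `p`, within distance `2 i h` -/
def sup (p i : ℕ) : Finset ℕ := Y.filter (fun u => y p < y u ∧ y u ≤ y p + 2 * i * h)
/-- points of `Y` below `p`, within distance `2 i h` -/
def sdn (p i : ℕ) : Finset ℕ := Y.filter (fun u => y u < y p ∧ y p ≤ y u + 2 * i * h)
/-- those in other blocks -/
def supo (p i : ℕ) : Finset ℕ := (sup y Y h p i).filter (fun u => u / M ≠ p / M)
def sdno (p i : ℕ) : Finset ℕ := (sdn y Y h p i).filter (fun u => u / M ≠ p / M)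

variable {y Y h M}

theorem sup_card_le (hy : Function.Injective y) (p i : ℕ) : (sup y Y h p i).card ≤ 2 * i * h := by
  have : (sup y Y h p i).card = ((sup y Y h p i).image y).card :=
    (card_image_of_injective _ hy).symm
  rw [this]
  calc ((sup y Y h p i).image y).card ≤ (Ioc (y p) (y p + 2 * i * h)).card := by
        apply card_le_card
        intro v hv
        rw [mem_image] at hv
        obtain ⟨u, hu, rfl⟩ := hv
        simp only [sup, mem_filter] at hu
        rw [mem_Ioc]; exact hu.2
    _ = 2 * i * h := by rw [Nat.card_Ioc]; omega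

theorem sdn_card_le (hy : Function.Injective y) (p i : ℕ) : (sdn y Y h p i).card ≤ 2 * i * h := by
  have : (sdn y Y h p i).card = ((sdn y Y h p i).image y).card :=
    (card_image_of_injective _ hy).symm
  rw [this]
  calc ((sdn y Y h p i).image y).card ≤ (Ico (y p - 2 * i * h) (y p)).card := by
        apply card_le_card
        intro v hv
        rw [mem_image] at hv
        obtain ⟨u, hu, rfl⟩ := hv
        simp only [sdn, mem_filter] at hu
        rw [mem_Ico]; omega
    _ ≤ 2 * i * h := by rw [Nat.card_Ico]; omega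

theorem sup_mono (p : ℕ) {i j : ℕ} (hij : i ≤ j) : sup y Y h p i ⊆ sup y Y h p j := by
  intro u hu
  simp only [sup, mem_filter] at hu ⊢
  refine ⟨hu.1, hu.2.1, hu.2.2.trans ?_⟩
  have : 2 * i * h ≤ 2 * j * h := Nat.mul_le_mul_right _ (by omega)
  omega

theorem sdn_mono (p : ℕ) {i j : ℕ} (hij : i ≤ j) : sdn y Y h p i ⊆ sdn y Y h p j := by
  intro u hu
  simp only [sdn, mem_filter] at hu ⊢
  refine ⟨hu.1, hu.2.1, hu.2.2.trans ?_⟩
  have : 2 * i * h ≤ 2 * j * h := Nat.mul_le_mul_right _ (by omega)
  omega

end

section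

variable {Ω : Type} [Fintype Ω] [DecidableEq Ω]

theorem free_nonneg {M B : ℕ} (X : Ω → Finset ℕ) (A : Finset ℕ) (ω : Fin B → Ω) :
    0 ≤ free M X A ω := by
  unfold free; split_ifs <;> norm_num

theorem free_le_one {M B : ℕ} (X : Ω → Finset ℕ) (A : Finset ℕ) (ω : Fin B → Ω) :
    free M X A ω ≤ 1 := by
  unfold free; split_ifs <;> norm_num

theorem free_anti {M B : ℕ} (X : Ω → Finset ℕ) {A A' : Finset ℕ} (hA : A ⊆ A') (ω : Fin B → Ω) :
    free M X A' ω ≤ free M X A ω := by
  classical
  unfold free
  by_cases h : Disjoint (Xg M B X ω) A'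
  · rw [if_pos h, if_pos (disjoint_of_subset_right hA h)]
  · rw [if_neg h]; split_ifs <;> norm_num

theorem free_mul {M B : ℕ} (X : Ω → Finset ℕ) (A A' : Finset ℕ) (ω : Fin B → Ω) :
    free M X A ω * free M X A' ω = free M X (A ∪ A') ω := by
  classical
  unfold free
  by_cases h : Disjoint (Xg M B X ω) A <;> by_cases h' : Disjoint (Xg M B X ω) A' <;>
    simp [h, h', disjoint_union_right]

variable (y : ℕ → ℕ) (Y : Finset ℕ) (h M I : ℕ) {B : ℕ} (X : Ω → Finset ℕ)

/-- no anchors of other blocks up to level `i` above; `0` from level `I` on. -/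
noncomputable def Uf (p i : ℕ) (ω : Fin B → Ω) : ℝ :=
  if i < I then free M X (supo y Y h M p i) ω else 0
noncomputable def Df (p i : ℕ) (ω : Fin B → Ω) : ℝ :=
  if i < I then free M X (sdno y Y h M p i) ω else 0

/-- The event that `p` and `t` are consecutive anchors inside the block of `p`. -/
def consSet (p t : ℕ) : Finset Ω :=
  univ.filter (fun x => p % M ∈ X x ∧ t % M ∈ X x ∧ ∀ u ∈ X x, u ≤ p % M ∨ t % M ≤ u)

/-- number of anchors of the own block in the strip of `p` -/
noncomputable def conf (p : ℕ) (ω : Fin B → Ω) : ℝ :=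
  ∑ u ∈ (sup y Y h p I ∪ sdn y Y h p I).filter (fun u => u / M = p / M),
    (open Classical in if u ∈ Xg M B X ω then (1:ℝ) else 0)

/-- boxes in level coordinates -/
def lbox (p t i i' : ℕ) : Finset ℕ :=
  Y.filter (fun q => p < q ∧ q < t ∧ y q ≤ y p + i * h ∧ y p ≤ y q + i' * h)

noncomputable def lf (j p t i i' : ℕ) : ℝ := if j ≤ (lbox y Y h p t i i').card then 1 else 0

variable {y Y h M I X}

theorem Uf_anti (p i : ℕ) (ω : Fin B → Ω) :
    Uf y Y h M I X p (i + 1) ω ≤ Uf y Y h M I X p i ω := by
  unfold Uf
  by_cases h1 : i + 1 < I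
  · rw [if_pos h1, if_pos (by omega)]
    apply free_anti
    intro u hu
    simp only [supo, mem_filter] at hu ⊢
    exact ⟨sup_mono p (by omega) hu.1, hu.2⟩
  · rw [if_neg h1]
    split_ifs
    · exact free_nonneg _ _ _
    · exact le_refl _

theorem Df_anti (p i : ℕ) (ω : Fin B → Ω) :
    Df y Y h M I X p (i + 1) ω ≤ Df y Y h M I X p i ω := by
  unfold Df
  by_cases h1 : i + 1 < I
  · rw [if_pos h1, if_pos (by omega)]
    apply free_anti
    intro u hu
    simp only [sdno, mem_filter] at hu ⊢
    exact ⟨sdn_mono p (by omega) hu.1, hu.2⟩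
  · rw [if_neg h1]
    split_ifs
    · exact free_nonneg _ _ _
    · exact le_refl _

theorem Uf_zero_le (p : ℕ) (ω : Fin B → Ω) : Uf y Y h M I X p 0 ω ≤ 1 := by
  unfold Uf; split_ifs
  · exact free_le_one _ _ _
  · norm_num

theorem Df_zero_le (p : ℕ) (ω : Fin B → Ω) : Df y Y h M I X p 0 ω ≤ 1 := by
  unfold Df; split_ifs
  · exact free_le_one _ _ _
  · norm_num

theorem Uf_I (p : ℕ) (ω : Fin B → Ω) : Uf y Y h M I X p I ω = 0 := by
  unfold Uf; rw [if_neg (lt_irrefl _)]

theorem Df_I (p : ℕ) (ω : Fin B → Ω) : Df y Y h M I X p I ω = 0 := by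
  unfold Df; rw [if_neg (lt_irrefl _)]

/-- If the difference at level `i` is nonzero then there is no anchor of other blocks up to `i`. -/
theorem free_of_diff_ne {p i : ℕ} {ω : Fin B → Ω}
    (hne : Uf y Y h M I X p i ω - Uf y Y h M I X p (i + 1) ω ≠ 0) :
    Disjoint (Xg M B X ω) (supo y Y h M p i) := by
  by_contra hd
  apply hne
  have h0 : Uf y Y h M I X p i ω = 0 := by
    unfold Uf free; split_ifs <;> rfl
  have h1 := Uf_anti (y := y) (Y := Y) (h := h) (M := M) (I := I) (X := X) p i ω
  have h2 : 0 ≤ Uf y Y h M I X p (i + 1) ω := by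
    unfold Uf; split_ifs
    · exact free_nonneg _ _ _
    · exact le_refl _
  linarith

theorem free_of_diff_ne' {p i : ℕ} {ω : Fin B → Ω}
    (hne : Df y Y h M I X p i ω - Df y Y h M I X p (i + 1) ω ≠ 0) :
    Disjoint (Xg M B X ω) (sdno y Y h M p i) := by
  by_contra hd
  apply hne
  have h0 : Df y Y h M I X p i ω = 0 := by
    unfold Df free; split_ifs <;> rfl
  have h1 := Df_anti (y := y) (Y := Y) (h := h) (M := M) (I := I) (X := X) p i ω
  have h2 : 0 ≤ Df y Y h M I X p (i + 1) ω := by
    unfold Df; split_ifs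
    · exact free_nonneg _ _ _
    · exact le_refl _
  linarith

/-- Pointwise bound for a fixed anchor. -/
theorem pointwise {p t j : ℕ}
    (hblock : p / M = t / M) (b : Fin B) (hb : p / M = b) (ω : Fin B → Ω)
    (hcons : ω b ∈ consSet M X p t) :
    ∑ i ∈ range I, ∑ i' ∈ range I,
      (Uf y Y h M I X p i ω - Uf y Y h M I X p (i + 1) ω) *
      (Df y Y h M I X p i' ω - Df y Y h M I X p (i' + 1) ω) * lf y Y h j p t i i' ≤
    (if j ≤ (box y Y (Xg M B X ω) p).card then (1:ℝ) else 0) + conf y Y h M I X p ω := by
  classical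
  set U := fun i => Uf y Y h M I X p i ω with hU
  set D := fun i => Df y Y h M I X p i ω with hD
  have hUd : ∀ i, 0 ≤ U i - U (i + 1) := fun i => by
    have := Uf_anti (y := y) (Y := Y) (h := h) (M := M) (I := I) (X := X) p i ω
    simp only [hU]; linarith
  have hDd : ∀ i, 0 ≤ D i - D (i + 1) := fun i => by
    have := Df_anti (y := y) (Y := Y) (h := h) (M := M) (I := I) (X := X) p i ω
    simp only [hD]; linarith
  have hUs : ∑ i ∈ range I, (U i - U (i + 1)) ≤ 1 := by
    rw [sum_range_sub']
    have h1 := Uf_zero_le (y := y) (Y := Y) (h := h) (M := M) (I := I) (X := X) p ω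
    have h2 := Uf_I (y := y) (Y := Y) (h := h) (M := M) (I := I) (X := X) p ω
    simp only [hU]; rw [h2]; linarith
  have hDs : ∑ i ∈ range I, (D i - D (i + 1)) ≤ 1 := by
    rw [sum_range_sub']
    have h1 := Df_zero_le (y := y) (Y := Y) (h := h) (M := M) (I := I) (X := X) p ω
    have h2 := Df_I (y := y) (Y := Y) (h := h) (M := M) (I := I) (X := X) p ω
    simp only [hD]; rw [h2]; linarith
  have hDs0 : 0 ≤ ∑ i ∈ range I, (D i - D (i + 1)) := sum_nonneg (fun i _ => hDd i)
  have hUs0 : 0 ≤ ∑ i ∈ range I, (U i - U (i + 1)) := sum_nonneg (fun i _ => hUd i)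
  have hconf0 : 0 ≤ conf y Y h M I X p ω := by
    unfold conf; apply sum_nonneg; intro u _; split_ifs <;> norm_num
  -- general bound by c when f ≤ c on nonzero terms
  have key : ∀ c : ℝ, 0 ≤ c → (∀ i ∈ range I, ∀ i' ∈ range I, U i - U (i + 1) ≠ 0 →
      D i' - D (i' + 1) ≠ 0 → lf y Y h j p t i i' ≤ c) →
      ∑ i ∈ range I, ∑ i' ∈ range I, (U i - U (i + 1)) * (D i' - D (i' + 1)) *
        lf y Y h j p t i i' ≤ c := by
    intro c hc hf
    calc ∑ i ∈ range I, ∑ i' ∈ range I, (U i - U (i + 1)) * (D i' - D (i' + 1)) *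
          lf y Y h j p t i i'
        ≤ ∑ i ∈ range I, ∑ i' ∈ range I, (U i - U (i + 1)) * (D i' - D (i' + 1)) * c := by
          apply sum_le_sum; intro i hi
          apply sum_le_sum; intro i' hi'
          by_cases h1 : U i - U (i + 1) = 0
          · rw [h1]; simp
          · by_cases h2 : D i' - D (i' + 1) = 0
            · rw [h2]; simp
            · exact mul_le_mul_of_nonneg_left (hf i hi i' hi' h1 h2) (mul_nonneg (hUd i) (hDd i'))
      _ = (∑ i ∈ range I, (U i - U (i + 1))) * (∑ i' ∈ range I, (D i' - D (i' + 1))) * c := by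
          rw [sum_mul_sum, sum_mul]
          apply sum_congr rfl; intro i _
          rw [sum_mul]
      _ ≤ 1 * 1 * c := by gcongr
      _ = c := by ring
  by_cases hc1 : 1 ≤ conf y Y h M I X p ω
  · refine le_trans (key 1 zero_le_one ?_) ?_
    · intro i _ i' _ _ _
      unfold lf; split_ifs <;> norm_num
    · have : (0:ℝ) ≤ (if j ≤ (box y Y (Xg M B X ω) p).card then (1:ℝ) else 0) := by
        split_ifs <;> norm_num
      linarith
  · -- no conflict
    have hno : ∀ u ∈ Xg M B X ω, u / M = p / M → u ∉ sup y Y h p I ∧ u ∉ sdn y Y h p I := by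
      intro u hu hup
      by_contra hcon
      apply hc1
      have hmem : u ∈ (sup y Y h p I ∪ sdn y Y h p I).filter (fun u => u / M = p / M) := by
        rw [mem_filter, mem_union]
        refine ⟨?_, hup⟩
        by_contra h'
        push Not at h'
        exact hcon h'
      unfold conf
      calc (1:ℝ) = (if u ∈ Xg M B X ω then (1:ℝ) else 0) := by rw [if_pos hu]
        _ ≤ _ := single_le_sum (f := fun u => (if u ∈ Xg M B X ω then (1:ℝ) else 0))
            (fun v _ => by split_ifs <;> norm_num) hmem
    refine le_trans (key (if j ≤ (box y Y (Xg M B X ω) p).card then (1:ℝ) else 0) ?_ ?_) ?_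
    · split_ifs <;> norm_num
    · intro i hi i' hi' h1 h2
      have d1 := free_of_diff_ne (y := y) (Y := Y) (h := h) (M := M) (I := I) (X := X) h1
      have d2 := free_of_diff_ne' (y := y) (Y := Y) (h := h) (M := M) (I := I) (X := X) h2
      have hsub : lbox y Y h p t i i' ⊆ box y Y (Xg M B X ω) p := by
        intro q hq
        simp only [lbox, mem_filter] at hq
        obtain ⟨hqY, hpq, hqt, hq1, hq2⟩ := hq
        simp only [box, mem_filter]
        refine ⟨hqY, hpq, ?_, ?_⟩
        · -- x condition
          intro u hu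
          by_cases hup : u / M = p / M
          · simp only [Xg, mem_filter] at hu
            obtain ⟨_, hu2, hu3⟩ := hu
            have hbb : (⟨u / M, hu2⟩ : Fin B) = b := Fin.ext (by rw [← hb]; exact hup)
            rw [hbb] at hu3
            simp only [consSet, mem_filter, mem_univ, true_and] at hcons
            have := hcons.2.2 (u % M) hu3
            have a1 := Nat.div_add_mod u M
            have a2 := Nat.div_add_mod p M
            have a3 := Nat.div_add_mod t M
            rcases this with h3 | h3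
            · left; rw [← a1, ← a2, hup]; omega
            · right
              have : t ≤ u := by rw [← a1, ← a3, hup, hblock]; omega
              omega
          · rcases lt_or_gt_of_ne hup with h3 | h3
            · left
              by_contra h4
              push Not at h4
              have := Nat.div_le_div_right (c := M) h4.le
              omega
            · right
              by_contra h4
              push Not at h4
              have h5 : u < t := lt_of_le_of_lt h4 hqt
              have := Nat.div_le_div_right (c := M) h5.le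
              omega
        · intro u hu huY
          have hboth : u ∉ sup y Y h p i ∧ u ∉ sdn y Y h p i' := by
            by_cases hup : u / M = p / M
            · obtain ⟨n1, n2⟩ := hno u hu hup
              refine ⟨fun hm => n1 (sup_mono p (mem_range.mp hi).le hm),
                fun hm => n2 (sdn_mono p (mem_range.mp hi').le hm)⟩
            · refine ⟨fun hm => ?_, fun hm => ?_⟩
              · exact disjoint_left.mp d1 hu (by simp only [supo, mem_filter]; exact ⟨hm, hup⟩)
              · exact disjoint_left.mp d2 hu (by simp only [sdno, mem_filter]; exact ⟨hm, hup⟩)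
          obtain ⟨n1, n2⟩ := hboth
          constructor
          · intro _ hpu
            have : ¬ (y u ≤ y p + 2 * i * h) := fun hle => n1 (by
              simp only [sup, mem_filter]; exact ⟨huY, hpu, hle⟩)
            have e1 : 2 * i * h = 2 * (i * h) := by ring
            omega
          · intro _ hup
            have : ¬ (y p ≤ y u + 2 * i' * h) := fun hle => n2 (by
              simp only [sdn, mem_filter]; exact ⟨huY, hup, hle⟩)
            have e1 : 2 * i' * h = 2 * (i' * h) := by ring
            omega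
      unfold lf
      by_cases h3 : j ≤ (lbox y Y h p t i i').card
      · rw [if_pos h3, if_pos (h3.trans (card_le_card hsub))]
      · rw [if_neg h3]; split_ifs <;> norm_num
    · linarith

end

end Pool.Agent.Hhelper51.Cat
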