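import Pool.Agent.Hhelper51.Cat.Core3

set_option autoImplicit false
set_option linter.unusedSectionVars false

namespace Pool.Agent.Hhelper51.Cat

open Finset

section

variable {Ω : Type} [Fintype Ω] [DecidableEq Ω] [Nonempty Ω]
variable {y : ℕ → ℕ} {Y : Finset ℕ} {h M D k I B : ℕ} {X : Ω → Finset ℕ}

/-- truncated geometric survival function -/
noncomputable def eg (r : ℝ) (I i : ℕ) : ℝ := if i < I then r ^ i else 0

/-- weights with the actual number of points -/
noncomputable def uu (lam : ℝ) (y : ℕ → ℕ) (Y : Finset ℕ) (h I p i : ℕ) : ℝ :=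
  if i < I then Real.exp (-(lam * (sup y Y h p i).card)) else 0
noncomputable def ll (lam : ℝ) (y : ℕ → ℕ) (Y : Finset ℕ) (h I p i : ℕ) : ℝ :=
  if i < I then Real.exp (-(lam * (sdn y Y h p i).card)) else 0

/-- The limiting weighted sum. -/
noncomputable def Phi (y : ℕ → ℕ) (Y : Finset ℕ) (h I : ℕ) (r : ℝ) (j p t : ℕ) : ℝ :=
  ∑ i ∈ range I, ∑ i' ∈ range I, (eg r I i - eg r I (i + 1)) * (eg r I i' - eg r I (i' + 1)) *
    lf y Y h j p t i i'

theorem eg_anti {r : ℝ} (hr0 : 0 ≤ r) (hr1 : r ≤ 1) (I i : ℕ) : eg r I (i + 1) ≤ eg r I i := by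
  unfold eg
  by_cases h1 : i + 1 < I
  · rw [if_pos h1, if_pos (by omega), pow_succ]
    nlinarith [pow_nonneg hr0 i]
  · rw [if_neg h1]; split_ifs
    · exact pow_nonneg hr0 i
    · exact le_refl _

theorem lf_mono_left (j p t i i' : ℕ) : lf y Y h j p t i i' ≤ lf y Y h j p t (i + 1) i' := by
  unfold lf
  have hsub : lbox y Y h p t i i' ⊆ lbox y Y h p t (i + 1) i' := by
    intro q hq
    simp only [lbox, mem_filter] at hq ⊢
    refine ⟨hq.1, hq.2.1, hq.2.2.1, hq.2.2.2.1.trans ?_, hq.2.2.2.2⟩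
    have : i * h ≤ (i + 1) * h := Nat.mul_le_mul_right _ (by omega)
    omega
  by_cases h1 : j ≤ (lbox y Y h p t i i').card
  · rw [if_pos h1, if_pos (h1.trans (card_le_card hsub))]
  · rw [if_neg h1]; split_ifs <;> norm_num

theorem lf_mono_right (j p t i i' : ℕ) : lf y Y h j p t i i' ≤ lf y Y h j p t i (i' + 1) := by
  unfold lf
  have hsub : lbox y Y h p t i i' ⊆ lbox y Y h p t i (i' + 1) := by
    intro q hq
    simp only [lbox, mem_filter] at hq ⊢
    refine ⟨hq.1, hq.2.1, hq.2.2.1, hq.2.2.2.1, hq.2.2.2.2.trans ?_⟩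
    have : i' * h ≤ (i' + 1) * h := Nat.mul_le_mul_right _ (by omega)
    omega
  by_cases h1 : j ≤ (lbox y Y h p t i i').card
  · rw [if_pos h1, if_pos (h1.trans (card_le_card hsub))]
  · rw [if_neg h1]; split_ifs <;> norm_num

theorem lf_nonneg (j p t i i' : ℕ) : 0 ≤ lf y Y h j p t i i' := by
  unfold lf; split_ifs <;> norm_num
theorem lf_le_one (j p t i i' : ℕ) : lf y Y h j p t i i' ≤ 1 := by
  unfold lf; split_ifs <;> norm_num

theorem uu_anti {lam : ℝ} (hl : 0 ≤ lam) (p i : ℕ) :
    uu lam y Y h I p (i + 1) ≤ uu lam y Y h I p i := by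
  unfold uu
  by_cases h1 : i + 1 < I
  · rw [if_pos h1, if_pos (by omega)]
    apply Real.exp_le_exp.mpr
    have : ((sup y Y h p i).card : ℝ) ≤ (sup y Y h p (i + 1)).card := by
      exact_mod_cast card_le_card (sup_mono p (by omega))
    nlinarith
  · rw [if_neg h1]; split_ifs
    · positivity
    · exact le_refl _

theorem ll_anti {lam : ℝ} (hl : 0 ≤ lam) (p i : ℕ) :
    ll lam y Y h I p (i + 1) ≤ ll lam y Y h I p i := by
  unfold ll
  by_cases h1 : i + 1 < I
  · rw [if_pos h1, if_pos (by omega)]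
    apply Real.exp_le_exp.mpr
    have : ((sdn y Y h p i).card : ℝ) ≤ (sdn y Y h p (i + 1)).card := by
      exact_mod_cast card_le_card (sdn_mono p (by omega))
    nlinarith
  · rw [if_neg h1]; split_ifs
    · positivity
    · exact le_refl _

theorem uu_ge (hy : Function.Injective y) {lam : ℝ} (hl : 0 ≤ lam) (p i : ℕ) :
    eg (Real.exp (-(2 * h * lam))) I i ≤ uu lam y Y h I p i := by
  unfold uu eg
  by_cases h1 : i < I
  · rw [if_pos h1, if_pos h1, ← Real.exp_nat_mul]
    apply Real.exp_le_exp.mpr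
    have : ((sup y Y h p i).card : ℝ) ≤ 2 * i * h := by
      exact_mod_cast sup_card_le hy p i
    nlinarith
  · rw [if_neg h1, if_neg h1]

theorem ll_ge (hy : Function.Injective y) {lam : ℝ} (hl : 0 ≤ lam) (p i : ℕ) :
    eg (Real.exp (-(2 * h * lam))) I i ≤ ll lam y Y h I p i := by
  unfold ll eg
  by_cases h1 : i < I
  · rw [if_pos h1, if_pos h1, ← Real.exp_nat_mul]
    apply Real.exp_le_exp.mpr
    have : ((sdn y Y h p i).card : ℝ) ≤ 2 * i * h := by
      exact_mod_cast sdn_card_le hy p i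
    nlinarith
  · rw [if_neg h1, if_neg h1]

theorem uu_zero (hI : 0 < I) {lam r : ℝ} (p : ℕ) : uu lam y Y h I p 0 = eg r I 0 := by
  unfold uu eg
  rw [if_pos hI, if_pos hI]
  have : sup y Y h p 0 = ∅ := by
    rw [sup, filter_eq_empty_iff]; intro u _; omega
  rw [this]; simp

theorem ll_zero (hI : 0 < I) {lam r : ℝ} (p : ℕ) : ll lam y Y h I p 0 = eg r I 0 := by
  unfold ll eg
  rw [if_pos hI, if_pos hI]
  have : sdn y Y h p 0 = ∅ := by
    rw [sdn, filter_eq_empty_iff]; intro u _; omega
  rw [this]; simp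

/-- Comparison of the actual weights with the geometric ones. -/
theorem Phi_le (hy : Function.Injective y) (hI : 0 < I) {lam : ℝ} (hl : 0 ≤ lam) (j p t : ℕ) :
    Phi y Y h I (Real.exp (-(2 * h * lam))) j p t ≤
      ∑ i ∈ range I, ∑ i' ∈ range I, (uu lam y Y h I p i - uu lam y Y h I p (i + 1)) *
        (ll lam y Y h I p i' - ll lam y Y h I p (i' + 1)) * lf y Y h j p t i i' := by
  set r := Real.exp (-(2 * h * lam)) with hr
  have hr0 : 0 ≤ r := (Real.exp_pos _).le
  have hr1 : r ≤ 1 := by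
    rw [hr]; apply Real.exp_le_one_iff.mpr
    have : (0:ℝ) ≤ 2 * h * lam := by positivity
    linarith
  unfold Phi
  -- first replace in i' for each i
  have step1 : ∀ i ∈ range I, ∑ i' ∈ range I, (eg r I i - eg r I (i + 1)) *
      (eg r I i' - eg r I (i' + 1)) * lf y Y h j p t i i' ≤
      ∑ i' ∈ range I, (eg r I i - eg r I (i + 1)) *
      (ll lam y Y h I p i' - ll lam y Y h I p (i' + 1)) * lf y Y h j p t i i' := by
    intro i _
    have hnn : 0 ≤ eg r I i - eg r I (i + 1) := by linarith [eg_anti hr0 hr1 I i]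
    have := abel_mono (ll lam y Y h I p) (eg r I) (fun i' => lf y Y h j p t i i') I
      (ll_zero hI p) (by simp [ll, eg]) (fun i' => ll_ge hy hl p i')
      (fun i' => lf_mono_right j p t i i')
    calc _ = (eg r I i - eg r I (i + 1)) * ∑ i' ∈ range I,
          (eg r I i' - eg r I (i' + 1)) * lf y Y h j p t i i' := by
          rw [mul_sum]; apply sum_congr rfl; intro i' _; ring
      _ ≤ (eg r I i - eg r I (i + 1)) * ∑ i' ∈ range I,
          (ll lam y Y h I p i' - ll lam y Y h I p (i' + 1)) * lf y Y h j p t i i' :=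
          mul_le_mul_of_nonneg_left this hnn
      _ = _ := by
          rw [mul_sum]; apply sum_congr rfl; intro i' _; ring
  refine le_trans (sum_le_sum step1) ?_
  -- then replace in i
  have h2 := abel_mono (uu lam y Y h I p) (eg r I)
    (fun i => ∑ i' ∈ range I, (ll lam y Y h I p i' - ll lam y Y h I p (i' + 1)) *
      lf y Y h j p t i i') I
      (uu_zero hI p) (by simp [uu, eg]) (fun i => uu_ge hy hl p i)
      (fun i => by
        apply sum_le_sum; intro i' _
        apply mul_le_mul_of_nonneg_left (lf_mono_left j p t i i')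
        linarith [ll_anti (y := y) (Y := Y) (h := h) (I := I) hl p i'])
  calc _ = ∑ i ∈ range I, (eg r I i - eg r I (i + 1)) *
        ∑ i' ∈ range I, (ll lam y Y h I p i' - ll lam y Y h I p (i' + 1)) *
          lf y Y h j p t i i' := by
        apply sum_congr rfl; intro i _; rw [mul_sum]; apply sum_congr rfl; intro i' _; ring
    _ ≤ _ := h2
    _ = _ := by
        apply sum_congr rfl; intro i _; rw [mul_sum]; apply sum_congr rfl; intro i' _; ring

/-- The correlation functions. -/
noncomputable def qq (X : Ω → Finset ℕ) (y : ℕ → ℕ) (Y : Finset ℕ) (h M I B p i i' : ℕ) : ℝ :=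
  Ex (fun ω : Fin B → Ω => Uf y Y h M I X p i ω * Df y Y h M I X p i' ω)

theorem qq_approx (hM : 0 < M) (hD : 0 < D) (hy : Function.Injective y)
    (h1 : ∀ u < M, M * (univ.filter (fun ω => u ∈ X ω)).card = k * Fintype.card Ω)
    (h2 : ∀ u < M, ∀ v < M, u ≠ v →
        M * D * (univ.filter (fun ω => u ∈ X ω ∧ v ∈ X ω)).card ≤ 2 * k ^ 2 * Fintype.card Ω)
    (hY : Y ⊆ range (B * M)) (p : ℕ) (am : ℝ)
    (ham : ∀ b : ℕ, ((blk M (sup y Y h p I ∪ sdn y Y h p I) b).card : ℝ) ≤ am) (i i' : ℕ) :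
    |qq X y Y h M I B p i i' - uu (k / M : ℝ) y Y h I p i * ll (k / M : ℝ) y Y h I p i'| ≤
      (2 * k ^ 2 / (M * D) + (k / M : ℝ) ^ 2) * am * (4 * I * h) + (k / M : ℝ) * am := by
  classical
  have hMr : (0:ℝ) < M := by exact_mod_cast hM
  have hDr : (0:ℝ) < D := by exact_mod_cast hD
  have ham0 : 0 ≤ am := le_trans (Nat.cast_nonneg _) (ham 0)
  have hrhs : 0 ≤ (2 * k ^ 2 / (M * D) + (k / M : ℝ) ^ 2) * am * (4 * I * h) + (k / M : ℝ) * am := by
    positivity
  unfold qq
  by_cases hi : i < I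
  swap
  · have : ∀ ω : Fin B → Ω, Uf y Y h M I X p i ω = 0 := fun ω => by unfold Uf; rw [if_neg hi]
    simp only [this, uu, if_neg hi, zero_mul, Ex]
    simpa using hrhs
  by_cases hi' : i' < I
  swap
  · have : ∀ ω : Fin B → Ω, Df y Y h M I X p i' ω = 0 := fun ω => by unfold Df; rw [if_neg hi']
    simp only [this, ll, if_neg hi', mul_zero, Ex]
    simpa using hrhs
  set A := supo y Y h M p i ∪ sdno y Y h M p i' with hA
  set A2 := sup y Y h p i ∪ sdn y Y h p i' with hA2
  have hfun : (fun ω : Fin B → Ω => Uf y Y h M I X p i ω * Df y Y h M I X p i' ω) =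
      free (B := B) M X A := by
    funext ω
    unfold Uf Df
    rw [if_pos hi, if_pos hi', free_mul]
  rw [hfun]
  have hAA2 : A ⊆ A2 := by
    rw [hA, hA2]
    exact union_subset_union (filter_subset _ _) (filter_subset _ _)
  have hA2I : A2 ⊆ sup y Y h p I ∪ sdn y Y h p I :=
    union_subset_union (sup_mono p hi.le) (sdn_mono p hi'.le)
  have hA2Y : A2 ⊆ Y := by
    rw [hA2]; exact union_subset (filter_subset _ _) (filter_subset _ _)
  have hAr : A ⊆ range (B * M) := (hAA2.trans hA2Y).trans hY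
  have happ := Ex_free_approx (B := B) hM hD X h1 h2 A hAr am (fun b => by
    refine le_trans ?_ (ham b)
    exact_mod_cast card_le_card (filter_subset_filter _ (hAA2.trans hA2I)))
  -- cardinalities
  have hdisj : Disjoint (sup y Y h p i) (sdn y Y h p i') := by
    rw [disjoint_left]; intro u hu hu'
    simp only [sup, sdn, mem_filter] at hu hu'
    omega
  have hcardA2 : (A2.card : ℝ) = (sup y Y h p i).card + (sdn y Y h p i').card := by
    rw [hA2, card_union_of_disjoint hdisj]; push_cast; ring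
  have hcardA2' : (A2.card : ℝ) ≤ 4 * I * h := by
    rw [hcardA2]
    have e1 : ((sup y Y h p i).card : ℝ) ≤ 2 * i * h := by exact_mod_cast sup_card_le hy p i
    have e2 : ((sdn y Y h p i').card : ℝ) ≤ 2 * i' * h := by exact_mod_cast sdn_card_le hy p i'
    have hir : (i:ℝ) ≤ I := by exact_mod_cast hi.le
    have hir' : (i':ℝ) ≤ I := by exact_mod_cast hi'.le
    have hh : (0:ℝ) ≤ h := Nat.cast_nonneg _
    nlinarith
  have hcardA : (A.card : ℝ) ≤ A2.card := by exact_mod_cast card_le_card hAA2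
  have hdiff : (A2.card : ℝ) - A.card ≤ am := by
    have hsub : A2 \ A ⊆ blk M (sup y Y h p I ∪ sdn y Y h p I) (p / M) := by
      intro u hu
      rw [mem_sdiff] at hu
      simp only [blk, mem_filter]
      refine ⟨hA2I hu.1, ?_⟩
      by_contra hne
      apply hu.2
      rw [hA, mem_union]
      rw [hA2, mem_union] at hu
      rcases hu.1 with h' | h'
      · left; simp only [supo, mem_filter]; exact ⟨h', hne⟩
      · right; simp only [sdno, mem_filter]; exact ⟨h', hne⟩
    have e1 := card_sdiff_of_subset hAA2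
    have e2 : ((A2 \ A).card : ℝ) ≤ am := le_trans (by exact_mod_cast card_le_card hsub) (ham (p / M))
    rw [e1, Nat.cast_sub (card_le_card hAA2)] at e2
    exact e2
  have hprod : uu (k / M : ℝ) y Y h I p i * ll (k / M : ℝ) y Y h I p i' =
      Real.exp (-((k / M : ℝ) * A2.card)) := by
    unfold uu ll
    rw [if_pos hi, if_pos hi', ← Real.exp_add, hcardA2]
    congr 1; ring
  rw [hprod]
  have hexp1 : Real.exp (-((k / M : ℝ) * A2.card)) ≤ Real.exp (-((k / M : ℝ) * A.card)) := by
    apply Real.exp_le_exp.mpr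
    have : (k / M : ℝ) * A.card ≤ (k / M : ℝ) * A2.card := by gcongr
    linarith
  have hexp2 : Real.exp (-((k / M : ℝ) * A.card)) - Real.exp (-((k / M : ℝ) * A2.card)) ≤
      (k / M : ℝ) * am := by
    have e1 : Real.exp (-((k / M : ℝ) * A2.card)) =
        Real.exp (-((k / M : ℝ) * A.card)) * Real.exp (-((k / M : ℝ) * (A2.card - A.card))) := by
      rw [← Real.exp_add]; congr 1; ring
    rw [e1]
    have e2 : 1 - (k / M : ℝ) * (A2.card - A.card) ≤
        Real.exp (-((k / M : ℝ) * (A2.card - A.card))) := by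
      have := Real.add_one_le_exp (-((k / M : ℝ) * (A2.card - A.card))); linarith
    have e3 : Real.exp (-((k / M : ℝ) * A.card)) ≤ 1 := by
      apply Real.exp_le_one_iff.mpr
      have : (0:ℝ) ≤ (k / M : ℝ) * A.card := by positivity
      linarith
    have e4 : 0 < Real.exp (-((k / M : ℝ) * A.card)) := Real.exp_pos _
    have e5 : (0:ℝ) ≤ (k / M : ℝ) * (A2.card - A.card) := by
      apply mul_nonneg (by positivity); linarith
    have e6 : (k / M : ℝ) * (A2.card - A.card) ≤ (k / M : ℝ) * am := by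
      gcongr
    nlinarith
  have hmain : (2 * k ^ 2 / (M * D) + (k / M : ℝ) ^ 2) * am * A.card ≤
      (2 * k ^ 2 / (M * D) + (k / M : ℝ) ^ 2) * am * (4 * I * h) := by
    gcongr; linarith
  rw [abs_le] at happ ⊢
  constructor <;> linarith [happ.1, happ.2]

end

end Pool.Agent.Hhelper51.Cat
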