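import Pool.Agent.Hhelper51.Cat.Core4

set_option autoImplicit false
set_option linter.unusedSectionVars false

namespace Pool.Agent.Hhelper51.Cat

open Finset

section

variable {Ω : Type} [Fintype Ω] [DecidableEq Ω] [Nonempty Ω]
variable {y : ℕ → ℕ} {Y : Finset ℕ} {h M D k I B : ℕ} {X : Ω → Finset ℕ}

theorem Ex_block (b : Fin B) (S : Finset Ω) :
    Ex (fun ω : Fin B → Ω => if ω b ∈ S then (1:ℝ) else 0) = (S.card / Fintype.card Ω : ℝ) := by
  classical
  have h := Ex_block_mul_free (M := 1) (B := B) (fun _ : Ω => (∅ : Finset ℕ)) ∅ (by simp) b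
    (by simp) S
  have hfree : ∀ ω : Fin B → Ω, free 1 (fun _ : Ω => (∅ : Finset ℕ)) ∅ ω = 1 := by
    intro ω; unfold free; rw [if_pos (disjoint_empty_right _)]
  simp only [hfree, mul_one] at h
  rw [h]
  have : Ex (free (B := B) 1 (fun _ : Ω => (∅ : Finset ℕ)) ∅) = 1 := by
    unfold Ex
    simp only [hfree]
    rw [sum_const, nsmul_eq_mul, mul_one, card_univ]
    apply div_self
    exact_mod_cast Fintype.card_ne_zero
  rw [this, mul_one]

theorem Ex_block_UD (hY : Y ⊆ range (B * M)) (p : ℕ) (b : Fin B) (hb : p / M = b) (S : Finset Ω)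
    (i i' : ℕ) :
    Ex (fun ω : Fin B → Ω => (if ω b ∈ S then (1:ℝ) else 0) *
      (Uf y Y h M I X p i ω * Df y Y h M I X p i' ω)) =
      (S.card / Fintype.card Ω : ℝ) * qq X y Y h M I B p i i' := by
  classical
  unfold qq
  by_cases hi : i < I
  swap
  · have : ∀ ω : Fin B → Ω, Uf y Y h M I X p i ω = 0 := fun ω => by unfold Uf; rw [if_neg hi]
    simp [this, Ex]
  by_cases hi' : i' < I
  swap
  · have : ∀ ω : Fin B → Ω, Df y Y h M I X p i' ω = 0 := fun ω => by unfold Df; rw [if_neg hi']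
    simp [this, Ex]
  have hfun : ∀ ω : Fin B → Ω, Uf y Y h M I X p i ω * Df y Y h M I X p i' ω =
      free (B := B) M X (supo y Y h M p i ∪ sdno y Y h M p i') ω := by
    intro ω
    unfold Uf Df
    rw [if_pos hi, if_pos hi', free_mul]
  simp only [hfun]
  apply Ex_block_mul_free
  · refine (union_subset ?_ ?_).trans hY
    · intro u hu; simp only [supo, sup, mem_filter] at hu; exact hu.1.1
    · intro u hu; simp only [sdno, sdn, mem_filter] at hu; exact hu.1.1
  · intro u hu
    rw [mem_union] at hu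
    rw [← hb]
    rcases hu with hu | hu
    · simp only [supo, mem_filter] at hu; exact hu.2
    · simp only [sdno, mem_filter] at hu; exact hu.2

theorem Ex_level (hM : 0 < M) (hD : 0 < D) (hI : 0 < I) (hy : Function.Injective y)
    (h1 : ∀ u < M, M * (univ.filter (fun ω => u ∈ X ω)).card = k * Fintype.card Ω)
    (h2 : ∀ u < M, ∀ v < M, u ≠ v →
        M * D * (univ.filter (fun ω => u ∈ X ω ∧ v ∈ X ω)).card ≤ 2 * k ^ 2 * Fintype.card Ω)
    (hY : Y ⊆ range (B * M)) (p t j : ℕ) (b : Fin B) (hb : p / M = b) (S : Finset Ω) (am e3 : ℝ)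
    (ham : ∀ b : ℕ, ((blk M (sup y Y h p I ∪ sdn y Y h p I) b).card : ℝ) ≤ am)
    (he3 : (2 * k ^ 2 / (M * D) + (k / M : ℝ) ^ 2) * am * (4 * I * h) + (k / M : ℝ) * am ≤ e3) :
    (S.card / Fintype.card Ω : ℝ) *
      (Phi y Y h I (Real.exp (-(2 * h * (k / M : ℝ)))) j p t - 4 * e3 * I ^ 2) ≤
    Ex (fun ω : Fin B → Ω => (if ω b ∈ S then (1:ℝ) else 0) *
      ∑ i ∈ range I, ∑ i' ∈ range I,
      (Uf y Y h M I X p i ω - Uf y Y h M I X p (i + 1) ω) *
      (Df y Y h M I X p i' ω - Df y Y h M I X p (i' + 1) ω) * lf y Y h j p t i i') := by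
  classical
  have hrew : Ex (fun ω : Fin B → Ω => (if ω b ∈ S then (1:ℝ) else 0) *
      ∑ i ∈ range I, ∑ i' ∈ range I,
      (Uf y Y h M I X p i ω - Uf y Y h M I X p (i + 1) ω) *
      (Df y Y h M I X p i' ω - Df y Y h M I X p (i' + 1) ω) * lf y Y h j p t i i') =
      (S.card / Fintype.card Ω : ℝ) * ∑ i ∈ range I, ∑ i' ∈ range I,
        (qq X y Y h M I B p i i' - qq X y Y h M I B p (i + 1) i' - qq X y Y h M I B p i (i' + 1) +
          qq X y Y h M I B p (i + 1) (i' + 1)) * lf y Y h j p t i i' := by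
    have e1 : ∀ ω : Fin B → Ω, (if ω b ∈ S then (1:ℝ) else 0) *
      ∑ i ∈ range I, ∑ i' ∈ range I,
      (Uf y Y h M I X p i ω - Uf y Y h M I X p (i + 1) ω) *
      (Df y Y h M I X p i' ω - Df y Y h M I X p (i' + 1) ω) * lf y Y h j p t i i' =
      ∑ i ∈ range I, ∑ i' ∈ range I,
        ((if ω b ∈ S then (1:ℝ) else 0) * (Uf y Y h M I X p i ω * Df y Y h M I X p i' ω) -
        (if ω b ∈ S then (1:ℝ) else 0) * (Uf y Y h M I X p (i + 1) ω * Df y Y h M I X p i' ω) -
        (if ω b ∈ S then (1:ℝ) else 0) * (Uf y Y h M I X p i ω * Df y Y h M I X p (i' + 1) ω) +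
        (if ω b ∈ S then (1:ℝ) else 0) *
          (Uf y Y h M I X p (i + 1) ω * Df y Y h M I X p (i' + 1) ω)) * lf y Y h j p t i i' := by
      intro ω
      rw [mul_sum]
      apply sum_congr rfl; intro i _
      rw [mul_sum]
      apply sum_congr rfl; intro i' _
      ring
    simp only [e1]
    rw [Ex_sum, mul_sum]
    apply sum_congr rfl; intro i _
    rw [Ex_sum, mul_sum]
    apply sum_congr rfl; intro i' _
    rw [Ex_mul_right, Ex_add, Ex_sub, Ex_sub, Ex_block_UD hY p b hb, Ex_block_UD hY p b hb,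
      Ex_block_UD hY p b hb, Ex_block_UD hY p b hb]
    ring
  rw [hrew]
  apply mul_le_mul_of_nonneg_left _ (by positivity)
  have hlam : (0:ℝ) ≤ (k / M : ℝ) := by positivity
  have hPhi := Phi_le (y := y) (Y := Y) (h := h) (I := I) hy hI hlam j p t
  have hterm : ∀ i ∈ range I, ∀ i' ∈ range I,
      (uu (k / M : ℝ) y Y h I p i - uu (k / M : ℝ) y Y h I p (i + 1)) *
        (ll (k / M : ℝ) y Y h I p i' - ll (k / M : ℝ) y Y h I p (i' + 1)) * lf y Y h j p t i i' -
        4 * e3 ≤
      (qq X y Y h M I B p i i' - qq X y Y h M I B p (i + 1) i' - qq X y Y h M I B p i (i' + 1) +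
          qq X y Y h M I B p (i + 1) (i' + 1)) * lf y Y h j p t i i' := by
    intro i _ i' _
    have a1 := abs_le.mp ((qq_approx (X := X) (B := B) hM hD hy h1 h2 hY p am ham i i').trans he3)
    have a2 := abs_le.mp ((qq_approx (X := X) (B := B) hM hD hy h1 h2 hY p am ham (i+1) i').trans he3)
    have a3 := abs_le.mp ((qq_approx (X := X) (B := B) hM hD hy h1 h2 hY p am ham i (i'+1)).trans he3)
    have a4 := abs_le.mp ((qq_approx (X := X) (B := B) hM hD hy h1 h2 hY p am ham (i+1) (i'+1)).trans he3)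
    unfold lf
    have he30 : 0 ≤ e3 := by linarith [a1.1, a1.2]
    split_ifs
    · simp only [mul_one]
      nlinarith [a1.1, a1.2, a2.1, a2.2, a3.1, a3.2, a4.1, a4.2]
    · simp only [mul_zero]; linarith
  calc Phi y Y h I (Real.exp (-(2 * h * (k / M : ℝ)))) j p t - 4 * e3 * I ^ 2
      ≤ (∑ i ∈ range I, ∑ i' ∈ range I, (uu (k / M : ℝ) y Y h I p i - uu (k / M : ℝ) y Y h I p (i + 1)) *
        (ll (k / M : ℝ) y Y h I p i' - ll (k / M : ℝ) y Y h I p (i' + 1)) * lf y Y h j p t i i') -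
          4 * e3 * I ^ 2 := by linarith
    _ = ∑ i ∈ range I, ∑ i' ∈ range I, ((uu (k / M : ℝ) y Y h I p i - uu (k / M : ℝ) y Y h I p (i + 1)) *
        (ll (k / M : ℝ) y Y h I p i' - ll (k / M : ℝ) y Y h I p (i' + 1)) * lf y Y h j p t i i' -
          4 * e3) := by
        simp only [sum_sub_distrib, sum_const, card_range, nsmul_eq_mul]
        ring
    _ ≤ _ := sum_le_sum (fun i hi => sum_le_sum (fun i' hi' => hterm i hi i' hi'))

/-- times `t` admissible for `p` -/
def Tp (M B D p : ℕ) : Finset ℕ := (range (B * M)).filter (fun t => p < t ∧ t ≤ p + D ∧ t / M = p / M)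

theorem mem_Xg_iff {ω : Fin B → Ω} {u : ℕ} (hu : u < B * M) (b : Fin B) (hb : u / M = b) :
    u ∈ Xg M B X ω ↔ u % M ∈ X (ω b) := by
  simp only [Xg, mem_filter, mem_range]
  constructor
  · rintro ⟨_, h2, h3⟩
    have : (⟨u / M, h2⟩ : Fin B) = b := Fin.ext hb
    rwa [this] at h3
  · intro h3
    refine ⟨hu, by rw [hb]; exact b.2, ?_⟩
    have : (⟨u / M, by rw [hb]; exact b.2⟩ : Fin B) = b := Fin.ext hb
    rwa [this]

/-- For fixed `p`, at most one `t` is the next anchor. -/
theorem sum_cons_le (p : ℕ) (hp : p < B * M) (b : Fin B) (hb : p / M = b)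
    (ω : Fin B → Ω) (Z : ℕ → ℝ) (c : ℝ) (hc : 0 ≤ c)
    (hZ : ∀ t ∈ Tp M B D p, ω b ∈ consSet M X p t → Z t ≤ c) :
    ∑ t ∈ Tp M B D p, (if ω b ∈ consSet M X p t then (1:ℝ) else 0) * Z t ≤
      (open Classical in if p ∈ Xg M B X ω then (1:ℝ) else 0) * c := by
  classical
  by_cases hex : ∃ t ∈ Tp M B D p, ω b ∈ consSet M X p t
  · obtain ⟨t0, ht0, hc0⟩ := hex
    have hsingle : ∑ t ∈ Tp M B D p, (if ω b ∈ consSet M X p t then (1:ℝ) else 0) * Z t = Z t0 := by
      rw [sum_eq_single_of_mem t0 ht0]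
      · rw [if_pos hc0, one_mul]
      · intro t ht hne
        rw [if_neg, zero_mul]
        intro hct
        apply hne
        simp only [consSet, mem_filter, mem_univ, true_and] at hc0 hct
        simp only [Tp, mem_filter, mem_range] at ht0 ht
        have a0 := hc0.2.2 (t % M) hct.2.1
        have a1 := hct.2.2 (t0 % M) hc0.2.1
        have e0 := Nat.div_add_mod t M
        have e1 := Nat.div_add_mod t0 M
        have e2 := Nat.div_add_mod p M
        have f1 : p % M < t % M := by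
          by_contra hcon
          push Not at hcon
          have : t ≤ p := by rw [← e0, ← e2, ht.2.2.2]; omega
          omega
        have f2 : p % M < t0 % M := by
          by_contra hcon
          push Not at hcon
          have : t0 ≤ p := by rw [← e1, ← e2, ht0.2.2.2]; omega
          omega
        have : t % M = t0 % M := by omega
        rw [← e0, ← e1, ht.2.2.2, ht0.2.2.2, this]
    rw [hsingle]
    have hpX : p ∈ Xg M B X ω := by
      rw [mem_Xg_iff hp b hb]
      simp only [consSet, mem_filter, mem_univ, true_and] at hc0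
      exact hc0.1
    rw [if_pos hpX, one_mul]
    exact hZ t0 ht0 hc0
  · push Not at hex
    rw [sum_eq_zero]
    · split_ifs <;> simp [hc]
    · intro t ht
      rw [if_neg (hex t ht), zero_mul]

/-- Main expectation bound in terms of `Phi`. -/
theorem Ex_cnt_ge (hM : 0 < M) (hD : 0 < D) (hI : 0 < I) (hy : Function.Injective y)
    (h1 : ∀ u < M, M * (univ.filter (fun ω => u ∈ X ω)).card = k * Fintype.card Ω)
    (h2 : ∀ u < M, ∀ v < M, u ≠ v →
        M * D * (univ.filter (fun ω => u ∈ X ω ∧ v ∈ X ω)).card ≤ 2 * k ^ 2 * Fintype.card Ω)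
    (eps : ℝ) (heps : eps ≤ 1) (hk : 1 ≤ k)
    (h3 : ∀ p t : ℕ, p < t → t < M → t ≤ p + D →
        ((k : ℝ) - 1) * (1 - eps) * Fintype.card Ω ≤
          M * D * (univ.filter (fun ω => p ∈ X ω ∧ t ∈ X ω ∧ ∀ u ∈ X ω, u ≤ p ∨ t ≤ u)).card)
    (hY : Y ⊆ range (B * M)) (j : ℕ) (am e3 : ℝ)
    (ham : ∀ p ∈ Y, ∀ b : ℕ, ((blk M (sup y Y h p I ∪ sdn y Y h p I) b).card : ℝ) ≤ am)
    (he3 : (2 * k ^ 2 / (M * D) + (k / M : ℝ) ^ 2) * am * (4 * I * h) + (k / M : ℝ) * am ≤ e3) :
    ((k : ℝ) - 1) * (1 - eps) / (M * D) *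
      ∑ p ∈ Y, ∑ t ∈ Tp M B D p, Phi y Y h I (Real.exp (-(2 * h * (k / M : ℝ)))) j p t -
      4 * e3 * I ^ 2 * (Y.card * (k / M : ℝ)) - Y.card * (am * (2 * k ^ 2 / (M * D))) ≤
    Ex (fun ω : Fin B → Ω => (cnt y Y (Xg M B X ω) j : ℝ)) := by
  classical
  have hMr : (0:ℝ) < M := by exact_mod_cast hM
  have hDr : (0:ℝ) < D := by exact_mod_cast hD
  have hcΩ : (0:ℝ) < Fintype.card Ω := by exact_mod_cast Fintype.card_pos
  have hlt : ∀ p ∈ Y, p < B * M := fun p hp => mem_range.mp (hY hp)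
  have hbB : ∀ p ∈ Y, p / M < B := fun p hp => by
    rw [Nat.div_lt_iff_lt_mul hM]; exact hlt p hp
  -- block index
  set bb : ℕ → Fin B → Prop := fun p b => p / M = b with hbb
  have he30 : 0 ≤ e3 ∨ Y = ∅ := by
    by_cases hYe : Y = ∅
    · right; exact hYe
    · left
      obtain ⟨p, hp⟩ := nonempty_iff_ne_empty.mpr hYe
      have ham0 : 0 ≤ am := le_trans (Nat.cast_nonneg _) (ham p hp 0)
      refine le_trans ?_ he3
      positivity
  rcases he30 with he30 | hYe
  swap
  · subst hYe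
    simp only [sum_empty, mul_zero, card_empty, Nat.cast_zero, zero_mul, sub_zero]
    unfold Ex; positivity
  -- pointwise bound
  have hpoint : ∀ ω : Fin B → Ω,
      ∑ p ∈ Y.attach, ((∑ t ∈ Tp M B D p.1,
        (if ω ⟨p.1 / M, hbB p.1 p.2⟩ ∈ consSet M X p.1 t then (1:ℝ) else 0) *
        ∑ i ∈ range I, ∑ i' ∈ range I,
          (Uf y Y h M I X p.1 i ω - Uf y Y h M I X p.1 (i + 1) ω) *
          (Df y Y h M I X p.1 i' ω - Df y Y h M I X p.1 (i' + 1) ω) * lf y Y h j p.1 t i i') -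
        (if p.1 ∈ Xg M B X ω then (1:ℝ) else 0) * conf y Y h M I X p.1 ω) ≤
      (cnt y Y (Xg M B X ω) j : ℝ) := by
    intro ω
    have hcnt : (cnt y Y (Xg M B X ω) j : ℝ) = ∑ p ∈ Y.attach,
        (if p.1 ∈ Xg M B X ω then (1:ℝ) else 0) *
          (if j ≤ (box y Y (Xg M B X ω) p.1).card then (1:ℝ) else 0) := by
      rw [sum_attach Y (fun p => (if p ∈ Xg M B X ω then (1:ℝ) else 0) *
          (if j ≤ (box y Y (Xg M B X ω) p).card then (1:ℝ) else 0))]
      unfold cnt
      have hI' : (Xg M B X ω ∩ Y).filter (fun p => j ≤ (box y Y (Xg M B X ω) p).card) =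
          Y.filter (fun p => p ∈ Xg M B X ω ∧ j ≤ (box y Y (Xg M B X ω) p).card) := by
        ext p; simp only [mem_filter, mem_inter]; tauto
      rw [hI', card_eq_sum_ones, Nat.cast_sum, sum_filter]
      apply sum_congr rfl
      intro p _
      by_cases hp : p ∈ Xg M B X ω <;> by_cases hq : j ≤ (box y Y (Xg M B X ω) p).card <;>
          simp [hp, hq]
    rw [hcnt]
    apply sum_le_sum
    intro p _
    have hp := p.2
    have hs := sum_cons_le (D := D) (X := X) p.1 (hlt p.1 hp) ⟨p.1 / M, hbB p.1 hp⟩ rfl ω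
      (fun t => ∑ i ∈ range I, ∑ i' ∈ range I,
          (Uf y Y h M I X p.1 i ω - Uf y Y h M I X p.1 (i + 1) ω) *
          (Df y Y h M I X p.1 i' ω - Df y Y h M I X p.1 (i' + 1) ω) * lf y Y h j p.1 t i i')
      ((if j ≤ (box y Y (Xg M B X ω) p.1).card then (1:ℝ) else 0) + conf y Y h M I X p.1 ω)
      (by
        have : 0 ≤ conf y Y h M I X p.1 ω := by
          unfold conf; apply sum_nonneg; intro u _; split_ifs <;> norm_num
        split_ifs <;> linarith)
      (fun t ht hct => by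
        have htp : p.1 / M = t / M := by
          simp only [Tp, mem_filter] at ht; exact ht.2.2.2.symm
        exact pointwise (y := y) (Y := Y) (h := h) (M := M) (I := I) (X := X) (j := j) htp _ rfl ω hct)
    linarith
  refine le_trans ?_ (Ex_mono hpoint)
  rw [Ex_sum]
  -- expectation of each term
  have hterm : ∀ p ∈ Y.attach,
      ((k : ℝ) - 1) * (1 - eps) / (M * D) *
        ∑ t ∈ Tp M B D p.1, Phi y Y h I (Real.exp (-(2 * h * (k / M : ℝ)))) j p.1 t -
        4 * e3 * I ^ 2 * (k / M : ℝ) - am * (2 * k ^ 2 / (M * D)) ≤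
      Ex (fun ω : Fin B → Ω => (∑ t ∈ Tp M B D p.1,
        (if ω ⟨p.1 / M, hbB p.1 p.2⟩ ∈ consSet M X p.1 t then (1:ℝ) else 0) *
        ∑ i ∈ range I, ∑ i' ∈ range I,
          (Uf y Y h M I X p.1 i ω - Uf y Y h M I X p.1 (i + 1) ω) *
          (Df y Y h M I X p.1 i' ω - Df y Y h M I X p.1 (i' + 1) ω) * lf y Y h j p.1 t i i') -
        (if p.1 ∈ Xg M B X ω then (1:ℝ) else 0) * conf y Y h M I X p.1 ω) := by
    intro p _
    have hp := p.2
    rw [Ex_sub, Ex_sum]
    -- conflict term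
    have hconf : Ex (fun ω : Fin B → Ω => (if p.1 ∈ Xg M B X ω then (1:ℝ) else 0) *
        conf y Y h M I X p.1 ω) ≤ am * (2 * k ^ 2 / (M * D)) := by
      have e1 : ∀ ω : Fin B → Ω, (if p.1 ∈ Xg M B X ω then (1:ℝ) else 0) *
          conf y Y h M I X p.1 ω =
          ∑ u ∈ (sup y Y h p.1 I ∪ sdn y Y h p.1 I).filter (fun u => u / M = p.1 / M),
            (if ω ⟨p.1 / M, hbB p.1 hp⟩ ∈ univ.filter (fun x => p.1 % M ∈ X x ∧ u % M ∈ X x)
              then (1:ℝ) else 0) := by
        intro ω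
        unfold conf
        rw [mul_sum]
        apply sum_congr rfl
        intro u hu
        simp only [mem_filter, mem_union, sup, sdn] at hu
        have huY : u ∈ Y := by
          rcases hu.1 with h' | h'
          · exact h'.1
          · exact h'.1
        have m1 := mem_Xg_iff (X := X) (ω := ω) (hlt p.1 hp) ⟨p.1 / M, hbB p.1 hp⟩ rfl
        have m2 := mem_Xg_iff (X := X) (ω := ω) (hlt u huY) ⟨p.1 / M, hbB p.1 hp⟩ hu.2
        by_cases c1 : p.1 % M ∈ X (ω ⟨p.1 / M, hbB p.1 hp⟩) <;>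
        by_cases c2 : u % M ∈ X (ω ⟨p.1 / M, hbB p.1 hp⟩)
        · rw [if_pos (m1.mpr c1), if_pos (m2.mpr c2), if_pos (by simp [c1, c2])]; norm_num
        · have hn : ¬ (ω ⟨p.1 / M, hbB p.1 hp⟩ ∈
              univ.filter (fun x => p.1 % M ∈ X x ∧ u % M ∈ X x)) :=
            fun h' => c2 (mem_filter.mp h').2.2
          rw [if_neg (fun h' => c2 (m2.mp h')), if_neg hn]; norm_num
        · have hn : ¬ (ω ⟨p.1 / M, hbB p.1 hp⟩ ∈
              univ.filter (fun x => p.1 % M ∈ X x ∧ u % M ∈ X x)) :=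
            fun h' => c1 (mem_filter.mp h').2.1
          rw [if_neg (fun h' => c1 (m1.mp h')), if_neg hn]; norm_num
        · have hn : ¬ (ω ⟨p.1 / M, hbB p.1 hp⟩ ∈
              univ.filter (fun x => p.1 % M ∈ X x ∧ u % M ∈ X x)) :=
            fun h' => c1 (mem_filter.mp h').2.1
          rw [if_neg (fun h' => c1 (m1.mp h')), if_neg hn]; norm_num
      simp only [e1]
      rw [Ex_sum]
      have e2 : ∀ u ∈ (sup y Y h p.1 I ∪ sdn y Y h p.1 I).filter (fun u => u / M = p.1 / M),
          Ex (fun ω : Fin B → Ω => (if ω ⟨p.1 / M, hbB p.1 hp⟩ ∈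
            univ.filter (fun x => p.1 % M ∈ X x ∧ u % M ∈ X x) then (1:ℝ) else 0)) ≤
          2 * k ^ 2 / (M * D) := by
        intro u hu
        rw [Ex_block]
        have hne : p.1 % M ≠ u % M := by
          intro heq
          simp only [mem_filter, mem_union, sup, sdn] at hu
          have a1 := Nat.div_add_mod u M
          have a2 := Nat.div_add_mod p.1 M
          have : u = p.1 := by rw [← a1, ← a2, hu.2, heq]
          subst this
          rcases hu.1 with h' | h' <;> omega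
        have := h2 (p.1 % M) (Nat.mod_lt _ hM) (u % M) (Nat.mod_lt _ hM) hne
        have h' : (M : ℝ) * D * ((univ.filter (fun ω => p.1 % M ∈ X ω ∧ u % M ∈ X ω)).card : ℝ) ≤
              2 * k ^ 2 * Fintype.card Ω := by exact_mod_cast this
        rw [div_le_div_iff₀ hcΩ (by positivity)]
        linarith
      refine le_trans (sum_le_sum e2) ?_
      rw [sum_const, nsmul_eq_mul]
      apply mul_le_mul_of_nonneg_right (ham p.1 hp (p.1 / M)) (by positivity)
    -- main term
    have hmain : ∀ t ∈ Tp M B D p.1,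
        ((k : ℝ) - 1) * (1 - eps) / (M * D) *
          Phi y Y h I (Real.exp (-(2 * h * (k / M : ℝ)))) j p.1 t -
          4 * e3 * I ^ 2 * ((consSet M X p.1 t).card / Fintype.card Ω : ℝ) ≤
        Ex (fun ω : Fin B → Ω =>
          (if ω ⟨p.1 / M, hbB p.1 p.2⟩ ∈ consSet M X p.1 t then (1:ℝ) else 0) *
          ∑ i ∈ range I, ∑ i' ∈ range I,
          (Uf y Y h M I X p.1 i ω - Uf y Y h M I X p.1 (i + 1) ω) *
          (Df y Y h M I X p.1 i' ω - Df y Y h M I X p.1 (i' + 1) ω) * lf y Y h j p.1 t i i') := by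
      intro t ht
      have hL := Ex_level (X := X) (B := B) hM hD hI hy h1 h2 hY p.1 t j ⟨p.1 / M, hbB p.1 hp⟩ rfl
        (consSet M X p.1 t) am e3 (ham p.1 hp) he3
      refine le_trans ?_ hL
      have hPhi0 : 0 ≤ Phi y Y h I (Real.exp (-(2 * h * (k / M : ℝ)))) j p.1 t := by
        unfold Phi
        have hr1 : Real.exp (-(2 * h * (k / M : ℝ))) ≤ 1 := by
          apply Real.exp_le_one_iff.mpr
          have : (0:ℝ) ≤ 2 * h * (k / M : ℝ) := by positivity
          linarith
        apply sum_nonneg; intro i _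
        apply sum_nonneg; intro i' _
        apply mul_nonneg (mul_nonneg _ _) (lf_nonneg _ _ _ _ _)
        · linarith [eg_anti (Real.exp_pos (-(2 * h * (k / M : ℝ)))).le hr1 I i]
        · linarith [eg_anti (Real.exp_pos (-(2 * h * (k / M : ℝ)))).le hr1 I i']
      have hw : ((k : ℝ) - 1) * (1 - eps) / (M * D) ≤
          ((consSet M X p.1 t).card / Fintype.card Ω : ℝ) := by
        rw [div_le_div_iff₀ (by positivity) hcΩ]
        simp only [Tp, mem_filter, mem_range] at ht
        have e0 := Nat.div_add_mod t M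
        have e2 := Nat.div_add_mod p.1 M
        have hlt' : p.1 % M < t % M := by
          by_contra hcon
          push Not at hcon
          have : t ≤ p.1 := by rw [← e0, ← e2, ht.2.2.2]; omega
          omega
        have hle' : t % M ≤ p.1 % M + D := by
          by_contra hcon
          push Not at hcon
          have : p.1 + D < t := by rw [← e0, ← e2, ht.2.2.2]; omega
          omega
        have := h3 (p.1 % M) (t % M) hlt' (Nat.mod_lt _ hM) hle'
        unfold consSet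
        linarith
      have := mul_le_mul_of_nonneg_right hw hPhi0
      have e9 : ((consSet M X p.1 t).card / Fintype.card Ω : ℝ) *
          (Phi y Y h I (Real.exp (-(2 * h * (k / M : ℝ)))) j p.1 t - 4 * e3 * I ^ 2) =
          ((consSet M X p.1 t).card / Fintype.card Ω : ℝ) *
          Phi y Y h I (Real.exp (-(2 * h * (k / M : ℝ)))) j p.1 t -
          4 * e3 * I ^ 2 * ((consSet M X p.1 t).card / Fintype.card Ω : ℝ) := by ring
      rw [e9]
      linarith
    -- sum of the consecutive probabilities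
    have hsumP : ∑ t ∈ Tp M B D p.1, ((consSet M X p.1 t).card / Fintype.card Ω : ℝ) ≤ (k / M : ℝ) := by
      have e1 : ∀ t ∈ Tp M B D p.1, ((consSet M X p.1 t).card / Fintype.card Ω : ℝ) =
          Ex (fun ω : Fin B → Ω => (if ω ⟨p.1 / M, hbB p.1 p.2⟩ ∈ consSet M X p.1 t
            then (1:ℝ) else 0) * 1) := by
        intro t _
        rw [← Ex_block (B := B) ⟨p.1 / M, hbB p.1 p.2⟩]
        simp
      rw [sum_congr rfl e1, ← Ex_sum]
      have e2 : ∀ ω : Fin B → Ω, ∑ t ∈ Tp M B D p.1,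
          (if ω ⟨p.1 / M, hbB p.1 p.2⟩ ∈ consSet M X p.1 t then (1:ℝ) else 0) * 1 ≤
          (if ω ⟨p.1 / M, hbB p.1 p.2⟩ ∈ univ.filter (fun x => p.1 % M ∈ X x)
            then (1:ℝ) else 0) := by
        intro ω
        have := sum_cons_le (D := D) (X := X) p.1 (hlt p.1 hp) ⟨p.1 / M, hbB p.1 hp⟩ rfl ω
          (fun _ => 1) 1 zero_le_one (fun _ _ _ => le_refl _)
        refine le_trans this ?_
        rw [mul_one]
        have m1 := mem_Xg_iff (X := X) (ω := ω) (hlt p.1 hp) ⟨p.1 / M, hbB p.1 hp⟩ rfl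
        by_cases c1 : p.1 % M ∈ X (ω ⟨p.1 / M, hbB p.1 hp⟩)
        · rw [if_pos (m1.mpr c1), if_pos (by simp [c1])]
        · rw [if_neg (fun h' => c1 (m1.mp h')), if_neg (by simp [c1])]
      refine le_trans (Ex_mono e2) ?_
      rw [Ex_block]
      have := h1 (p.1 % M) (Nat.mod_lt _ hM)
      have h' : (M : ℝ) * ((univ.filter (fun ω => p.1 % M ∈ X ω)).card : ℝ) = k * Fintype.card Ω := by
        exact_mod_cast this
      rw [div_le_div_iff₀ hcΩ hMr]
      linarith
    have hsum := sum_le_sum hmain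
    rw [sum_sub_distrib, ← mul_sum, ← mul_sum] at hsum
    have h5 : 4 * e3 * (I:ℝ) ^ 2 * ∑ t ∈ Tp M B D p.1, ((consSet M X p.1 t).card / Fintype.card Ω : ℝ) ≤
        4 * e3 * (I:ℝ) ^ 2 * (k / M : ℝ) :=
      mul_le_mul_of_nonneg_left hsumP (by positivity)
    linarith
  refine le_trans ?_ (sum_le_sum hterm)
  rw [sum_attach Y (fun p => ((k : ℝ) - 1) * (1 - eps) / (M * D) *
        ∑ t ∈ Tp M B D p, Phi y Y h I (Real.exp (-(2 * h * (k / M : ℝ)))) j p t -
        4 * e3 * I ^ 2 * (k / M : ℝ) - am * (2 * k ^ 2 / (M * D)))]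
  simp only [sum_sub_distrib, sum_const, nsmul_eq_mul]
  rw [← mul_sum]
  apply le_of_eq; ring

end

end Pool.Agent.Hhelper51.Cat
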