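import Pool.Agent.Hhelper51.Cat.Core5

set_option autoImplicit false
set_option linter.unusedSectionVars false

namespace Pool.Agent.Hhelper51.Cat

open Finset

theorem card_late (S : Finset ℕ) (j : ℕ) :
    S.card ≤ (S.filter (fun p => j ≤ (S.filter (fun q => p < q)).card)).card + j := by
  classical
  have h1 := card_filter_add_card_filter_not (s := S) (fun p => j ≤ (S.filter (fun q => p < q)).card)
  have h2 : (S.filter (fun p => ¬ j ≤ (S.filter (fun q => p < q)).card)).card ≤ j := by
    have hinj : Set.InjOn (fun p => (S.filter (fun q => p < q)).card)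
        (S.filter (fun p => ¬ j ≤ (S.filter (fun q => p < q)).card)) := by
      intro a ha b hb hab
      simp only [coe_filter, Set.mem_ofPred_eq] at ha hb
      simp only at hab
      by_contra hne
      rcases lt_or_gt_of_ne hne with h | h
      · have : (S.filter (fun q => b < q)).card < (S.filter (fun q => a < q)).card := by
          apply card_lt_card
          rw [Finset.ssubset_iff_of_subset]
          · exact ⟨b, mem_filter.mpr ⟨hb.1, h⟩, by simp⟩
          · intro q hq; rw [mem_filter] at hq ⊢; exact ⟨hq.1, by omega⟩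
        omega
      · have : (S.filter (fun q => a < q)).card < (S.filter (fun q => b < q)).card := by
          apply card_lt_card
          rw [Finset.ssubset_iff_of_subset]
          · exact ⟨a, mem_filter.mpr ⟨ha.1, h⟩, by simp⟩
          · intro q hq; rw [mem_filter] at hq ⊢; exact ⟨hq.1, by omega⟩
        omega
    calc (S.filter (fun p => ¬ j ≤ (S.filter (fun q => p < q)).card)).card
        = ((S.filter (fun p => ¬ j ≤ (S.filter (fun q => p < q)).card)).image
            (fun p => (S.filter (fun q => p < q)).card)).card := (card_image_of_injOn hinj).symm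
      _ ≤ (range j).card := by
          apply card_le_card
          intro v hv
          rw [mem_image] at hv
          obtain ⟨p, hp, rfl⟩ := hv
          rw [mem_filter] at hp
          rw [mem_range]; omega
      _ = j := card_range j
  omega

section

variable {M D B : ℕ}

theorem card_Tp_full (hM : 0 < M) {p : ℕ} (hp : p < B * M) (hpD : p % M + D < M) :
    (Tp M B D p).card = D := by
  have : Tp M B D p = Ioc p (p + D) := by
    ext t
    simp only [Tp, mem_filter, mem_range, mem_Ioc]
    constructor
    · rintro ⟨_, h1, h2, _⟩; exact ⟨h1, h2⟩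
    · rintro ⟨h1, h2⟩
      have e1 := Nat.div_add_mod p M
      have hdiv : t / M = p / M := by
        have hb : M * (p / M) ≤ t ∧ t < M * (p / M) + M := by constructor <;> omega
        rw [Nat.div_eq_iff hM]
        constructor
        · rw [mul_comm]; exact hb.1
        · rw [mul_comm]; omega
      refine ⟨?_, h1, h2, hdiv⟩
      have hlt : t / M < B := by
        rw [hdiv, Nat.div_lt_iff_lt_mul hM]; exact hp
      rwa [Nat.div_lt_iff_lt_mul hM] at hlt
  rw [this, Nat.card_Ioc]; omega

/-- Step 3: telescoping for a fixed window `W`. -/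
theorem window_sum (hM : 0 < M) (W : Finset ℕ) (hW : W ⊆ range (B * M)) (j : ℕ) :
    (D : ℤ) * (W.filter (fun p => p % M + D < M)).card - j * (B * M) ≤
      ∑ p ∈ W, ∑ t ∈ Tp M B D p,
        (if j ≤ (W.filter (fun q => p < q ∧ q < t)).card then (1:ℤ) else 0) := by
  classical
  -- exchange
  have hex : ∑ p ∈ W, ∑ t ∈ Tp M B D p,
        (if j ≤ (W.filter (fun q => p < q ∧ q < t)).card then (1:ℤ) else 0) =
      ∑ t ∈ range (B * M), ∑ p ∈ W.filter (fun p => p < t ∧ t ≤ p + D ∧ t / M = p / M),
        (if j ≤ (W.filter (fun q => p < q ∧ q < t)).card then (1:ℤ) else 0) := by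
    apply sum_comm'
    intro p t
    simp only [Tp, mem_filter]
    tauto
  rw [hex]
  have hlow : ∀ t ∈ range (B * M),
      ((W.filter (fun p => p < t ∧ t ≤ p + D ∧ t / M = p / M)).card : ℤ) - j ≤
      ∑ p ∈ W.filter (fun p => p < t ∧ t ≤ p + D ∧ t / M = p / M),
        (if j ≤ (W.filter (fun q => p < q ∧ q < t)).card then (1:ℤ) else 0) := by
    intro t _
    set S := W.filter (fun p => p < t ∧ t ≤ p + D ∧ t / M = p / M) with hS
    have h1 := card_late S j
    have h2 : ((S.filter (fun p => j ≤ (S.filter (fun q => p < q)).card)).card : ℤ) ≤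
        ∑ p ∈ S, (if j ≤ (W.filter (fun q => p < q ∧ q < t)).card then (1:ℤ) else 0) := by
      rw [card_eq_sum_ones, Nat.cast_sum, sum_filter]
      apply sum_le_sum
      intro p hp
      have hsub : S.filter (fun q => p < q) ⊆ W.filter (fun q => p < q ∧ q < t) := by
        intro q hq
        rw [hS, mem_filter, mem_filter] at hq
        rw [mem_filter]
        exact ⟨hq.1.1, hq.2, hq.1.2.1⟩
      by_cases hc : j ≤ (S.filter (fun q => p < q)).card
      · rw [if_pos hc, if_pos (hc.trans (card_le_card hsub))]; simp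
      · rw [if_neg hc]; split_ifs <;> norm_num
    omega
  refine le_trans ?_ (sum_le_sum hlow)
  rw [sum_sub_distrib, sum_const, card_range, nsmul_eq_mul]
  have hdc : ∑ t ∈ range (B * M),
      ((W.filter (fun p => p < t ∧ t ≤ p + D ∧ t / M = p / M)).card : ℤ) =
      ∑ p ∈ W, ((Tp M B D p).card : ℤ) := by
    simp only [card_eq_sum_ones, Nat.cast_sum, Tp]
    apply sum_comm'
    intro t p
    simp only [mem_filter]
    tauto
  rw [hdc]
  have hge : (D : ℤ) * (W.filter (fun p => p % M + D < M)).card ≤ ∑ p ∈ W, ((Tp M B D p).card : ℤ) := by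
    have hfull : ∀ p ∈ W.filter (fun p => p % M + D < M), ((Tp M B D p).card : ℤ) = D := by
      intro p hp
      rw [mem_filter] at hp
      rw [card_Tp_full hM (mem_range.mp (hW hp.1)) hp.2]
    calc (D : ℤ) * (W.filter (fun p => p % M + D < M)).card
        = ∑ p ∈ W.filter (fun p => p % M + D < M), ((Tp M B D p).card : ℤ) := by
          rw [sum_congr rfl hfull, sum_const, nsmul_eq_mul]; ring
      _ ≤ _ := by
          apply sum_le_sum_of_subset_of_nonneg (filter_subset _ _)
          intro p _ _; positivity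
  push_cast
  nlinarith

/-- Step 5: few points near the ends of the blocks -/
theorem card_block_end (hM : 0 < M) (hDM : D ≤ M) :
    ((range (B * M)).filter (fun p => ¬ (p % M + D < M))).card ≤ B * D := by
  classical
  calc ((range (B * M)).filter (fun p => ¬ (p % M + D < M))).card
      ≤ ((range B) ×ˢ (Ico (M - D) M)).card := by
        apply card_le_card_of_injOn (fun p => (p / M, p % M))
        · intro p hp
          simp only [coe_filter, Set.mem_ofPred_eq, mem_range] at hp
          simp only [coe_product, Set.mem_prod, mem_coe, mem_range, mem_Ico]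
          refine ⟨?_, by omega, Nat.mod_lt _ hM⟩
          rw [Nat.div_lt_iff_lt_mul hM]; exact hp.1
        · intro a _ b _ hab
          simp only [Prod.mk.injEq] at hab
          have e1 := Nat.div_add_mod a M
          have e2 := Nat.div_add_mod b M
          rw [← e1, ← e2, hab.1, hab.2]
    _ = B * D := by
        rw [card_product, card_range, Nat.card_Ico]
        congr 1; omega

end

section

variable {y : ℕ → ℕ} {Y : Finset ℕ} {h M D I B : ℕ}

/-- window of `c-1` rows starting at row `a` -/
def Win (y : ℕ → ℕ) (Y : Finset ℕ) (h c a : ℕ) : Finset ℕ :=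
  Y.filter (fun u => a ≤ y u / h ∧ y u / h + 2 ≤ a + c)

theorem card_low (hh : 0 < h) (hy : Function.Injective y) (c : ℕ) (hc : c ≤ I) :
    (Y.filter (fun p => ¬ (c ≤ y p / h + 2))).card ≤ I * h := by
  classical
  calc (Y.filter (fun p => ¬ (c ≤ y p / h + 2))).card
      = ((Y.filter (fun p => ¬ (c ≤ y p / h + 2))).image y).card :=
        (card_image_of_injective _ hy).symm
    _ ≤ (range (I * h)).card := by
        apply card_le_card
        intro v hv
        rw [mem_image] at hv
        obtain ⟨p, hp, rfl⟩ := hv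
        rw [mem_filter] at hp
        rw [mem_range]
        have h1 : y p / h < I := by omega
        rwa [Nat.div_lt_iff_lt_mul hh] at h1
    _ = I * h := card_range _

/-- Steps 2,4,5 for fixed `c`. -/
theorem fixed_c (hM : 0 < M) (hDM : D ≤ M) (hh : 0 < h) (hy : Function.Injective y)
    (hY : Y ⊆ range (B * M)) (A : ℕ) (hA : ∀ u ∈ Y, y u / h < A) (j c : ℕ) (hc2 : 2 ≤ c)
    (hcI : c ≤ I) :
    (D : ℝ) * (c - 1) * (Y.card - B * D - I * h) - j * (B * M) * A ≤
      ∑ p ∈ Y, ∑ t ∈ Tp M B D p, ∑ i' ∈ Ico 1 c, lf y Y h j p t (c - i') i' := by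
  classical
  -- compare with windows
  have hwin : ∀ p ∈ Y, ∀ t ∈ Tp M B D p,
      ∑ a ∈ (range A).filter (fun a => a ≤ y p / h ∧ y p / h + 2 ≤ a + c),
        (if j ≤ ((Win y Y h c a).filter (fun q => p < q ∧ q < t)).card then (1:ℝ) else 0) ≤
      ∑ i' ∈ Ico 1 c, lf y Y h j p t (c - i') i' := by
    intro p hp t ht
    have himg : ∑ a ∈ (range A).filter (fun a => a ≤ y p / h ∧ y p / h + 2 ≤ a + c),
        (if j ≤ ((Win y Y h c a).filter (fun q => p < q ∧ q < t)).card then (1:ℝ) else 0) ≤
        ∑ a ∈ (range A).filter (fun a => a ≤ y p / h ∧ y p / h + 2 ≤ a + c),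
          lf y Y h j p t (c - (y p / h + 1 - a)) (y p / h + 1 - a) := by
      apply sum_le_sum
      intro a ha
      rw [mem_filter] at ha
      obtain ⟨_, ha1, ha2⟩ := ha
      have hsub : (Win y Y h c a).filter (fun q => p < q ∧ q < t) ⊆
          lbox y Y h p t (c - (y p / h + 1 - a)) (y p / h + 1 - a) := by
        intro q hq
        rw [mem_filter, Win, mem_filter] at hq
        obtain ⟨⟨hqY, hq1, hq2⟩, hq3, hq4⟩ := hq
        rw [lbox, mem_filter]
        refine ⟨hqY, hq3, hq4, ?_, ?_⟩
        · -- y q ≤ y p + (c - i') h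
          have e1 : y q / h ≤ y p / h + (c - (y p / h + 1 - a)) - 1 := by omega
          have e2 : y q < (y q / h + 1) * h := by
            have := Nat.lt_div_mul_add (a := y q) hh
            have e := Nat.div_add_mod (y q) h
            have := Nat.mod_lt (y q) hh
            calc y q = h * (y q / h) + y q % h := e.symm
              _ < h * (y q / h) + h := by omega
              _ = (y q / h + 1) * h := by ring
          have e3 : (y q / h + 1) * h ≤ (y p / h + (c - (y p / h + 1 - a))) * h :=
            Nat.mul_le_mul_right _ (by omega)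
          have e4 : y p / h * h ≤ y p := Nat.div_mul_le_self _ _
          have e5 : (y p / h + (c - (y p / h + 1 - a))) * h =
            y p / h * h + (c - (y p / h + 1 - a)) * h := by ring
          omega
        · -- y p ≤ y q + i' h
          have e2 : y p < (y p / h + 1) * h := by
            have e := Nat.div_add_mod (y p) h
            have := Nat.mod_lt (y p) hh
            calc y p = h * (y p / h) + y p % h := e.symm
              _ < h * (y p / h) + h := by omega
              _ = (y p / h + 1) * h := by ring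
          have e4 : y q / h * h ≤ y q := Nat.div_mul_le_self _ _
          have e5 : (y p / h + 1) * h ≤ (y q / h + (y p / h + 1 - a)) * h :=
            Nat.mul_le_mul_right _ (by omega)
          have e6 : (y q / h + (y p / h + 1 - a)) * h =
            y q / h * h + (y p / h + 1 - a) * h := by ring
          omega
      unfold lf
      by_cases hcc : j ≤ ((Win y Y h c a).filter (fun q => p < q ∧ q < t)).card
      · rw [if_pos hcc, if_pos (hcc.trans (card_le_card hsub))]
      · rw [if_neg hcc]; split_ifs <;> norm_num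
    refine le_trans himg ?_
    -- reindex
    have hre : ∑ a ∈ (range A).filter (fun a => a ≤ y p / h ∧ y p / h + 2 ≤ a + c),
          lf y Y h j p t (c - (y p / h + 1 - a)) (y p / h + 1 - a) =
        ∑ i' ∈ ((range A).filter (fun a => a ≤ y p / h ∧ y p / h + 2 ≤ a + c)).image
          (fun a => y p / h + 1 - a), lf y Y h j p t (c - i') i' := by
      rw [sum_image]
      intro a ha b hb hab
      simp only [coe_filter, Set.mem_ofPred_eq] at ha hb
      simp only at hab
      omega
    rw [hre]
    apply sum_le_sum_of_subset_of_nonneg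
    · intro i' hi'
      rw [mem_image] at hi'
      obtain ⟨a, ha, rfl⟩ := hi'
      rw [mem_filter] at ha
      rw [mem_Ico]
      omega
    · intro i' _ _; exact lf_nonneg _ _ _ _ _
  refine le_trans ?_ (sum_le_sum (fun p hp => sum_le_sum (fun t ht => hwin p hp t ht)))
  -- exchange the sums
  have hexch : ∑ p ∈ Y, ∑ t ∈ Tp M B D p,
      ∑ a ∈ (range A).filter (fun a => a ≤ y p / h ∧ y p / h + 2 ≤ a + c),
        (if j ≤ ((Win y Y h c a).filter (fun q => p < q ∧ q < t)).card then (1:ℝ) else 0) =
      ∑ a ∈ range A, ∑ p ∈ Win y Y h c a, ∑ t ∈ Tp M B D p,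
        (if j ≤ ((Win y Y h c a).filter (fun q => p < q ∧ q < t)).card then (1:ℝ) else 0) := by
    have e1 : ∀ p ∈ Y, ∑ t ∈ Tp M B D p,
      ∑ a ∈ (range A).filter (fun a => a ≤ y p / h ∧ y p / h + 2 ≤ a + c),
        (if j ≤ ((Win y Y h c a).filter (fun q => p < q ∧ q < t)).card then (1:ℝ) else 0) =
      ∑ a ∈ (range A).filter (fun a => a ≤ y p / h ∧ y p / h + 2 ≤ a + c), ∑ t ∈ Tp M B D p,
        (if j ≤ ((Win y Y h c a).filter (fun q => p < q ∧ q < t)).card then (1:ℝ) else 0) := by
      intro p _; rw [sum_comm]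
    rw [sum_congr rfl e1]
    apply sum_comm'
    intro p a
    simp only [mem_filter, Win]
    tauto
  rw [hexch]
  have hlow : ∀ a ∈ range A,
      (D : ℝ) * ((Win y Y h c a).filter (fun p => p % M + D < M)).card - j * (B * M) ≤
      ∑ p ∈ Win y Y h c a, ∑ t ∈ Tp M B D p,
        (if j ≤ ((Win y Y h c a).filter (fun q => p < q ∧ q < t)).card then (1:ℝ) else 0) := by
    intro a _
    have := window_sum (M := M) (D := D) (B := B) hM (Win y Y h c a)
      ((filter_subset _ _).trans hY) j
    exact_mod_cast this
  refine le_trans ?_ (sum_le_sum hlow)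
  rw [sum_sub_distrib, ← mul_sum, sum_const, card_range, nsmul_eq_mul]
  -- count windows
  have hcount : ((c : ℝ) - 1) * (Y.card - B * D - I * h) ≤
      ∑ a ∈ range A, (((Win y Y h c a).filter (fun p => p % M + D < M)).card : ℝ) := by
    have e1 : ∑ a ∈ range A, (((Win y Y h c a).filter (fun p => p % M + D < M)).card : ℝ) =
        ∑ p ∈ Y.filter (fun p => p % M + D < M),
          (((range A).filter (fun a => a ≤ y p / h ∧ y p / h + 2 ≤ a + c)).card : ℝ) := by
      simp only [card_eq_sum_ones, Nat.cast_sum]
      apply sum_comm'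
      intro a p
      simp only [mem_filter, Win]
      tauto
    rw [e1]
    set Yg := (Y.filter (fun p => p % M + D < M)).filter (fun p => c ≤ y p / h + 2) with hYg
    have e2 : ∀ p ∈ Yg, (c : ℝ) - 1 =
        (((range A).filter (fun a => a ≤ y p / h ∧ y p / h + 2 ≤ a + c)).card : ℝ) := by
      intro p hp
      rw [hYg, mem_filter, mem_filter] at hp
      have hrow := hA p hp.1.1
      have : (range A).filter (fun a => a ≤ y p / h ∧ y p / h + 2 ≤ a + c) =
          Icc (y p / h + 2 - c) (y p / h) := by
        ext a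
        simp only [mem_filter, mem_range, mem_Icc]
        omega
      rw [this, Nat.card_Icc]
      have : y p / h + 1 - (y p / h + 2 - c) = c - 1 := by omega
      rw [this, Nat.cast_sub (by omega)]; norm_num
    have e3 : (Y.card : ℝ) - B * D - I * h ≤ Yg.card := by
      have a1 := card_filter_add_card_filter_not (s := Y) (fun p => p % M + D < M)
      have a2 := card_filter_add_card_filter_not (s := Y.filter (fun p => p % M + D < M))
        (fun p => c ≤ y p / h + 2)
      have a3 : (Y.filter (fun p => ¬ (p % M + D < M))).card ≤ B * D :=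
        le_trans (card_le_card (filter_subset_filter _ hY)) (card_block_end hM hDM)
      have a4 : ((Y.filter (fun p => p % M + D < M)).filter (fun p => ¬ (c ≤ y p / h + 2))).card ≤
          I * h :=
        le_trans (card_le_card (filter_subset_filter _ (filter_subset _ _)))
          (card_low (Y := Y) hh hy c hcI)
      have a5 : Y.card ≤ Yg.card + B * D + I * h := by rw [hYg]; omega
      have : (Y.card : ℝ) ≤ Yg.card + B * D + I * h := by exact_mod_cast a5
      linarith
    calc ((c : ℝ) - 1) * (Y.card - B * D - I * h) ≤ ((c : ℝ) - 1) * Yg.card := by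
          apply mul_le_mul_of_nonneg_left e3
          have : (2:ℝ) ≤ c := by exact_mod_cast hc2
          linarith
      _ = ∑ p ∈ Yg, ((c : ℝ) - 1) := by rw [sum_const, nsmul_eq_mul]; ring
      _ = ∑ p ∈ Yg, (((range A).filter (fun a => a ≤ y p / h ∧ y p / h + 2 ≤ a + c)).card : ℝ) :=
          sum_congr rfl e2
      _ ≤ _ := by
          apply sum_le_sum_of_subset_of_nonneg (filter_subset _ _)
          intro p _ _; positivity
  have := mul_le_mul_of_nonneg_left hcount (Nat.cast_nonneg D : (0:ℝ) ≤ D)
  calc (D : ℝ) * (c - 1) * (Y.card - B * D - I * h) - j * (B * M) * A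
      = D * ((c - 1) * (Y.card - B * D - I * h)) - A * (j * (B * M)) := by ring
    _ ≤ _ := by linarith

/-- Step 1: lower bound of `Phi` by diagonals. -/
theorem Phi_ge_diag {r : ℝ} (hr0 : 0 ≤ r) (hr1 : r ≤ 1) (j p t : ℕ) :
    ∑ c ∈ Ico 2 I, (1 - r) ^ 2 * r ^ c * ∑ i' ∈ Ico 1 c, lf y Y h j p t (c - i') i' ≤
      Phi y Y h I r j p t := by
  classical
  unfold Phi
  rw [← sum_product' (range I) (range I) (fun i i' => (eg r I i - eg r I (i + 1)) *
    (eg r I i' - eg r I (i' + 1)) * lf y Y h j p t i i')]
  have e1 : ∑ c ∈ Ico 2 I, (1 - r) ^ 2 * r ^ c * ∑ i' ∈ Ico 1 c, lf y Y h j p t (c - i') i' =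
      ∑ x ∈ (Ico 2 I).sigma (fun c => Ico 1 c),
        (eg r I (x.1 - x.2) - eg r I (x.1 - x.2 + 1)) *
        (eg r I x.2 - eg r I (x.2 + 1)) * lf y Y h j p t (x.1 - x.2) x.2 := by
    rw [sum_sigma]
    apply sum_congr rfl
    intro c hc
    rw [mul_sum]
    apply sum_congr rfl
    intro i' hi'
    rw [mem_Ico] at hc hi'
    simp only [eg]
    rw [if_pos (by omega), if_pos (by omega), if_pos (by omega), if_pos (by omega)]
    have : r ^ c = r ^ (c - i') * r ^ i' := by rw [← pow_add]; congr 1; omega
    rw [this]; ring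
  rw [e1]
  have e2 : ∑ x ∈ (Ico 2 I).sigma (fun c => Ico 1 c),
        (eg r I (x.1 - x.2) - eg r I (x.1 - x.2 + 1)) *
        (eg r I x.2 - eg r I (x.2 + 1)) * lf y Y h j p t (x.1 - x.2) x.2 =
      ∑ z ∈ ((Ico 2 I).sigma (fun c => Ico 1 c)).image (fun x => (x.1 - x.2, x.2)),
        (eg r I z.1 - eg r I (z.1 + 1)) * (eg r I z.2 - eg r I (z.2 + 1)) *
          lf y Y h j p t z.1 z.2 := by
    rw [sum_image]
    intro a ha b hb hab
    simp only [coe_sigma, Set.mem_sigma_iff, mem_coe, mem_Ico] at ha hb
    simp only [Prod.mk.injEq] at hab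
    obtain ⟨a1, a2⟩ := a
    obtain ⟨b1, b2⟩ := b
    simp only at ha hb hab
    obtain ⟨h1, h2⟩ := hab
    subst h2
    have : a1 = b1 := by omega
    subst this
    rfl
  rw [e2]
  apply sum_le_sum_of_subset_of_nonneg
  · intro z hz
    rw [mem_image] at hz
    obtain ⟨x, hx, rfl⟩ := hz
    rw [mem_sigma, mem_Ico, mem_Ico] at hx
    rw [mem_product, mem_range, mem_range]
    constructor
    · simp only; omega
    · simp only; omega
  · intro z _ _
    apply mul_nonneg (mul_nonneg _ _) (lf_nonneg _ _ _ _ _)
    · linarith [eg_anti hr0 hr1 I z.1]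
    · linarith [eg_anti hr0 hr1 I z.2]

/-- Combination. -/
theorem sum_Phi_ge (hM : 0 < M) (hDM : D ≤ M) (hh : 0 < h) (hy : Function.Injective y)
    (hY : Y ⊆ range (B * M)) (A : ℕ) (hA : ∀ u ∈ Y, y u / h < A) (j : ℕ) {r : ℝ} (hr0 : 0 ≤ r)
    (hr1 : r ≤ 1) :
    ∑ c ∈ Ico 2 I, (1 - r) ^ 2 * r ^ c *
      max 0 ((D : ℝ) * (c - 1) * (Y.card - B * D - I * h) - j * (B * M) * A) ≤
      ∑ p ∈ Y, ∑ t ∈ Tp M B D p, Phi y Y h I r j p t := by
  classical
  calc ∑ c ∈ Ico 2 I, (1 - r) ^ 2 * r ^ c *
      max 0 ((D : ℝ) * (c - 1) * (Y.card - B * D - I * h) - j * (B * M) * A)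
      ≤ ∑ c ∈ Ico 2 I, (1 - r) ^ 2 * r ^ c *
        ∑ p ∈ Y, ∑ t ∈ Tp M B D p, ∑ i' ∈ Ico 1 c, lf y Y h j p t (c - i') i' := by
        apply sum_le_sum
        intro c hc
        rw [mem_Ico] at hc
        apply mul_le_mul_of_nonneg_left _ (by positivity)
        apply max_le
        · apply sum_nonneg; intro p _; apply sum_nonneg; intro t _; apply sum_nonneg; intro i' _
          exact lf_nonneg _ _ _ _ _
        · exact fixed_c hM hDM hh hy hY A hA j c hc.1 hc.2.le
    _ = ∑ p ∈ Y, ∑ t ∈ Tp M B D p, ∑ c ∈ Ico 2 I, (1 - r) ^ 2 * r ^ c *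
          ∑ i' ∈ Ico 1 c, lf y Y h j p t (c - i') i' := by
        simp only [mul_sum]
        rw [sum_comm]
        apply sum_congr rfl; intro p _
        rw [sum_comm]
    _ ≤ _ := by
        apply sum_le_sum; intro p _
        apply sum_le_sum; intro t _
        exact Phi_ge_diag hr0 hr1 j p t

end

end Pool.Agent.Hhelper51.Cat
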