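import Pool.Agent.Hhelper51.Cat.Core6

set_option autoImplicit false
set_option linter.unusedSectionVars false

namespace Pool.Agent.Hhelper51.Cat

open Finset

theorem geom_sum_id (r : ℝ) (E : ℕ) :
    (1 - r) ^ 2 * ∑ e ∈ range (E + 1), (e : ℝ) * r ^ e =
      r - (E + 1) * r ^ (E + 1) + E * r ^ (E + 2) := by
  induction E with
  | zero => simp
  | succ E ih =>
    rw [sum_range_succ, mul_add, ih]
    push_cast
    ring

theorem geom_sum_le {r : ℝ} (hr0 : 0 ≤ r) (hr1 : r ≤ 1) (E : ℕ) :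
    (1 - r) ^ 2 * ∑ e ∈ range (E + 1), (e : ℝ) * r ^ e ≤ r := by
  rw [geom_sum_id]
  have h1 : r ^ (E + 2) ≤ r ^ (E + 1) := pow_le_pow_of_le_one hr0 hr1 (by omega)
  have h2 : 0 ≤ r ^ (E + 1) := pow_nonneg hr0 _
  have h3 : (E : ℝ) * r ^ (E + 2) ≤ E * r ^ (E + 1) :=
    mul_le_mul_of_nonneg_left h1 (Nat.cast_nonneg _)
  nlinarith

theorem geom_sum_ge {r : ℝ} (hr0 : 0 ≤ r) (E : ℕ) :
    r * (1 - (E + 1) * r ^ E) ≤ (1 - r) ^ 2 * ∑ e ∈ range (E + 1), (e : ℝ) * r ^ e := by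
  rw [geom_sum_id]
  have h2 : 0 ≤ (E : ℝ) * r ^ (E + 2) := by positivity
  have h3 : r ^ (E + 1) = r * r ^ E := by ring
  rw [h3]
  nlinarith

theorem first_sum {r : ℝ} (hr0 : 0 ≤ r) (I J E : ℕ) (hI : J + 2 + E ≤ I) :
    r ^ (J + 2) * (1 - (E + 1) * r ^ E) ≤
      ∑ c ∈ Ico 2 I, (1 - r) ^ 2 * r ^ c * max 0 ((c : ℝ) - 1 - J) := by
  classical
  have h1 : r ^ (J + 1) * ((1 - r) ^ 2 * ∑ e ∈ range (E + 1), (e : ℝ) * r ^ e) ≤
      ∑ c ∈ Ico 2 I, (1 - r) ^ 2 * r ^ c * max 0 ((c : ℝ) - 1 - J) := by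
    rw [mul_sum, mul_sum]
    have h0 : ∑ e ∈ range (E + 1), r ^ (J + 1) * ((1 - r) ^ 2 * ((e : ℝ) * r ^ e)) =
        ∑ e ∈ Ico 1 (E + 1), r ^ (J + 1) * ((1 - r) ^ 2 * ((e : ℝ) * r ^ e)) := by
      rw [range_eq_Ico, sum_eq_sum_Ico_succ_bot (Nat.succ_pos E)]
      simp
    rw [h0]
    have h2 : ∑ e ∈ Ico 1 (E + 1), r ^ (J + 1) * ((1 - r) ^ 2 * ((e : ℝ) * r ^ e)) =
        ∑ c ∈ (Ico 1 (E + 1)).image (fun e => J + 1 + e),
          (1 - r) ^ 2 * r ^ c * max 0 ((c : ℝ) - 1 - J) := by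
      rw [sum_image (by intro a _ b _ hab; simp only at hab; omega)]
      apply sum_congr rfl
      intro e he
      have : ((J + 1 + e : ℕ) : ℝ) - 1 - J = e := by push_cast; ring
      rw [this, max_eq_right (Nat.cast_nonneg _), pow_add]
      ring
    rw [h2]
    apply sum_le_sum_of_subset_of_nonneg
    · intro c hc
      rw [mem_image] at hc
      obtain ⟨e, he, rfl⟩ := hc
      rw [mem_Ico] at he ⊢
      omega
    · intro c _ _; positivity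
  refine le_trans ?_ h1
  have h3 := geom_sum_ge hr0 E
  have h4 := mul_le_mul_of_nonneg_left h3 (pow_nonneg hr0 (J + 1))
  calc r ^ (J + 2) * (1 - (E + 1) * r ^ E) = r ^ (J + 1) * (r * (1 - (E + 1) * r ^ E)) := by ring
    _ ≤ _ := h4

theorem second_sum {r : ℝ} (hr0 : 0 ≤ r) (hr1 : r ≤ 1) (I : ℕ) :
    ∑ c ∈ Ico 2 I, (1 - r) ^ 2 * r ^ c * ((c : ℝ) - 1) ≤ 1 := by
  classical
  rcases le_or_gt I 2 with hI | hI
  · rw [Ico_eq_empty (by omega)]; simp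
  · obtain ⟨E, rfl⟩ : ∃ E, I = E + 2 := ⟨I - 2, by omega⟩
    have h1 : ∑ c ∈ Ico 2 (E + 2), (1 - r) ^ 2 * r ^ c * ((c : ℝ) - 1) ≤
        r * ((1 - r) ^ 2 * ∑ e ∈ range (E + 1), (e : ℝ) * r ^ e) := by
      rw [mul_sum, mul_sum, sum_Ico_eq_sum_range]
      have e1 : E + 2 - 2 = E := by omega
      rw [e1, sum_range_succ' (fun e => r * ((1 - r) ^ 2 * ((e : ℝ) * r ^ e)))]
      simp only [Nat.cast_zero, zero_mul, mul_zero, add_zero]
      apply sum_le_sum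
      intro e _
      push_cast
      have : r ^ (2 + e) = r * r ^ (e + 1) := by rw [← pow_succ']; congr 1; omega
      rw [this]
      apply le_of_eq; ring
    have h2 := geom_sum_le hr0 hr1 E
    have h3 : r * ((1 - r) ^ 2 * ∑ e ∈ range (E + 1), (e : ℝ) * r ^ e) ≤ 1 * 1 := by
      apply mul_le_mul hr1 (h2.trans hr1) _ zero_le_one
      apply mul_nonneg (sq_nonneg _)
      apply sum_nonneg; intro e _; positivity
    linarith

section

variable {Ω : Type} [Fintype Ω] [DecidableEq Ω] [Nonempty Ω]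
variable {y : ℕ → ℕ} {Y : Finset ℕ} {h M D I B : ℕ} {X : Ω → Finset ℕ}

/-- The expectation bound with concrete scales. -/
theorem Ex_cnt_scaled {N k₁ k₂ g₀ : ℕ} (hN : 0 < N) (hg : 0 < g₀) (hk1 : 1 ≤ k₁) (hk12 : k₁ ≤ k₂)
    (hk2 : 2 ≤ k₂)
    (hDN : D = 7 * N) (hMD : 2 * M = k₂ * D) (hBM : B * M = N ^ 2) (hhN : 7 * g₀ * h = N)
    (hI : 0 < I) (hy : Function.Injective y) (hyn : ∀ u < N ^ 2, y u < N ^ 2)
    (h1 : ∀ u < M, M * (univ.filter (fun ω => u ∈ X ω)).card = k₁ * Fintype.card Ω)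
    (h2 : ∀ u < M, ∀ v < M, u ≠ v →
        M * D * (univ.filter (fun ω => u ∈ X ω ∧ v ∈ X ω)).card ≤ 2 * k₁ ^ 2 * Fintype.card Ω)
    (eps : ℝ) (heps0 : 0 ≤ eps) (heps : eps ≤ 1)
    (h3 : ∀ p t : ℕ, p < t → t < M → t ≤ p + D →
        ((k₁ : ℝ) - 1) * (1 - eps) * Fintype.card Ω ≤
          M * D * (univ.filter (fun ω => p ∈ X ω ∧ t ∈ X ω ∧ ∀ u ∈ X ω, u ≤ p ∨ t ≤ u)).card)
    (hY : Y ⊆ range (B * M)) (j E : ℕ) (hE : j * g₀ + 2 + E ≤ I) (a1 η : ℝ) (ha1 : 0 ≤ a1)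
    (ham : ∀ p ∈ Y, ∀ b : ℕ, ((blk M (sup y Y h p I ∪ sdn y Y h p I) b).card : ℝ) ≤ a1 * N)
    (hη : (N : ℝ) ^ 2 * (1 - η) ≤ Y.card) (hIη : (I : ℝ) ≤ η * N) :
    (N : ℝ) * ((2 / 7) * (((k₁ : ℝ) - 1) / k₂) * (1 - eps) *
      (Real.exp (-(4 / 49 : ℝ)) ^ j * Real.exp (-(8 / (49 * g₀)) : ℝ) *
        (1 - (E + 1) * Real.exp (-(4 * k₁ / (49 * g₀ * k₂)) : ℝ) ^ E) - (2 * η + 2 / k₂)) -
      4 * (a1 * (I * (k₁ + 1) + 1)) * I ^ 2 - a1 * k₁) ≤
    Ex (fun ω : Fin B → Ω => (cnt y Y (Xg M B X ω) j : ℝ)) := by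
  classical
  have hNr : (0:ℝ) < N := by exact_mod_cast hN
  have hgr : (0:ℝ) < g₀ := by exact_mod_cast hg
  have hk2r : (0:ℝ) < k₂ := by exact_mod_cast (by omega : 0 < k₂)
  have hk1r : (1:ℝ) ≤ k₁ := by exact_mod_cast hk1
  have hk12r : (k₁:ℝ) ≤ k₂ := by exact_mod_cast hk12
  have hD0 : 0 < D := by omega
  have hM0 : 0 < M := by
    rcases Nat.eq_zero_or_pos M with hM | hM
    · rw [hM, mul_zero] at hBM
      have : 0 < N ^ 2 := by positivity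
      omega
    · exact hM
  have hh0 : 0 < h := by
    rcases Nat.eq_zero_or_pos h with hh | hh
    · rw [hh, mul_zero] at hhN; omega
    · exact hh
  have hDM : D ≤ M := by
    have : 2 * D ≤ k₂ * D := Nat.mul_le_mul_right _ hk2
    omega
  -- real versions
  have rD : (D : ℝ) = 7 * N := by rw [hDN]; push_cast; ring
  have rM : (M : ℝ) = 7 * k₂ * N / 2 := by
    have : (2 : ℝ) * M = k₂ * D := by exact_mod_cast hMD
    rw [rD] at this; linarith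
  have rBM : (B : ℝ) * M = N ^ 2 := by exact_mod_cast hBM
  have rh : (h : ℝ) = N / (7 * g₀) := by
    have : (7 : ℝ) * g₀ * h = N := by exact_mod_cast hhN
    field_simp; linarith
  have rB : (B : ℝ) = 2 * N / (7 * k₂) := by
    rw [rM] at rBM
    field_simp
    have : (B : ℝ) * (7 * k₂ * N / 2) / N = N ^ 2 / N := by rw [rBM]
    field_simp at this
    nlinarith
  set r : ℝ := Real.exp (-(2 * h * (k₁ / M : ℝ))) with hr
  have hr0 : 0 ≤ r := (Real.exp_pos _).le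
  have hr1 : r ≤ 1 := by
    rw [hr]; apply Real.exp_le_one_iff.mpr
    have : (0:ℝ) ≤ 2 * h * (k₁ / M : ℝ) := by positivity
    linarith
  have hrv : r = Real.exp (-(4 * k₁ / (49 * g₀ * k₂)) : ℝ) := by
    rw [hr, rh, rM]; congr 1; field_simp; ring
  have hYcard : (Y.card : ℝ) ≤ N ^ 2 := by
    have : Y.card ≤ B * M := by
      have := card_le_card hY; rwa [card_range] at this
    rw [← rBM]; exact_mod_cast this
  -- e3
  set e3 : ℝ := a1 * (I * (k₁ + 1) + 1) with he3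
  have hIr : (1:ℝ) ≤ I := by exact_mod_cast hI
  have hkk : (k₁ : ℝ) / k₂ ≤ 1 := by rw [div_le_one hk2r]; exact hk12r
  have he3' : (2 * k₁ ^ 2 / (M * D) + (k₁ / M : ℝ) ^ 2) * (a1 * N) * (4 * I * h) +
      (k₁ / M : ℝ) * (a1 * N) ≤ e3 := by
    have e1 : (2 * k₁ ^ 2 / (M * D) : ℝ) ≤ k₁ / N ^ 2 := by
      rw [rM, rD, div_le_div_iff₀ (by positivity) (by positivity)]
      have hkk2 : 2 * (k₁ : ℝ) ^ 2 ≤ k₁ * (49 / 2 * k₂) := by nlinarith
      calc 2 * (k₁:ℝ) ^ 2 * N ^ 2 ≤ (k₁ * (49 / 2 * k₂)) * (N:ℝ) ^ 2 := by gcongr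
        _ = _ := by ring
    have e2 : (k₁ / M : ℝ) ≤ 2 / (7 * N) := by
      rw [rM, div_le_div_iff₀ (by positivity) (by positivity)]
      nlinarith
    have e2' : (k₁ / M : ℝ) ^ 2 ≤ 1 / N ^ 2 := by
      have h0 : (0:ℝ) ≤ (k₁ / M : ℝ) := by positivity
      have h' : (k₁ / M : ℝ) ≤ 1 / N := by
        refine e2.trans ?_
        rw [div_le_div_iff₀ (by positivity) hNr]; linarith
      calc (k₁ / M : ℝ) ^ 2 ≤ ((1:ℝ) / (N:ℝ)) ^ 2 := by gcongr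
        _ = (1:ℝ) / (N:ℝ) ^ 2 := by rw [div_pow, one_pow]
    have e4 : (4 * I * h : ℝ) ≤ I * N := by
      rw [rh]
      have hg1 : (1:ℝ) ≤ g₀ := by exact_mod_cast hg
      rw [mul_div_assoc', div_le_iff₀ (by positivity)]
      have : (0:ℝ) ≤ I * N := by positivity
      nlinarith
    calc (2 * k₁ ^ 2 / (M * D) + (k₁ / M : ℝ) ^ 2) * (a1 * N) * (4 * I * h) +
          (k₁ / M : ℝ) * (a1 * N)
        ≤ (k₁ / N ^ 2 + 1 / N ^ 2) * (a1 * N) * (I * N) + (2 / (7 * N)) * (a1 * N) := by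
          gcongr
      _ = a1 * (I * (k₁ + 1) + 2 / 7) := by field_simp
      _ ≤ e3 := by rw [he3]; gcongr; norm_num
  have hmain := Ex_cnt_ge (y := y) (Y := Y) (h := h) (M := M) (D := D) (k := k₁) (I := I) (B := B)
    (X := X) hM0 hD0 hI hy h1 h2 eps heps hk1 h3 hY j (a1 * N) e3 ham he3'
  refine le_trans ?_ hmain
  -- rows
  have hA : ∀ u ∈ Y, y u / h < 7 * g₀ * N := by
    intro u hu
    have hu' : u < N ^ 2 := by rw [← hBM]; exact mem_range.mp (hY hu)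
    rw [Nat.div_lt_iff_lt_mul hh0]
    calc y u < N ^ 2 := hyn u hu'
      _ = 7 * g₀ * N * h := by
        calc N ^ 2 = N * N := by ring
          _ = (7 * g₀ * h) * N := by rw [hhN]
          _ = _ := by ring
  have hPhi := sum_Phi_ge (y := y) (Y := Y) (h := h) (M := M) (D := D) (I := I) (B := B)
    hM0 hDM hh0 hy hY (7 * g₀ * N) hA j hr0 hr1
  -- lower bound of the bracket
  have hbr : ∀ c ∈ Ico 2 I, (7 * (N:ℝ) ^ 3) * ((1 - r) ^ 2 * r ^ c * max 0 ((c : ℝ) - 1 - (j * g₀ : ℕ)) -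
      (2 * η + 2 / k₂) * ((1 - r) ^ 2 * r ^ c * ((c : ℝ) - 1))) ≤
      (1 - r) ^ 2 * r ^ c *
      max 0 ((D : ℝ) * (c - 1) * (Y.card - B * D - I * h) - j * (B * M) * (7 * g₀ * N : ℕ)) := by
    intro c hc
    rw [mem_Ico] at hc
    have hc1 : (1:ℝ) ≤ (c:ℝ) - 1 := by
      have : (2:ℝ) ≤ c := by exact_mod_cast hc.1
      linarith
    have hw : 0 ≤ (1 - r) ^ 2 * r ^ c := by positivity
    have hYlow : (N:ℝ) ^ 2 * (1 - (2 * η + 2 / k₂)) ≤ Y.card - B * D - I * h := by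
      have b1 : (B : ℝ) * D = N ^ 2 * (2 / k₂) := by rw [rB, rD]; field_simp
      have b2 : (I : ℝ) * h ≤ N ^ 2 * η := by
        rw [rh]
        have hg1 : (1:ℝ) ≤ g₀ := by exact_mod_cast hg
        calc (I : ℝ) * (N / (7 * g₀)) ≤ I * N := by
              apply mul_le_mul_of_nonneg_left _ (by linarith)
              rw [div_le_iff₀ (by positivity)]
              nlinarith
          _ ≤ (η * N) * N := by gcongr
          _ = N ^ 2 * η := by ring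
      rw [b1]; nlinarith
    have hlow : (7 * (N:ℝ) ^ 3) * (((c : ℝ) - 1 - (j * g₀ : ℕ)) - (2 * η + 2 / k₂) * ((c:ℝ) - 1)) ≤
        (D : ℝ) * (c - 1) * (Y.card - B * D - I * h) - j * (B * M) * (7 * g₀ * N : ℕ) := by
      rw [rD, rBM]
      push_cast
      have := mul_le_mul_of_nonneg_left hYlow (by positivity : (0:ℝ) ≤ 7 * N * ((c:ℝ) - 1))
      have e0 : (D:ℝ) = 7 * N := rD
      rw [← e0] at this ⊢
      have e5 : (D:ℝ) * ((c:ℝ) - 1) * (N ^ 2 * (1 - (2 * η + 2 / k₂))) =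
        7 * N ^ 3 * (((c:ℝ) - 1) - (2 * η + 2 / k₂) * ((c:ℝ) - 1)) := by rw [e0]; ring
      rw [e5] at this
      nlinarith
    have hη0 : 0 ≤ η := by
      have : 0 ≤ η * N := le_trans (by positivity) hIη
      by_contra hneg
      push Not at hneg
      nlinarith
    have hmax : (7 * (N:ℝ) ^ 3) * (max 0 ((c : ℝ) - 1 - (j * g₀ : ℕ)) - (2 * η + 2 / k₂) * ((c:ℝ) - 1)) ≤
        max 0 ((D : ℝ) * (c - 1) * (Y.card - B * D - I * h) - j * (B * M) * (7 * g₀ * N : ℕ)) := by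
      rcases le_total ((c : ℝ) - 1 - (j * g₀ : ℕ)) 0 with hneg | hpos
      · rw [max_eq_left hneg]
        apply le_max_of_le_left
        have : 0 ≤ (2 * η + 2 / k₂) * ((c:ℝ) - 1) := by positivity
        have h7 : (0:ℝ) ≤ 7 * N ^ 3 := by positivity
        nlinarith
      · rw [max_eq_right hpos]
        exact le_max_of_le_right hlow
    have := mul_le_mul_of_nonneg_left hmax hw
    calc _ = (1 - r) ^ 2 * r ^ c * ((7 * (N:ℝ) ^ 3) * (max 0 ((c : ℝ) - 1 - (j * g₀ : ℕ)) -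
          (2 * η + 2 / k₂) * ((c:ℝ) - 1))) := by ring
      _ ≤ _ := this
  have hsum := (sum_le_sum hbr).trans hPhi
  rw [← mul_sum, sum_sub_distrib, ← mul_sum] at hsum
  have hf := first_sum hr0 I (j * g₀) E hE
  have hs := second_sum hr0 hr1 I
  have hη0 : 0 ≤ η := by
    have : 0 ≤ η * N := le_trans (by positivity) hIη
    by_contra hneg
    push Not at hneg
    nlinarith
  have hη' : 0 ≤ 2 * η + 2 / (k₂:ℝ) := by positivity
  have hs' := mul_le_mul_of_nonneg_left hs hη'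
  have hX : 7 * (N:ℝ) ^ 3 * (r ^ (j * g₀ + 2) * (1 - (E + 1) * r ^ E) - (2 * η + 2 / k₂)) ≤
      ∑ p ∈ Y, ∑ t ∈ Tp M B D p, Phi y Y h I r j p t := by
    refine le_trans ?_ hsum
    apply mul_le_mul_of_nonneg_left _ (by positivity)
    linarith
  -- r powers
  have hq : Real.exp (-(4 / 49 : ℝ)) ^ j * Real.exp (-(8 / (49 * g₀)) : ℝ) ≤ r ^ (j * g₀ + 2) := by
    rw [hrv, ← Real.exp_nat_mul, ← Real.exp_nat_mul, ← Real.exp_add]
    apply Real.exp_le_exp.mpr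
    push_cast
    have e1 : (4 * (k₁:ℝ) / (49 * g₀ * k₂)) ≤ 4 / (49 * g₀) := by
      rw [div_le_div_iff₀ (by positivity) (by positivity)]
      nlinarith [mul_pos hgr hk2r]
    have e2 : ((j:ℝ) * g₀ + 2) * (4 * (k₁:ℝ) / (49 * g₀ * k₂)) ≤
        ((j:ℝ) * g₀ + 2) * (4 / (49 * g₀)) := by gcongr
    have e3 : ((j:ℝ) * g₀ + 2) * (4 / (49 * g₀)) = j * (4/49) + 8 / (49 * g₀) := by
      field_simp; ring
    linarith
  have hw0 : (0:ℝ) ≤ ((k₁ : ℝ) - 1) * (1 - eps) / (M * D) := by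
    apply div_nonneg _ (by positivity)
    apply mul_nonneg <;> linarith
  have hcoef : ((k₁ : ℝ) - 1) * (1 - eps) / (M * D) * (7 * (N:ℝ) ^ 3) =
      N * ((2 / 7) * (((k₁ : ℝ) - 1) / k₂) * (1 - eps)) := by
    rw [rM, rD]; field_simp
  have hX2 := mul_le_mul_of_nonneg_left hX hw0
  rw [← mul_assoc, hcoef] at hX2
  have hcoef0 : (0:ℝ) ≤ N * ((2 / 7) * (((k₁ : ℝ) - 1) / k₂) * (1 - eps)) := by
    rw [← hcoef]; positivity
  -- replace r^... by the exponentials, when the tail factor is nonneg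
  have hX3 : N * ((2 / 7) * (((k₁ : ℝ) - 1) / k₂) * (1 - eps)) *
      (Real.exp (-(4 / 49 : ℝ)) ^ j * Real.exp (-(8 / (49 * g₀)) : ℝ) *
        (1 - (E + 1) * r ^ E) - (2 * η + 2 / k₂)) ≤
      ((k₁ : ℝ) - 1) * (1 - eps) / (M * D) *
        ∑ p ∈ Y, ∑ t ∈ Tp M B D p, Phi y Y h I r j p t := by
    rcases le_total (1 - (E + 1) * r ^ E) 0 with hneg | hpos
    · have hnn : 0 ≤ ((k₁ : ℝ) - 1) * (1 - eps) / (M * D) *
          ∑ p ∈ Y, ∑ t ∈ Tp M B D p, Phi y Y h I r j p t := by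
        apply mul_nonneg hw0
        apply sum_nonneg; intro p _; apply sum_nonneg; intro t _
        unfold Phi
        apply sum_nonneg; intro i _
        apply sum_nonneg; intro i' _
        apply mul_nonneg (mul_nonneg _ _) (lf_nonneg _ _ _ _ _)
        · linarith [eg_anti hr0 hr1 I i]
        · linarith [eg_anti hr0 hr1 I i']
      refine le_trans ?_ hnn
      apply mul_nonpos_of_nonneg_of_nonpos hcoef0
      have : Real.exp (-(4 / 49 : ℝ)) ^ j * Real.exp (-(8 / (49 * g₀)) : ℝ) *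
        (1 - (E + 1) * r ^ E) ≤ 0 := mul_nonpos_of_nonneg_of_nonpos (by positivity) hneg
      linarith
    · refine le_trans ?_ hX2
      apply mul_le_mul_of_nonneg_left _ hcoef0
      have := mul_le_mul_of_nonneg_right hq hpos
      linarith
  -- error terms
  have he30 : 0 ≤ e3 := by rw [he3]; positivity
  have herr1 : 4 * e3 * (I:ℝ) ^ 2 * (Y.card * (k₁ / M : ℝ)) ≤ N * (4 * e3 * I ^ 2) := by
    have : (Y.card : ℝ) * (k₁ / M : ℝ) ≤ N := by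
      calc (Y.card : ℝ) * (k₁ / M : ℝ) ≤ N ^ 2 * (k₁ / M : ℝ) := by gcongr
        _ = (2 / 7) * (k₁ / k₂) * N := by rw [rM]; field_simp
        _ ≤ N := by nlinarith
    calc 4 * e3 * (I:ℝ) ^ 2 * (Y.card * (k₁ / M : ℝ)) ≤ 4 * e3 * (I:ℝ) ^ 2 * N := by gcongr
      _ = _ := by ring
  have herr2 : (Y.card : ℝ) * (a1 * N * (2 * k₁ ^ 2 / (M * D))) ≤ N * (a1 * k₁) := by
    have e1 : (2 * k₁ ^ 2 / (M * D) : ℝ) ≤ k₁ / N ^ 2 := by
      rw [rM, rD, div_le_div_iff₀ (by positivity) (by positivity)]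
      have hkk2 : 2 * (k₁ : ℝ) ^ 2 ≤ k₁ * (49 / 2 * k₂) := by nlinarith
      calc 2 * (k₁:ℝ) ^ 2 * N ^ 2 ≤ (k₁ * (49 / 2 * k₂)) * (N:ℝ) ^ 2 := by gcongr
        _ = _ := by ring
    calc (Y.card : ℝ) * (a1 * N * (2 * k₁ ^ 2 / (M * D))) ≤ N ^ 2 * (a1 * N * (k₁ / N ^ 2)) := by
          gcongr
      _ = _ := by field_simp
  rw [← hrv]
  have hfinal : (N : ℝ) * ((2 / 7) * (((k₁ : ℝ) - 1) / k₂) * (1 - eps) *
      (Real.exp (-(4 / 49 : ℝ)) ^ j * Real.exp (-(8 / (49 * g₀)) : ℝ) *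
        (1 - (E + 1) * r ^ E) - (2 * η + 2 / k₂)) - 4 * e3 * I ^ 2 - a1 * k₁) =
      N * ((2 / 7) * (((k₁ : ℝ) - 1) / k₂) * (1 - eps)) *
      (Real.exp (-(4 / 49 : ℝ)) ^ j * Real.exp (-(8 / (49 * g₀)) : ℝ) *
        (1 - (E + 1) * r ^ E) - (2 * η + 2 / k₂)) - N * (4 * e3 * I ^ 2) - N * (a1 * k₁) := by ring
  rw [hfinal]
  linarith

end

end Pool.Agent.Hhelper51.Cat
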