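import Pool.Agent.Hhelper51.Cat.Box

set_option autoImplicit false
set_option linter.all false

namespace Pool.Agent.Hhelper51.Cat

open Finset

/-- points of `A` in the cell (column `α`, row `β`) of the grid of mesh `w` -/
def cell (y : ℕ → ℕ) (w : ℕ) (A : Finset ℕ) (α β : ℕ) : Finset ℕ :=
  A.filter (fun u => u / w = α ∧ y u / w = β)

private theorem heavy_aux (n w m : ℕ) (y : ℕ → ℕ) (s : ℕ) :
    (∃ α β : Fin s → ℕ, Function.Injective α ∧ Function.Injective β ∧
      ∀ i, m ≤ (cell y w (range n) (α i) (β i)).card) ∨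
    (∃ t < s, ∃ α β : Fin t → ℕ, ∀ a b, m ≤ (cell y w (range n) a b).card →
      (∃ i, a = α i) ∨ (∃ i, b = β i)) := by
  induction s with
  | zero =>
    left
    exact ⟨fun i => i, fun i => i, fun i => i.elim0, fun i => i.elim0, fun i => i.elim0⟩
  | succ s ih =>
    rcases ih with ⟨α, β, hα, hβ, h⟩ | ⟨t, ht, α, β, h⟩
    · by_cases hex : ∃ a b, m ≤ (cell y w (range n) a b).card ∧ (∀ i, a ≠ α i) ∧ (∀ i, b ≠ β i)
      · obtain ⟨a, b, hab, ha, hb⟩ := hex
        left
        refine ⟨Fin.cons a α, Fin.cons b β, ?_, ?_, ?_⟩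
        · rw [Fin.cons_injective_iff]
          exact ⟨fun ⟨i, hi⟩ => ha i hi.symm, hα⟩
        · rw [Fin.cons_injective_iff]
          exact ⟨fun ⟨i, hi⟩ => hb i hi.symm, hβ⟩
        · intro i
          refine Fin.cases ?_ (fun j => ?_) i
          · simpa using hab
          · simpa using h j
      · right
        refine ⟨s, Nat.lt_succ_self s, α, β, ?_⟩
        intro a b hab
        by_contra hc
        rw [not_or] at hc
        apply hex
        exact ⟨a, b, hab, fun i hi => hc.1 ⟨i, hi⟩, fun i hi => hc.2 ⟨i, hi⟩⟩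
    · right
      exact ⟨t, ht.trans (Nat.lt_succ_self s), α, β, h⟩

private theorem strip_card (w : ℕ) (hw : 0 < w) (f : ℕ → ℕ) (hf : Function.Injective f) (n a : ℕ) :
    ((range n).filter (fun u => f u / w = a)).card ≤ w := by
  have h1 : ((range n).filter (fun u => f u / w = a)).image f ⊆ Ico (a * w) (a * w + w) := by
    intro x hx
    obtain ⟨u, hu, rfl⟩ := mem_image.1 hx
    rw [mem_filter] at hu
    rw [mem_Ico]
    have h2 := Nat.div_add_mod (f u) w
    have h3 := Nat.mod_lt (f u) hw
    rw [hu.2] at h2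
    rw [mul_comm a w]
    omega
  rw [← card_image_of_injective _ hf]
  refine (card_le_card h1).trans ?_
  simp

/-- Either there are `s` cells in distinct rows and distinct columns with at least `m` points each,
or after deleting at most `2 s w` points all cells have fewer than `m` points. -/
theorem heavy_dichotomy (n w s m : ℕ) (hw : 0 < w) (y : ℕ → ℕ) (hy : Function.Injective y)
    (hyn : ∀ u < n, y u < n) :
    (∃ α β : Fin s → ℕ, Function.Injective α ∧ Function.Injective β ∧
      ∀ i, m ≤ (cell y w (range n) (α i) (β i)).card) ∨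
    (∃ Y : Finset ℕ, Y ⊆ range n ∧ n ≤ Y.card + 2 * s * w ∧ ∀ α β, (cell y w Y α β).card < m) := by
  classical
  rcases Nat.eq_zero_or_pos m with rfl | hm
  · left
    exact ⟨fun i => i, fun i => i, fun i j h => Fin.ext h, fun i j h => Fin.ext h,
      fun i => Nat.zero_le _⟩
  rcases heavy_aux n w m y s with h | ⟨t, ht, α, β, h⟩
  · exact Or.inl h
  right
  set Y : Finset ℕ := (range n).filter (fun u => (∀ i, u / w ≠ α i) ∧ (∀ i, y u / w ≠ β i)) with hY
  refine ⟨Y, filter_subset _ _, ?_, ?_⟩
  · have hsub : range n ⊆ Y ∪ ((univ : Finset (Fin t)).biUnion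
        (fun i => (range n).filter (fun u => u / w = α i)) ∪
        (univ : Finset (Fin t)).biUnion (fun i => (range n).filter (fun u => y u / w = β i))) := by
      intro u hu
      by_cases h1 : ∃ i, u / w = α i
      · obtain ⟨i, hi⟩ := h1
        refine mem_union_right _ (mem_union_left _ (mem_biUnion.2 ⟨i, mem_univ _, ?_⟩))
        exact mem_filter.2 ⟨hu, hi⟩
      · by_cases h2 : ∃ i, y u / w = β i
        · obtain ⟨i, hi⟩ := h2
          refine mem_union_right _ (mem_union_right _ (mem_biUnion.2 ⟨i, mem_univ _, ?_⟩))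
          exact mem_filter.2 ⟨hu, hi⟩
        · refine mem_union_left _ (mem_filter.2 ⟨hu, ?_, ?_⟩)
          · exact fun i hi => h1 ⟨i, hi⟩
          · exact fun i hi => h2 ⟨i, hi⟩
    have hc := card_le_card hsub
    rw [card_range] at hc
    have hc1 : ((univ : Finset (Fin t)).biUnion
        (fun i => (range n).filter (fun u => u / w = α i))).card ≤ t * w := by
      refine card_biUnion_le.trans ?_
      refine (sum_le_card_nsmul _ _ w fun i _ => ?_).trans ?_
      · exact strip_card w hw id Function.injective_id n (α i)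
      · simp
    have hc2 : ((univ : Finset (Fin t)).biUnion
        (fun i => (range n).filter (fun u => y u / w = β i))).card ≤ t * w := by
      refine card_biUnion_le.trans ?_
      refine (sum_le_card_nsmul _ _ w fun i _ => ?_).trans ?_
      · exact strip_card w hw y hy n (β i)
      · simp
    have hu1 := card_union_le Y ((univ : Finset (Fin t)).biUnion
        (fun i => (range n).filter (fun u => u / w = α i)) ∪
        (univ : Finset (Fin t)).biUnion (fun i => (range n).filter (fun u => y u / w = β i)))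
    have hu2 := card_union_le ((univ : Finset (Fin t)).biUnion
        (fun i => (range n).filter (fun u => u / w = α i)))
        ((univ : Finset (Fin t)).biUnion (fun i => (range n).filter (fun u => y u / w = β i)))
    have hts : t * w ≤ s * w := Nat.mul_le_mul_right w ht.le
    have h2 : 2 * s * w = s * w + s * w := by ring
    rw [h2]
    omega
  · intro a b
    by_contra hc
    rw [not_lt] at hc
    have hpos : 0 < (cell y w Y a b).card := lt_of_lt_of_le hm hc
    obtain ⟨u, hu⟩ := card_pos.1 hpos
    have hu' := mem_filter.1 hu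
    have huY := mem_filter.1 hu'.1
    have hle : (cell y w Y a b).card ≤ (cell y w (range n) a b).card :=
      card_le_card (filter_subset_filter _ (filter_subset _ _))
    rcases h a b (hc.trans hle) with ⟨i, hi⟩ | ⟨i, hi⟩
    · exact huY.2.1 i (hu'.2.1.trans hi)
    · exact huY.2.2 i (hu'.2.2.trans hi)

/-- One pair in each of the cells. -/
theorem heavy_count {n : ℕ} (σ : Equiv.Perm (Fin n)) (y : ℕ → ℕ) (hy : ∀ i : Fin n, y i = σ i)
    (w s m : ℕ) (hw : 0 < w) (α β : Fin s → ℕ) (hα : Function.Injective α)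
    (hβ : Function.Injective β) (hc : ∀ i, m ≤ (cell y w (range n) (α i) (β i)).card) :
    (m.choose 2) ^ s ≤ (pairFam σ s).card := by
  classical
  let Q : Fin s → Finset (Fin n × Fin n) := fun i => univ.filter (fun e : Fin n × Fin n =>
    e.1 < e.2 ∧ ((e.1 : ℕ) / w = α i ∧ y e.1 / w = β i) ∧ ((e.2 : ℕ) / w = α i ∧ y e.2 / w = β i))
  have hQ : ∀ i e, e ∈ Q i ↔ e.1 < e.2 ∧ ((e.1 : ℕ) / w = α i ∧ y e.1 / w = β i) ∧
      ((e.2 : ℕ) / w = α i ∧ y e.2 / w = β i) := by
    intro i e
    simp [Q]
  have hQc : ∀ i, m.choose 2 ≤ (Q i).card := by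
    intro i
    refine (Nat.choose_le_choose 2 (hc i)).trans ?_
    rw [← card_powersetCard]
    refine card_le_card_of_surjOn (fun e : Fin n × Fin n => ({(e.1 : ℕ), (e.2 : ℕ)} : Finset ℕ)) ?_
    intro T hT
    have hT' := mem_powersetCard.1 (mem_coe.1 hT)
    obtain ⟨a, b, hab, rfl⟩ := card_eq_two.1 hT'.2
    have ha := mem_filter.1 (hT'.1 (mem_insert_self a {b}))
    have hb := mem_filter.1 (hT'.1 (mem_insert_of_mem (mem_singleton_self b)))
    have han : a < n := mem_range.1 ha.1
    have hbn : b < n := mem_range.1 hb.1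
    rcases lt_or_gt_of_ne hab with h | h
    · refine ⟨(⟨a, han⟩, ⟨b, hbn⟩), ?_, rfl⟩
      rw [mem_coe, hQ]
      exact ⟨h, ha.2, hb.2⟩
    · refine ⟨(⟨b, hbn⟩, ⟨a, han⟩), ?_, ?_⟩
      · rw [mem_coe, hQ]
        exact ⟨h, hb.2, ha.2⟩
      · exact pair_comm b a
  have hpow : (m.choose 2) ^ s ≤ (Fintype.piFinset Q).card := by
    rw [Fintype.card_piFinset]
    calc (m.choose 2) ^ s = ∏ _i : Fin s, m.choose 2 := by simp
      _ ≤ ∏ i, (Q i).card := Finset.prod_le_prod' fun i _ => hQc i
  refine hpow.trans ?_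
  have hdivlt : ∀ a b : ℕ, a / w < b / w → a < b := by
    intro a b h
    by_contra hcon
    rw [not_lt] at hcon
    exact absurd (Nat.div_le_div_right (c := w) hcon) (not_le.2 h)
  refine card_le_card_of_injOn (fun f => univ.image f) ?_ ?_
  · intro f hf
    have hf' : ∀ i, f i ∈ Q i := by simpa using hf
    have hinj : Function.Injective f := by
      intro i j hij
      have h1 := ((hQ i _).1 (hf' i)).2.1.1
      have h2 := ((hQ j _).1 (hf' j)).2.1.1
      rw [hij] at h1
      exact hα (h1.symm.trans h2)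
    have hmem : (univ.image f) ∈ pairFam σ s := by
      unfold pairFam
      rw [mem_filter]
      refine ⟨mem_univ _, ?_, ?_, ?_⟩
      · rw [card_image_of_injective _ hinj]
        simp
      · intro e he
        obtain ⟨i, -, rfl⟩ := mem_image.1 he
        exact ((hQ i _).1 (hf' i)).1
      · intro e he g hg hne
        obtain ⟨i, -, rfl⟩ := mem_image.1 he
        obtain ⟨k, -, rfl⟩ := mem_image.1 hg
        have hik : i ≠ k := fun h => hne (by rw [h])
        obtain ⟨-, ⟨a1, a2⟩, a3, a4⟩ := (hQ i _).1 (hf' i)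
        obtain ⟨-, ⟨b1, b2⟩, b3, b4⟩ := (hQ k _).1 (hf' k)
        rw [hy] at a2 a4 b2 b4
        have hαik : α i ≠ α k := fun h => hik (hα h)
        have hβik : β i ≠ β k := fun h => hik (hβ h)
        constructor
        · rcases lt_or_gt_of_ne hαik with h | h
          · left
            exact hdivlt _ _ (by rw [a3, b1]; exact h)
          · right
            exact hdivlt _ _ (by rw [a1, b3]; exact h)
        · rcases lt_or_gt_of_ne hβik with h | h
          · left
            rw [max_lt_iff, lt_min_iff, lt_min_iff]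
            exact ⟨⟨hdivlt _ _ (by rw [a2, b2]; exact h), hdivlt _ _ (by rw [a2, b4]; exact h)⟩,
              ⟨hdivlt _ _ (by rw [a4, b2]; exact h), hdivlt _ _ (by rw [a4, b4]; exact h)⟩⟩
          · right
            rw [max_lt_iff, lt_min_iff, lt_min_iff]
            exact ⟨⟨hdivlt _ _ (by rw [a2, b2]; exact h), hdivlt _ _ (by rw [a4, b2]; exact h)⟩,
              ⟨hdivlt _ _ (by rw [a2, b4]; exact h), hdivlt _ _ (by rw [a4, b4]; exact h)⟩⟩
    exact hmem
  · intro f hf g hg hfg
    have hf' : ∀ i, f i ∈ Q i := by simpa using hf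
    have hg' : ∀ i, g i ∈ Q i := by simpa using hg
    funext i
    have h1 : f i ∈ (univ.image g : Finset (Fin n × Fin n)) := by
      have h2 : (univ.image f : Finset (Fin n × Fin n)) = univ.image g := hfg
      rw [← h2]
      exact mem_image_of_mem f (mem_univ i)
    obtain ⟨k, -, hk⟩ := mem_image.1 h1
    have h2 := ((hQ i _).1 (hf' i)).2.1.1
    have h3 := ((hQ k _).1 (hg' k)).2.1.1
    rw [hk] at h3
    have h4 : k = i := hα (h3.symm.trans h2)
    rw [← h4, hk, h4]

end Pool.Agent.Hhelper51.Cat
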