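import Pool.Agent.Hhelper51.Cat.Core7
import Pool.Agent.Hhelper51.Cat.Conc
import Pool.Agent.Hhelper51.Cat.Heavy

set_option autoImplicit false
set_option linter.unusedSectionVars false

namespace Pool.Agent.Hhelper51.Cat

open Finset

theorem blk_card_le {y : ℕ → ℕ} {Y : Finset ℕ} {w m M h I : ℕ} (hw : 0 < w) (hM : 0 < M)
    (hcell : ∀ α β, (cell y w Y α β).card < m) (p b : ℕ) :
    (blk M (sup y Y h p I ∪ sdn y Y h p I) b).card ≤ (M / w + 2) * (4 * I * h / w + 2) * m := by
  classical
  set CA := Icc (b * M / w) ((b * M + M) / w) with hCA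
  set CB := Icc ((y p - 2 * I * h) / w) ((y p + 2 * I * h) / w) with hCB
  have hsub : blk M (sup y Y h p I ∪ sdn y Y h p I) b ⊆
      (CA ×ˢ CB).biUnion (fun z => cell y w Y z.1 z.2) := by
    intro u hu
    simp only [blk, mem_filter, mem_union, sup, sdn] at hu
    obtain ⟨hu1, hu2⟩ := hu
    have huY : u ∈ Y := by
      rcases hu1 with h' | h'
      · exact h'.1
      · exact h'.1
    have hy1 : y p - 2 * I * h ≤ y u ∧ y u ≤ y p + 2 * I * h := by
      rcases hu1 with h' | h'
      · constructor <;> omega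
      · constructor <;> omega
    have e0 := Nat.div_add_mod u M
    have e1 := Nat.mod_lt u hM
    rw [hu2] at e0
    have hux : b * M ≤ u ∧ u ≤ b * M + M := by
      have : M * b = b * M := mul_comm _ _
      constructor <;> omega
    rw [mem_biUnion]
    refine ⟨(u / w, y u / w), ?_, ?_⟩
    · rw [mem_product, hCA, hCB, mem_Icc, mem_Icc]
      exact ⟨⟨Nat.div_le_div_right hux.1, Nat.div_le_div_right hux.2⟩,
        ⟨Nat.div_le_div_right hy1.1, Nat.div_le_div_right hy1.2⟩⟩
    · simp only [cell, mem_filter]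
      exact ⟨huY, trivial, trivial⟩
  have hadd : ∀ a c : ℕ, (a + c) / w ≤ a / w + c / w + 1 := by
    intro a c
    have e1 := Nat.div_add_mod a w
    have e2 := Nat.div_add_mod c w
    have e3 := Nat.mod_lt a hw
    have e4 := Nat.mod_lt c hw
    apply Nat.le_of_lt_succ
    rw [Nat.div_lt_iff_lt_mul hw]
    have : (a / w + c / w + 1).succ * w = w * (a / w) + w * (c / w) + w + w := by
      rw [Nat.succ_eq_add_one]; ring
    rw [this]
    omega
  have hcA : CA.card ≤ M / w + 2 := by
    rw [hCA, Nat.card_Icc]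
    have := hadd (b * M) M
    generalize (b * M + M) / w = A1 at this ⊢
    generalize b * M / w = A2 at this ⊢
    generalize M / w = A3 at this ⊢
    omega
  have hcB : CB.card ≤ 4 * I * h / w + 2 := by
    rw [hCB, Nat.card_Icc]
    have h1 : (y p + 2 * I * h) / w ≤ ((y p - 2 * I * h) + 4 * I * h) / w := by
      apply Nat.div_le_div_right
      have : 4 * I * h = 2 * I * h + 2 * I * h := by ring
      omega
    have := hadd (y p - 2 * I * h) (4 * I * h)
    generalize (y p - 2 * I * h + 4 * I * h) / w = A0 at this h1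
    generalize (y p + 2 * I * h) / w = A1 at this h1 ⊢
    generalize (y p - 2 * I * h) / w = A2 at this h1 ⊢
    generalize 4 * I * h / w = A3 at this h1 ⊢
    omega
  calc (blk M (sup y Y h p I ∪ sdn y Y h p I) b).card
      ≤ ((CA ×ˢ CB).biUnion (fun z => cell y w Y z.1 z.2)).card := card_le_card hsub
    _ ≤ (CA ×ˢ CB).card * m := card_biUnion_le_card_mul _ _ _ (fun z _ => (hcell z.1 z.2).le)
    _ = CA.card * CB.card * m := by rw [card_product]
    _ ≤ _ := by gcongr

section

variable {Ω : Type} [Fintype Ω] [DecidableEq Ω] [Nonempty Ω]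

theorem Xg_card {M B k : ℕ} (hM : 0 < M) (X : Ω → Finset ℕ)
    (hX : ∀ ω, X ω ⊆ range M ∧ (X ω).card = k) (ω : Fin B → Ω) :
    (Xg M B X ω).card = B * k := by
  classical
  have h1 : (Xg M B X ω).card = ∑ b : Fin B, ((Xg M B X ω).filter (fun u => u / M = b)).card := by
    have := card_eq_sum_card_fiberwise (s := Xg M B X ω) (t := range B) (f := fun u => u / M) (by
      intro u hu
      simp only [Xg, coe_filter, Set.mem_ofPred_eq] at hu
      simp only [coe_range, Set.mem_Iio]
      exact hu.2.1)
    rw [this, ← Fin.sum_univ_eq_sum_range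
      (fun b => ((Xg M B X ω).filter (fun u => u / M = b)).card) B]
  rw [h1]
  have h2 : ∀ b : Fin B, ((Xg M B X ω).filter (fun u => u / M = b)).card = k := by
    intro b
    rw [← (hX (ω b)).2]
    apply card_bij (fun u _ => u % M)
    · intro u hu
      rw [mem_filter] at hu
      have hlt : u < B * M := by
        have := hu.1; simp only [Xg, mem_filter, mem_range] at this; exact this.1
      exact (mem_Xg_iff hlt b hu.2).mp hu.1
    · intro u hu v hv huv
      rw [mem_filter] at hu hv
      have e1 := Nat.div_add_mod u M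
      have e2 := Nat.div_add_mod v M
      rw [← e1, ← e2, hu.2, hv.2, huv]
    · intro v hv
      have hvM : v < M := mem_range.mp ((hX (ω b)).1 hv)
      refine ⟨b * M + v, ?_, ?_⟩
      · have hdiv : (b * M + v) / M = b := by
          rw [Nat.add_comm, Nat.add_mul_div_right _ _ hM, Nat.div_eq_of_lt hvM]; simp
        have hmod : (b * M + v) % M = v := by
          rw [Nat.add_comm, Nat.add_mul_mod_self_right, Nat.mod_eq_of_lt hvM]
        rw [mem_filter]
        refine ⟨?_, hdiv⟩
        have hlt : (b : ℕ) * M + v < B * M := by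
          have : ((b : ℕ) + 1) * M ≤ B * M := Nat.mul_le_mul_right _ b.2
          have e : ((b : ℕ) + 1) * M = b * M + M := by ring
          omega
        rw [mem_Xg_iff hlt b hdiv, hmod]; exact hv
      · rw [Nat.add_comm, Nat.add_mul_mod_self_right, Nat.mod_eq_of_lt hvM]
  rw [sum_congr rfl (fun b _ => h2 b), sum_const, card_univ, Fintype.card_fin, smul_eq_mul]

theorem Xg_subset {M B : ℕ} (X : Ω → Finset ℕ) (ω : Fin B → Ω) : Xg M B X ω ⊆ range (B * M) :=
  filter_subset _ _

/-- multiplicity -/
theorem Xg_mult {M B k : ℕ} (hM : 0 < M) (X : Ω → Finset ℕ)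
    (hX : ∀ ω, X ω ⊆ range M ∧ (X ω).card = k)
    (hk : ∀ S : Finset ℕ, (univ.filter (fun ω => X ω = S)).card ≤ k) (S : Finset ℕ) :
    (univ.filter (fun ω : Fin B → Ω => Xg M B X ω = S)).card ≤ k ^ B := by
  classical
  set Sb : Fin B → Finset ℕ := fun b => (S.filter (fun u => u / M = b)).image (fun u => u % M)
    with hSb
  have hsub : univ.filter (fun ω : Fin B → Ω => Xg M B X ω = S) ⊆
      univ.filter (fun ω : Fin B → Ω => ∀ b : Fin B, ω b ∈ univ.filter (fun x => X x = Sb b)) := by
    intro ω hω
    rw [mem_filter] at hω ⊢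
    refine ⟨mem_univ _, fun b => ?_⟩
    rw [mem_filter]
    refine ⟨mem_univ _, ?_⟩
    rw [hSb]
    ext v
    simp only [mem_image, mem_filter]
    constructor
    · intro hv
      have hvM : v < M := mem_range.mp ((hX (ω b)).1 hv)
      have hdiv : (b * M + v) / M = b := by
        rw [Nat.add_comm, Nat.add_mul_div_right _ _ hM, Nat.div_eq_of_lt hvM]; simp
      have hmod : (b * M + v) % M = v := by
        rw [Nat.add_comm, Nat.add_mul_mod_self_right, Nat.mod_eq_of_lt hvM]
      have hlt : (b : ℕ) * M + v < B * M := by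
        have : ((b : ℕ) + 1) * M ≤ B * M := Nat.mul_le_mul_right _ b.2
        have e : ((b : ℕ) + 1) * M = b * M + M := by ring
        omega
      refine ⟨b * M + v, ⟨?_, hdiv⟩, hmod⟩
      rw [← hω.2, mem_Xg_iff hlt b hdiv, hmod]; exact hv
    · rintro ⟨u, ⟨huS, hub⟩, rfl⟩
      rw [← hω.2] at huS
      have hlt : u < B * M := by
        have := huS; simp only [Xg, mem_filter, mem_range] at this; exact this.1
      exact (mem_Xg_iff hlt b hub).mp huS
  calc (univ.filter (fun ω : Fin B → Ω => Xg M B X ω = S)).card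
      ≤ (univ.filter (fun ω : Fin B → Ω => ∀ b : Fin B, ω b ∈
          univ.filter (fun x => X x = Sb b))).card := card_le_card hsub
    _ = ∏ b : Fin B, (univ.filter (fun x => X x = Sb b)).card := card_pi_mem _
    _ ≤ ∏ b : Fin B, k := prod_le_prod' (fun b _ => hk _)
    _ = k ^ B := by rw [prod_const, card_univ, Fintype.card_fin]

theorem Xg_update_diff {M B k : ℕ} (X : Ω → Finset ℕ)
    (hX : ∀ ω, X ω ⊆ range M ∧ (X ω).card = k) (ω : Fin B → Ω) (b : Fin B) (x : Ω) :
    (Xg M B X ω \ Xg M B X (Function.update ω b x)).card ≤ k := by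
  classical
  rw [← (hX (ω b)).2]
  apply card_le_card_of_injOn (fun u => u % M)
  · intro u hu
    simp only [coe_sdiff, Set.mem_diff, mem_coe] at hu
    have hlt : u < B * M := by
      have := hu.1; simp only [Xg, mem_filter, mem_range] at this; exact this.1
    have hub : u / M = b := by
      by_contra hne
      apply hu.2
      have h1 := hu.1
      simp only [Xg, mem_filter] at h1 ⊢
      obtain ⟨h11, h12, h13⟩ := h1
      refine ⟨h11, h12, ?_⟩
      rw [Function.update_of_ne]
      · exact h13
      · intro he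
        apply hne
        rw [← he]
    exact (mem_Xg_iff hlt b hub).mp hu.1
  · intro u hu v hv huv
    simp only [coe_sdiff, Set.mem_diff, mem_coe] at hu hv
    have key : ∀ z : ℕ, z ∈ Xg M B X ω → z ∉ Xg M B X (Function.update ω b x) → z / M = b := by
      intro z hz1 hz2
      by_contra hne
      apply hz2
      simp only [Xg, mem_filter] at hz1 ⊢
      obtain ⟨h11, h12, h13⟩ := hz1
      refine ⟨h11, h12, ?_⟩
      rw [Function.update_of_ne]
      · exact h13
      · intro he
        apply hne
        rw [← he]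
    have e1 := Nat.div_add_mod u M
    have e2 := Nat.div_add_mod v M
    rw [key u hu.1 hu.2] at e1
    rw [key v hv.1 hv.2] at e2
    simp only at huv
    rw [← e1, ← e2, huv]

theorem cnt_update {M B k : ℕ} {y : ℕ → ℕ} (hy : Function.Injective y) (Y : Finset ℕ)
    (X : Ω → Finset ℕ) (hX : ∀ ω, X ω ⊆ range M ∧ (X ω).card = k) (j : ℕ) (b : Fin B)
    (ω : Fin B → Ω) (x : Ω) :
    |(cnt y Y (Xg M B X ω) j : ℝ) - (cnt y Y (Xg M B X (Function.update ω b x)) j : ℝ)| ≤
      8 * k := by
  have h1 := cnt_diff hy Y (Xg M B X ω) (Xg M B X (Function.update ω b x)) j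
  have h2 := Xg_update_diff X hX ω b x
  have h3 := Xg_update_diff X hX (Function.update ω b x) b (ω b)
  have h4 : Function.update (Function.update ω b x) b (ω b) = ω := by
    rw [Function.update_idem, Function.update_eq_self]
  rw [h4] at h3
  have h5 : |(cnt y Y (Xg M B X ω) j : ℤ) - (cnt y Y (Xg M B X (Function.update ω b x)) j : ℤ)| ≤
      8 * k := by
    refine h1.trans ?_
    have : (((Xg M B X ω \ Xg M B X (Function.update ω b x)).card : ℤ) +
      ((Xg M B X (Function.update ω b x) \ Xg M B X ω).card : ℤ)) ≤ 2 * k := by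
      have h2' : ((Xg M B X ω \ Xg M B X (Function.update ω b x)).card : ℤ) ≤ k := by
        exact_mod_cast h2
      have h3' : ((Xg M B X (Function.update ω b x) \ Xg M B X ω).card : ℤ) ≤ k := by
        exact_mod_cast h3
      linarith
    linarith
  exact_mod_cast h5

/-- Chebyshev: few outcomes are far below the mean. -/
theorem cheb {B : ℕ} (f : (Fin B → Ω) → ℝ) (C t : ℝ) (ht : 0 < t)
    (hC : ∀ (b : Fin B) (ω : Fin B → Ω) (x : Ω), |f ω - f (Function.update ω b x)| ≤ C) :
    ((univ.filter (fun ω => f ω < Ex f - t)).card : ℝ) * t ^ 2 ≤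
      B * C ^ 2 * Fintype.card (Fin B → Ω) := by
  classical
  refine le_trans ?_ (efron_stein f C hC)
  calc ((univ.filter (fun ω => f ω < Ex f - t)).card : ℝ) * t ^ 2
      = ∑ ω ∈ univ.filter (fun ω => f ω < Ex f - t), t ^ 2 := by rw [sum_const, nsmul_eq_mul]
    _ ≤ ∑ ω ∈ univ.filter (fun ω => f ω < Ex f - t),
        (f ω - (∑ ω', f ω') / Fintype.card (Fin B → Ω)) ^ 2 := by
        apply sum_le_sum
        intro ω hω
        rw [mem_filter] at hω
        have : Ex f = (∑ ω', f ω') / Fintype.card (Fin B → Ω) := rfl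
        rw [← this]
        nlinarith [hω.2]
    _ ≤ _ := by
        apply sum_le_sum_of_subset_of_nonneg (filter_subset _ _)
        intro ω _ _; positivity

end

end Pool.Agent.Hhelper51.Cat
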