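import Pool.Agent.Hhelper51.Cat.Box

set_option autoImplicit false

namespace Pool.Agent.Hhelper51.Cat

open Finset

/-! ## Module M6: family counting -/

private theorem fc_pairOK {n : ℕ} (σ : Equiv.Perm (Fin n)) (y : ℕ → ℕ)
    (hy : ∀ i : Fin n, y i = σ i) (Y X : Finset ℕ) (U : Finset (Fin n))
    (hU : ∀ i ∈ U, (i : ℕ) ∈ X ∧ (i : ℕ) ∈ Y) (g : Fin n → Fin n)
    (hg : ∀ i ∈ U, ((g i : Fin n) : ℕ) ∈ box y Y X i) :
    PairOK σ (U.image (fun i => (i, g i))) := by
  have hbox : ∀ i ∈ U, (i : ℕ) < (g i : ℕ) ∧ (∀ u ∈ X, u ≤ (i : ℕ) ∨ (g i : ℕ) < u) ∧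
      (∀ u ∈ X, u ∈ Y → (y i < y (g i) → y i < y u → 2 * y (g i) < y i + y u) ∧
        (y (g i) < y i → y u < y i → y i + y u < 2 * y (g i))) := by
    intro i hi
    have h := hg i hi
    unfold box at h
    rw [mem_filter] at h
    exact h.2
  have hord : ∀ i ∈ U, ∀ j ∈ U, y i < y j →
      max (σ i) (σ (g i)) < min (σ j) (σ (g j)) := by
    intro i hi j hj hij
    obtain ⟨hi1, hi2, hi3⟩ := hbox i hi
    obtain ⟨hj1, hj2, hj3⟩ := hbox j hj
    obtain ⟨hiX, hiY⟩ := hU i hi
    obtain ⟨hjX, hjY⟩ := hU j hj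
    have a1 := (hi3 j hjX hjY).1
    have a2 := (hj3 i hiX hiY).2
    have e1 := hy i
    have e2 := hy j
    have e3 := hy (g i)
    have e4 := hy (g j)
    rw [e1, e2] at hij
    rw [e1, e2, e3] at a1
    rw [e1, e2, e4] at a2
    rw [max_lt_iff, lt_min_iff, lt_min_iff]
    simp only [Fin.lt_def]
    refine ⟨⟨?_, ?_⟩, ⟨?_, ?_⟩⟩
    · exact hij
    · by_contra hc
      have : (σ (g j) : ℕ) < (σ j : ℕ) := by omega
      have := a2 this hij
      omega
    · by_contra hc
      have : (σ i : ℕ) < (σ (g i) : ℕ) := by omega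
      have := a1 this hij
      omega
    · by_contra hc
      by_cases h1 : (σ i : ℕ) < (σ (g i) : ℕ)
      · have b1 := a1 h1 hij
        have h2 : (σ (g j) : ℕ) < (σ j : ℕ) := by omega
        have b2 := a2 h2 hij
        omega
      · have h2 : (σ (g j) : ℕ) < (σ j : ℕ) := by omega
        have b2 := a2 h2 hij
        omega
  refine ⟨?_, ?_⟩
  · intro e he
    rw [mem_image] at he
    obtain ⟨i, hi, rfl⟩ := he
    exact Fin.lt_def.2 (hbox i hi).1
  · intro e he f hf hne
    rw [mem_image] at he hf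
    obtain ⟨i, hi, rfl⟩ := he
    obtain ⟨j, hj, rfl⟩ := hf
    have hij : i ≠ j := by
      rintro rfl
      exact hne rfl
    have hijn : (i : ℕ) ≠ (j : ℕ) := fun h => hij (Fin.ext h)
    refine ⟨?_, ?_⟩
    · have a1 := (hbox i hi).2.1 j (hU j hj).1
      have a2 := (hbox j hj).2.1 i (hU i hi).1
      simp only [Fin.lt_def]
      omega
    · have hσ : (σ i : ℕ) ≠ (σ j : ℕ) := fun h => hij (σ.injective (Fin.ext h))
      rcases lt_or_gt_of_ne hσ with h | h
      · left
        exact hord i hi j hj (by rw [hy i, hy j]; exact h)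
      · right
        exact hord j hj i hi (by rw [hy i, hy j]; exact h)

/-- pair families whose first points lie in `X` -/
private noncomputable def fcN {n : ℕ} (σ : Equiv.Perm (Fin n)) (s : ℕ) (X : Finset ℕ) : ℕ :=
  ((pairFam σ s).filter (fun F => ∀ e ∈ F, (e.1 : ℕ) ∈ X)).card

private theorem fc_local {n : ℕ} (σ : Equiv.Perm (Fin n)) (y : ℕ → ℕ)
    (hy : ∀ i : Fin n, y i = σ i) (Y X : Finset ℕ) (hY : Y ⊆ range n) (hX : X ⊆ range n)
    (U : Finset ℕ) (s : ℕ) (hU : U ⊆ X ∩ Y) (hUs : U.card = s) :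
    ∏ p ∈ U, (box y Y X p).card ≤ fcN σ s X := by
  classical
  unfold fcN
  set U' : Finset (Fin n) := univ.filter (fun i => (i : ℕ) ∈ U) with hU'
  have hmU' : ∀ i, i ∈ U' ↔ (i : ℕ) ∈ U := by intro i; simp [hU']
  set B : Fin n → Finset (Fin n) := fun i => univ.filter (fun j => (j : ℕ) ∈ box y Y X i) with hB
  have hmap : ∀ A : Finset ℕ, A ⊆ range n →
      (univ.filter (fun i : Fin n => (i : ℕ) ∈ A)).map Fin.valEmbedding = A := by
    intro A hA
    ext a
    simp only [mem_map, mem_filter, mem_univ, true_and, Fin.valEmbedding_apply]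
    constructor
    · rintro ⟨b, hb, rfl⟩
      exact hb
    · intro ha
      exact ⟨⟨a, mem_range.1 (hA ha)⟩, ha, rfl⟩
  have hUn : U ⊆ range n := fun a ha => hX (mem_inter.1 (hU ha)).1
  have hcU : U'.card = s := by
    rw [← hUs, ← hmap U hUn, card_map]
  have hcB : ∀ i, (B i).card = (box y Y X i).card := by
    intro i
    have hb : box y Y X i ⊆ range n := fun a ha => hY (mem_filter.1 ha).1
    rw [← hmap _ hb, card_map]
  have hprod : ∏ p ∈ U, (box y Y X p).card = ∏ i ∈ U', (B i).card := by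
    conv_lhs => rw [← hmap U hUn, prod_map]
    exact prod_congr rfl (fun i _ => (hcB i).symm)
  set P : Finset (Fin n → Fin n) := Fintype.piFinset (fun i => if i ∈ U' then B i else {i}) with hP
  have hPcard : P.card = ∏ i ∈ U', (B i).card := by
    rw [hP, Fintype.card_piFinset]
    have : ∀ i, (if i ∈ U' then B i else ({i} : Finset (Fin n))).card =
        if i ∈ U' then (B i).card else 1 := by
      intro i
      split_ifs <;> simp
    simp only [this]
    rw [prod_ite_mem]
    simp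
  rw [hprod, ← hPcard]
  refine card_le_card_of_injOn (fun g => U'.image (fun i => (i, g i))) ?_ ?_
  · intro g hg
    have hg' := Fintype.mem_piFinset.1 (mem_coe.1 hg)
    have hgU : ∀ i ∈ U', ((g i : Fin n) : ℕ) ∈ box y Y X i := by
      intro i hi
      have := hg' i
      rw [if_pos hi] at this
      exact (mem_filter.1 this).2
    rw [mem_coe, mem_filter]
    refine ⟨?_, ?_⟩
    · unfold pairFam
      rw [mem_filter]
      refine ⟨mem_univ _, ?_, ?_⟩
      · rw [card_image_of_injective _ (fun a b hab => (Prod.mk.inj hab).1), hcU]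
      · apply fc_pairOK σ y hy Y X U' _ g hgU
        intro i hi
        have := hU ((hmU' i).1 hi)
        exact mem_inter.1 this
    · intro e he
      rw [mem_image] at he
      obtain ⟨i, hi, rfl⟩ := he
      exact (mem_inter.1 (hU ((hmU' i).1 hi))).1
  · intro g hg g' hg' heq
    have hgm := Fintype.mem_piFinset.1 (mem_coe.1 hg)
    have hgm' := Fintype.mem_piFinset.1 (mem_coe.1 hg')
    funext i
    by_cases hi : i ∈ U'
    · have h1 : (i, g i) ∈ U'.image (fun i => (i, g i)) := mem_image_of_mem _ hi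
      have heq' : U'.image (fun i => (i, g i)) = U'.image (fun i => (i, g' i)) := heq
      rw [heq', mem_image] at h1
      obtain ⟨j, _, hj⟩ := h1
      have e1 := (Prod.mk.inj hj).1
      have e2 := (Prod.mk.inj hj).2
      subst e1
      exact e2.symm
    · have h1 := hgm i
      have h2 := hgm' i
      rw [if_neg hi, mem_singleton] at h1 h2
      rw [h1, h2]

private theorem fc_fiber {n : ℕ} (σ : Equiv.Perm (Fin n)) {W : Type} [Fintype W] [DecidableEq W]
    (XX : W → Finset ℕ) (R s κ : ℕ)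
    (hXX : ∀ w, XX w ⊆ range n ∧ (XX w).card = R)
    (hκ : ∀ S : Finset ℕ, (univ.filter (fun w => XX w = S)).card ≤ κ)
    (F : Finset (Fin n × Fin n)) (hF : F ∈ pairFam σ s) :
    (univ.filter (fun w => ∀ e ∈ F, (e.1 : ℕ) ∈ XX w)).card ≤ κ * n.choose (R - s) := by
  classical
  set A : Finset ℕ := F.image (fun e => (e.1 : ℕ)) with hA
  have hFm := (mem_filter.1 hF).2
  obtain ⟨hFc, hF1, hF2⟩ := hFm
  have hAc : A.card = s := by
    rw [hA, card_image_of_injOn, hFc]
    intro e he f hf hef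
    by_contra hne
    have h1 := hF1 e he
    have h2 := hF1 f hf
    have h3 := (hF2 e he f hf hne).1
    simp only [Fin.lt_def] at h1 h2 h3
    have hef' : (e.1 : ℕ) = (f.1 : ℕ) := hef
    omega
  have key := card_le_mul_card_image_of_maps_to
    (s := univ.filter (fun w => ∀ e ∈ F, (e.1 : ℕ) ∈ XX w))
    (t := (range n).powersetCard (R - s)) (f := fun w => XX w \ A) (n := κ) ?_ ?_
  · rwa [card_powersetCard, card_range] at key
  · intro w hw
    have hw' := (mem_filter.1 hw).2
    have hsub : A ⊆ XX w := by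
      intro a ha
      rw [hA, mem_image] at ha
      obtain ⟨e, he, rfl⟩ := ha
      exact hw' e he
    rw [mem_powersetCard]
    refine ⟨fun a ha => (hXX w).1 (mem_sdiff.1 ha).1, ?_⟩
    rw [card_sdiff_of_subset hsub, (hXX w).2, hAc]
  · intro T _
    refine le_trans (card_le_card ?_) (hκ (T ∪ A))
    intro w hw
    rw [mem_filter] at hw
    obtain ⟨hw1, hw2⟩ := hw
    have hw' := (mem_filter.1 hw1).2
    have hsub : A ⊆ XX w := by
      intro a ha
      rw [hA, mem_image] at ha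
      obtain ⟨e, he, rfl⟩ := ha
      exact hw' e he
    rw [mem_filter]
    refine ⟨mem_univ _, ?_⟩
    rw [← hw2]
    exact (sdiff_union_of_subset hsub).symm

private theorem fc_swap {α β : Type*} (s : Finset α) (t : Finset β) (r : α → β → Prop)
    [∀ a b, Decidable (r a b)] :
    ∑ a ∈ s, (t.filter (fun b => r a b)).card = ∑ b ∈ t, (s.filter (fun a => r a b)).card := by
  simp only [card_filter]
  exact sum_comm

/-- Double counting of pair families by anchor sets.  `W` = sample space, `XX w` = anchor set of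
`w` (all of size `R`), each anchor set comes from at most `κ` outcomes, and every good `w` has a
set `U` of `s` anchors in `Y` for which the product of the numbers of available partners is `≥ L`. -/
theorem fam_count {n : ℕ} (σ : Equiv.Perm (Fin n)) (y : ℕ → ℕ) (hy : ∀ i : Fin n, y i = σ i)
    (Y : Finset ℕ) (hY : Y ⊆ range n) {W : Type} [Fintype W] [DecidableEq W]
    (XX : W → Finset ℕ) (R s κ : ℕ) (hsR : s ≤ R)
    (hXX : ∀ w, XX w ⊆ range n ∧ (XX w).card = R)
    (hκ : ∀ S : Finset ℕ, (univ.filter (fun w => XX w = S)).card ≤ κ)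
    (G : Finset W) (L : ℝ)
    (hG : ∀ w ∈ G, ∃ U : Finset ℕ, U ⊆ XX w ∩ Y ∧ U.card = s ∧
      L ≤ ∏ p ∈ U, ((box y Y (XX w) p).card : ℝ)) :
    (G.card : ℝ) * L ≤ ((pairFam σ s).card : ℝ) * (κ * (n.choose (R - s) : ℝ)) := by
  have _ := hsR
  have h1 : ∀ w ∈ G, L ≤ (fcN σ s (XX w) : ℝ) := by
    intro w hw
    obtain ⟨U, hU, hUs, hL⟩ := hG w hw
    refine hL.trans ?_
    have h := fc_local σ y hy Y (XX w) hY (hXX w).1 U s hU hUs
    have h' : ((∏ p ∈ U, (box y Y (XX w) p).card : ℕ) : ℝ) ≤ (fcN σ s (XX w) : ℝ) :=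
      Nat.cast_le.2 h
    rwa [Nat.cast_prod] at h'
  have h2 : (G.card : ℝ) * L ≤ ∑ w ∈ G, (fcN σ s (XX w) : ℝ) := by
    have h := card_nsmul_le_sum G (fun w => (fcN σ s (XX w) : ℝ)) L h1
    rwa [nsmul_eq_mul] at h
  have h3 : ∑ w ∈ G, fcN σ s (XX w) ≤ ∑ w : W, fcN σ s (XX w) :=
    sum_le_sum_of_subset (subset_univ G)
  have h4 : ∑ w : W, fcN σ s (XX w) =
      ∑ F ∈ pairFam σ s, (univ.filter (fun w => ∀ e ∈ F, (e.1 : ℕ) ∈ XX w)).card := by
    unfold fcN
    exact fc_swap (univ : Finset W) (pairFam σ s) (fun w F => ∀ e ∈ F, (e.1 : ℕ) ∈ XX w)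
  have h5 : ∑ F ∈ pairFam σ s, (univ.filter (fun w => ∀ e ∈ F, (e.1 : ℕ) ∈ XX w)).card ≤
      ∑ _F ∈ pairFam σ s, κ * n.choose (R - s) :=
    sum_le_sum (fun F hF => fc_fiber σ XX R s κ hXX hκ F hF)
  rw [sum_const, smul_eq_mul] at h5
  have h6 := (h3.trans h4.le).trans h5
  have h7 : ((∑ w ∈ G, fcN σ s (XX w) : ℕ) : ℝ) ≤
      (((pairFam σ s).card * (κ * n.choose (R - s)) : ℕ) : ℝ) := Nat.cast_le.2 h6
  rw [Nat.cast_sum, Nat.cast_mul, Nat.cast_mul] at h7
  exact h2.trans h7

end Pool.Agent.Hhelper51.Cat
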