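import Pool.Agent.Hhelper51.Cat.Box

set_option autoImplicit false

namespace Pool.Agent.Hhelper51.Cat

open Finset

/-- exponent of the lower bound; x = 131/500, ζ = 2/7, K = 40 -/
noncomputable def VV : ℝ :=
  (2/7) * Real.log 7 - (2/7 - 131/500) + (2/7 - 131/500) * Real.log (2/7 - 131/500) +
    (2/7) * ∑ j ∈ Icc (2:ℕ) 40, Real.exp (-(4/49 : ℝ)) ^ j * Real.log ((j : ℝ) / ((j : ℝ) - 1))

private theorem exp_lower : (0.9216 : ℝ) < Real.exp (-(4/49 : ℝ)) := by
  have h := Real.exp_bound (x := (-(4/49) : ℝ)) (by norm_num [abs_of_pos]) (n := 5) (by norm_num)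
  have h2 := (abs_le.1 h).1
  simp only [Finset.sum_range_succ, Finset.sum_range_zero, Nat.factorial] at h2
  norm_num [abs_of_pos] at h2
  norm_num
  linarith

theorem y_cond : Real.exp 1 ^ 2 ≤ 8 * (481/500 : ℝ) ^ 2 := by
  have h := Real.exp_one_lt_d9
  have h0 := Real.exp_pos 1
  nlinarith

theorem x_cond : (131/500 : ℝ) < 2/7 * Real.exp (-(4/49 : ℝ)) := by
  have h := exp_lower
  norm_num at h ⊢
  linarith

private theorem log_ratio_lower (j : ℕ) (hj : 2 ≤ j) :
    2 / (2 * (j : ℝ) - 1) ≤ Real.log ((j : ℝ) / ((j : ℝ) - 1)) := by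
  have hj' : (2 : ℝ) ≤ j := by exact_mod_cast hj
  have h1 : (1 : ℝ) / (2 * (j : ℝ) - 1) < 1 := by
    rw [div_lt_one (by linarith)]; linarith
  have h0 : (0 : ℝ) < 1 / (2 * (j : ℝ) - 1) := by
    apply div_pos one_pos; linarith
  have h := Real.hasSum_log_sub_log_of_abs_lt_one (x := 1 / (2 * (j : ℝ) - 1))
    (by rw [abs_of_pos h0]; exact h1)
  have h2 : Real.log (1 + 1 / (2 * (j : ℝ) - 1)) - Real.log (1 - 1 / (2 * (j : ℝ) - 1)) =
      Real.log ((j : ℝ) / ((j : ℝ) - 1)) := by
    rw [← Real.log_div (by positivity) (by linarith)]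
    congr 1
    have : (2 * (j : ℝ) - 1) ≠ 0 := by linarith
    have : ((j : ℝ) - 1) ≠ 0 := by linarith
    have : (2 * (j : ℝ) - 1 - 1) ≠ 0 := by linarith
    field_simp
    ring
  rw [h2] at h
  have h3 := h.summable
  have h4 := h.tsum_eq
  rw [← h4]
  have := h3.sum_le_tsum {0} (fun i _ => by positivity)
  simpa [div_eq_mul_inv] using this

private theorem log7_lower : (1.9459 : ℝ) < Real.log 7 := by
  have h : Real.log 7 = 3 * Real.log 2 + Real.log (1 - 1/8) := by
    have : (7 : ℝ) = 2 ^ 3 * (1 - 1/8) := by norm_num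
    rw [this, Real.log_mul (by norm_num) (by norm_num), Real.log_pow]
    norm_num
  have h2 := Real.abs_log_sub_add_sum_range_le (x := (1/8 : ℝ)) (by norm_num [abs_of_pos]) 6
  have h3 := (abs_le.1 h2).1
  simp only [Finset.sum_range_succ, Finset.sum_range_zero] at h3
  norm_num [abs_of_pos] at h3
  have h4 := Real.log_two_gt_d9
  rw [h]
  norm_num at h4 ⊢
  linarith

private theorem log83_lower : (-3.75 : ℝ) < Real.log (2/7 - 131/500) := by
  have h : Real.log (2/7 - 131/500) = Real.log (83/3500*32) -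
      5 * Real.log 2 := by
    have : (2/7 - 131/500 : ℝ) = (83/3500*32) / 2 ^ 5 := by norm_num
    rw [this, Real.log_div (by norm_num) (by norm_num), Real.log_pow]
    norm_num
  have h2 := Real.abs_log_sub_add_sum_range_le (x := (1 - 83/3500*32 : ℝ))
    (by norm_num [abs_of_pos]) 6
  have h3 := (abs_le.1 h2).1
  simp only [Finset.sum_range_succ, Finset.sum_range_zero] at h3
  norm_num [abs_of_pos] at h3
  have h4 := Real.log_two_lt_d9
  rw [h]
  norm_num at h4 ⊢
  linarith

private theorem VV_lower : (0.985 : ℝ) < VV := by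
  have hE := exp_lower
  have hsum : (0.9216 : ℝ) ^ 2 * 0.6931471803 + ∑ j ∈ Icc (3:ℕ) 40, (0.9216 : ℝ) ^ j * (2 / (2 * (j : ℝ) - 1)) ≤
      ∑ j ∈ Icc (2:ℕ) 40, Real.exp (-(4/49 : ℝ)) ^ j * Real.log ((j : ℝ) / ((j : ℝ) - 1)) := by
    rw [← Finset.add_sum_Ioc_eq_sum_Icc (by norm_num : (2:ℕ) ≤ 40)]
    have : Ioc (2:ℕ) 40 = Icc 3 40 := rfl
    rw [this]
    apply add_le_add
    · have := Real.log_two_gt_d9
      norm_num at this ⊢
      have h5 : (0.9216 : ℝ) ^ 2 ≤ Real.exp (-(4/49 : ℝ)) ^ 2 :=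
        pow_le_pow_left₀ (by norm_num) hE.le 2
      norm_num at h5
      nlinarith [sq_nonneg (Real.exp (-(4/49 : ℝ)))]
    · apply Finset.sum_le_sum
      intro j hj
      rw [Finset.mem_Icc] at hj
      have hj' : (3 : ℝ) ≤ j := by exact_mod_cast hj.1
      apply mul_le_mul (pow_le_pow_left₀ (by norm_num) hE.le j) (log_ratio_lower j (by omega))
      · apply div_nonneg (by norm_num); linarith
      · positivity
  have h7 := log7_lower
  have h83 := log83_lower
  have hnum : (1.906 : ℝ) ≤ (0.9216 : ℝ) ^ 2 * 0.6931471803 +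
      ∑ j ∈ Icc (3:ℕ) 40, (0.9216 : ℝ) ^ j * (2 / (2 * (j : ℝ) - 1)) := by
    have : Icc (3:ℕ) 40 = Ico 3 41 := rfl
    rw [this, Finset.sum_Ico_eq_sum_range]
    simp only [Finset.sum_range_succ, Finset.sum_range_zero]
    norm_num
  unfold VV
  norm_num at h7 h83 hnum hsum ⊢
  linarith

/-- true values: VV = 0.98.., LHS = 0.71748, RHS = 0.71758 + ... (see blueprint) -/
theorem final_numeric :
    (98/100 - 131/500 : ℝ) * (481/500 - 481/500 * Real.log (481/500)) <
      (98/100 - 481/500) * VV + (481/500 - 131/500) * (98/100 - 98/100 * Real.log (98/100)) := by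
  have hV := VV_lower
  have h1 : (-0.0387409 : ℝ) ≤ Real.log (481/500) := by
    have h2 := Real.abs_log_sub_add_sum_range_le (x := (19/500 : ℝ)) (by norm_num [abs_of_pos]) 5
    have h3 := (abs_le.1 h2).1
    simp only [Finset.sum_range_succ, Finset.sum_range_zero] at h3
    norm_num [abs_of_pos] at h3 ⊢
    linarith
  have h2 : Real.log (98/100) ≤ (-0.0202026 : ℝ) := by
    have h2 := Real.abs_log_sub_add_sum_range_le (x := (2/100 : ℝ)) (by norm_num [abs_of_pos]) 5
    have h3 := (abs_le.1 h2).2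
    simp only [Finset.sum_range_succ, Finset.sum_range_zero] at h3
    norm_num [abs_of_pos] at h3 ⊢
    linarith
  norm_num at hV h1 h2 ⊢
  nlinarith

end Pool.Agent.Hhelper51.Cat
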