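import Mathlib

set_option autoImplicit false

namespace Pool.Agent.Hhelper51.Cat

open Finset

private lemma sel_prod_Icc (m : ℕ) (hm : 1 ≤ m) :
    ∏ j ∈ Icc 2 m, ((j : ℝ) / ((j : ℝ) - 1)) = (m : ℝ) := by
  induction m, hm using Nat.le_induction with
  | base => simp
  | succ k hk ih =>
    rw [Finset.prod_Icc_succ_top (by omega), ih]
    have : (k : ℝ) ≠ 0 := by positivity
    push_cast
    rw [add_sub_cancel_right]
    field_simp

private lemma sel_prod_le (m K : ℕ) (hm : 1 ≤ m) :
    ∏ j ∈ Icc 2 K, (if j ≤ m then ((j : ℝ) / ((j : ℝ) - 1)) else 1) ≤ (m : ℝ) := by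
  rw [← sel_prod_Icc m hm, ← Finset.prod_filter]
  have hsub : (Icc 2 K).filter (fun j => j ≤ m) ⊆ Icc 2 m := by
    intro j hj
    rw [Finset.mem_filter, Finset.mem_Icc] at hj
    rw [Finset.mem_Icc]; omega
  rw [← Finset.prod_sdiff hsub]
  have hpos : ∀ j ∈ Icc 2 m, (1 : ℝ) ≤ (j : ℝ) / ((j : ℝ) - 1) := by
    intro j hj
    have hj' := Finset.mem_Icc.1 hj
    have : (2 : ℝ) ≤ j := by exact_mod_cast hj'.1
    have h4 : (0 : ℝ) < (j : ℝ) - 1 := by linarith
    rw [le_div_iff₀ h4]; linarith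
  have h1 : (1 : ℝ) ≤ ∏ j ∈ Icc 2 m \ (Icc 2 K).filter (fun j => j ≤ m),
      ((j : ℝ) / ((j : ℝ) - 1)) := by
    apply Finset.prod_induction _ (fun x : ℝ => 1 ≤ x)
    · intro a b ha hb; nlinarith
    · exact le_rfl
    · intro j hj
      exact hpos j (Finset.mem_sdiff.1 hj).1
  have h2 : (0 : ℝ) ≤ ∏ j ∈ (Icc 2 K).filter (fun j => j ≤ m), ((j : ℝ) / ((j : ℝ) - 1)) := by
    apply Finset.prod_nonneg
    intro j hj
    linarith [hpos j (hsub hj)]
  exact le_mul_of_one_le_left h2 h1

theorem exists_top (A : Finset ℕ) (m : ℕ → ℕ) (s K : ℕ) (T : ℕ → ℕ)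
    (hs : s ≤ (A.filter (fun p => 1 ≤ m p)).card)
    (hT : ∀ j ∈ Icc 2 K, T j ≤ s ∧ T j ≤ (A.filter (fun p => j ≤ m p)).card) :
    ∃ U : Finset ℕ, U ⊆ A ∧ U.card = s ∧
      ∏ j ∈ Icc 2 K, ((j : ℝ) / ((j : ℝ) - 1)) ^ (T j) ≤ ∏ p ∈ U, (m p : ℝ) := by
  classical
  -- candidates
  set A' := A.filter (fun p => 1 ≤ m p) with hA'
  have hne : (A'.powersetCard s).Nonempty := Finset.powersetCard_nonempty.2 hs
  obtain ⟨U, hU, hmax⟩ := Finset.exists_max_image (A'.powersetCard s) (fun U => ∑ p ∈ U, m p) hne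
  rw [Finset.mem_powersetCard] at hU
  obtain ⟨hUA, hUc⟩ := hU
  have hkey : ∀ j ∈ Icc 2 K, T j ≤ (U.filter (fun p => j ≤ m p)).card := by
    intro j hj
    have hj' := Finset.mem_Icc.1 hj
    by_cases h1 : ∀ p ∈ U, j ≤ m p
    · rw [Finset.filter_true_of_mem h1, hUc]
      exact (hT j hj).1
    · push Not at h1
      obtain ⟨p, hpU, hp⟩ := h1
      refine (hT j hj).2.trans (Finset.card_le_card ?_)
      intro q hq
      rw [Finset.mem_filter] at hq ⊢
      refine ⟨?_, hq.2⟩
      by_contra hqU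
      have hqA' : q ∈ A' := by
        rw [hA', Finset.mem_filter]; exact ⟨hq.1, by omega⟩
      have hqe : q ∉ U.erase p := fun h => hqU (Finset.mem_of_mem_erase h)
      have hV : insert q (U.erase p) ∈ A'.powersetCard s := by
        rw [Finset.mem_powersetCard]
        constructor
        · intro x hx
          rw [Finset.mem_insert] at hx
          rcases hx with rfl | hx
          · exact hqA'
          · exact hUA (Finset.mem_of_mem_erase hx)
        · rw [Finset.card_insert_of_notMem hqe, Finset.card_erase_of_mem hpU, hUc]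
          have : 0 < s := by rw [← hUc]; exact Finset.card_pos.2 ⟨p, hpU⟩
          omega
      have h2 := hmax _ hV
      rw [Finset.sum_insert hqe] at h2
      have h3 := Finset.add_sum_erase U m hpU
      omega
  refine ⟨U, fun x hx => (Finset.mem_filter.1 (hUA hx)).1, hUc, ?_⟩
  calc ∏ j ∈ Icc 2 K, ((j : ℝ) / ((j : ℝ) - 1)) ^ (T j)
      ≤ ∏ j ∈ Icc 2 K, ((j : ℝ) / ((j : ℝ) - 1)) ^ (U.filter (fun p => j ≤ m p)).card := by
        apply Finset.prod_le_prod
        · intro j hj
          have hj' := Finset.mem_Icc.1 hj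
          have : (2 : ℝ) ≤ j := by exact_mod_cast hj'.1
          have h4 : (0 : ℝ) < (j : ℝ) - 1 := by linarith
          positivity
        · intro j hj
          have hj' := Finset.mem_Icc.1 hj
          have : (2 : ℝ) ≤ j := by exact_mod_cast hj'.1
          have h4 : (0 : ℝ) < (j : ℝ) - 1 := by linarith
          apply pow_le_pow_right₀ _ (hkey j hj)
          rw [le_div_iff₀ h4]; linarith
    _ = ∏ p ∈ U, ∏ j ∈ Icc 2 K, (if j ≤ m p then ((j : ℝ) / ((j : ℝ) - 1)) else 1) := by
        rw [Finset.prod_comm]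
        apply Finset.prod_congr rfl
        intro j hj
        rw [← Finset.prod_filter, Finset.prod_const]
    _ ≤ ∏ p ∈ U, (m p : ℝ) := by
        apply Finset.prod_le_prod
        · intro p hp
          apply Finset.prod_nonneg
          intro j hj
          have hj' := Finset.mem_Icc.1 hj
          have : (2 : ℝ) ≤ j := by exact_mod_cast hj'.1
          have h4 : (0 : ℝ) < (j : ℝ) - 1 := by linarith
          split_ifs <;> positivity
        · intro p hp
          exact sel_prod_le (m p) K (Finset.mem_filter.1 (hUA hp)).2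

end Pool.Agent.Hhelper51.Cat
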