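import Pool.Agent.Hhelper51.Cat.Core8
import Pool.Agent.Hhelper51.Cat.BlockLaw
import Pool.Agent.Hhelper51.Cat.Select
import Pool.Agent.Hhelper51.Cat.FamCount
import Pool.Agent.Hhelper51.Cat.Numeric2

set_option autoImplicit false
set_option linter.unusedSectionVars false

namespace Pool.Agent.Hhelper51.Cat

open Finset Filter

/-- `(E+1) r^E → 0`. -/
theorem exists_E {r d : ℝ} (hr0 : 0 ≤ r) (hr1 : r < 1) (hd : 0 < d) :
    ∃ E : ℕ, ((E : ℝ) + 1) * r ^ E ≤ d := by
  have h1 := tendsto_self_mul_const_pow_of_lt_one hr0 hr1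
  have h2 := tendsto_pow_atTop_nhds_zero_of_lt_one hr0 hr1
  have h3 := h1.add h2
  rw [add_zero] at h3
  have h4 := (h3.eventually (gt_mem_nhds hd)).exists
  obtain ⟨E, hE⟩ := h4
  refine ⟨E, ?_⟩
  calc ((E : ℝ) + 1) * r ^ E = (E : ℝ) * r ^ E + r ^ E := by ring
    _ ≤ d := hE.le

/-- the coefficient bound -/
theorem coef_bound {d κ eps b T η' err : ℝ} (hd0 : 0 ≤ d) (hd1 : d ≤ 1 / 10)
    (hκ : 1 - 2 * d ≤ κ) (hκ1 : κ ≤ 1) (heps : eps ≤ d) (heps0 : 0 ≤ eps)
    (hb0 : 0 ≤ b) (hb1 : b ≤ 1) (hT : 1 - 2 * d ≤ T) (hT1 : T ≤ 1)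
    (hη0 : 0 ≤ η') (hη : η' ≤ 4 * d) (herr : err ≤ d) :
    (2 / 7) * b - 4 * d ≤ (2 / 7) * κ * (1 - eps) * (b * T - η') - err := by
  -- bracket
  have h1 : b - 6 * d ≤ b * T - η' := by nlinarith
  have h2 : b * T - η' ≤ 1 := by nlinarith
  have h3 : 1 - 3 * d ≤ κ * (1 - eps) := by nlinarith
  have h4 : κ * (1 - eps) ≤ 1 := by
    have : κ * (1 - eps) ≤ 1 * 1 := by
      apply mul_le_mul hκ1 (by linarith) (by linarith) zero_le_one
    linarith
  have h5 : (b * T - η') - 3 * d ≤ κ * (1 - eps) * (b * T - η') := by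
    rcases le_total 0 (b * T - η') with h | h
    · nlinarith
    · nlinarith
  nlinarith

theorem psi_bound {τ τ0 x : ℝ} (h0 : 0 < τ) (h1 : τ ≤ τ0) (h7 : 7 * τ0 ≤ 1) :
    (x + τ0) * Real.log 7 - τ0 + τ0 * Real.log τ0 ≤
      (x + τ) * Real.log 7 - τ + τ * Real.log τ := by
  have hτ0 : 0 < τ0 := lt_of_lt_of_le h0 h1
  have e1 : Real.log (τ0 / τ) ≤ τ0 / τ - 1 := Real.log_le_sub_one_of_pos (by positivity)
  rw [Real.log_div hτ0.ne' h0.ne'] at e1
  have e2 : τ * (Real.log τ0 - Real.log τ) ≤ τ0 - τ := by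
    have := mul_le_mul_of_nonneg_left e1 h0.le
    have e : τ * (τ0 / τ - 1) = τ0 - τ := by field_simp
    rw [e] at this; exact this
  have e3 : Real.log 7 + Real.log τ0 ≤ 0 := by
    rw [← Real.log_mul (by norm_num) hτ0.ne']
    exact Real.log_nonpos (by positivity) h7
  nlinarith [mul_nonneg (sub_nonneg.mpr h1) (neg_nonneg.mpr e3)]

theorem log_choose_le {n t : ℕ} (ht : 0 < t) (hn : 0 < n) (hc : 0 < n.choose t) :
    Real.log (n.choose t : ℝ) ≤ t * (Real.log n + 1 - Real.log t) := by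
  have h1 : (n.choose t : ℝ) ≤ (n : ℝ) ^ t / t.factorial := by
    exact Nat.choose_le_pow_div t n
  have htr : (0:ℝ) < t := by exact_mod_cast ht
  have hnr : (0:ℝ) < n := by exact_mod_cast hn
  have h2 : (t : ℝ) ^ t / t.factorial ≤ Real.exp t := Real.pow_div_factorial_le_exp _ htr.le _
  have hf : (0:ℝ) < t.factorial := by exact_mod_cast Nat.factorial_pos t
  have h3 : (n.choose t : ℝ) ≤ (n : ℝ) ^ t * Real.exp t / (t : ℝ) ^ t := by
    refine h1.trans ?_
    rw [div_le_div_iff₀ hf (by positivity)]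
    rw [div_le_iff₀ hf] at h2
    calc (n : ℝ) ^ t * (t:ℝ) ^ t ≤ (n : ℝ) ^ t * (Real.exp t * t.factorial) := by gcongr
      _ = _ := by ring
  have hcr : (0:ℝ) < n.choose t := by exact_mod_cast hc
  calc Real.log (n.choose t : ℝ) ≤ Real.log ((n : ℝ) ^ t * Real.exp t / (t : ℝ) ^ t) :=
        Real.log_le_log hcr h3
    _ = t * (Real.log n + 1 - Real.log t) := by
        rw [Real.log_div (by positivity) (by positivity), Real.log_mul (by positivity) (by positivity),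
          Real.log_pow, Real.log_pow, Real.log_exp]
        ring

/-- extension of a permutation of `Fin n` to `ℕ` -/
noncomputable def ext {n : ℕ} (σ : Equiv.Perm (Fin n)) (u : ℕ) : ℕ :=
  if h : u < n then (σ ⟨u, h⟩ : ℕ) else u

theorem ext_fin {n : ℕ} (σ : Equiv.Perm (Fin n)) (i : Fin n) : ext σ i = σ i := by
  unfold ext; rw [dif_pos i.2]

theorem ext_lt {n : ℕ} (σ : Equiv.Perm (Fin n)) (u : ℕ) (hu : u < n) : ext σ u < n := by
  unfold ext; rw [dif_pos hu]; exact (σ ⟨u, hu⟩).2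

theorem ext_injective {n : ℕ} (σ : Equiv.Perm (Fin n)) : Function.Injective (ext σ) := by
  intro a b hab
  unfold ext at hab
  by_cases ha : a < n <;> by_cases hb : b < n
  · rw [dif_pos ha, dif_pos hb] at hab
    have := σ.injective (Fin.ext hab)
    simpa using congrArg Fin.val this
  · rw [dif_pos ha, dif_neg hb] at hab
    have := (σ ⟨a, ha⟩).2
    omega
  · rw [dif_neg ha, dif_pos hb] at hab
    have := (σ ⟨b, hb⟩).2
    omega
  · rw [dif_neg ha, dif_neg hb] at hab; exact hab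

end Pool.Agent.Hhelper51.Cat
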