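import Mathlib

set_option autoImplicit false

namespace Pool.Agent.Hhelper51.Cat

open Finset

/-- A phylogenetic tree on `{1,…,n}` (here `Fin n`): a finite tree all of whose vertices have
degree `1` or `3`, whose degree-one vertices are labelled bijectively by `Fin n`. -/
structure PhyloTree (n : ℕ) where
  V : Type
  finite : Finite V
  G : SimpleGraph V
  isTree : G.IsTree
  deg : ∀ v : V, (G.neighborSet v).ncard = 1 ∨ (G.neighborSet v).ncard = 3
  leaf : Fin n → V
  leaf_injective : Function.Injective leaf
  leaf_range : ∀ v : V, v ∈ Set.range leaf ↔ (G.neighborSet v).ncard = 1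

namespace PhyloTree

variable {n : ℕ}

/-- The set of internal (non-leaf) vertices. -/
def internal (T : PhyloTree n) : Set T.V := {v | v ∉ Set.range T.leaf}

/-- A caterpillar: deleting the leaves leaves a path. -/
def IsCaterpillar (T : PhyloTree n) : Prop :=
  ∃ m : ℕ, Nonempty (T.G.induce T.internal ≃g SimpleGraph.pathGraph m)

/-- The vertex set of the subtree spanned by the leaves with labels in `A`: all vertices on paths
between leaves with labels in `A`. -/
def span (T : PhyloTree n) (A : Finset (Fin n)) : Set T.V :=
  {v | ∃ a ∈ A, ∃ b ∈ A, ∃ p : T.G.Walk (T.leaf a) (T.leaf b), p.IsPath ∧ v ∈ p.support}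

/-- A partition is convex on `T` if the subtrees spanned by its classes are pairwise
vertex-disjoint. -/
def Convex (T : PhyloTree n) (P : Finpartition (univ : Finset (Fin n))) : Prop :=
  ∀ A ∈ P.parts, ∀ B ∈ P.parts, A ≠ B → Disjoint (T.span A) (T.span B)

/-- The number of partitions of `Fin n` with exactly `k` classes which are convex on both trees. -/
noncomputable def commonCount (T F : PhyloTree n) (k : ℕ) : ℕ :=
  {P : Finpartition (univ : Finset (Fin n)) | P.parts.card = k ∧ T.Convex P ∧ F.Convex P}.ncard

end PhyloTree

/-- `c n k`: the minimum number of common convex partitions with `k` classes over all pairs of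
caterpillars. -/
noncomputable def c (n k : ℕ) : ℕ :=
  sInf {m | ∃ T F : PhyloTree n, T.IsCaterpillar ∧ F.IsCaterpillar ∧ m = T.commonCount F k}

/-! ### Interval version -/

variable {n : ℕ}

/-- `Sep π A B`: all elements of `A` come before all elements of `B` in the order given by `π`. -/
def Before (π : Equiv.Perm (Fin n)) (A B : Finset (Fin n)) : Prop :=
  ∀ a ∈ A, ∀ b ∈ B, π a < π b

/-- Classes with at least two elements occupy disjoint intervals in the order given by `π`. -/
def IntDisj (π : Equiv.Perm (Fin n)) (P : Finpartition (univ : Finset (Fin n))) : Prop :=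
  ∀ A ∈ P.parts, ∀ B ∈ P.parts, A ≠ B → 2 ≤ A.card → 2 ≤ B.card → Before π A B ∨ Before π B A

open Classical in
/-- Partitions with `k` classes whose nontrivial classes occupy disjoint intervals in both
orders. -/
noncomputable def common (π σ : Equiv.Perm (Fin n)) (k : ℕ) :
    Finset (Finpartition (univ : Finset (Fin n))) :=
  univ.filter (fun P => P.parts.card = k ∧ IntDisj π P ∧ IntDisj σ P)

/-- A finite family `F` of pairs (left point, right point) of positions whose hulls are pairwise
disjoint both in the natural order and in the order given by `σ`. -/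
def PairOK (σ : Equiv.Perm (Fin n)) (F : Finset (Fin n × Fin n)) : Prop :=
  (∀ e ∈ F, e.1 < e.2) ∧
  ∀ e ∈ F, ∀ f ∈ F, e ≠ f → (e.2 < f.1 ∨ f.2 < e.1) ∧
    (max (σ e.1) (σ e.2) < min (σ f.1) (σ f.2) ∨ max (σ f.1) (σ f.2) < min (σ e.1) (σ e.2))

open Classical in
/-- All pair families with `s` members. -/
noncomputable def pairFam (σ : Equiv.Perm (Fin n)) (s : ℕ) : Finset (Finset (Fin n × Fin n)) :=
  univ.filter (fun F => F.card = s ∧ PairOK σ F)

end Pool.Agent.Hhelper51.Cat
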