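import Mathlib

/-! Module M9a for MP_7af81b_co: log-concave sequences and a lower bound for a binomial
coefficient. -/

set_option autoImplicit false

namespace Pool.Agent.Hhelper51.Cat

open Finset

/-- A positive log-concave sequence satisfies the three point inequality. -/
theorem logconcave_three (a : ℕ → ℝ) (n : ℕ) (hpos : ∀ k, 1 ≤ k → k ≤ n → 0 < a k)
    (hlc : ∀ k, 1 < k → k < n → a (k - 1) * a (k + 1) ≤ a k ^ 2)
    (i j l : ℕ) (hi : 1 ≤ i) (hij : i < j) (hjl : j < l) (hl : l ≤ n) :
    ((l : ℝ) - j) * Real.log (a i) + ((j : ℝ) - i) * Real.log (a l) ≤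
      ((l : ℝ) - i) * Real.log (a j) := by
  -- increments decrease
  have hstep : ∀ k, 1 ≤ k → k + 1 < n →
      Real.log (a (k + 2)) - Real.log (a (k + 1)) ≤ Real.log (a (k + 1)) - Real.log (a k) := by
    intro k hk hkn
    have h1 := hlc (k + 1) (by omega) hkn
    simp only [Nat.add_sub_cancel] at h1
    have p1 := hpos k hk (by omega)
    have p2 := hpos (k + 1) (by omega) (by omega)
    have p3 := hpos (k + 2) (by omega) (by omega)
    have h2 := Real.log_le_log (mul_pos p1 p3) h1
    rw [Real.log_mul p1.ne' p3.ne', Real.log_pow] at h2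
    push_cast at h2
    linarith
  have hmono : ∀ k m, 1 ≤ k → k + m < n →
      Real.log (a (k + m + 1)) - Real.log (a (k + m)) ≤ Real.log (a (k + 1)) - Real.log (a k) := by
    intro k m hk
    induction m with
    | zero => intro _; exact le_rfl
    | succ m ih =>
      intro hm
      have h1 := hstep (k + m) (by omega) (by omega)
      have h2 := ih (by omega)
      have e : k + (m + 1) = k + m + 1 := by ring
      rw [e]
      linarith
  set d := Real.log (a (j + 1)) - Real.log (a j) with hd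
  have hup : ∀ m, j + m ≤ n → Real.log (a (j + m)) - Real.log (a j) ≤ m * d := by
    intro m
    induction m with
    | zero => intro _; simp
    | succ m ih =>
      intro hm
      have h1 := hmono j m (by omega) (by omega)
      have h2 := ih (by omega)
      have e : j + (m + 1) = j + m + 1 := by ring
      rw [e]
      push_cast
      linarith
  have hdown : ∀ m, m < j → m * d ≤ Real.log (a j) - Real.log (a (j - m)) := by
    intro m
    induction m with
    | zero => intro _; simp
    | succ m ih =>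
      intro hm
      have h2 := ih (by omega)
      have h1 := hmono (j - (m + 1)) (m + 1) (by omega) (by omega)
      have e1 : j - (m + 1) + (m + 1) = j := by omega
      have e2 : j - (m + 1) + 1 = j - m := by omega
      rw [e1, e2] at h1
      push_cast
      linarith
  have h1 := hup (l - j) (by omega)
  have h2 := hdown (j - i) (by omega)
  have e1 : j + (l - j) = l := by omega
  have e2 : j - (j - i) = i := by omega
  rw [e1, Nat.cast_sub hjl.le] at h1
  rw [e2, Nat.cast_sub hij.le] at h2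
  have hp1 : (0 : ℝ) ≤ (l : ℝ) - j := by
    have : (j : ℝ) ≤ l := by exact_mod_cast hjl.le
    linarith
  have hp2 : (0 : ℝ) ≤ (j : ℝ) - i := by
    have : (i : ℝ) ≤ j := by exact_mod_cast hij.le
    linarith
  have h3 := mul_le_mul_of_nonneg_left h1 hp2
  have h4 := mul_le_mul_of_nonneg_left h2 hp1
  nlinarith

private theorem log_factorial_le (k : ℕ) (hk : 1 ≤ k) :
    Real.log (k.factorial : ℝ) ≤ k * Real.log k - k + 1 + Real.log k := by
  induction k, hk using Nat.le_induction with
  | base => simp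
  | succ k hk ih =>
    have hk0 : (0 : ℝ) < k := by exact_mod_cast hk
    have hk1 : (0 : ℝ) < (k : ℝ) + 1 := by positivity
    rw [Nat.factorial_succ]
    push_cast
    rw [Real.log_mul hk1.ne' (by exact_mod_cast (Nat.factorial_pos k).ne')]
    have h1 : 1 ≤ ((k : ℝ) + 1) * (Real.log ((k : ℝ) + 1) - Real.log k) := by
      have h2 := Real.log_le_sub_one_of_pos (show 0 < (k : ℝ) / (k + 1) by positivity)
      rw [Real.log_div hk0.ne' hk1.ne'] at h2
      have h3 : (k : ℝ) / (k + 1) - 1 = -(1 / (k + 1)) := by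
        field_simp
        ring
      rw [h3] at h2
      have h4 : 1 / ((k : ℝ) + 1) ≤ Real.log ((k : ℝ) + 1) - Real.log k := by linarith
      rw [div_le_iff₀ hk1] at h4
      linarith
    nlinarith

/-- one-class partitions: lower bound for the binomial coefficient -/
theorem choose_lower (y ε : ℝ) (hy0 : 0 < y) (hy1 : y ≤ 1) (hε : 0 < ε) :
    ∃ N0 : ℕ, ∀ N : ℕ, N0 ≤ N → ∀ r : ℕ, (r : ℝ) = y * N →
      Real.exp (r * Real.log N + N * (y - y * Real.log y - ε)) ≤ ((N ^ 2).choose (r + 1) : ℝ) := by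
  refine ⟨⌈9 / ε⌉₊ + 3, fun N hN r hr => ?_⟩
  have hN3 : 3 ≤ N := by omega
  have hN3' : (3 : ℝ) ≤ N := by exact_mod_cast hN3
  have hN9 : 9 / ε ≤ N := by
    have h1 : 9 / ε ≤ (⌈9 / ε⌉₊ : ℝ) := Nat.le_ceil _
    have h2 : ((⌈9 / ε⌉₊ + 3 : ℕ) : ℝ) ≤ N := by exact_mod_cast hN
    push_cast at h2
    linarith
  have hNε : 9 ≤ ε * N := by
    rw [div_le_iff₀ hε] at hN9
    linarith
  have hN0 : (0 : ℝ) < N := by linarith
  have hr0 : (0 : ℝ) < r := by rw [hr]; positivity
  have hr1 : 1 ≤ r := by exact_mod_cast (by exact_mod_cast hr0 : 0 < r)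
  have hr1' : (1 : ℝ) ≤ r := by exact_mod_cast hr1
  have hrN' : (r : ℝ) ≤ N := by rw [hr]; nlinarith
  have hrN : r ≤ N := by exact_mod_cast hrN'
  have hN2 : 3 * N ≤ N ^ 2 := by nlinarith
  have hrle : r + 1 ≤ N ^ 2 := by omega
  -- the binomial coefficient
  have h1 : (((N ^ 2 : ℕ) : ℝ) - r) ^ (r + 1) ≤
      ((N ^ 2).choose (r + 1) : ℝ) * ((r + 1).factorial : ℝ) := by
    have h2 := Nat.pow_sub_le_descFactorial (N ^ 2) (r + 1)
    rw [Nat.descFactorial_eq_factorial_mul_choose] at h2
    have h3 : N ^ 2 + 1 - (r + 1) = N ^ 2 - r := by omega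
    rw [h3] at h2
    have h4 : (((N ^ 2 - r) ^ (r + 1) : ℕ) : ℝ) ≤
        (((r + 1).factorial * (N ^ 2).choose (r + 1) : ℕ) : ℝ) := by exact_mod_cast h2
    push_cast [Nat.cast_sub (show r ≤ N ^ 2 by omega)] at h4
    push_cast
    linarith
  have hC : 0 < ((N ^ 2).choose (r + 1) : ℝ) := by
    exact_mod_cast Nat.choose_pos hrle
  have hF : 0 < ((r + 1).factorial : ℝ) := by
    exact_mod_cast Nat.factorial_pos _
  have hsub : (N : ℝ) ^ 2 * (1 - 1 / N) ≤ ((N ^ 2 : ℕ) : ℝ) - r := by
    push_cast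
    have : (N : ℝ) ^ 2 * (1 - 1 / N) = (N : ℝ) ^ 2 - N := by
      field_simp
    rw [this]
    linarith
  have hfac : 0 < 1 - 1 / (N : ℝ) := by
    rw [sub_pos, div_lt_one hN0]
    linarith
  have hlogN : 0 ≤ Real.log (N : ℝ) := Real.log_nonneg (by linarith)
  have hlog1 : 2 * Real.log N - 2 / N ≤ Real.log (((N ^ 2 : ℕ) : ℝ) - r) := by
    have h2 := Real.log_le_log (by positivity) hsub
    rw [Real.log_mul (by positivity) hfac.ne', Real.log_pow] at h2
    have h3 : -(2 / (N : ℝ)) ≤ Real.log (1 - 1 / N) := by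
      have h4 := Real.one_sub_inv_le_log_of_pos hfac
      refine le_trans ?_ h4
      have h5 : 1 - (1 - 1 / (N : ℝ))⁻¹ = -(1 / (N - 1)) := by
        have : (N : ℝ) - 1 ≠ 0 := by
          have : (0 : ℝ) < (N : ℝ) - 1 := by linarith
          exact this.ne'
        field_simp
        ring
      rw [h5]
      apply neg_le_neg
      rw [div_le_div_iff₀ (by linarith) hN0]
      linarith
    push_cast at h2 ⊢
    linarith
  have hlog2 : ((r : ℝ) + 1) * Real.log (((N ^ 2 : ℕ) : ℝ) - r) ≤
      Real.log ((N ^ 2).choose (r + 1) : ℝ) + Real.log ((r + 1).factorial : ℝ) := by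
    have hpos : 0 < ((N ^ 2 : ℕ) : ℝ) - r := lt_of_lt_of_le (by positivity) hsub
    have h2 := Real.log_le_log (by positivity) h1
    rw [Real.log_pow, Real.log_mul hC.ne' hF.ne'] at h2
    push_cast at h2 ⊢
    linarith
  have hlog3 := log_factorial_le (r + 1) (by omega)
  push_cast at hlog3
  have hlog4 : Real.log ((r : ℝ) + 1) ≤ Real.log r + 1 / r := by
    have h2 := Real.log_le_sub_one_of_pos (show 0 < ((r : ℝ) + 1) / r by positivity)
    rw [Real.log_div (by positivity) hr0.ne'] at h2
    have h3 : ((r : ℝ) + 1) / r - 1 = 1 / r := by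
      field_simp
      ring
    rw [h3] at h2
    linarith
  have hlog5 : Real.log (r : ℝ) = Real.log y + Real.log N := by
    rw [hr, Real.log_mul hy0.ne' hN0.ne']
  have hlogy : Real.log y ≤ 0 := Real.log_nonpos hy0.le hy1
  -- combine
  have hA : ((r : ℝ) + 1) * (2 / N) ≤ 4 := by
    rw [mul_div_assoc', div_le_iff₀ hN0]
    linarith
  have hB : ((r : ℝ) + 2) * (1 / r) ≤ 3 := by
    rw [mul_one_div, div_le_iff₀ hr0]
    linarith
  have h10 : ((r : ℝ) + 1) * (2 * Real.log N - 2 / N) ≤
      ((r : ℝ) + 1) * Real.log (((N ^ 2 : ℕ) : ℝ) - r) :=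
    mul_le_mul_of_nonneg_left hlog1 (by positivity)
  have h11 : ((r : ℝ) + 2) * Real.log ((r : ℝ) + 1) ≤ (r + 2) * (Real.log r + 1 / r) :=
    mul_le_mul_of_nonneg_left hlog4 (by positivity)
  have hfin : r * Real.log N + N * (y - y * Real.log y - ε) ≤
      Real.log ((N ^ 2).choose (r + 1) : ℝ) := by
    have e1 : (N : ℝ) * (y - y * Real.log y - ε) = r - r * Real.log y - ε * N := by
      rw [hr]; ring
    rw [e1]
    rw [hlog5] at h11
    nlinarith
  calc Real.exp (r * Real.log N + N * (y - y * Real.log y - ε))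
      ≤ Real.exp (Real.log ((N ^ 2).choose (r + 1) : ℝ)) := Real.exp_le_exp.2 hfin
    _ = ((N ^ 2).choose (r + 1) : ℝ) := Real.exp_log hC

end Pool.Agent.Hhelper51.Cat
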